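import Mathlib

/-!
Quadratic forms (circular discs) for the type-B continued fraction counterexample:
the transition inequalities.
-/

set_option autoImplicit false

namespace Pool.Agent.Helper625.CB

open Complex

/-- hermitian form with coefficients `α, β₁ - i β₂, γ` -/
def hf (α b1 b2 γ : ℝ) (p q : ℂ) : ℝ :=
  α * (p.re ^ 2 + p.im ^ 2) + 2 * (b1 * (p.re * q.re + p.im * q.im) + b2 * (p.re * q.im - p.im * q.re))
    + γ * (q.re ^ 2 + q.im ^ 2)

/-- squared norm of a pair -/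
def nn (p q : ℂ) : ℝ := p.re ^ 2 + p.im ^ 2 + (q.re ^ 2 + q.im ^ 2)

lemma nn_nonneg (p q : ℂ) : 0 ≤ nn p q := by unfold nn; positivity

lemma hf_nonneg {α b1 b2 γ : ℝ} (hα : 0 < α) (hd : 0 ≤ α * γ - b1 ^ 2 - b2 ^ 2) (p q : ℂ) :
    0 ≤ hf α b1 b2 γ p q := by
  unfold hf
  set x1 := p.re; set x2 := p.im; set y1 := q.re; set y2 := q.im
  have h : α * (α * (x1 ^ 2 + x2 ^ 2) + 2 * (b1 * (x1 * y1 + x2 * y2) + b2 * (x1 * y2 - x2 * y1))
    + γ * (y1 ^ 2 + y2 ^ 2)) = (α * x1 + b1 * y1 + b2 * y2) ^ 2 + (α * x2 + b1 * y2 - b2 * y1) ^ 2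
      + (α * γ - b1 ^ 2 - b2 ^ 2) * (y1 ^ 2 + y2 ^ 2) := by ring
  have h2 : 0 ≤ α * (α * (x1 ^ 2 + x2 ^ 2) + 2 * (b1 * (x1 * y1 + x2 * y2) + b2 * (x1 * y2 - x2 * y1))
    + γ * (y1 ^ 2 + y2 ^ 2)) := by rw [h]; positivity
  exact nonneg_of_mul_nonneg_right h2 hα

/-- pull back along `(p, q) ↦ (q, p + e q)` -/
lemma hf_pull (α b1 b2 γ : ℝ) (e p q : ℂ) :
    hf α b1 b2 γ q (p + e * q) =
      hf γ (b1 + γ * e.re) (-(b2 + γ * e.im)) (α + 2 * (b1 * e.re + b2 * e.im) + γ * (e.re ^ 2 + e.im ^ 2)) p q := by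
  simp only [hf, add_re, add_im, mul_re, mul_im]
  ring

lemma hf_sub (α b1 b2 γ α' b1' b2' γ' : ℝ) (p q : ℂ) :
    hf α b1 b2 γ p q - hf α' b1' b2' γ' p q = hf (α - α') (b1 - b1') (b2 - b2') (γ - γ') p q := by
  simp only [hf]; ring

lemma nn_eq (p q : ℂ) (c : ℝ) : c * nn p q = hf c 0 0 c p q := by
  simp only [hf, nn]; ring

/-- the fixed letters -/
noncomputable def la : ℂ := ⟨1, 1 / 3⟩
noncomputable def lb : ℂ := ⟨-1 / 2, 3 / 2⟩

def cα : Fin 13 → ℝ := ![300, 0, 594, 860, 1856, 1460, 405, 465, 951, 372, 531, 696, 1134]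
def c1 : Fin 13 → ℝ := ![150, 150, 744, 314, -614, -1344, -159, 858, 1194, -462, -423, -114, 231]
def c2 : Fin 13 → ℝ := ![150, -150, -48, -1242, -1542, -648, -561, -93, 366, -345, -414, -1065, -1977]
def cγ : Fin 13 → ℝ := ![0, 597, 860, 1856, 1460, 1494, 708, 1509, 1590, 756, 558, 1530, 3444]

/-- the forms -/
def H (j : Fin 13) (p q : ℂ) : ℝ := hf (cα j) (c1 j) (c2 j) (cγ j) p q

/-- the transition maps for the letters `la + t` and `lb` -/
def sA : Fin 13 → Fin 13 := ![1, 2, 7, 8, 0, 0, 0, 7, 1, 0, 0, 0, 0]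
def sB : Fin 13 → Fin 13 := ![1, 6, 3, 4, 5, 9, 10, 11, 12, 9, 9, 10, 6]

/-- the parabolic (non-strict) transitions -/
def kA : Fin 13 → Bool := ![true, true, false, false, false, true, false, false, false, false, false, false, false]
def kB : Fin 13 → Bool := ![true, false, true, true, true, false, false, false, false, false, false, false, false]

lemma stepB0 (j : Fin 13) (hj : kB j = false) (p q : ℂ) :
    H (sB j) p q + 1 * nn p q ≤ H j q (p + lb * q) := by
  rw [← sub_nonneg]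
  have e : H j q (p + lb * q) - (H (sB j) p q + 1 * nn p q) =
      (H j q (p + lb * q) - H (sB j) p q) - 1 * nn p q := by ring
  rw [e, nn_eq]
  unfold H
  rw [hf_pull, hf_sub, hf_sub]
  revert hj
  fin_cases j <;> simp [cα, c1, c2, cγ, sB, lb, kB] <;> apply hf_nonneg <;> norm_num

lemma eqB (j : Fin 13) (h : j = 2 ∨ j = 3 ∨ j = 4) (p q : ℂ) :
    H j q (p + lb * q) = H (sB j) p q := by
  rw [← sub_eq_zero]
  unfold H
  rw [hf_pull, hf_sub]
  rcases h with rfl | rfl | rfl <;> simp [cα, c1, c2, cγ, sB, lb] <;> norm_num [hf]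

lemma stepB (j : Fin 13) (p q : ℂ) :
    H (sB j) p q + (if kB j then 0 else nn p q) ≤ H j q (p + lb * q) := by
  by_cases hj : kB j = true
  · rw [if_pos hj, add_zero]
    have h1 : j = 0 ∨ j = 2 ∨ j = 3 ∨ j = 4 := by revert hj; fin_cases j <;> simp [kB]
    rcases h1 with rfl | h1
    · have e : H 0 q (p + lb * q) - H (sB 0) p q = 3 * (q.re ^ 2 + q.im ^ 2) := by
        unfold H
        rw [hf_pull]
        simp only [hf, cα, c1, c2, cγ, lb, sB]
        simp
        ring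
      have : 0 ≤ 3 * (q.re ^ 2 + q.im ^ 2) := by positivity
      linarith
    · exact (eqB j h1 p q).ge
  · rw [if_neg hj]
    have := stepB0 j (by simpa using hj) p q
    rwa [one_mul] at this

lemma nn_re (p q : ℂ) : -nn p q ≤ 2 * (p.re * q.re + p.im * q.im) := by
  unfold nn; nlinarith [sq_nonneg (p.re + q.re), sq_nonneg (p.im + q.im)]

lemma hf_pert {α b1 b2 γ t : ℝ} (hγ : 0 ≤ γ) (ht : 0 ≤ t) (p q : ℂ) :
    hf α b1 b2 γ q (p + la * q) - (γ + 2 * |b1|) * t * nn p q ≤ hf α b1 b2 γ q (p + (la + t) * q) := by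
  rw [hf_pull, hf_pull]
  simp only [add_re, add_im, ofReal_re, ofReal_im, add_zero]
  have e : hf γ (b1 + γ * (la.re + t)) (-(b2 + γ * la.im))
      (α + 2 * (b1 * (la.re + t) + b2 * la.im) + γ * ((la.re + t) ^ 2 + la.im ^ 2)) p q =
      hf γ (b1 + γ * la.re) (-(b2 + γ * la.im))
      (α + 2 * (b1 * la.re + b2 * la.im) + γ * (la.re ^ 2 + la.im ^ 2)) p q +
      (γ * t * (2 * (p.re * q.re + p.im * q.im)) +
        (2 * b1 * t + γ * (2 * la.re * t + t ^ 2)) * (q.re ^ 2 + q.im ^ 2)) := by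
    simp only [hf]; ring
  rw [e]
  have h1 : γ * t * (-nn p q) ≤ γ * t * (2 * (p.re * q.re + p.im * q.im)) :=
    mul_le_mul_of_nonneg_left (nn_re p q) (by positivity)
  have h2 : -(2 * |b1| * t * nn p q) ≤ (2 * b1 * t + γ * (2 * la.re * t + t ^ 2)) * (q.re ^ 2 + q.im ^ 2) := by
    have h3 : -(2 * |b1| * t) ≤ 2 * b1 * t + γ * (2 * la.re * t + t ^ 2) := by
      have h4 : -|b1| ≤ b1 := neg_abs_le b1
      have h5 : 0 ≤ γ * (2 * la.re * t + t ^ 2) := by
        have : (la.re : ℝ) = 1 := rfl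
        rw [this]; positivity
      nlinarith
    have h6 : q.re ^ 2 + q.im ^ 2 ≤ nn p q := by unfold nn; nlinarith [sq_nonneg p.re, sq_nonneg p.im]
    have h7 : 0 ≤ q.re ^ 2 + q.im ^ 2 := by positivity
    have h8 : 0 ≤ 2 * |b1| * t := by positivity
    calc -(2 * |b1| * t * nn p q) = -(2 * |b1| * t) * nn p q := by ring
      _ ≤ -(2 * |b1| * t) * (q.re ^ 2 + q.im ^ 2) := by nlinarith
      _ ≤ _ := mul_le_mul_of_nonneg_right h3 h7
  linarith

/-- the exact gain at the last parabolic step -/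
lemma gain5 {t : ℝ} (ht : 0 ≤ t) (ht1 : t ≤ 1 / 4000) (p q : ℂ) :
    H 0 p q + 500 * (p.re ^ 2 + p.im ^ 2) + 200 * t * (q.re ^ 2 + q.im ^ 2) ≤ H 5 q (p + (la + t) * q) := by
  have e : H 5 q (p + (la + t) * q) - (H 0 p q + 500 * (p.re ^ 2 + p.im ^ 2) + 200 * t * (q.re ^ 2 + q.im ^ 2))
      = hf 694 (1494 * t) 0 (100 * t + 1494 * t ^ 2) p q := by
    unfold H
    rw [hf_pull]
    simp only [hf, cα, c1, c2, cγ, la, add_re, add_im, ofReal_re, ofReal_im, add_zero]
    simp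
    ring
  have h : 0 ≤ hf 694 (1494 * t) 0 (100 * t + 1494 * t ^ 2) p q := by
    apply hf_nonneg (by norm_num)
    nlinarith
  linarith

lemma gain1 {t : ℝ} (ht : 0 ≤ t) (ht1 : t ≤ 1 / 4000) (p q : ℂ) :
    H 2 p q + 200 * t * (q.re ^ 2 + q.im ^ 2) ≤ H 1 q (p + (la + t) * q) := by
  have e : H 1 q (p + (la + t) * q) - (H 2 p q + 200 * t * (q.re ^ 2 + q.im ^ 2))
      = hf 3 (3 + 597 * t) (-1) (10 / 3 + 1294 * t + 597 * t ^ 2) p q := by
    unfold H
    rw [hf_pull]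
    simp only [hf, cα, c1, c2, cγ, la, add_re, add_im, ofReal_re, ofReal_im, add_zero]
    simp
    ring
  have h : 0 ≤ hf 3 (3 + 597 * t) (-1) (10 / 3 + 1294 * t + 597 * t ^ 2) p q := by
    apply hf_nonneg (by norm_num)
    nlinarith
  linarith

lemma stepA0 (j : Fin 13) (hj : kA j = false) (p q : ℂ) :
    H (sA j) p q + 2 * nn p q ≤ H j q (p + la * q) := by
  rw [← sub_nonneg]
  have e : H j q (p + la * q) - (H (sA j) p q + 2 * nn p q) =
      (H j q (p + la * q) - H (sA j) p q) - 2 * nn p q := by ring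
  rw [e, nn_eq]
  unfold H
  rw [hf_pull, hf_sub, hf_sub]
  revert hj
  fin_cases j <;> simp [cα, c1, c2, cγ, sA, la, kA] <;> apply hf_nonneg <;> norm_num

lemma stepA (j : Fin 13) {t : ℝ} (ht : 0 ≤ t) (ht1 : t ≤ 1 / 5000) (p q : ℂ) :
    H (sA j) p q + (if kA j then 0 else nn p q) ≤ H j q (p + (la + t) * q) := by
  by_cases hj : kA j = true
  · rw [if_pos hj, add_zero]
    have hp : 0 ≤ p.re ^ 2 + p.im ^ 2 := by positivity
    have hq : 0 ≤ t * (q.re ^ 2 + q.im ^ 2) := by positivity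
    have h1 : j = 0 ∨ j = 1 ∨ j = 5 := by revert hj; fin_cases j <;> simp [kA]
    rcases h1 with rfl | rfl | rfl
    · have e : H 0 q (p + (la + t) * q) - H (sA 0) p q = (103 + 300 * t) * (q.re ^ 2 + q.im ^ 2) := by
        unfold H
        rw [hf_pull]
        simp only [hf, cα, c1, c2, cγ, la, sA, add_re, add_im, ofReal_re, ofReal_im, add_zero]
        simp
        ring
      have : 0 ≤ (103 + 300 * t) * (q.re ^ 2 + q.im ^ 2) := by positivity
      linarith
    · have := gain1 ht (by linarith) p q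
      have e : H (sA 1) p q = H 2 p q := rfl
      rw [e]; linarith
    · have := gain5 ht (by linarith) p q
      have e : H (sA 5) p q = H 0 p q := rfl
      rw [e]; linarith
  · rw [if_neg hj]
    have hj' : kA j = false := by simpa using hj
    have h1 := stepA0 j hj' p q
    have hγ : 0 ≤ cγ j := by fin_cases j <;> simp [cγ]
    have h2 := hf_pert (α := cα j) (b1 := c1 j) (b2 := c2 j) hγ ht p q
    have h3 : (cγ j + 2 * |c1 j|) * t ≤ 1 := by
      have h4 : cγ j + 2 * |c1 j| ≤ 5000 := by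
        fin_cases j <;> simp [cγ, c1] <;> norm_num [abs_of_neg, abs_of_pos]
      have h5 : 0 ≤ cγ j + 2 * |c1 j| := by positivity
      nlinarith
    have h6 := mul_le_mul_of_nonneg_right h3 (nn_nonneg p q)
    unfold H at h1 ⊢
    linarith

end Pool.Agent.Helper625.CB
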