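import Mathlib

/-!
An abstract growth lemma for the parabolic blocks.
-/

set_option autoImplicit false

namespace Pool.Agent.Helper625.CB

lemma growth (x y τ S : ℕ → ℝ) (hx : ∀ k, 0 ≤ x k) (hy : ∀ k, 0 ≤ y k) (hτ : ∀ k, 0 ≤ τ k)
    (hτ1 : ∀ k, τ k ≤ 1) (hS0 : 0 < S 0)
    (hS : ∀ k, S k + 98 * (x k ^ 2 + τ k * y k ^ 2) ≤ S (k + 1))
    (hSu : ∀ k, S k ≤ 300 * x k ^ 2 + 425 * (x k * y k))
    (hyy : ∀ k, y (k + 1) ≤ y k + 5 * x k + 5 * (τ k * y k)) (C : ℝ) : ∃ k, C < S k := by
  by_contra hcon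
  push Not at hcon
  have hmono : Monotone S := by
    apply monotone_nat_of_le_succ
    intro k
    have := hS k
    have h1 : 0 ≤ x k ^ 2 + τ k * y k ^ 2 := by
      have := hτ k
      positivity
    linarith
  have hSpos : ∀ k, S 0 ≤ S k := fun k => hmono (Nat.zero_le k)
  have hC : 0 < C := lt_of_lt_of_le hS0 (hcon 0)
  have hx2 : ∀ k, x k ^ 2 ≤ C := by
    intro k
    have h1 := hS k
    have h2 := hcon (k + 1)
    have h3 := hSpos k
    have h4 : 0 ≤ τ k * y k ^ 2 := by have := hτ k; positivity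
    nlinarith [sq_nonneg (x k)]
  have hx3 : ∀ k, x k ≤ C + 1 := by
    intro k
    have := hx2 k
    nlinarith [sq_nonneg (x k - 1)]
  set K : ℝ := 300 * (C + 1) + 425 with hK
  have hK0 : 0 < K := by rw [hK]; positivity
  set c : ℝ := S 0 / K with hc
  have hc0 : 0 < c := div_pos hS0 hK0
  have hlow : ∀ k, c ≤ x k * (1 + y k) := by
    intro k
    rw [hc, div_le_iff₀ hK0]
    have h1 := hSu k
    have h2 := hSpos k
    have h3 : 300 * x k ^ 2 ≤ 300 * (C + 1) * (x k * (1 + y k)) := by
      have h5 := hx3 k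
      have h6 := hx k
      have h7 := hy k
      have h8 : x k ^ 2 ≤ (C + 1) * x k := by nlinarith
      have h9 : (C + 1) * x k ≤ (C + 1) * (x k * (1 + y k)) := by
        apply mul_le_mul_of_nonneg_left _ (by linarith)
        nlinarith [mul_nonneg h6 h7]
      linarith
    have h4 : 425 * (x k * y k) ≤ 425 * (x k * (1 + y k)) := by
      have := hx k
      nlinarith
    rw [hK]
    nlinarith
  set D : ℝ := 5 / (98 * c) + 5 / 98 + 20 / (98 * c ^ 2) with hD
  have hD0 : 0 ≤ D := by rw [hD]; positivity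
  have hU : ∀ k, 1 + y (k + 1) ≤ (1 + y k) * (1 + D * (S (k + 1) - S k)) := by
    intro k
    have hΔ : 98 * (x k ^ 2 + τ k * y k ^ 2) ≤ S (k + 1) - S k := by have := hS k; linarith
    set Δ := S (k + 1) - S k with hΔd
    have hx' := hx k; have hy' := hy k; have hτ' := hτ k; have hτ1' := hτ1 k; have hl := hlow k
    have hτy : 0 ≤ τ k * y k ^ 2 := by positivity
    have hΔ0 : 0 ≤ Δ := by nlinarith [sq_nonneg (x k)]
    have hU1 : 1 ≤ 1 + y k := by linarith
    -- first term
    have h1 : 5 * x k ≤ (1 + y k) * (5 / (98 * c) * Δ) := by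
      have h2 : c * x k ≤ x k ^ 2 * (1 + y k) := by nlinarith
      have h3 : x k ^ 2 * (1 + y k) ≤ Δ / 98 * (1 + y k) := by
        apply mul_le_mul_of_nonneg_right _ (by linarith)
        nlinarith
      have h4 : x k ≤ Δ / 98 * (1 + y k) / c := by
        rw [le_div_iff₀ hc0]; linarith
      have h5 : (1 + y k) * (5 / (98 * c) * Δ) = 5 * (Δ / 98 * (1 + y k) / c) := by
        field_simp
      rw [h5]; linarith
    have h2 : 5 * (τ k * y k) ≤ (1 + y k) * ((5 / 98 + 20 / (98 * c ^ 2)) * Δ) := by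
      have h20 : 5 * (τ k * y k) ≤ (5 / 98 + 20 / (98 * c ^ 2)) * Δ := by
        rcases le_or_gt 1 (y k) with h3 | h3
        · have h4 : τ k * y k ≤ τ k * y k ^ 2 := by
            apply mul_le_mul_of_nonneg_left _ hτ'
            nlinarith
          have h5 : 0 ≤ 20 / (98 * c ^ 2) * Δ := by positivity
          nlinarith [sq_nonneg (x k)]
        · have h4 : c / 2 ≤ x k := by nlinarith
          have h5 : c ^ 2 / 4 ≤ x k ^ 2 := by nlinarith
          have h6 : 98 * (c ^ 2 / 4) ≤ Δ := by nlinarith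
          have h7 : 5 * (τ k * y k) ≤ 5 := by nlinarith
          have h8 : (5 : ℝ) ≤ 20 / (98 * c ^ 2) * Δ := by
            rw [div_mul_eq_mul_div, le_div_iff₀ (by positivity)]
            nlinarith
          have h9 : 0 ≤ 5 / 98 * Δ := by positivity
          nlinarith
      have h21 : 0 ≤ (5 / 98 + 20 / (98 * c ^ 2)) * Δ := by positivity
      nlinarith
    have h3 : (1 + y k) * (1 + D * Δ) = (1 + y k) + (1 + y k) * (5 / (98 * c) * Δ)
        + (1 + y k) * ((5 / 98 + 20 / (98 * c ^ 2)) * Δ) := by rw [hD]; ring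
    rw [h3]
    have := hyy k
    linarith
  have hUk : ∀ k, 1 + y k ≤ (1 + y 0) * Real.exp (D * (S k - S 0)) := by
    intro k
    induction k with
    | zero => simp
    | succ k ih =>
      have h1 : 1 + D * (S (k + 1) - S k) ≤ Real.exp (D * (S (k + 1) - S k)) := by
        have := Real.add_one_le_exp (D * (S (k + 1) - S k)); linarith
      have h0 : 0 ≤ S (k + 1) - S k := by have := hmono (Nat.le_succ k); simp at this; linarith
      calc 1 + y (k + 1) ≤ (1 + y k) * (1 + D * (S (k + 1) - S k)) := hU k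
        _ ≤ ((1 + y 0) * Real.exp (D * (S k - S 0))) * Real.exp (D * (S (k + 1) - S k)) := by
            apply mul_le_mul ih h1 (by positivity)
            have := hy 0
            positivity
        _ = (1 + y 0) * Real.exp (D * (S (k + 1) - S 0)) := by
            rw [mul_assoc, ← Real.exp_add]; congr 2; ring
  set M : ℝ := (1 + y 0) * Real.exp (D * C) with hM
  have hM0 : 0 < M := by have := hy 0; positivity
  have hUM : ∀ k, 1 + y k ≤ M := by
    intro k
    refine (hUk k).trans ?_
    have := hy 0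
    apply mul_le_mul_of_nonneg_left _ (by linarith)
    apply Real.exp_le_exp.mpr
    apply mul_le_mul_of_nonneg_left _ hD0
    have := hcon k
    linarith
  have hxl : ∀ k, c / M ≤ x k := by
    intro k
    rw [div_le_iff₀ hM0]
    have h1 := hlow k
    have h2 := mul_le_mul_of_nonneg_left (hUM k) (hx k)
    linarith
  have hSl : ∀ k : ℕ, S 0 + k * (98 * (c / M) ^ 2) ≤ S k := by
    intro k
    induction k with
    | zero => simp
    | succ k ih =>
      have h1 := hS k
      have h2 : (c / M) ^ 2 ≤ x k ^ 2 := by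
        have : 0 ≤ c / M := by positivity
        exact pow_le_pow_left₀ this (hxl k) 2
      have h3 : 0 ≤ τ k * y k ^ 2 := by have := hτ k; positivity
      push_cast
      nlinarith
  have hpos : 0 < 98 * (c / M) ^ 2 := by positivity
  obtain ⟨k, hk⟩ := exists_nat_gt (C / (98 * (c / M) ^ 2))
  rw [div_lt_iff₀ hpos] at hk
  have h1 := hSl k
  have h2 := hcon k
  linarith

end Pool.Agent.Helper625.CB
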