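import Mathlib
import Pool.Agent.Helper625.CB1
import Pool.Agent.Helper625.CB2

/-!
The denominators of a continued fraction with letters in `E1`: all forms tend to infinity.
-/

set_option autoImplicit false

namespace Pool.Agent.Helper625.CB

open Complex

/-- the letter set -/
def E1 : Set ℂ := {z | z = lb ∨ ∃ t : ℝ, 0 < t ∧ t ≤ 1 / 5000 ∧ z = la + t}

lemma lb_ne {t : ℝ} (ht : 0 < t) : la + t ≠ lb := by
  intro h
  have := congrArg Complex.re h
  simp [la, lb] at this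
  linarith

/-- consecutive denominators -/
noncomputable def vv (e : ℕ → ℂ) : ℕ → ℂ × ℂ
  | 0 => (0, 1)
  | n + 1 => ((vv e n).2, (vv e n).1 + e n * (vv e n).2)

/-- value of the form `j` at time `n` -/
noncomputable def hh (e : ℕ → ℂ) (n : ℕ) (j : Fin 13) : ℝ := H j (vv e n).1 (vv e n).2

open Classical in
noncomputable def sg (e : ℕ → ℂ) (n : ℕ) (j : Fin 13) : Fin 13 := if e n = lb then sB j else sA j

open Classical in
noncomputable def kk (e : ℕ → ℂ) (n : ℕ) (j : Fin 13) : Bool := if e n = lb then kB j else kA j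

lemma H_le (j : Fin 13) (p q : ℂ) : H j p q ≤ 10000 * nn p q := by
  rw [← sub_nonneg, nn_eq]
  unfold H
  rw [hf_sub]
  fin_cases j <;> simp [cα, c1, c2, cγ] <;> apply hf_nonneg <;> norm_num

variable {e : ℕ → ℂ} (he : ∀ n, e n ∈ E1)

include he

lemma step_all (n : ℕ) (j : Fin 13) (p q : ℂ) :
    H (sg e n j) p q + (if kk e n j then 0 else nn p q) ≤ H j q (p + e n * q) := by
  rcases he n with h | ⟨t, ht, ht1, h⟩
  · simp only [sg, kk, if_pos h]
    rw [h]
    exact stepB j p q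
  · have h0 : e n ≠ lb := by rw [h]; exact lb_ne ht
    simp only [sg, kk, if_neg h0]
    rw [h]
    exact stepA j ht.le ht1 p q

lemma step_hh (n : ℕ) (j : Fin 13) :
    hh e n (sg e n j) + (if kk e n j then 0 else nn (vv e n).1 (vv e n).2) ≤ hh e (n + 1) j := by
  exact step_all he n j _ _

lemma step_le (n : ℕ) (j : Fin 13) : hh e n (sg e n j) ≤ hh e (n + 1) j := by
  have h := step_hh he n j
  have h2 : 0 ≤ (if kk e n j then 0 else nn (vv e n).1 (vv e n).2) := by
    split_ifs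
    · exact le_rfl
    · exact nn_nonneg _ _
  linarith

omit he in
/-- lower bound at time `n` -/
def LB (e : ℕ → ℂ) (n : ℕ) (μ : ℝ) : Prop := ∀ j, μ ≤ hh e n j

lemma LB_add {T : ℕ} {μ : ℝ} (h : LB e T μ) (m : ℕ) : LB e (T + m) μ := by
  induction m with
  | zero => exact h
  | succ m ih =>
    intro j
    exact (ih _).trans (step_le he (T + m) j)

lemma LB_mono {T N : ℕ} (hTN : T ≤ N) {μ : ℝ} (h : LB e T μ) : LB e N μ := by
  obtain ⟨m, rfl⟩ := Nat.exists_eq_add_of_le hTN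
  exact LB_add he h m

omit he in
/-- the chain from `(T + m, j)` down to `T` consists of parabolic steps only -/
def allc (e : ℕ → ℂ) (T : ℕ) : ℕ → Fin 13 → Prop
  | 0, _ => True
  | m + 1, j => kk e (T + m) j = true ∧ allc e T m (sg e (T + m) j)

lemma dich {T : ℕ} {μ : ℝ} (h : LB e T μ) (m : ℕ) (j : Fin 13)
    (hj : ¬ allc e T m j) : (1 + 1 / 10000) * μ ≤ hh e (T + m) j := by
  induction m generalizing j with
  | zero => exact absurd trivial hj
  | succ m ih =>
    have h1 := step_hh he (T + m) j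
    by_cases hk : kk e (T + m) j = true
    · have h2 : ¬ allc e T m (sg e (T + m) j) := fun h3 => hj ⟨hk, h3⟩
      have h3 := ih _ h2
      rw [if_pos hk] at h1
      have : T + (m + 1) = T + m + 1 := by ring
      rw [this]
      linarith
    · rw [if_neg hk] at h1
      have h2 := H_le (sg e (T + m) j) (vv e (T + m)).1 (vv e (T + m)).2
      have h3 := LB_add he h m (sg e (T + m) j)
      have : T + (m + 1) = T + m + 1 := by ring
      rw [this]
      unfold hh at h1 h3 ⊢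
      linarith

omit he in
/-- parabolic states -/
def cst (x : ZMod 6) : Fin 13 := ⟨x.val, by have := x.val_lt; omega⟩

omit he in
lemma cst_inj {x y : ZMod 6} (h : cst x = cst y) : x = y := by
  have h2 : (cst x).val = (cst y).val := congrArg Fin.val h
  exact ZMod.val_injective 6 h2

omit he in
lemma kB_cst : ∀ j : Fin 13, kB j = true → ∃ x : ZMod 6, j = cst x := by decide
omit he in
lemma kA_cst : ∀ j : Fin 13, kA j = true → ∃ x : ZMod 6, j = cst x := by decide
omit he in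
lemma sB_cst : ∀ x : ZMod 6, kB (cst x) = true → sB (cst x) = cst (x + 1) := by decide
omit he in
lemma sA_cst : ∀ x : ZMod 6, kA (cst x) = true → sA (cst x) = cst (x + 1) := by decide

omit he in
lemma k_cst (n : ℕ) (j : Fin 13) (hk : kk e n j = true) : ∃ x : ZMod 6, j = cst x := by
  by_cases h : e n = lb
  · simp only [kk, if_pos h] at hk
    exact kB_cst j hk
  · simp only [kk, if_neg h] at hk
    exact kA_cst j hk

omit he in
lemma s_cst (n : ℕ) (x : ZMod 6) (hk : kk e n (cst x) = true) : sg e n (cst x) = cst (x + 1) := by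
  by_cases h : e n = lb
  · simp only [kk, if_pos h] at hk
    simp only [sg, if_pos h]
    exact sB_cst x hk
  · simp only [kk, if_neg h] at hk
    simp only [sg, if_neg h]
    exact sA_cst x hk

omit he in
/-- step `n` is parabolic for the phase `r` -/
def OKK (e : ℕ → ℂ) (n : ℕ) (r : ZMod 6) : Prop := kk e n (cst (r - (n + 1 : ℕ))) = true

omit he in
lemma allc_phase (T : ℕ) (r : ZMod 6) (m : ℕ) (j : Fin 13) (hj : j = cst (r - (T + m : ℕ)))
    (h : allc e T m j) : ∀ i < m, OKK e (T + i) r := by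
  induction m generalizing j with
  | zero => intro i hi; omega
  | succ m ih =>
    intro i hi
    obtain ⟨h1, h2⟩ := h
    have e1 : T + (m + 1) = T + m + 1 := by ring
    have h1' : OKK e (T + m) r := by
      unfold OKK
      rw [← e1, ← hj]; exact h1
    rcases Nat.lt_succ_iff_lt_or_eq.mp hi with h3 | h3
    · refine ih _ ?_ h2 i h3
      unfold OKK at h1'
      have := s_cst _ _ h1'
      rw [hj, e1, this]
      congr 1
      push_cast
      ring
    · rw [h3]; exact h1'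

omit he in
lemma allc_exists (T : ℕ) (m : ℕ) (hm : 0 < m) (j : Fin 13) (h : allc e T m j) :
    ∃ r : ZMod 6, j = cst (r - (T + m : ℕ)) ∧ ∀ i < m, OKK e (T + i) r := by
  obtain ⟨m, rfl⟩ : ∃ k, m = k + 1 := ⟨m - 1, by omega⟩
  obtain ⟨x, hx⟩ := k_cst _ _ h.1
  have e1 : j = cst ((x + (T + (m + 1) : ℕ)) - (T + (m + 1) : ℕ)) := by
    rw [hx]; congr 1; ring
  exact ⟨_, e1, allc_phase T _ _ j e1 h⟩

/-- along a parabolic phase the form value is monotone -/
lemma phase_mono {r : ZMod 6} {N : ℕ} (hN : ∀ n ≥ N, OKK e n r) {n m : ℕ} (hn : N ≤ n) (hnm : n ≤ m) :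
    hh e n (cst (r - (n : ℕ))) ≤ hh e m (cst (r - (m : ℕ))) := by
  obtain ⟨k, rfl⟩ := Nat.exists_eq_add_of_le hnm
  clear hnm
  induction k with
  | zero => exact le_rfl
  | succ k ih =>
    refine ih.trans ?_
    have h1 := hN (n + k) (by omega)
    have h2 := step_le he (n + k) (cst (r - (n + k + 1 : ℕ)))
    unfold OKK at h1
    rw [s_cst _ _ h1] at h2
    have e1 : r - ((n + k + 1 : ℕ) : ZMod 6) + 1 = r - ((n + k : ℕ) : ZMod 6) := by push_cast; ring
    rw [e1] at h2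
    exact h2

omit he in
noncomputable def cc : ℂ := ⟨9 / 4, 3 / 4⟩

omit he in
lemma block4 (p q s : ℂ) :
    (q + lb * (p + (la + s) * q)) + lb * ((p + (la + s) * q) + lb * (q + lb * (p + (la + s) * q)))
      = cc * p + (1 + cc * s) * q := by
  apply Complex.ext <;> simp [la, lb, cc] <;> ring

omit he in
lemma block5 (p q s s' : ℂ) :
    ((p + (la + s) * q) + lb * (q + lb * (p + (la + s) * q))) + (la + s') * (cc * p + (1 + cc * s) * q)
      = (1 + cc * s') * p + (s + s' + cc * s * s') * q := by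
  apply Complex.ext <;> simp [la, lb, cc] <;> ring

omit he in
lemma sqn (z : ℂ) : z.re ^ 2 + z.im ^ 2 = ‖z‖ ^ 2 := by
  rw [Complex.sq_norm, Complex.normSq_apply]; ring

omit he in
lemma norm_cc : ‖cc‖ ≤ 12 / 5 := by
  have h := sqn cc
  have h1 : cc.re = 9 / 4 := rfl
  have h2 : cc.im = 3 / 4 := rfl
  rw [h1, h2] at h
  nlinarith [norm_nonneg cc]

lemma norm_e (n : ℕ) : ‖e n‖ ≤ 8 / 5 := by
  rcases he n with h | ⟨t, ht, ht1, h⟩
  · rw [h]
    have h := sqn lb
    have h1 : lb.re = -1 / 2 := rfl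
    have h2 : lb.im = 3 / 2 := rfl
    rw [h1, h2] at h
    nlinarith [norm_nonneg lb]
  · rw [h]
    have h := sqn la
    have h1 : la.re = 1 := rfl
    have h2 : la.im = 1 / 3 := rfl
    rw [h1, h2] at h
    have h3 : ‖la‖ ≤ 11 / 10 := by nlinarith [norm_nonneg la]
    have h4 : ‖(t : ℂ)‖ = t := by rw [Complex.norm_real, Real.norm_eq_abs, abs_of_pos ht]
    have := norm_add_le la (t : ℂ)
    linarith

/-- one parabolic block -/
lemma block {n : ℕ} {t t' : ℝ} (ht : 0 < t) (ht1 : t ≤ 1 / 5000) (ht' : 0 < t') (ht1' : t' ≤ 1 / 5000)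
    (h0 : e n = la + t) (h1 : e (n + 1) = lb) (h2 : e (n + 2) = lb) (h3 : e (n + 3) = lb)
    (h4 : e (n + 4) = la + t') :
    hh e n 0 + 98 * (‖(vv e n).1‖ ^ 2 + (t + t') * ‖(vv e n).2‖ ^ 2) ≤ hh e (n + 6) 0 ∧
    ‖(vv e (n + 6)).2‖ ≤ ‖(vv e n).2‖ + 5 * ‖(vv e n).1‖ + 5 * ((t + t') * ‖(vv e n).2‖) := by
  set p := (vv e n).1 with hp
  set q := (vv e n).2 with hq
  set x1 := p + (la + t) * q with hx1
  set x2 := q + lb * x1 with hx2
  set x3 := x1 + lb * x2 with hx3
  set x4 := x2 + lb * x3 with hx4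
  set x5 := x3 + (la + t') * x4 with hx5
  have v1 : vv e (n + 1) = (q, x1) := by
    show ((vv e n).2, (vv e n).1 + e n * (vv e n).2) = _
    rw [h0]
  have v2 : vv e (n + 2) = (x1, x2) := by
    show ((vv e (n + 1)).2, (vv e (n + 1)).1 + e (n + 1) * (vv e (n + 1)).2) = _
    rw [h1, v1]
  have v3 : vv e (n + 3) = (x2, x3) := by
    show ((vv e (n + 2)).2, (vv e (n + 2)).1 + e (n + 2) * (vv e (n + 2)).2) = _
    rw [h2, v2]
  have v4 : vv e (n + 4) = (x3, x4) := by
    show ((vv e (n + 3)).2, (vv e (n + 3)).1 + e (n + 3) * (vv e (n + 3)).2) = _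
    rw [h3, v3]
  have v5 : vv e (n + 5) = (x4, x5) := by
    show ((vv e (n + 4)).2, (vv e (n + 4)).1 + e (n + 4) * (vv e (n + 4)).2) = _
    rw [h4, v4]
  have v6 : vv e (n + 6) = (x5, x4 + e (n + 5) * x5) := by
    show ((vv e (n + 5)).2, (vv e (n + 5)).1 + e (n + 5) * (vv e (n + 5)).2) = _
    rw [v5]
  have f4 : x4 = cc * p + (1 + cc * t) * q := block4 p q t
  have f5 : x5 = (1 + cc * t') * p + (t + t' + cc * t * t') * q := by
    rw [hx5, f4]; exact block5 p q t t'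
  have ncc := norm_cc
  have nt : ‖(t : ℂ)‖ = t := by rw [Complex.norm_real, Real.norm_eq_abs, abs_of_pos ht]
  have nt' : ‖(t' : ℂ)‖ = t' := by rw [Complex.norm_real, Real.norm_eq_abs, abs_of_pos ht']
  have nct : ‖cc * t‖ ≤ 12 / 5 * t := by
    rw [norm_mul, nt]; exact mul_le_mul_of_nonneg_right ncc ht.le
  have nct' : ‖cc * t'‖ ≤ 12 / 5 * t' := by
    rw [norm_mul, nt']; exact mul_le_mul_of_nonneg_right ncc ht'.le
  have np : 0 ≤ ‖p‖ := norm_nonneg p
  have nq : 0 ≤ ‖q‖ := norm_nonneg q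
  constructor
  · -- gains
    have g5 := gain5 ht.le (by linarith : t ≤ 1 / 4000) p q
    have e4 := eqB 4 (by simp) q x1
    have e3 := eqB 3 (by simp) x1 x2
    have e2 := eqB 2 (by simp) x2 x3
    have g1 := gain1 ht'.le (by linarith : t' ≤ 1 / 4000) x3 x4
    have g0 := step_le he (n + 5) 0
    have s0 : sg e (n + 5) 0 = 1 := by
      unfold sg; split_ifs <;> rfl
    rw [s0] at g0
    unfold hh at g0 ⊢
    rw [v5] at g0
    have r4 : sB 4 = 5 := rfl
    have r3 : sB 3 = 4 := rfl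
    have r2 : sB 2 = 3 := rfl
    rw [r4] at e4
    rw [r3] at e3
    rw [r2] at e2
    rw [sqn, sqn] at g5
    rw [sqn] at g1
    have hx4n : 998 / 1000 * ‖q‖ ≤ ‖x4‖ + 12 / 5 * ‖p‖ := by
      have h5 : q = x4 - cc * p - cc * t * q := by rw [f4]; ring
      have h6 : ‖q‖ ≤ ‖x4‖ + ‖cc * p‖ + ‖cc * t * q‖ := by
        calc ‖q‖ = ‖x4 - cc * p - cc * t * q‖ := by rw [← h5]
          _ ≤ ‖x4 - cc * p‖ + ‖cc * t * q‖ := norm_sub_le _ _
          _ ≤ _ := by gcongr; exact norm_sub_le _ _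
      have h7 : ‖cc * p‖ ≤ 12 / 5 * ‖p‖ := by
        rw [norm_mul]; exact mul_le_mul_of_nonneg_right ncc np
      have h8 : ‖cc * t * q‖ ≤ 12 / 5 * t * ‖q‖ := by
        rw [norm_mul]; exact mul_le_mul_of_nonneg_right nct nq
      nlinarith
    have hx4s : 49 / 100 * ‖q‖ ^ 2 ≤ ‖x4‖ ^ 2 + 576 / 100 * ‖p‖ ^ 2 := by
      have h9 : (998 / 1000 * ‖q‖) ^ 2 ≤ (‖x4‖ + 12 / 5 * ‖p‖) ^ 2 :=
        pow_le_pow_left₀ (by positivity) hx4n 2
      nlinarith [sq_nonneg (‖x4‖ - 12 / 5 * ‖p‖)]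
    have h10 : 200 * t' * (49 / 100 * ‖q‖ ^ 2) ≤ 200 * t' * (‖x4‖ ^ 2 + 576 / 100 * ‖p‖ ^ 2) :=
      mul_le_mul_of_nonneg_left hx4s (by positivity)
    have h11 : 200 * t' * (576 / 100 * ‖p‖ ^ 2) ≤ 1 * ‖p‖ ^ 2 := by
      have : 200 * t' * (576 / 100) ≤ 1 := by linarith
      nlinarith [sq_nonneg ‖p‖]
    have h12 : 0 ≤ t * ‖q‖ ^ 2 := by positivity
    have h13 : 0 ≤ ‖p‖ ^ 2 := by positivity
    have g0' : H 1 x4 x5 ≤ H 0 (vv e (n + 6)).1 (vv e (n + 6)).2 := g0
    have e2' : H 2 x3 x4 = H 3 x2 x3 := e2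
    have e3' : H 3 x2 x3 = H 4 x1 x2 := e3
    have e4' : H 4 x1 x2 = H 5 q x1 := e4
    nlinarith
  · rw [v6]
    show ‖x4 + e (n + 5) * x5‖ ≤ _
    have ne := norm_e he (n + 5)
    have b4 : ‖x4‖ ≤ 12 / 5 * ‖p‖ + (1 + 12 / 5 * t) * ‖q‖ := by
      rw [f4]
      refine (norm_add_le _ _).trans ?_
      rw [norm_mul, norm_mul]
      have : ‖1 + cc * t‖ ≤ 1 + 12 / 5 * t := by
        refine (norm_add_le _ _).trans ?_
        rw [norm_one]; linarith
      gcongr
    have b5 : ‖x5‖ ≤ (1 + 12 / 5 * t') * ‖p‖ + (t + t' + 12 / 5 * t * t') * ‖q‖ := by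
      rw [f5]
      refine (norm_add_le _ _).trans ?_
      rw [norm_mul, norm_mul]
      have h5 : ‖1 + cc * t'‖ ≤ 1 + 12 / 5 * t' := by
        refine (norm_add_le _ _).trans ?_
        rw [norm_one]; linarith
      have h6 : ‖(t : ℂ) + t' + cc * t * t'‖ ≤ t + t' + 12 / 5 * t * t' := by
        refine (norm_add_le _ _).trans ?_
        rw [norm_mul, nt']
        refine add_le_add ?_ ?_
        · refine (norm_add_le _ _).trans ?_
          rw [nt, nt']
        · exact mul_le_mul_of_nonneg_right nct ht'.le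
      gcongr
    calc ‖x4 + e (n + 5) * x5‖ ≤ ‖x4‖ + ‖e (n + 5)‖ * ‖x5‖ := by
          refine (norm_add_le _ _).trans ?_
          rw [norm_mul]
      _ ≤ (12 / 5 * ‖p‖ + (1 + 12 / 5 * t) * ‖q‖) + 8 / 5 * ((1 + 12 / 5 * t') * ‖p‖ + (t + t' + 12 / 5 * t * t') * ‖q‖) := by
          gcongr
      _ ≤ ‖q‖ + 5 * ‖p‖ + 5 * ((t + t') * ‖q‖) := by
          have h7 : t' * ‖p‖ ≤ 1 / 5000 * ‖p‖ := mul_le_mul_of_nonneg_right ht1' np
          have h8 : t * t' * ‖q‖ ≤ 1 / 5000 * (t * ‖q‖) := by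
            have : t * t' ≤ 1 / 5000 * t := by nlinarith
            nlinarith
          have h9 : 0 ≤ t * ‖q‖ := by positivity
          have h10 : 0 ≤ t' * ‖q‖ := by positivity
          nlinarith

end Pool.Agent.Helper625.CB
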