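import Mathlib
import Pool.Agent.Helper625.CB3

/-!
All forms tend to infinity along the denominators.
-/

set_option autoImplicit false

namespace Pool.Agent.Helper625.CB

open Complex

variable {e : ℕ → ℂ} (he : ∀ n, e n ∈ E1)

lemma H0_le (p q : ℂ) : H 0 p q ≤ 300 * ‖p‖ ^ 2 + 425 * (‖p‖ * ‖q‖) := by
  have h1 : H 0 p q = 300 * (p.re ^ 2 + p.im ^ 2) +
      300 * ((p.re * q.re + p.im * q.im) + (p.re * q.im - p.im * q.re)) := by
    simp only [H, hf, cα, c1, c2, cγ]
    simp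
    ring
  rw [h1, sqn]
  have h2 : ((p.re * q.re + p.im * q.im) + (p.re * q.im - p.im * q.re)) ^ 2 ≤ 2 * (‖p‖ * ‖q‖) ^ 2 := by
    rw [mul_pow, ← sqn p, ← sqn q]
    nlinarith [sq_nonneg ((p.re * q.re + p.im * q.im) - (p.re * q.im - p.im * q.re))]
  set Z := (p.re * q.re + p.im * q.im) + (p.re * q.im - p.im * q.re)
  have h3 : 0 ≤ ‖p‖ * ‖q‖ := by positivity
  have h4 : 300 * Z ≤ 425 * (‖p‖ * ‖q‖) := by
    by_contra h
    push Not at h
    nlinarith
  linarith

include he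

omit he in
lemma lb_of (n : ℕ) (j : Fin 13) (hj : kA j = false) (h : kk e n j = true) : e n = lb := by
  by_contra hne
  simp only [kk, if_neg hne] at h
  rw [hj] at h
  exact absurd h (by decide)

lemma la_of (n : ℕ) (j : Fin 13) (hj : kB j = false) (h : kk e n j = true) :
    ∃ t : ℝ, 0 < t ∧ t ≤ 1 / 5000 ∧ e n = la + t := by
  rcases he n with h1 | h1
  · simp only [kk, if_pos h1] at h
    rw [hj] at h
    exact absurd h (by decide)
  · exact h1

lemma phase_unbounded {r : ZMod 6} {N : ℕ} (hN : ∀ n ≥ N, OKK e n r)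
    (hpos : ∀ n, 0 < n → ∃ μ > 0, LB e n μ) (C : ℝ) :
    ∃ M, ∀ n ≥ M, C ≤ hh e n (cst (r - (n : ℕ))) := by
  set n0 := 6 * (N + 1) + r.val with hn0
  have hc0 : ∀ k : ℕ, ((n0 + 6 * k : ℕ) : ZMod 6) = r := by
    intro k
    rw [hn0]
    push_cast
    have h6 : (6 : ZMod 6) = 0 := by decide
    rw [h6, ZMod.natCast_zmod_val]
    ring
  have hcst : ∀ k : ℕ, cst (r - (n0 + 6 * k : ℕ)) = 0 := by
    intro k
    rw [hc0 k, sub_self]; rfl
  have key : ∀ k i : ℕ, kk e (n0 + 6 * k + i) (cst (-(i + 1 : ℕ))) = true := by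
    intro k i
    have h1 := hN (n0 + 6 * k + i) (by omega)
    unfold OKK at h1
    have e1 : r - ((n0 + 6 * k + i + 1 : ℕ) : ZMod 6) = -((i + 1 : ℕ) : ZMod 6) := by
      have := hc0 k
      have e2 : ((n0 + 6 * k + i + 1 : ℕ) : ZMod 6) = ((n0 + 6 * k : ℕ) : ZMod 6) + ((i + 1 : ℕ) : ZMod 6) := by
        push_cast; ring
      rw [e2, this]; ring
    rw [e1] at h1
    exact h1
  have hA : ∀ k, ∃ t : ℝ, 0 < t ∧ t ≤ 1 / 5000 ∧ e (n0 + 6 * k) = la + t := by
    intro k
    exact la_of he _ (cst (-(0 + 1 : ℕ))) (by decide) (key k 0)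
  have hA' : ∀ k, ∃ t : ℝ, 0 < t ∧ t ≤ 1 / 5000 ∧ e (n0 + 6 * k + 4) = la + t := by
    intro k
    exact la_of he _ (cst (-(4 + 1 : ℕ))) (by decide) (key k 4)
  have hB1 : ∀ k, e (n0 + 6 * k + 1) = lb := fun k => lb_of _ (cst (-(1 + 1 : ℕ))) (by decide) (key k 1)
  have hB2 : ∀ k, e (n0 + 6 * k + 2) = lb := fun k => lb_of _ (cst (-(2 + 1 : ℕ))) (by decide) (key k 2)
  have hB3 : ∀ k, e (n0 + 6 * k + 3) = lb := fun k => lb_of _ (cst (-(3 + 1 : ℕ))) (by decide) (key k 3)
  choose t ht ht1 hte using hA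
  choose t' ht' ht1' hte' using hA'
  have hblock := fun k => block he (ht k) (ht1 k) (ht' k) (ht1' k) (hte k) (hB1 k) (hB2 k) (hB3 k) (hte' k)
  have hs : ∀ k, n0 + 6 * (k + 1) = n0 + 6 * k + 6 := fun k => by ring
  obtain ⟨μ, hμ, hLB⟩ := hpos n0 (by omega)
  obtain ⟨k, hk⟩ := growth (fun k => ‖(vv e (n0 + 6 * k)).1‖) (fun k => ‖(vv e (n0 + 6 * k)).2‖)
    (fun k => t k + t' k) (fun k => hh e (n0 + 6 * k) 0) (fun k => norm_nonneg _) (fun k => norm_nonneg _)
    (fun k => by have := ht k; have := ht' k; positivity)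
    (fun k => by have h1 := ht1 k; have h2 := ht1' k; show t k + t' k ≤ 1; linarith)
    (lt_of_lt_of_le hμ (hLB 0))
    (fun k => by
      have := (hblock k).1
      rw [← hs k] at this
      exact this)
    (fun k => H0_le _ _)
    (fun k => by
      have := (hblock k).2
      rw [← hs k] at this
      exact this) C
  refine ⟨n0 + 6 * k, fun n hn => ?_⟩
  have h1 := phase_mono he hN (n := n0 + 6 * k) (m := n) (by omega) hn
  rw [hcst k] at h1
  exact hk.le.trans h1

lemma LB_pos : ∀ n, 0 < n → ∃ μ > 0, LB e n μ := by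
  have h0 : ∃ μ > 0, LB e 1 μ := by
    have hv : vv e 0 = (0, 1) := rfl
    have hH : ∀ j, hh e 0 j = cγ j := by
      intro j
      unfold hh
      rw [hv]
      simp [H, hf]
    have hn : nn (vv e 0).1 (vv e 0).2 = 1 := by rw [hv]; simp [nn]
    rcases he 0 with h | ⟨t, ht, ht1, h⟩
    · refine ⟨1, one_pos, fun j => ?_⟩
      have h1 := step_hh he 0 j
      rw [hn, hH] at h1
      simp only [sg, kk, if_pos h] at h1
      refine le_trans ?_ h1
      fin_cases j <;> simp [sB, kB, cγ]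
    · refine ⟨200 * t, by positivity, fun j => ?_⟩
      by_cases hj : j = 5
      · subst hj
        have g5 := gain5 ht.le (by linarith : t ≤ 1 / 4000) (vv e 0).1 (vv e 0).2
        have e1 : hh e 1 5 = H 5 (vv e 0).2 ((vv e 0).1 + (la + t) * (vv e 0).2) := by
          show H 5 (vv e 0).2 ((vv e 0).1 + e 0 * (vv e 0).2) = _
          rw [h]
        rw [e1]
        refine le_trans ?_ g5
        have e2 : H 0 (vv e 0).1 (vv e 0).2 = 0 := by
          have := hH 0
          unfold hh at this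
          rw [this]; simp [cγ]
        rw [e2, hv]
        simp
      · have h1 := step_hh he 0 j
        rw [hn, hH] at h1
        have h0 : e 0 ≠ lb := by rw [h]; exact lb_ne ht
        simp only [sg, kk, if_neg h0] at h1
        refine le_trans ?_ h1
        have : 200 * t ≤ 1 := by linarith
        refine le_trans this ?_
        revert hj
        fin_cases j <;> simp [sA, kA, cγ]
  obtain ⟨μ, hμ, h⟩ := h0
  intro n hn
  exact ⟨μ, hμ, LB_mono he hn h⟩

lemma LB_tendsto (C : ℝ) : ∃ N, ∀ n ≥ N, LB e n C := by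
  classical
  by_contra hcon
  push Not at hcon
  -- no time has all forms at least `C`
  have hno : ∀ n, ¬ LB e n C := by
    intro n h
    obtain ⟨m, hm, h2⟩ := hcon n
    exact h2 (LB_mono he hm h)
  -- a time after which every good phase holds and has value at least C
  have hgood : ∀ r : ZMod 6, ∃ T : ℕ, (∃ N, ∀ n ≥ N, OKK e n r) →
      ∀ n ≥ T, C ≤ hh e n (cst (r - (n : ℕ))) := by
    intro r
    by_cases h : ∃ N, ∀ n ≥ N, OKK e n r
    · obtain ⟨N, hN⟩ := h
      obtain ⟨M, hM⟩ := phase_unbounded he hN (LB_pos he) C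
      exact ⟨M, fun _ => hM⟩
    · exact ⟨0, fun h' => absurd h' h⟩
  choose T hT using hgood
  set T0 := (Finset.univ.sup T) + 1 with hT0
  have hT0' : ∀ r, T r ≤ T0 := fun r => (Finset.le_sup (Finset.mem_univ r)).trans (Nat.le_succ _)
  -- the step
  have hstep : ∀ T1 ≥ T0, ∃ N > T1, ∀ r : ZMod 6, (¬ ∃ N, ∀ n ≥ N, OKK e n r) →
      ∃ n, T1 ≤ n ∧ n < N ∧ ¬ OKK e n r := by
    intro T1 _
    have : ∀ r : ZMod 6, ∃ n, T1 ≤ n ∧ ((¬ ∃ N, ∀ n ≥ N, OKK e n r) → ¬ OKK e n r) := by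
      intro r
      by_cases h : ∃ N, ∀ n ≥ N, OKK e n r
      · exact ⟨T1, le_rfl, fun h' => absurd h h'⟩
      · push Not at h
        obtain ⟨n, hn, h2⟩ := h T1
        exact ⟨n, hn, fun _ => h2⟩
    choose f hf1 hf2 using this
    refine ⟨Finset.univ.sup f + T1 + 1, by omega, fun r hr => ⟨f r, hf1 r, ?_, hf2 r hr⟩⟩
    have : f r ≤ Finset.univ.sup f := Finset.le_sup (Finset.mem_univ r)
    omega
  have hiter : ∀ (μ : ℝ) (T1 : ℕ), T1 ≥ T0 → 0 ≤ μ → LB e T1 μ →
      ∃ N ≥ T0, LB e N (min C ((1 + 1 / 10000) * μ)) := by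
    intro μ T1 hT1 hμ hLB
    obtain ⟨N, hN, hN2⟩ := hstep T1 hT1
    refine ⟨N, by omega, fun j => ?_⟩
    obtain ⟨m, rfl⟩ := Nat.exists_eq_add_of_lt hN
    have e1 : T1 + m + 1 = T1 + (m + 1) := by ring
    rw [e1] at hN2 ⊢
    by_cases hall : allc e T1 (m + 1) j
    · obtain ⟨r, hr1, hr2⟩ := allc_exists T1 (m + 1) (Nat.succ_pos m) j hall
      have hg : ∃ N, ∀ n ≥ N, OKK e n r := by
        by_contra hg
        obtain ⟨n, hn1, hn2, hn3⟩ := hN2 r hg
        obtain ⟨i, rfl⟩ := Nat.exists_eq_add_of_le hn1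
        exact hn3 (hr2 i (by omega))
      have h3 := hT r hg (T1 + (m + 1)) (by have := hT0' r; omega)
      rw [← hr1] at h3
      exact (min_le_left _ _).trans h3
    · exact (min_le_right _ _).trans (dich he hLB (m + 1) j hall)
  obtain ⟨μ0, hμ0, hLB0⟩ := LB_pos he T0 (by omega)
  have hC : μ0 ≤ C := by
    by_contra h
    push Not at h
    exact hno T0 (fun j => h.le.trans (hLB0 j))
  have hall : ∀ K : ℕ, ∃ N ≥ T0, LB e N (min C ((1 + 1 / 10000) ^ K * μ0)) := by
    intro K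
    induction K with
    | zero => exact ⟨T0, le_rfl, fun j => (min_le_right _ _).trans (by simpa using hLB0 j)⟩
    | succ K ih =>
      obtain ⟨N, hN, h⟩ := ih
      have hpos : 0 ≤ min C ((1 + 1 / 10000) ^ K * μ0) := le_min (hμ0.le.trans hC) (by positivity)
      obtain ⟨N', hN', h'⟩ := hiter _ N hN hpos h
      refine ⟨N', hN', fun j => le_trans ?_ (h' j)⟩
      refine le_min (min_le_left _ _) ?_
      rw [mul_min_of_nonneg _ _ (by norm_num)]
      refine le_min ?_ ?_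
      · refine (min_le_left _ _).trans ?_
        nlinarith
      · refine (min_le_right _ _).trans ?_
        rw [pow_succ]; apply le_of_eq; ring
  obtain ⟨K, hK⟩ := pow_unbounded_of_one_lt (C / μ0) (by norm_num : (1 : ℝ) < 1 + 1 / 10000)
  obtain ⟨N, _, h⟩ := hall K
  rw [div_lt_iff₀ hμ0] at hK
  rw [min_eq_left hK.le] at h
  exact hno N h

end Pool.Agent.Helper625.CB
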