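import Mathlib
import Pool.Agent.Helper625.CB4

/-!
Convergence of `A_n / B_n` for all letter sequences in `E1`.
-/

set_option autoImplicit false

namespace Pool.Agent.Helper625.CB

open Complex Filter Topology

/-- consecutive numerators -/
noncomputable def aa (e : ℕ → ℂ) : ℕ → ℂ × ℂ
  | 0 => (1, 0)
  | n + 1 => ((aa e n).2, (aa e n).1 + e n * (aa e n).2)

lemma det_eq (e : ℕ → ℂ) (n : ℕ) :
    (aa e n).1 * (vv e n).2 - (aa e n).2 * (vv e n).1 = (-1) ^ n := by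
  induction n with
  | zero => simp [aa, vv]
  | succ n ih =>
    have h1 : aa e (n + 1) = ((aa e n).2, (aa e n).1 + e n * (aa e n).2) := rfl
    have h2 : vv e (n + 1) = ((vv e n).2, (vv e n).1 + e n * (vv e n).2) := rfl
    rw [h1, h2, pow_succ, ← ih]
    ring

/-- geometry of one disc -/
lemma disc {α b1 b2 γ : ℝ} (hγ : 0 < γ) {D : ℝ} (hD : 0 ≤ D) (hΔ : b1 ^ 2 + b2 ^ 2 - α * γ ≤ D ^ 2)
    (hΔ0 : 0 ≤ b1 ^ 2 + b2 ^ 2 - α * γ)
    {x p q : ℂ} {C : ℝ} (hC : 0 < C) (hx : hf α b1 b2 γ 1 (-x) ≤ 0) (hH : C ≤ hf α b1 b2 γ p q) :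
    p * x + q ≠ 0 ∧ p * (⟨b1 / γ, b2 / γ⟩ : ℂ) + q ≠ 0 ∧
    ‖(x - (⟨b1 / γ, b2 / γ⟩ : ℂ)) / ((p * x + q) * (p * (⟨b1 / γ, b2 / γ⟩ : ℂ) + q))‖ ≤ 2 * D / C ∧
    C / γ ≤ ‖p * (⟨b1 / γ, b2 / γ⟩ : ℂ) + q‖ ^ 2 := by
  set z : ℂ := ⟨b1 / γ, b2 / γ⟩ with hz
  set d0 := Real.sqrt (b1 ^ 2 + b2 ^ 2 - α * γ) with hd0
  have hd0s : d0 ^ 2 = b1 ^ 2 + b2 ^ 2 - α * γ := Real.sq_sqrt hΔ0
  have hd0n : 0 ≤ d0 := Real.sqrt_nonneg _
  have hd0D : d0 ≤ D := by
    rw [hd0]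
    exact Real.sqrt_le_iff.mpr ⟨hD, hΔ⟩
  have hzre : z.re = b1 / γ := rfl
  have hzim : z.im = b2 / γ := rfl
  set y : ℂ := γ * (x - z) with hy
  set s : ℂ := γ * (p * z + q) with hs
  have hy2 : ‖y‖ ^ 2 = γ * hf α b1 b2 γ 1 (-x) + d0 ^ 2 := by
    rw [← sqn, hd0s]
    have e1 : y.re = γ * x.re - b1 := by
      rw [hy]; simp [hzre]; field_simp
    have e2 : y.im = γ * x.im - b2 := by
      rw [hy]; simp [hzim]; field_simp
    rw [e1, e2]
    simp [hf]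
    ring
  have hs2 : ‖s‖ ^ 2 = γ * hf α b1 b2 γ p q + d0 ^ 2 * ‖p‖ ^ 2 := by
    rw [← sqn, ← sqn p, hd0s]
    have e1 : s.re = p.re * b1 - p.im * b2 + γ * q.re := by
      rw [hs]; simp [hzre, hzim]; field_simp
    have e2 : s.im = p.re * b2 + p.im * b1 + γ * q.im := by
      rw [hs]; simp [hzre, hzim]; field_simp
    rw [e1, e2]
    simp only [hf]
    ring
  have hyd : ‖y‖ ≤ d0 := by
    have : ‖y‖ ^ 2 ≤ d0 ^ 2 := by rw [hy2]; nlinarith
    exact (pow_le_pow_iff_left₀ (norm_nonneg y) hd0n two_ne_zero).mp this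
  have hsum : (γ : ℂ) * (p * x + q) = p * y + s := by rw [hy, hs]; ring
  have hγn : ‖(γ : ℂ)‖ = γ := by rw [Complex.norm_real, Real.norm_eq_abs, abs_of_pos hγ]
  have hlow : ‖s‖ - d0 * ‖p‖ ≤ γ * ‖p * x + q‖ := by
    have h1 : γ * ‖p * x + q‖ = ‖p * y + s‖ := by rw [← hsum, norm_mul, hγn]
    rw [h1]
    have h2 : ‖s‖ ≤ ‖p * y + s‖ + ‖p * y‖ := by
      have := norm_sub_le (p * y + s) (p * y)
      rwa [add_sub_cancel_left] at this
    have h3 : ‖p * y‖ ≤ d0 * ‖p‖ := by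
      rw [norm_mul, mul_comm]; exact mul_le_mul_of_nonneg_right hyd (norm_nonneg p)
    linarith
  have hs0 : 0 < ‖s‖ := by
    have h1 : 0 < ‖s‖ ^ 2 := by
      rw [hs2]
      have h2 : 0 < γ * hf α b1 b2 γ p q := mul_pos hγ (lt_of_lt_of_le hC hH)
      positivity
    exact lt_of_le_of_ne (norm_nonneg s) (fun h => by rw [← h] at h1; norm_num at h1)
  have hmain : γ * C / 2 ≤ ‖s‖ * (γ * ‖p * x + q‖) := by
    have h1 : ‖s‖ * (‖s‖ - d0 * ‖p‖) ≤ ‖s‖ * (γ * ‖p * x + q‖) :=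
      mul_le_mul_of_nonneg_left hlow hs0.le
    have h2 : γ * C ≤ γ * hf α b1 b2 γ p q := mul_le_mul_of_nonneg_left hH hγ.le
    nlinarith [sq_nonneg (‖s‖ - d0 * ‖p‖)]
  have hpx : p * x + q ≠ 0 := by
    intro h
    rw [h, norm_zero, mul_zero, mul_zero] at hmain
    have : 0 < γ * C / 2 := by positivity
    linarith
  have hsn : ‖s‖ = γ * ‖p * z + q‖ := by rw [hs, norm_mul, hγn]
  have hpz : p * z + q ≠ 0 := by
    intro h
    rw [h, norm_zero, mul_zero] at hsn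
    linarith
  refine ⟨hpx, hpz, ?_, ?_⟩
  · rw [norm_div, norm_mul, div_le_iff₀ (by positivity)]
    have h1 : ‖y‖ = γ * ‖x - z‖ := by rw [hy, norm_mul, hγn]
    have h2 : γ * ‖x - z‖ ≤ D := by rw [← h1]; exact hyd.trans hd0D
    rw [hsn] at hmain
    -- γ*C/2 ≤ γ * Z * (γ * X)
    have h3 : C / 2 ≤ γ * (‖p * x + q‖ * ‖p * z + q‖) := by
      have h4 : γ * (C / 2) ≤ γ * (γ * (‖p * x + q‖ * ‖p * z + q‖)) := by
        calc γ * (C / 2) = γ * C / 2 := by ring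
          _ ≤ _ := hmain
          _ = _ := by ring
      exact le_of_mul_le_mul_left h4 hγ
    have h5 : ‖x - z‖ ≤ D / γ := by rw [le_div_iff₀ hγ]; linarith
    refine h5.trans ?_
    rw [div_mul_eq_mul_div, le_div_iff₀ hC, div_mul_eq_mul_div, div_le_iff₀ hγ]
    nlinarith
  · have h1 : γ * C ≤ ‖s‖ ^ 2 := by
      rw [hs2]
      have h2 : γ * C ≤ γ * hf α b1 b2 γ p q := mul_le_mul_of_nonneg_left hH hγ.le
      have : 0 ≤ d0 ^ 2 * ‖p‖ ^ 2 := by positivity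
      linarith
    rw [hsn] at h1
    rw [div_le_iff₀ hγ]
    have : γ * C ≤ γ * (‖p * z + q‖ ^ 2 * γ) := by
      calc γ * C ≤ (γ * ‖p * z + q‖) ^ 2 := h1
        _ = _ := by ring
    exact le_of_mul_le_mul_left this hγ

/-- centre of the disc of a bounded state -/
noncomputable def zc (j : Fin 13) : ℂ := ⟨c1 j / cγ j, c2 j / cγ j⟩

lemma gpos {j : Fin 13} (hj : j ≠ 0) : 500 ≤ cγ j ∧ cγ j ≤ 3444 := by
  revert hj
  fin_cases j <;> simp [cγ] <;> norm_num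

lemma disc_data {j : Fin 13} (hj : j ≠ 0) :
    c1 j ^ 2 + c2 j ^ 2 - cα j * cγ j ≤ 300 ^ 2 ∧ 0 ≤ c1 j ^ 2 + c2 j ^ 2 - cα j * cγ j := by
  revert hj
  fin_cases j <;> simp [cα, c1, c2, cγ] <;> norm_num

lemma zc_norm {j : Fin 13} (hj : j ≠ 0) : ‖zc j‖ ≤ 2 := by
  have h : ‖zc j‖ ^ 2 ≤ 2 ^ 2 := by
    rw [← sqn]
    show (c1 j / cγ j) ^ 2 + (c2 j / cγ j) ^ 2 ≤ 2 ^ 2
    revert hj
    fin_cases j <;> simp [c1, c2, cγ] <;> norm_num
  exact (pow_le_pow_iff_left₀ (norm_nonneg _) (by norm_num) two_ne_zero).mp h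

/-- the Möbius map -/
noncomputable def FF (e : ℕ → ℂ) (n : ℕ) (x : ℂ) : ℂ :=
  ((aa e n).1 * x + (aa e n).2) / ((vv e n).1 * x + (vv e n).2)

lemma FF_sub (e : ℕ → ℂ) (n : ℕ) {x y : ℂ} (hx : (vv e n).1 * x + (vv e n).2 ≠ 0)
    (hy : (vv e n).1 * y + (vv e n).2 ≠ 0) :
    ‖FF e n x - FF e n y‖ =
      ‖(x - y) / (((vv e n).1 * x + (vv e n).2) * ((vv e n).1 * y + (vv e n).2))‖ := by
  have h1 : FF e n x - FF e n y = (-1) ^ n * ((x - y) /
      (((vv e n).1 * x + (vv e n).2) * ((vv e n).1 * y + (vv e n).2))) := by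
    rw [← det_eq e n]
    unfold FF
    rw [div_sub_div _ _ hx hy, ← mul_div_assoc]
    congr 1
    ring
  rw [h1, norm_mul, norm_pow, norm_neg, norm_one, one_pow, one_mul]

lemma disc_j {e : ℕ → ℂ} {n : ℕ} {C : ℝ} (hC : 0 < C) (hLB : LB e n C) {j : Fin 13} (hj : j ≠ 0)
    {x : ℂ} (hx : H j 1 (-x) ≤ 0) :
    (vv e n).1 * x + (vv e n).2 ≠ 0 ∧ (vv e n).1 * zc j + (vv e n).2 ≠ 0 ∧
    ‖FF e n x - FF e n (zc j)‖ ≤ 600 / C ∧ C / 3444 ≤ ‖(vv e n).1 * zc j + (vv e n).2‖ ^ 2 := by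
  obtain ⟨g1, g2⟩ := gpos hj
  obtain ⟨h1, h2, h3, h4⟩ := disc (by linarith : 0 < cγ j) (D := 300) (by norm_num)
    (disc_data hj).1 (disc_data hj).2 hC hx (hLB j)
  refine ⟨h1, h2, ?_, ?_⟩
  · have h2' : (vv e n).1 * zc j + (vv e n).2 ≠ 0 := h2
    rw [FF_sub e n h1 h2']
    exact h3.trans (le_of_eq (by norm_num))
  · refine le_trans ?_ h4
    exact div_le_div_of_nonneg_left hC.le (by linarith) g2

lemma centre_bd {e : ℕ → ℂ} {n : ℕ} {C : ℝ} (hC : 0 < C) {i j : Fin 13} (hi0 : i ≠ 0) (hj0 : j ≠ 0)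
    (hi : (vv e n).1 * zc i + (vv e n).2 ≠ 0) (hj : (vv e n).1 * zc j + (vv e n).2 ≠ 0)
    (hi2 : C / 3444 ≤ ‖(vv e n).1 * zc i + (vv e n).2‖ ^ 2)
    (hj2 : C / 3444 ≤ ‖(vv e n).1 * zc j + (vv e n).2‖ ^ 2) :
    ‖FF e n (zc i) - FF e n (zc j)‖ ≤ 14000 / C := by
  rw [FF_sub e n hi hj, norm_div, norm_mul, div_le_iff₀ (by positivity)]
  have h1 : ‖zc i - zc j‖ ≤ 4 := by
    have := norm_sub_le (zc i) (zc j)
    have := zc_norm hi0
    have := zc_norm hj0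
    linarith
  set a := ‖(vv e n).1 * zc i + (vv e n).2‖
  set b := ‖(vv e n).1 * zc j + (vv e n).2‖
  have ha : 0 ≤ a := norm_nonneg _
  have hb : 0 ≤ b := norm_nonneg _
  have h2 : C / 3444 ≤ a * b := by
    have h3 : (C / 3444) ^ 2 ≤ (a * b) ^ 2 := by
      rw [mul_pow, pow_two (C / 3444)]
      exact mul_le_mul hi2 hj2 (by positivity) (by positivity)
    exact (pow_le_pow_iff_left₀ (by positivity) (by positivity) two_ne_zero).mp h3
  have h4 : 4 ≤ 14000 / C * (a * b) := by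
    rw [div_mul_eq_mul_div, le_div_iff₀ hC]
    have : C ≤ 3444 * (a * b) := by linarith
    nlinarith
  exact h1.trans h4

lemma two_points {e : ℕ → ℂ} {n : ℕ} {C : ℝ} (hC : 0 < C) (hLB : LB e n C) {i j : Fin 13} (hi : i ≠ 0)
    (hj : j ≠ 0) {x y : ℂ} (hx : H i 1 (-x) ≤ 0) (hy : H j 1 (-y) ≤ 0) :
    ‖FF e n x - FF e n y‖ ≤ 16000 / C := by
  obtain ⟨x1, x2, x3, x4⟩ := disc_j hC hLB hi hx
  obtain ⟨y1, y2, y3, y4⟩ := disc_j hC hLB hj hy
  have h := centre_bd hC hi hj x2 y2 x4 y4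
  have h5 : FF e n x - FF e n y = (FF e n x - FF e n (zc i)) + (FF e n (zc i) - FF e n (zc j))
      - (FF e n y - FF e n (zc j)) := by ring
  have h6 : ‖FF e n x - FF e n y‖ ≤ ‖FF e n x - FF e n (zc i)‖ + ‖FF e n (zc i) - FF e n (zc j)‖
      + ‖FF e n y - FF e n (zc j)‖ := by
    rw [h5]
    refine (norm_sub_le _ _).trans ?_
    gcongr
    exact norm_add_le _ _
  have h7 : (600 : ℝ) / C + 14000 / C + 600 / C ≤ 16000 / C := by
    rw [← add_div, ← add_div]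
    exact div_le_div_of_nonneg_right (by norm_num) hC.le
  linarith

/-- inner points, in homogeneous coordinates -/
noncomputable def inn (e : ℕ → ℂ) : ℕ → ℕ → ℂ × ℂ
  | _, 0 => (0, 1)
  | n, k + 1 => ((inn e (n + 1) k).2, e n * (inn e (n + 1) k).2 + (inn e (n + 1) k).1)

/-- states of inner points -/
noncomputable def sti (e : ℕ → ℂ) : ℕ → ℕ → Fin 13
  | _, 0 => 1
  | n, k + 1 => sg e n (sti e (n + 1) k)

lemma H_neg (j : Fin 13) (p q : ℂ) : H j (-p) (-q) = H j p q := by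
  simp only [H, hf, neg_re, neg_im]; ring

variable {e : ℕ → ℂ} (he : ∀ n, e n ∈ E1)

lemma inn_ne (n k : ℕ) : (inn e n k).1 ≠ 0 ∨ (inn e n k).2 ≠ 0 := by
  induction k generalizing n with
  | zero => right; simp [inn]
  | succ k ih =>
    by_contra h
    push Not at h
    obtain ⟨h1, h2⟩ := h
    have h1' : (inn e (n + 1) k).2 = 0 := h1
    have h2' : e n * (inn e (n + 1) k).2 + (inn e (n + 1) k).1 = 0 := h2
    rw [h1', mul_zero, zero_add] at h2'
    rcases ih (n + 1) with h3 | h3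
    · exact h3 h2'
    · exact h3 h1'

lemma inn_AB (n k : ℕ) :
    (aa e (n + k)).2 = (aa e n).1 * (inn e n k).1 + (aa e n).2 * (inn e n k).2 ∧
    (vv e (n + k)).2 = (vv e n).1 * (inn e n k).1 + (vv e n).2 * (inn e n k).2 := by
  induction k generalizing n with
  | zero => simp [inn]
  | succ k ih =>
    have h := ih (n + 1)
    have e1 : n + (k + 1) = n + 1 + k := by ring
    have h1 : aa e (n + 1) = ((aa e n).2, (aa e n).1 + e n * (aa e n).2) := rfl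
    have h2 : vv e (n + 1) = ((vv e n).2, (vv e n).1 + e n * (vv e n).2) := rfl
    have h3 : inn e n (k + 1) = ((inn e (n + 1) k).2, e n * (inn e (n + 1) k).2 + (inn e (n + 1) k).1) := rfl
    rw [e1, h.1, h.2, h1, h2, h3]
    constructor
    · ring
    · ring

include he

lemma inn_H (n k : ℕ) : H (sti e n k) (inn e n k).2 (-(inn e n k).1) ≤ 0 := by
  induction k generalizing n with
  | zero =>
    simp [sti, inn, H, hf, cα]
  | succ k ih =>
    have h := ih (n + 1)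
    set u := (inn e (n + 1) k).1 with hu
    set w := (inn e (n + 1) k).2 with hw
    have h1 : (inn e n (k + 1)) = (w, e n * w + u) := rfl
    have h2 : sti e n (k + 1) = sg e n (sti e (n + 1) k) := rfl
    rw [h1, h2]
    have h3 := step_all he n (sti e (n + 1) k) (e n * w + u) (-w)
    have h4 : e n * w + u + e n * -w = -(-u) := by ring
    rw [h4, H_neg] at h3
    have h5 : 0 ≤ (if kk e n (sti e (n + 1) k) then 0 else nn (e n * w + u) (-w)) := by
      split_ifs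
      · exact le_rfl
      · exact nn_nonneg _ _
    show H (sg e n (sti e (n + 1) k)) (e n * w + u) (-w) ≤ 0
    linarith

lemma inn_fin (n k : ℕ) (hj : sti e n k ≠ 0) :
    (inn e n k).2 ≠ 0 ∧ H (sti e n k) 1 (-((inn e n k).1 / (inn e n k).2)) ≤ 0 := by
  have h := inn_H he n k
  set u := (inn e n k).1 with hu
  set w := (inn e n k).2 with hw
  have hw0 : w ≠ 0 := by
    intro h0
    rw [h0] at h
    have h1 : H (sti e n k) 0 (-u) = cγ (sti e n k) * ‖u‖ ^ 2 := by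
      rw [← sqn]; simp [H, hf]
    rw [h1] at h
    have hg := (gpos hj).1
    have hu0 : u ≠ 0 := by
      rcases inn_ne (e := e) n k with h2 | h2
      · exact h2
      · exact absurd h0 h2
    have : 0 < cγ (sti e n k) * ‖u‖ ^ 2 := by positivity
    linarith
  refine ⟨hw0, ?_⟩
  have h1 : H (sti e n k) w (-u) = ‖w‖ ^ 2 * H (sti e n k) 1 (-(u / w)) := by
    have hu' : u = w * (u / w) := by field_simp
    set z := u / w with hz
    rw [hu', ← sqn]
    simp only [H, hf, neg_re, neg_im, mul_re, mul_im, one_re, one_im]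
    ring
  rw [h1] at h
  have hw2 : 0 < ‖w‖ ^ 2 := by positivity
  by_contra hcon
  push Not at hcon
  have := mul_pos hw2 hcon
  linarith

/-- quotient of numerator and denominator -/
noncomputable def qq (e : ℕ → ℂ) (n : ℕ) : ℂ := (aa e n).2 / (vv e n).2

omit he in
lemma qq_eq (n k : ℕ) (hw : (inn e n k).2 ≠ 0) :
    qq e (n + k) = FF e n ((inn e n k).1 / (inn e n k).2) := by
  obtain ⟨h1, h2⟩ := inn_AB (e := e) n k
  unfold qq FF
  rw [h1, h2]
  set u := (inn e n k).1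
  set w := (inn e n k).2
  have e1 : (aa e n).1 * u + (aa e n).2 * w = ((aa e n).1 * (u / w) + (aa e n).2) * w := by
    field_simp
  have e2 : (vv e n).1 * u + (vv e n).2 * w = ((vv e n).1 * (u / w) + (vv e n).2) * w := by
    field_simp
  rw [e1, e2, mul_div_mul_right _ _ hw]

omit he in
lemma zero_in : H 1 1 (-(0 : ℂ)) ≤ 0 := by simp [H, hf, cα]

lemma dist1 {n k : ℕ} {C : ℝ} (hC : 0 < C) (hLB : LB e n C) (hj : sti e n k ≠ 0) :
    ‖qq e (n + k) - qq e n‖ ≤ 16000 / C := by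
  obtain ⟨h1, h2⟩ := inn_fin he n k hj
  rw [qq_eq n k h1]
  have h3 : qq e n = FF e n 0 := by unfold qq FF; simp
  rw [h3]
  exact two_points hC hLB hj (by decide : (1 : Fin 13) ≠ 0) h2 zero_in

omit he in
lemma sg_one (n : ℕ) : sg e n 1 ≠ 0 := by
  unfold sg; split_ifs <;> decide

omit he in
lemma sg_zero (n : ℕ) : sg e n 0 = 1 := by
  unfold sg; split_ifs <;> rfl

lemma dist2 {n k : ℕ} {C : ℝ} (hC : 0 < C) (hLB : LB e n C) :
    ‖qq e (n + k) - qq e n‖ ≤ 32000 / C := by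
  have hle : (16000 : ℝ) / C ≤ 32000 / C := div_le_div_of_nonneg_right (by norm_num) hC.le
  by_cases hj : sti e n k = 0
  · cases k with
    | zero => simp [sti] at hj
    | succ k =>
      have h1 : sti e (n + 1) k ≠ 0 := by
        intro h0
        have h2 : sti e n (k + 1) = sg e n (sti e (n + 1) k) := rfl
        rw [h2, h0, sg_zero] at hj
        exact absurd hj (by decide)
      have h2 : LB e (n + 1) C := LB_mono he (Nat.le_succ n) hLB
      have h3 := dist1 he hC h2 h1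
      have h4 := dist1 he (k := 1) hC hLB (sg_one n)
      have e1 : n + (k + 1) = n + 1 + k := by ring
      rw [e1]
      have h5 : qq e (n + 1 + k) - qq e n = (qq e (n + 1 + k) - qq e (n + 1)) + (qq e (n + 1) - qq e n) := by ring
      rw [h5]
      refine (norm_add_le _ _).trans ?_
      have h6 : (16000 : ℝ) / C + 16000 / C = 32000 / C := by rw [← add_div]; norm_num
      linarith
  · exact (dist1 he hC hLB hj).trans hle

lemma den_ne {n : ℕ} (hn : 0 < n) : (vv e n).2 ≠ 0 := by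
  obtain ⟨μ, hμ, hLB⟩ := LB_pos he n hn
  have := (disc_j hμ hLB (by decide : (1 : Fin 13) ≠ 0) zero_in).1
  simpa using this

theorem qq_tendsto : ∃ l : ℂ, Tendsto (qq e) atTop (𝓝 l) := by
  apply cauchySeq_tendsto_of_complete
  rw [Metric.cauchySeq_iff']
  intro ε hε
  have hC : (0 : ℝ) < 64000 / ε := by positivity
  obtain ⟨N, hN⟩ := LB_tendsto he (64000 / ε)
  refine ⟨N, fun n hn => ?_⟩
  obtain ⟨k, rfl⟩ := Nat.exists_eq_add_of_le hn
  rw [dist_eq_norm]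
  refine lt_of_le_of_lt (dist2 he hC (hN N le_rfl)) ?_
  rw [div_div_eq_mul_div, div_lt_iff₀ (by norm_num)]
  linarith

end Pool.Agent.Helper625.CB
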