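import Mathlib

namespace Pool.Agent.Helper625.Fl
open Complex MeasureTheory Filter Topology Set

/-- signs -/
noncomputable def sg (k : ℕ) : ℝ := Real.cos (Real.pi * (k * (k + 1) / 2))

lemma sg_abs (k : ℕ) : |sg k| ≤ 1 := Real.abs_cos_le_one _

lemma sg_zero : sg 0 = 1 := by simp [sg]

lemma sg_complex (k : ℕ) : cexp (-(Real.pi * (k * (k + 1) / 2)) * I) = (sg k : ℂ) := by
  obtain ⟨m, hm⟩ := Nat.even_mul_succ_self k
  have h1 : ((k : ℝ) * (k + 1) / 2) = m := by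
    have : ((k * (k + 1) : ℕ) : ℝ) = ((m + m : ℕ) : ℝ) := by rw [← hm]
    push_cast at this
    linarith
  have h2 : ((k : ℂ) * (k + 1) / 2) = m := by
    have := congrArg (fun x : ℝ => (x : ℂ)) h1
    push_cast at this
    exact this
  unfold sg
  rw [h1, h2, neg_mul, Complex.exp_neg, Complex.exp_mul_I, ← Complex.ofReal_natCast, ← Complex.ofReal_mul,
    ← Complex.ofReal_cos, ← Complex.ofReal_sin]
  have hs : Real.sin (Real.pi * m) = 0 := by rw [mul_comm]; exact Real.sin_nat_mul_pi m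
  have hc : Real.cos (Real.pi * m) * Real.cos (Real.pi * m) = 1 := by
    have := Real.sin_sq_add_cos_sq (Real.pi * m)
    rw [hs] at this; nlinarith
  rw [hs]
  simp only [ofReal_zero, zero_mul, add_zero]
  rw [← Complex.ofReal_inv]
  congr 1
  exact inv_eq_of_mul_eq_one_left hc

/-- the flat function -/
noncomputable def q (ε : ℝ) : ℝ :=
  2 / √(2 * Real.sin ε) * ∑' k : ℕ, sg k * Real.exp (-(Real.pi / 8) * (2 * k + 1) ^ 2 * (Real.cos ε / Real.sin ε))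

lemma theta_shift (z : ℂ) : jacobiTheta₂ 0 (I * z - 1) = jacobiTheta₂ (1/2) (I * z) := by
  unfold jacobiTheta₂
  apply tsum_congr
  intro n
  unfold jacobiTheta₂_term
  obtain ⟨m, hm⟩ := Int.even_mul_succ_self n
  have h1 : (n : ℂ) * (n + 1) = m + m := by
    have : ((n * (n + 1) : ℤ) : ℂ) = ((m + m : ℤ) : ℂ) := by rw [hm]
    push_cast at this
    exact this
  have e : 2 * (Real.pi : ℂ) * I * n * (1/2) + Real.pi * I * n ^ 2 * (I * z) =
      (2 * Real.pi * I * n * 0 + Real.pi * I * n ^ 2 * (I * z - 1)) + (m : ℂ) * (2 * Real.pi * I) := by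
    linear_combination (Real.pi * I : ℂ) * h1
  rw [e, Complex.exp_periodic.int_mul]

lemma z_eq (ε : ℝ) : cexp (2 * (I * ((Real.pi / 4 - ε : ℝ) : ℂ))) = ((2 * Real.sin ε : ℝ) : ℂ) * cexp (-(I * ε)) + I := by
  have h1 : cexp (2 * (I * ((Real.pi / 4 - ε : ℝ) : ℂ))) = I * (cexp (-(I * ε)) * cexp (-(I * ε))) := by
    rw [← Complex.exp_add]
    have : 2 * (I * ((Real.pi / 4 - ε : ℝ) : ℂ)) = (Real.pi / 2 : ℂ) * I + (-(I * ε) + -(I * ε)) := by
      push_cast; ring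
    rw [this, Complex.exp_add, Complex.exp_pi_div_two_mul_I]
  have h2 : ((2 * Real.sin ε : ℝ) : ℂ) = I * (cexp (-(I * ε)) - cexp (I * ε)) := by
    rw [Complex.ofReal_mul, Complex.ofReal_sin, Complex.sin]
    push_cast
    rw [mul_comm I (ε : ℂ), neg_mul]
    ring
  have h3 : cexp (I * ε) * cexp (-(I * ε)) = 1 := by rw [← Complex.exp_add]; simp
  rw [h1, h2]
  linear_combination I * h3

lemma inv_z {ε : ℝ} (h0 : 0 < Real.sin ε) :
    1 / (((2 * Real.sin ε : ℝ) : ℂ) * cexp (-(I * ε))) = (((Real.cos ε / Real.sin ε : ℝ) : ℂ) + I) / 2 := by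
  have h1 : cexp (-(I * ε)) ≠ 0 := Complex.exp_ne_zero _
  have h2 : (Real.sin ε : ℂ) ≠ 0 := by exact_mod_cast h0.ne'
  have h3 : cexp (I * ε) * cexp (-(I * ε)) = 1 := by rw [← Complex.exp_add]; simp
  have h4 : cexp (I * ε) = Real.cos ε + Real.sin ε * I := by
    rw [mul_comm, Complex.exp_mul_I]; push_cast; rfl
  rw [h4] at h3
  have hne : ((2 * Real.sin ε : ℝ) : ℂ) * cexp (-(I * ε)) ≠ 0 := by
    push_cast
    push_cast at h2
    simp only [ne_eq, mul_eq_zero, not_or]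
    exact ⟨⟨two_ne_zero, h2⟩, h1⟩
  rw [div_eq_div_iff hne two_ne_zero]
  push_cast at h3 h2 ⊢
  field_simp
  linear_combination (-1) * h3

lemma cpow_z {ε : ℝ} (h0 : 0 < ε) (h1 : ε < Real.pi / 2) :
    (((2 * Real.sin ε : ℝ) : ℂ) * cexp (-(I * ε))) ^ (1/2 : ℂ) = ((√(2 * Real.sin ε) : ℝ) : ℂ) * cexp (-(I * ε / 2)) := by
  have hs : 0 < 2 * Real.sin ε := by
    have := Real.sin_pos_of_pos_of_lt_pi h0 (by linarith [Real.pi_pos])
    linarith
  have hne : ((2 * Real.sin ε : ℝ) : ℂ) * cexp (-(I * ε)) ≠ 0 :=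
    mul_ne_zero (by exact_mod_cast hs.ne') (Complex.exp_ne_zero _)
  have him : (-(I * (ε : ℂ))).im = -ε := by simp
  rw [Complex.cpow_def_of_ne_zero hne, Complex.log_ofReal_mul hs (Complex.exp_ne_zero _),
    Complex.log_exp (by rw [him]; linarith [Real.pi_pos]) (by rw [him]; linarith [Real.pi_pos]), add_mul, Complex.exp_add]
  congr 1
  · rw [Real.sqrt_eq_rpow, Real.rpow_def_of_pos hs, Complex.ofReal_exp]
    push_cast; rfl
  · congr 1; ring

lemma theta_eq_q {ε : ℝ} (h0 : 0 < ε) (h1 : ε < Real.pi / 2) :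
    cexp (I * ((Real.pi / 4 - ε : ℝ) : ℂ) / 2) * jacobiTheta₂ 0 (I * cexp (2 * (I * ((Real.pi / 4 - ε : ℝ) : ℂ)))) = (q ε : ℂ) := by
  have hs : 0 < Real.sin ε := Real.sin_pos_of_pos_of_lt_pi h0 (by linarith [Real.pi_pos])
  have hcos : 0 < Real.cos ε := Real.cos_pos_of_mem_Ioo ⟨by linarith [Real.pi_pos], h1⟩
  set c := Real.cos ε / Real.sin ε with hc
  have hc0 : 0 < c := div_pos hcos hs
  set z : ℂ := ((2 * Real.sin ε : ℝ) : ℂ) * cexp (-(I * ε)) with hz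
  have hz0 : z ≠ 0 := mul_ne_zero (by
    have : (0:ℝ) < 2 * Real.sin ε := by linarith
    exact_mod_cast this.ne') (Complex.exp_ne_zero _)
  have hinv : 1 / z = ((c : ℂ) + I) / 2 := inv_z hs
  have e1 : I * cexp (2 * (I * ((Real.pi / 4 - ε : ℝ) : ℂ))) = I * z - 1 := by
    rw [z_eq ε, mul_add, I_mul_I, ← hz]; ring
  rw [e1, theta_shift, jacobiTheta₂_functional_equation]
  have e2 : -I * (I * z) = z := by rw [← mul_assoc, neg_mul, I_mul_I]; ring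
  rw [e2, cpow_z h0 h1]
  -- the transformed series
  have him : 0 < (-1 / (I * z)).im := by
    have : -1 / (I * z) = I * (1 / z) := by
      field_simp; rw [I_sq]
    rw [this, hinv]
    have : (I * (((c : ℂ) + I) / 2)).im = c / 2 := by
      simp
    rw [this]; positivity
  have hS := (hasSum_jacobiTheta₂_term ((1/2) / (I * z)) him).mul_left (cexp (-Real.pi * I * (1/2) ^ 2 / (I * z)))
  have hterm : ∀ n : ℤ, cexp (-Real.pi * I * (1/2) ^ 2 / (I * z)) * jacobiTheta₂_term n ((1/2) / (I * z)) (-1 / (I * z)) =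
      cexp (-(Real.pi / 8) * (2 * ((n - 1 : ℤ) : ℂ) + 1) ^ 2 * ((c : ℂ) + I)) := by
    intro n
    unfold jacobiTheta₂_term
    rw [← Complex.exp_add]
    congr 1
    have a1 : ((c : ℂ) + I) = 2 * (1 / z) := by rw [hinv]; ring
    rw [a1]
    push_cast
    field_simp
    ring
  simp_rw [hterm] at hS
  have hS2 : HasSum (fun n : ℤ => cexp (-(Real.pi / 8) * (2 * (n : ℂ) + 1) ^ 2 * ((c : ℂ) + I)))
      (cexp (-Real.pi * I * (1/2) ^ 2 / (I * z)) * jacobiTheta₂ ((1/2) / (I * z)) (-1 / (I * z))) := by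
    have := (Equiv.addRight (1:ℤ)).hasSum_iff.mpr hS
    have e : ((fun n : ℤ => cexp (-(Real.pi / 8) * (2 * ((n - 1 : ℤ) : ℂ) + 1) ^ 2 * ((c : ℂ) + I))) ∘ (Equiv.addRight (1:ℤ))) =
        (fun n : ℤ => cexp (-(Real.pi / 8) * (2 * (n : ℂ) + 1) ^ 2 * ((c : ℂ) + I))) := by
      funext n
      simp
    rwa [e] at this
  have hS3 := hS2.nat_add_neg_add_one
  have hk : ∀ k : ℕ, cexp (-(Real.pi / 8) * (2 * ((k : ℤ) : ℂ) + 1) ^ 2 * ((c : ℂ) + I)) +
      cexp (-(Real.pi / 8) * (2 * ((-((k : ℤ) + 1) : ℤ) : ℂ) + 1) ^ 2 * ((c : ℂ) + I)) =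
      (2 * cexp (-(Real.pi / 8) * I)) * ((sg k * Real.exp (-(Real.pi / 8) * (2 * k + 1) ^ 2 * c) : ℝ) : ℂ) := by
    intro k
    have a1 : -(Real.pi / 8 : ℂ) * (2 * ((k : ℤ) : ℂ) + 1) ^ 2 * ((c : ℂ) + I) =
      (-(Real.pi / 8) * I) + ((-(Real.pi * (k * (k + 1) / 2)) * I) + ((-(Real.pi / 8) * (2 * k + 1) ^ 2 * c : ℝ) : ℂ)) := by
      push_cast; ring
    have a2 : -(Real.pi / 8 : ℂ) * (2 * ((-((k : ℤ) + 1) : ℤ) : ℂ) + 1) ^ 2 * ((c : ℂ) + I) =
      (-(Real.pi / 8) * I) + ((-(Real.pi * (k * (k + 1) / 2)) * I) + ((-(Real.pi / 8) * (2 * k + 1) ^ 2 * c : ℝ) : ℂ)) := by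
      push_cast; ring
    have a3 : ((sg k * Real.exp (-(Real.pi / 8) * (2 * k + 1) ^ 2 * c) : ℝ) : ℂ) =
      (sg k : ℂ) * ((Real.exp (-(Real.pi / 8) * (2 * k + 1) ^ 2 * c) : ℝ) : ℂ) := Complex.ofReal_mul _ _
    rw [a1, a2, Complex.exp_add, Complex.exp_add, sg_complex, ← Complex.ofReal_exp, a3]
    ring
  simp_rw [hk] at hS3
  have hS4 := hS3.tsum_eq
  rw [tsum_mul_left, ← Complex.ofReal_tsum] at hS4
  have e5 : cexp (I * ((Real.pi / 4 - ε : ℝ) : ℂ) / 2) * (1 / (((√(2 * Real.sin ε) : ℝ) : ℂ) * cexp (-(I * ε / 2))) *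
      cexp (-Real.pi * I * (1/2) ^ 2 / (I * z)) * jacobiTheta₂ ((1/2) / (I * z)) (-1 / (I * z))) =
      cexp (I * ((Real.pi / 4 - ε : ℝ) : ℂ) / 2) * (1 / (((√(2 * Real.sin ε) : ℝ) : ℂ) * cexp (-(I * ε / 2)))) *
      (cexp (-Real.pi * I * (1/2) ^ 2 / (I * z)) * jacobiTheta₂ ((1/2) / (I * z)) (-1 / (I * z))) := by ring
  rw [e5, ← hS4]
  unfold q
  rw [← hc, Complex.ofReal_mul, Complex.ofReal_div]
  have e6 : cexp (I * ((Real.pi / 4 - ε : ℝ) : ℂ) / 2) * cexp (-(Real.pi / 8) * I) = cexp (-(I * ε / 2)) := by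
    rw [← Complex.exp_add]; congr 1; push_cast; ring
  have h7 : cexp (-(I * ε / 2)) ≠ 0 := Complex.exp_ne_zero _
  have h8 : ((√(2 * Real.sin ε) : ℝ) : ℂ) ≠ 0 := by
    have : 0 < √(2 * Real.sin ε) := Real.sqrt_pos.mpr (by linarith)
    exact_mod_cast this.ne'
  have e9 : ∀ X : ℂ, cexp (I * ((Real.pi / 4 - ε : ℝ) : ℂ) / 2) * (1 / (((√(2 * Real.sin ε) : ℝ) : ℂ) * cexp (-(I * ε / 2)))) *
      (2 * cexp (-(Real.pi / 8) * I) * X) = (cexp (I * ((Real.pi / 4 - ε : ℝ) : ℂ) / 2) * cexp (-(Real.pi / 8) * I)) *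
      (2 / (((√(2 * Real.sin ε) : ℝ) : ℂ) * cexp (-(I * ε / 2)))) * X := by
    intro X; ring
  rw [e9, e6]
  congr 1
  push_cast at h8 ⊢
  field_simp

end Pool.Agent.Helper625.Fl
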