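import Mathlib
import Pool.Agent.Helper625.Fl

namespace Pool.Agent.Helper625.Fl
open MeasureTheory Filter Topology Set

/-- m = 2k+1 -/
noncomputable def mm (k : ℕ) : ℝ := 2 * k + 1

lemma mm_ge (k : ℕ) : 1 ≤ mm k := by unfold mm; have : (0:ℝ) ≤ k := Nat.cast_nonneg k; linarith

noncomputable def Tk (k : ℕ) (ε : ℝ) : ℝ :=
  1 / √(2 * Real.sin ε) * Real.exp (-(Real.pi / 8) * (mm k) ^ 2 * (Real.cos ε / Real.sin ε))

noncomputable def Tk' (k : ℕ) (ε : ℝ) : ℝ :=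
  Tk k ε * ((Real.pi / 8) * (mm k) ^ 2 / Real.sin ε ^ 2 - Real.cos ε / (2 * Real.sin ε))

lemma q_eq (ε : ℝ) : q ε = ∑' k : ℕ, 2 * (sg k * Tk k ε) := by
  unfold q Tk mm
  rw [← tsum_mul_left]
  apply tsum_congr
  intro k
  ring

lemma sin_pos' {ε : ℝ} (h0 : 0 < ε) (h1 : ε < 1) : 0 < Real.sin ε :=
  Real.sin_pos_of_pos_of_lt_pi h0 (by linarith [Real.pi_gt_three])

lemma cos_ge' {ε : ℝ} (h0 : 0 < ε) (h1 : ε < 1) : 1 / 2 ≤ Real.cos ε := by
  have := Real.one_sub_sq_div_two_le_cos (x := ε)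
  nlinarith

lemma Tk_deriv (k : ℕ) {ε : ℝ} (h0 : 0 < ε) (h1 : ε < 1) : HasDerivAt (Tk k) (Tk' k ε) ε := by
  have hs := sin_pos' h0 h1
  have hs2 : 0 < 2 * Real.sin ε := by linarith
  have hsq : 0 < √(2 * Real.sin ε) := Real.sqrt_pos.mpr hs2
  have hsq2 : √(2 * Real.sin ε) ^ 2 = 2 * Real.sin ε := Real.sq_sqrt hs2.le
  have d1 : HasDerivAt (fun x => 2 * Real.sin x) (2 * Real.cos ε) ε := (Real.hasDerivAt_sin ε).const_mul 2
  have d2 : HasDerivAt (fun x => √(2 * Real.sin x)) ((2 * Real.cos ε) / (2 * √(2 * Real.sin ε))) ε := d1.sqrt hs2.ne'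
  have d3 : HasDerivAt (fun x => 1 / √(2 * Real.sin x)) (-((2 * Real.cos ε) / (2 * √(2 * Real.sin ε))) / √(2 * Real.sin ε) ^ 2) ε := by
    have h := d2.fun_inv hsq.ne'
    simp only [one_div]
    exact h
  have d4 : HasDerivAt (fun x => Real.cos x / Real.sin x) ((-Real.sin ε * Real.sin ε - Real.cos ε * Real.cos ε) / Real.sin ε ^ 2) ε :=
    (Real.hasDerivAt_cos ε).div (Real.hasDerivAt_sin ε) hs.ne'
  have d5 := ((d4.const_mul (-(Real.pi / 8) * (mm k) ^ 2)).exp)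
  have d6 := d3.mul d5
  unfold Tk
  refine d6.congr_deriv ?_
  unfold Tk' Tk
  have hsc : Real.sin ε ^ 2 + Real.cos ε ^ 2 = 1 := Real.sin_sq_add_cos_sq ε
  have e1 : (-Real.sin ε * Real.sin ε - Real.cos ε * Real.cos ε) = -1 := by nlinarith
  rw [e1, hsq2]
  set E := Real.exp (-(Real.pi / 8) * (mm k) ^ 2 * (Real.cos ε / Real.sin ε))
  field_simp
  ring

lemma exp_cube (y : ℝ) (hy : 0 < y) : Real.exp (-y) ≤ 6 / y ^ 3 := by
  have h := Real.pow_div_factorial_le_exp y hy.le 3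
  have h2 : (Nat.factorial 3 : ℝ) = 6 := by norm_num [Nat.factorial]
  rw [h2] at h
  rw [Real.exp_neg, inv_le_comm₀ (Real.exp_pos y) (by positivity)]
  rw [inv_div]
  exact h

lemma Tk_nonneg (k : ℕ) (ε : ℝ) : 0 ≤ Tk k ε := by unfold Tk; positivity

lemma Tk_le (k : ℕ) {ε : ℝ} (h0 : 0 < ε) (h1 : ε < 1) :
    Tk k ε * (mm k ^ 2 / Real.sin ε ^ 2) ≤ 1296 / mm k ^ 4 := by
  have hs := sin_pos' h0 h1
  have hc := cos_ge' h0 h1
  have hs1 : Real.sin ε ≤ 1 := Real.sin_le_one ε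
  have hm := mm_ge k
  set s := Real.sin ε with hsdef
  set m := mm k with hmdef
  have hm0 : 0 < m := by linarith
  have e1 : 1 / √(2 * s) ≤ 1 / s := by
    apply one_div_le_one_div_of_le hs
    apply Real.le_sqrt_of_sq_le
    nlinarith
  have e2 : Real.exp (-(Real.pi / 8) * m ^ 2 * (Real.cos ε / s)) ≤ Real.exp (-(m ^ 2 / (6 * s))) := by
    apply Real.exp_le_exp.mpr
    have hpi := Real.pi_gt_three
    have : m ^ 2 / (6 * s) ≤ (Real.pi / 8) * m ^ 2 * (Real.cos ε / s) := by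
      rw [← mul_div_assoc, div_le_div_iff₀ (by positivity) hs]
      have a : 1 ≤ 6 * ((Real.pi / 8) * Real.cos ε) := by nlinarith
      have b : 0 < m ^ 2 * s := by positivity
      nlinarith [mul_le_mul_of_nonneg_left a b.le]
    linarith
  have e3 := exp_cube (m ^ 2 / (6 * s)) (by positivity)
  have e4 : Tk k ε ≤ (1 / s) * (6 / (m ^ 2 / (6 * s)) ^ 3) := by
    unfold Tk
    exact mul_le_mul e1 (e2.trans e3) (Real.exp_pos _).le (by positivity)
  calc Tk k ε * (m ^ 2 / s ^ 2) ≤ ((1 / s) * (6 / (m ^ 2 / (6 * s)) ^ 3)) * (m ^ 2 / s ^ 2) :=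
        mul_le_mul_of_nonneg_right e4 (by positivity)
    _ = 1296 / m ^ 4 := by field_simp; norm_num

lemma Tk_le1 (k : ℕ) {ε : ℝ} (h0 : 0 < ε) (h1 : ε < 1) : Tk k ε ≤ ε * (1296 / mm k ^ 4) := by
  have h := Tk_le k h0 h1
  have hs := sin_pos' h0 h1
  have hs1 : Real.sin ε ≤ 1 := Real.sin_le_one ε
  have hse : Real.sin ε ≤ ε := Real.sin_le h0.le
  have hm := mm_ge k
  have hT := Tk_nonneg k ε
  have e : 1 ≤ ε * (mm k ^ 2 / Real.sin ε ^ 2) := by
    rw [← mul_div_assoc, le_div_iff₀ (by positivity)]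
    have : Real.sin ε ^ 2 ≤ ε := by nlinarith
    nlinarith [mul_le_mul_of_nonneg_left (one_le_pow₀ hm (n := 2)) h0.le]
  calc Tk k ε = Tk k ε * 1 := by ring
    _ ≤ Tk k ε * (ε * (mm k ^ 2 / Real.sin ε ^ 2)) := mul_le_mul_of_nonneg_left e hT
    _ = ε * (Tk k ε * (mm k ^ 2 / Real.sin ε ^ 2)) := by ring
    _ ≤ _ := mul_le_mul_of_nonneg_left h h0.le

lemma Tk'_le (k : ℕ) {ε : ℝ} (h0 : 0 < ε) (h1 : ε < 1) : |Tk' k ε| ≤ 1296 / mm k ^ 4 := by
  have h := Tk_le k h0 h1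
  have hs := sin_pos' h0 h1
  have hc := cos_ge' h0 h1
  have hc1 : Real.cos ε ≤ 1 := Real.cos_le_one ε
  have hs1 : Real.sin ε ≤ 1 := Real.sin_le_one ε
  have hm := mm_ge k
  have hT := Tk_nonneg k ε
  unfold Tk'
  rw [abs_mul, abs_of_nonneg hT]
  refine le_trans ?_ h
  apply mul_le_mul_of_nonneg_left _ hT
  have hpi : Real.pi < 3.15 := Real.pi_lt_d2
  have hm2 : 1 ≤ mm k ^ 2 := one_le_pow₀ hm
  have a1 : Real.cos ε / (2 * Real.sin ε) ≤ (1/2) * (mm k ^ 2 / Real.sin ε ^ 2) := by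
    rw [← mul_div_assoc, div_le_div_iff₀ (by positivity) (by positivity)]
    have : Real.cos ε * Real.sin ε ≤ mm k ^ 2 := by nlinarith
    nlinarith
  have a2 : 0 ≤ Real.cos ε / (2 * Real.sin ε) := by positivity
  have a3 : (Real.pi / 8) * (mm k) ^ 2 / Real.sin ε ^ 2 = (Real.pi / 8) * ((mm k) ^ 2 / Real.sin ε ^ 2) := by ring
  have a4 : 0 ≤ (mm k) ^ 2 / Real.sin ε ^ 2 := by positivity
  rw [a3, abs_le]
  constructor
  · nlinarith [Real.pi_pos]
  · nlinarith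

lemma summ : Summable (fun k : ℕ => 1296 / mm k ^ 4) := by
  have h : Summable (fun k : ℕ => 1 / ((k : ℝ)) ^ 4) := Real.summable_one_div_nat_pow.mpr (by norm_num)
  have h2 := (summable_nat_add_iff 1).mpr h
  refine Summable.of_nonneg_of_le (fun k => by have := mm_ge k; positivity) (fun k => ?_) (h2.mul_left 1296)
  have hk : (0:ℝ) ≤ k := Nat.cast_nonneg k
  have : ((k + 1 : ℕ) : ℝ) ≤ mm k := by unfold mm; push_cast; linarith
  rw [mul_one_div]
  apply div_le_div_of_nonneg_left (by norm_num) (by positivity)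
  exact pow_le_pow_left₀ (by positivity) this 4

/-- the constant -/
noncomputable def Cq : ℝ := 2 * ∑' k : ℕ, 1296 / mm k ^ 4

lemma Cq_nonneg : 0 ≤ Cq := by
  unfold Cq
  exact mul_nonneg (by norm_num) (tsum_nonneg (fun k => by have := mm_ge k; positivity))

noncomputable def q' (ε : ℝ) : ℝ := ∑' k : ℕ, 2 * (sg k * Tk' k ε)

lemma summ_Tk {ε : ℝ} (h0 : 0 < ε) (h1 : ε < 1) : Summable (fun k : ℕ => 2 * (sg k * Tk k ε)) := by
  apply Summable.of_norm_bounded (g := fun k => 2 * (ε * (1296 / mm k ^ 4))) ((summ.mul_left ε).mul_left 2)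
  intro k
  rw [Real.norm_eq_abs, abs_mul, abs_mul, abs_of_nonneg (Tk_nonneg k ε), abs_of_pos (by norm_num : (0:ℝ) < 2)]
  have := Tk_le1 k h0 h1
  have h2 := sg_abs k
  have h3 := Tk_nonneg k ε
  have h4 := abs_nonneg (sg k)
  nlinarith

lemma q_hasDeriv {ε : ℝ} (h0 : 0 < ε) (h1 : ε < 1) : HasDerivAt q (q' ε) ε := by
  have h : HasDerivAt (fun z => ∑' k : ℕ, 2 * (sg k * Tk k z)) (∑' k : ℕ, 2 * (sg k * Tk' k ε)) ε := by
    refine hasDerivAt_tsum_of_isPreconnected (g := fun (k : ℕ) (z : ℝ) => 2 * (sg k * Tk k z))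
      (g' := fun (k : ℕ) (z : ℝ) => 2 * (sg k * Tk' k z))
      (u := fun k => 2 * (1296 / mm k ^ 4)) (t := Ioo 0 1) (y₀ := ε)
      (summ.mul_left 2) isOpen_Ioo isPreconnected_Ioo ?_ ?_ ⟨h0, h1⟩ (summ_Tk h0 h1) ⟨h0, h1⟩
    · intro n y hy
      exact ((Tk_deriv n hy.1 hy.2).const_mul (sg n)).const_mul 2
    · intro n y hy
      rw [Real.norm_eq_abs, abs_mul, abs_mul, abs_of_pos (by norm_num : (0:ℝ) < 2)]
      have := Tk'_le n hy.1 hy.2
      have h2 := sg_abs n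
      have h4 := abs_nonneg (sg n)
      have h5 := abs_nonneg (Tk' n y)
      nlinarith
  have e : q = fun z => ∑' k : ℕ, 2 * (sg k * Tk k z) := by funext z; exact q_eq z
  rw [e]
  exact h

lemma q'_bound {ε : ℝ} (h0 : 0 < ε) (h1 : ε < 1) : |q' ε| ≤ Cq := by
  have e : Cq = ∑' k : ℕ, 2 * (1296 / mm k ^ 4) := by unfold Cq; rw [tsum_mul_left]
  rw [e, ← Real.norm_eq_abs]
  unfold q'
  refine tsum_of_norm_bounded (summ.mul_left 2).hasSum ?_
  intro n
  rw [Real.norm_eq_abs, abs_mul, abs_mul, abs_of_pos (by norm_num : (0:ℝ) < 2)]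
  have := Tk'_le n h0 h1
  have h2 := sg_abs n
  have h4 := abs_nonneg (sg n)
  have h5 := abs_nonneg (Tk' n ε)
  nlinarith

lemma q_bound {ε : ℝ} (h0 : 0 < ε) (h1 : ε < 1) : |q ε| ≤ Cq * ε := by
  have e : Cq * ε = ∑' k : ℕ, 2 * ((1296 / mm k ^ 4) * ε) := by
    unfold Cq; rw [tsum_mul_left, tsum_mul_right, mul_assoc]
  rw [q_eq, e, ← Real.norm_eq_abs]
  refine tsum_of_norm_bounded ((summ.mul_right ε).mul_left 2).hasSum ?_
  intro k
  rw [Real.norm_eq_abs, abs_mul, abs_mul, abs_of_nonneg (Tk_nonneg k ε), abs_of_pos (by norm_num : (0:ℝ) < 2)]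
  have := Tk_le1 k h0 h1
  have h2 := sg_abs k
  have h3 := Tk_nonneg k ε
  have h4 := abs_nonneg (sg k)
  nlinarith

end Pool.Agent.Helper625.Fl

namespace Pool.Agent.Helper625.Fl
open MeasureTheory Filter Topology Set

lemma q_nonneg {ε : ℝ} (h0 : 0 < ε) (h1 : ε ≤ Real.pi / 4) : 0 ≤ q ε := by
  have hpi := Real.pi_gt_three
  have hs : 0 < Real.sin ε := Real.sin_pos_of_pos_of_lt_pi h0 (by linarith)
  have hc : Real.sin ε ≤ Real.cos ε := by
    have e1 : Real.sin ε ≤ Real.sin (Real.pi / 4) :=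
      Real.sin_le_sin_of_le_of_le_pi_div_two (by linarith) (by linarith) h1
    have e2 : Real.cos (Real.pi / 4) ≤ Real.cos ε :=
      Real.cos_le_cos_of_nonneg_of_le_pi h0.le (by linarith) h1
    rw [Real.sin_pi_div_four] at e1
    rw [Real.cos_pi_div_four] at e2
    linarith
  set c := Real.cos ε / Real.sin ε with hcdef
  have hc1 : 1 ≤ c := by rw [hcdef, le_div_iff₀ hs]; linarith
  unfold q
  apply mul_nonneg (by positivity)
  rw [← hcdef]
  set f : ℕ → ℝ := fun k => sg k * Real.exp (-(Real.pi / 8) * (2 * k + 1) ^ 2 * c) with hf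
  set E0 := Real.exp (-(Real.pi / 8) * c) with hE0
  set r := Real.exp (-Real.pi * c) with hr
  have hE0p : 0 < E0 := Real.exp_pos _
  have hr0 : 0 < r := Real.exp_pos _
  have hr1 : r ≤ 1 / 2 := by
    have : Real.exp (-Real.pi * c) ≤ Real.exp (-1) := by
      apply Real.exp_le_exp.mpr; nlinarith
    have h2 : Real.exp (-1) ≤ 1 / 2 := by
      rw [Real.exp_neg]
      have := Real.add_one_le_exp (1:ℝ)
      rw [inv_le_comm₀ (Real.exp_pos 1) (by norm_num)]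
      linarith
    linarith
  have hbound : ∀ k : ℕ, |f k| ≤ E0 * r ^ k := by
    intro k
    simp only [hf]
    rw [abs_mul, abs_of_pos (Real.exp_pos _)]
    have h2 := sg_abs k
    have h3 : Real.exp (-(Real.pi / 8) * (2 * k + 1) ^ 2 * c) ≤ E0 * r ^ k := by
      rw [hE0, hr, ← Real.exp_nat_mul, ← Real.exp_add]
      apply Real.exp_le_exp.mpr
      have hk : (k : ℝ) ≤ k ^ 2 := by
        rcases Nat.eq_zero_or_pos k with h | h
        · simp [h]
        · have : (1:ℝ) ≤ k := by exact_mod_cast h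
          nlinarith
      have : 0 ≤ Real.pi * c * ((k:ℝ) ^ 2 - k) := by
        apply mul_nonneg (by positivity); linarith
      nlinarith
    calc |sg k| * Real.exp (-(Real.pi / 8) * (2 * k + 1) ^ 2 * c) ≤ 1 * (E0 * r ^ k) :=
          mul_le_mul h2 h3 (Real.exp_pos _).le (by norm_num)
      _ = _ := one_mul _
  have hgeo : Summable (fun k : ℕ => E0 * r ^ k) := (summable_geometric_of_lt_one hr0.le (by linarith)).mul_left E0
  have hsf : Summable f := Summable.of_norm_bounded hgeo (fun k => by rw [Real.norm_eq_abs]; exact hbound k)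
  rw [hsf.tsum_eq_zero_add]
  have hf0 : f 0 = E0 := by simp [hf, sg_zero, hE0]
  rw [hf0]
  have htail : |∑' k : ℕ, f (k + 1)| ≤ E0 := by
    have hgeo1 : HasSum (fun k : ℕ => E0 * r * r ^ k) (E0 * r * (1 - r)⁻¹) :=
      (hasSum_geometric_of_lt_one hr0.le (by linarith)).mul_left _
    have h5 : ‖∑' k : ℕ, f (k + 1)‖ ≤ E0 * r * (1 - r)⁻¹ := by
      refine tsum_of_norm_bounded hgeo1 ?_
      intro k
      rw [Real.norm_eq_abs]
      refine (hbound (k+1)).trans (le_of_eq ?_)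
      rw [pow_succ]; ring
    rw [Real.norm_eq_abs] at h5
    refine h5.trans ?_
    rw [mul_assoc]
    have : r * (1 - r)⁻¹ ≤ 1 := by
      rw [← div_eq_mul_inv, div_le_one (by linarith)]; linarith
    calc E0 * (r * (1 - r)⁻¹) ≤ E0 * 1 := mul_le_mul_of_nonneg_left this hE0p.le
      _ = E0 := mul_one _
  have := abs_le.mp htail
  linarith [this.1]

end Pool.Agent.Helper625.Fl
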