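import Mathlib

namespace Pool.Agent.Helper625.Gam
open Complex Filter Topology Finset

lemma norm_sq_add (c y : ℝ) (j : ℕ) : ‖((c : ℂ) + (y : ℂ) * I) + (j : ℂ)‖ ^ 2 = ((j : ℝ) + c) ^ 2 + y ^ 2 := by
  rw [← Complex.normSq_eq_norm_sq, Complex.normSq_apply]
  simp
  ring

lemma norm_sin_sq (y : ℝ) : ‖Complex.sin (Real.pi * ((1 / 4 : ℝ) + (y : ℂ) * I))‖ ^ 2 = Real.cosh (2 * Real.pi * y) / 2 := by
  have h1 : (Real.pi : ℂ) * ((1 / 4 : ℝ) + (y : ℂ) * I) = ((Real.pi / 4 : ℝ) : ℂ) + ((Real.pi * y : ℝ) : ℂ) * I := by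
    push_cast; ring
  have h2 : Real.cosh (2 * Real.pi * y) = Real.cosh (Real.pi * y) ^ 2 + Real.sinh (Real.pi * y) ^ 2 := by
    rw [show 2 * Real.pi * y = 2 * (Real.pi * y) by ring, Real.cosh_two_mul]
  have h3 : (√2 : ℝ) * √2 = 2 := Real.mul_self_sqrt (by norm_num)
  rw [h1, Complex.sin_add_mul_I]
  have h4 : Complex.sin ((Real.pi / 4 : ℝ) : ℂ) * Complex.cosh ((Real.pi * y : ℝ) : ℂ) +
      Complex.cos ((Real.pi / 4 : ℝ) : ℂ) * Complex.sinh ((Real.pi * y : ℝ) : ℂ) * I =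
      ((√2 / 2 * Real.cosh (Real.pi * y) : ℝ) : ℂ) + ((√2 / 2 * Real.sinh (Real.pi * y) : ℝ) : ℂ) * I := by
    rw [← Complex.ofReal_sin, ← Complex.ofReal_cos, ← Complex.ofReal_cosh, ← Complex.ofReal_sinh,
      Real.sin_pi_div_four, Real.cos_pi_div_four]
    push_cast; ring
  rw [h4, ← Complex.normSq_eq_norm_sq, Complex.normSq_add_mul_I, h2]
  nlinarith [h3]

lemma norm_Gamma_mul (y : ℝ) :
    ‖Gamma ((1 / 4 : ℝ) + (y : ℂ) * I)‖ ^ 4 * ‖Gamma ((3 / 4 : ℝ) + (y : ℂ) * I)‖ ^ 4 *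
      Real.cosh (2 * Real.pi * y) ^ 2 = 4 * Real.pi ^ 4 := by
  have h := Complex.Gamma_mul_Gamma_one_sub ((1 / 4 : ℝ) + (y : ℂ) * I)
  have h1 : (1 : ℂ) - ((1 / 4 : ℝ) + (y : ℂ) * I) = (starRingEnd ℂ) ((3 / 4 : ℝ) + (y : ℂ) * I) := by
    rw [map_add, map_mul, Complex.conj_ofReal, Complex.conj_ofReal, Complex.conj_I]
    push_cast; ring
  rw [h1, Complex.Gamma_conj] at h
  have h2 := congrArg norm h
  rw [norm_mul, Complex.norm_conj, norm_div] at h2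
  have h3 := norm_sin_sq y
  set s := ‖Complex.sin (Real.pi * ((1 / 4 : ℝ) + (y : ℂ) * I))‖ with hs
  have hc : 0 < Real.cosh (2 * Real.pi * y) := Real.cosh_pos _
  have hs0 : s ≠ 0 := by
    intro h0; rw [h0] at h3; simp at h3; linarith
  have hp : ‖(Real.pi : ℂ)‖ = Real.pi := by
    rw [Complex.norm_real, Real.norm_of_nonneg Real.pi_pos.le]
  rw [hp, eq_div_iff hs0] at h2
  have hc2 : Real.cosh (2 * Real.pi * y) = 2 * s ^ 2 := by linarith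
  rw [hc2]
  calc _ = 4 * (‖Gamma ((1 / 4 : ℝ) + (y : ℂ) * I)‖ * ‖Gamma ((3 / 4 : ℝ) + (y : ℂ) * I)‖ * s) ^ 4 := by ring
    _ = _ := by rw [h2]

lemma prod_upper (y : ℝ) (n : ℕ) :
    (∏ j ∈ range n, (((j : ℝ) + 1 / 4) ^ 2 + y ^ 2) ^ 2) * ((n : ℝ) ^ 2 + y ^ 2 + 1 / 16) ≤
    (y ^ 2 + 1 / 16) * ∏ j ∈ range n, (((j : ℝ) + 3 / 4) ^ 2 + y ^ 2) ^ 2 := by
  induction n with
  | zero => simp
  | succ n ih =>
    rw [prod_range_succ, prod_range_succ]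
    set P := ∏ j ∈ range n, (((j : ℝ) + 1 / 4) ^ 2 + y ^ 2) ^ 2
    set Q := ∏ j ∈ range n, (((j : ℝ) + 3 / 4) ^ 2 + y ^ 2) ^ 2
    have hP : 0 ≤ P := prod_nonneg (fun j _ => by positivity)
    push_cast
    have key : (((n : ℝ) + 1 / 4) ^ 2 + y ^ 2) ^ 2 * (((n : ℝ) + 1) ^ 2 + y ^ 2 + 1 / 16) ≤
        (((n : ℝ) + 3 / 4) ^ 2 + y ^ 2) ^ 2 * ((n : ℝ) ^ 2 + y ^ 2 + 1 / 16) := by
      have hn : (0 : ℝ) ≤ n := Nat.cast_nonneg n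
      have hy : 0 ≤ y ^ 2 := sq_nonneg y
      have : (((n : ℝ) + 3 / 4) ^ 2 + y ^ 2) ^ 2 * ((n : ℝ) ^ 2 + y ^ 2 + 1 / 16) -
        (((n : ℝ) + 1 / 4) ^ 2 + y ^ 2) ^ 2 * (((n : ℝ) + 1) ^ 2 + y ^ 2 + 1 / 16) =
        (n + 1 / 2) * (1 / 2) * (y ^ 2 + 1 / 16) := by ring
      have h0 : 0 ≤ ((n : ℝ) + 1 / 2) * (1 / 2) * (y ^ 2 + 1 / 16) := by positivity
      linarith
    calc P * (((n : ℝ) + 1 / 4) ^ 2 + y ^ 2) ^ 2 * (((n : ℝ) + 1) ^ 2 + y ^ 2 + 1 / 16)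
        = P * ((((n : ℝ) + 1 / 4) ^ 2 + y ^ 2) ^ 2 * (((n : ℝ) + 1) ^ 2 + y ^ 2 + 1 / 16)) := by ring
      _ ≤ P * ((((n : ℝ) + 3 / 4) ^ 2 + y ^ 2) ^ 2 * ((n : ℝ) ^ 2 + y ^ 2 + 1 / 16)) :=
          mul_le_mul_of_nonneg_left key hP
      _ = (P * ((n : ℝ) ^ 2 + y ^ 2 + 1 / 16)) * (((n : ℝ) + 3 / 4) ^ 2 + y ^ 2) ^ 2 := by ring
      _ ≤ ((y ^ 2 + 1 / 16) * Q) * (((n : ℝ) + 3 / 4) ^ 2 + y ^ 2) ^ 2 :=
          mul_le_mul_of_nonneg_right ih (by positivity)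
      _ = _ := by ring

/-- the lower constant -/
noncomputable def mlow (y : ℝ) : ℝ := -3 / 16 + 1 / (5 + 16 * y ^ 2)

lemma mlow_pos (y : ℝ) : 0 < y ^ 2 + mlow y := by
  unfold mlow
  have h : 0 < 5 + 16 * y ^ 2 := by positivity
  have : y ^ 2 + (-3 / 16 + 1 / (5 + 16 * y ^ 2)) = (16 * y ^ 2 + 1) ^ 2 / (16 * (5 + 16 * y ^ 2)) := by
    field_simp; ring
  rw [this]; positivity

lemma prod_lower (y : ℝ) (n : ℕ) :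
    (y ^ 2 + mlow y) * (∏ j ∈ range n, (((j : ℝ) + 3 / 4) ^ 2 + y ^ 2) ^ 2) ≤
    (∏ j ∈ range n, (((j : ℝ) + 1 / 4) ^ 2 + y ^ 2) ^ 2) * ((n : ℝ) ^ 2 + y ^ 2 + mlow y) := by
  induction n with
  | zero => simp
  | succ n ih =>
    rw [prod_range_succ, prod_range_succ]
    set P := ∏ j ∈ range n, (((j : ℝ) + 1 / 4) ^ 2 + y ^ 2) ^ 2
    set Q := ∏ j ∈ range n, (((j : ℝ) + 3 / 4) ^ 2 + y ^ 2) ^ 2
    have hP : 0 ≤ P := prod_nonneg (fun j _ => by positivity)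
    push_cast
    have hm : 5 + 16 * y ^ 2 ≠ 0 := by positivity
    have hmm : (5 + 16 * y ^ 2) * (mlow y + 3 / 16) = 1 := by
      unfold mlow; field_simp; ring
    have hpos : 0 < mlow y + 3 / 16 := by
      have : mlow y + 3 / 16 = 1 / (5 + 16 * y ^ 2) := by unfold mlow; ring
      rw [this]; positivity
    have key : (((n : ℝ) + 3 / 4) ^ 2 + y ^ 2) ^ 2 * ((n : ℝ) ^ 2 + y ^ 2 + mlow y) ≤
        (((n : ℝ) + 1 / 4) ^ 2 + y ^ 2) ^ 2 * (((n : ℝ) + 1) ^ 2 + y ^ 2 + mlow y) := by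
      have hn : (0 : ℝ) ≤ n := Nat.cast_nonneg n
      have hy : 0 ≤ y ^ 2 := sq_nonneg y
      set m := mlow y
      have e1 : (((n : ℝ) + 1 / 4) ^ 2 + y ^ 2) ^ 2 * (((n : ℝ) + 1) ^ 2 + y ^ 2 + m) -
        (((n : ℝ) + 3 / 4) ^ 2 + y ^ 2) ^ 2 * ((n : ℝ) ^ 2 + y ^ 2 + m) =
        ((n : ℝ) + 1 / 2) * ((((n : ℝ) + 1 / 2) ^ 2) / 2 - 2 * (((n : ℝ) + 1 / 2) ^ 2 + y ^ 2 + 1 / 16) * (m + 3 / 16)) := by ring
      have e2 : 2 * (((n : ℝ) + 1 / 2) ^ 2 + y ^ 2 + 1 / 16) * (m + 3 / 16) ≤ (((n : ℝ) + 1 / 2) ^ 2) / 2 := by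
        have : (((n : ℝ) + 1 / 2) ^ 2) / 2 = (((n : ℝ) + 1 / 2) ^ 2) / 2 * ((5 + 16 * y ^ 2) * (m + 3 / 16)) := by
          rw [hmm]; ring
        rw [this, ← mul_assoc]
        apply mul_le_mul_of_nonneg_right _ hpos.le
        nlinarith [mul_nonneg hn hy, mul_nonneg hn hn, mul_nonneg (mul_nonneg hn hn) hy]
      have : 0 ≤ ((n : ℝ) + 1 / 2) * ((((n : ℝ) + 1 / 2) ^ 2) / 2 - 2 * (((n : ℝ) + 1 / 2) ^ 2 + y ^ 2 + 1 / 16) * (m + 3 / 16)) :=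
        mul_nonneg (by positivity) (by linarith)
      linarith
    calc (y ^ 2 + mlow y) * (Q * (((n : ℝ) + 3 / 4) ^ 2 + y ^ 2) ^ 2)
        = ((y ^ 2 + mlow y) * Q) * (((n : ℝ) + 3 / 4) ^ 2 + y ^ 2) ^ 2 := by ring
      _ ≤ (P * ((n : ℝ) ^ 2 + y ^ 2 + mlow y)) * (((n : ℝ) + 3 / 4) ^ 2 + y ^ 2) ^ 2 :=
          mul_le_mul_of_nonneg_right ih (by positivity)
      _ = P * ((((n : ℝ) + 3 / 4) ^ 2 + y ^ 2) ^ 2 * ((n : ℝ) ^ 2 + y ^ 2 + mlow y)) := by ring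
      _ ≤ P * ((((n : ℝ) + 1 / 4) ^ 2 + y ^ 2) ^ 2 * (((n : ℝ) + 1) ^ 2 + y ^ 2 + mlow y)) :=
          mul_le_mul_of_nonneg_left key hP
      _ = _ := by ring

lemma norm_GammaSeq (c y : ℝ) (hc : 0 < c) (n : ℕ) (hn : 0 < n) :
    ‖GammaSeq ((c : ℂ) + (y : ℂ) * I) n‖ ^ 4 * (∏ j ∈ range (n + 1), (((j : ℝ) + c) ^ 2 + y ^ 2) ^ 2) =
      ((n : ℝ) ^ c) ^ 4 * (n.factorial : ℝ) ^ 4 := by
  unfold GammaSeq
  rw [norm_div, norm_mul, div_pow, mul_pow, norm_prod, ← prod_pow]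
  have h1 : ‖((n : ℂ)) ^ ((c : ℂ) + (y : ℂ) * I)‖ = (n : ℝ) ^ c := by
    rw [Complex.norm_natCast_cpow_of_pos hn]
    simp
  have h2 : ‖(n.factorial : ℂ)‖ = (n.factorial : ℝ) := by simp
  rw [h1, h2]
  have h3 : ∏ j ∈ range (n + 1), ‖((c : ℂ) + (y : ℂ) * I) + (j : ℂ)‖ ^ 4 =
      ∏ j ∈ range (n + 1), (((j : ℝ) + c) ^ 2 + y ^ 2) ^ 2 := by
    apply prod_congr rfl
    intro j _
    rw [← norm_sq_add]; ring
  rw [h3]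
  have h4 : (∏ j ∈ range (n + 1), (((j : ℝ) + c) ^ 2 + y ^ 2) ^ 2) ≠ 0 := by
    apply prod_ne_zero_iff.mpr
    intro j _
    have : (0 : ℝ) ≤ j := Nat.cast_nonneg j
    positivity
  field_simp

lemma seq_upper (y : ℝ) (n : ℕ) (hn : 0 < n) :
    ‖GammaSeq ((3 / 4 : ℝ) + (y : ℂ) * I) n‖ ^ 4 ≤
      ‖GammaSeq ((1 / 4 : ℝ) + (y : ℂ) * I) n‖ ^ 4 * (y ^ 2 + 1 / 16) := by
  have h1 := norm_GammaSeq (1 / 4) y (by norm_num) n hn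
  have h3 := norm_GammaSeq (3 / 4) y (by norm_num) n hn
  have hu := prod_upper y (n + 1)
  set P := ∏ j ∈ range (n + 1), (((j : ℝ) + 1 / 4) ^ 2 + y ^ 2) ^ 2
  set Q := ∏ j ∈ range (n + 1), (((j : ℝ) + 3 / 4) ^ 2 + y ^ 2) ^ 2
  set A := ‖GammaSeq (((1 / 4 : ℝ) : ℂ) + (y : ℂ) * I) n‖ ^ 4
  set B := ‖GammaSeq (((3 / 4 : ℝ) : ℂ) + (y : ℂ) * I) n‖ ^ 4
  have hn' : (0 : ℝ) < n := by exact_mod_cast hn
  have e1 : ((n : ℝ) ^ (1 / 4 : ℝ)) ^ 4 = n := by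
    rw [← Real.rpow_natCast, ← Real.rpow_mul hn'.le]; norm_num
  have e3 : ((n : ℝ) ^ (3 / 4 : ℝ)) ^ 4 = (n : ℝ) ^ 3 := by
    rw [← Real.rpow_natCast, ← Real.rpow_mul hn'.le]; norm_num
  rw [e1] at h1
  rw [e3] at h3
  have hA : 0 ≤ A := by positivity
  have hQ : 0 < Q := prod_pos (fun j _ => by positivity)
  have e4 : B * Q = (n : ℝ) ^ 2 * (A * P) := by rw [h1, h3]; ring
  push_cast at hu
  have hD : 0 < ((n : ℝ) + 1) ^ 2 + y ^ 2 + 1 / 16 := by positivity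
  have step : B * Q * (((n : ℝ) + 1) ^ 2 + y ^ 2 + 1 / 16) ≤ (A * (y ^ 2 + 1 / 16)) * Q * (((n : ℝ) + 1) ^ 2 + y ^ 2 + 1 / 16) := by
    calc B * Q * (((n : ℝ) + 1) ^ 2 + y ^ 2 + 1 / 16)
        = (n : ℝ) ^ 2 * A * (P * (((n : ℝ) + 1) ^ 2 + y ^ 2 + 1 / 16)) := by rw [e4]; ring
      _ ≤ (n : ℝ) ^ 2 * A * ((y ^ 2 + 1 / 16) * Q) := mul_le_mul_of_nonneg_left hu (by positivity)
      _ = (A * (y ^ 2 + 1 / 16)) * Q * (n : ℝ) ^ 2 := by ring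
      _ ≤ _ := by
        apply mul_le_mul_of_nonneg_left _ (by positivity)
        nlinarith [sq_nonneg y]
  have s2 := le_of_mul_le_mul_right step hD
  exact le_of_mul_le_mul_right s2 hQ

lemma seq_lower (y : ℝ) (n : ℕ) (hn : 0 < n) :
    ‖GammaSeq ((1 / 4 : ℝ) + (y : ℂ) * I) n‖ ^ 4 * (y ^ 2 + mlow y) ≤
    ‖GammaSeq ((3 / 4 : ℝ) + (y : ℂ) * I) n‖ ^ 4 * ((((n : ℝ) + 1) ^ 2 + y ^ 2 + mlow y) / (n : ℝ) ^ 2) := by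
  have h1 := norm_GammaSeq (1 / 4) y (by norm_num) n hn
  have h3 := norm_GammaSeq (3 / 4) y (by norm_num) n hn
  have hu := prod_lower y (n + 1)
  set P := ∏ j ∈ range (n + 1), (((j : ℝ) + 1 / 4) ^ 2 + y ^ 2) ^ 2
  set Q := ∏ j ∈ range (n + 1), (((j : ℝ) + 3 / 4) ^ 2 + y ^ 2) ^ 2
  set A := ‖GammaSeq (((1 / 4 : ℝ) : ℂ) + (y : ℂ) * I) n‖ ^ 4
  set B := ‖GammaSeq (((3 / 4 : ℝ) : ℂ) + (y : ℂ) * I) n‖ ^ 4
  have hn' : (0 : ℝ) < n := by exact_mod_cast hn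
  have e1 : ((n : ℝ) ^ (1 / 4 : ℝ)) ^ 4 = n := by
    rw [← Real.rpow_natCast, ← Real.rpow_mul hn'.le]; norm_num
  have e3 : ((n : ℝ) ^ (3 / 4 : ℝ)) ^ 4 = (n : ℝ) ^ 3 := by
    rw [← Real.rpow_natCast, ← Real.rpow_mul hn'.le]; norm_num
  rw [e1] at h1
  rw [e3] at h3
  have hA : 0 ≤ A := by positivity
  have hQ : 0 < Q := prod_pos (fun j _ => by positivity)
  have e4 : B * Q = (n : ℝ) ^ 2 * (A * P) := by rw [h1, h3]; ring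
  push_cast at hu
  rw [← mul_div_assoc, le_div_iff₀ (by positivity)]
  have step : A * (y ^ 2 + mlow y) * (n : ℝ) ^ 2 * Q ≤ B * (((n : ℝ) + 1) ^ 2 + y ^ 2 + mlow y) * Q := by
    calc A * (y ^ 2 + mlow y) * (n : ℝ) ^ 2 * Q
        = (n : ℝ) ^ 2 * A * ((y ^ 2 + mlow y) * Q) := by ring
      _ ≤ (n : ℝ) ^ 2 * A * (P * (((n : ℝ) + 1) ^ 2 + y ^ 2 + mlow y)) := mul_le_mul_of_nonneg_left hu (by positivity)
      _ = ((n : ℝ) ^ 2 * (A * P)) * (((n : ℝ) + 1) ^ 2 + y ^ 2 + mlow y) := by ring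
      _ = _ := by rw [← e4]; ring
  exact le_of_mul_le_mul_right step hQ

lemma Gamma_ratio_upper (y : ℝ) :
    ‖Gamma ((3 / 4 : ℝ) + (y : ℂ) * I)‖ ^ 4 ≤ ‖Gamma ((1 / 4 : ℝ) + (y : ℂ) * I)‖ ^ 4 * (y ^ 2 + 1 / 16) := by
  have h1 := ((Complex.GammaSeq_tendsto_Gamma ((1 / 4 : ℝ) + (y : ℂ) * I)).norm.pow 4).mul_const (y ^ 2 + 1 / 16)
  have h3 := ((Complex.GammaSeq_tendsto_Gamma ((3 / 4 : ℝ) + (y : ℂ) * I)).norm.pow 4)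
  refine le_of_tendsto_of_tendsto h3 h1 ?_
  filter_upwards [eventually_gt_atTop 0] with n hn
  exact seq_upper y n hn

lemma Gamma_ratio_lower (y : ℝ) :
    ‖Gamma ((1 / 4 : ℝ) + (y : ℂ) * I)‖ ^ 4 * (y ^ 2 + mlow y) ≤ ‖Gamma ((3 / 4 : ℝ) + (y : ℂ) * I)‖ ^ 4 := by
  have h1 := ((Complex.GammaSeq_tendsto_Gamma ((1 / 4 : ℝ) + (y : ℂ) * I)).norm.pow 4).mul_const (y ^ 2 + mlow y)
  have h3 := ((Complex.GammaSeq_tendsto_Gamma ((3 / 4 : ℝ) + (y : ℂ) * I)).norm.pow 4)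
  have h4 : Tendsto (fun n : ℕ => (((n : ℝ) + 1) ^ 2 + y ^ 2 + mlow y) / (n : ℝ) ^ 2) atTop (𝓝 1) := by
    have e : (fun n : ℕ => (((n : ℝ) + 1) ^ 2 + y ^ 2 + mlow y) / (n : ℝ) ^ 2) =ᶠ[atTop]
        (fun n : ℕ => 1 + 2 * ((n : ℝ))⁻¹ + (1 + y ^ 2 + mlow y) * (((n : ℝ))⁻¹ * ((n : ℝ))⁻¹)) := by
      filter_upwards [eventually_gt_atTop 0] with n hn
      have hn' : (0 : ℝ) < n := by exact_mod_cast hn
      field_simp; ring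
    refine Tendsto.congr' e.symm ?_
    have hi : Tendsto (fun n : ℕ => ((n : ℝ))⁻¹) atTop (𝓝 0) := tendsto_inv_atTop_zero.comp tendsto_natCast_atTop_atTop
    have := (((hi.const_mul 2).const_add 1)).add ((hi.mul hi).const_mul (1 + y ^ 2 + mlow y))
    simpa using this
  have h5 := h3.mul h4
  rw [mul_one] at h5
  refine le_of_tendsto_of_tendsto h1 h5 ?_
  filter_upwards [eventually_gt_atTop 0] with n hn
  exact seq_lower y n hn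

/-- modulus of Gamma on the line -/
noncomputable def g (t : ℝ) : ℝ := ‖Gamma (((1 / 4 : ℝ) : ℂ) + ((t / 2 : ℝ) : ℂ) * I)‖

lemma g_pos (t : ℝ) : 0 < g t := by
  unfold g
  apply norm_pos_iff.mpr
  apply Complex.Gamma_ne_zero_of_re_pos
  simp

lemma g_upper (t : ℝ) :
    g t ^ 8 * Real.cosh (Real.pi * t) ^ 2 * (4 * t ^ 2 + 1) ^ 2 ≤ 64 * Real.pi ^ 4 * (4 * t ^ 2 + 5) := by
  have h := norm_Gamma_mul (t / 2)
  have hl := Gamma_ratio_lower (t / 2)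
  rw [show 2 * Real.pi * (t / 2) = Real.pi * t by ring] at h
  have hg : g t = ‖Gamma (((1 / 4 : ℝ) : ℂ) + ((t / 2 : ℝ) : ℂ) * I)‖ := rfl
  rw [← hg] at h hl
  have hm : (t / 2) ^ 2 + mlow (t / 2) = (4 * t ^ 2 + 1) ^ 2 / (16 * (5 + 4 * t ^ 2)) := by
    unfold mlow
    have : 5 + 16 * (t / 2) ^ 2 = 5 + 4 * t ^ 2 := by ring
    rw [this]
    have h5 : (5 + 4 * t ^ 2) ≠ 0 := by positivity
    field_simp; ring
  rw [hm] at hl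
  set b := ‖Gamma (((3 / 4 : ℝ) : ℂ) + ((t / 2 : ℝ) : ℂ) * I)‖
  have hg0 : 0 < g t := g_pos t
  have h16 : 0 < 16 * (5 + 4 * t ^ 2) := by positivity
  have hl2 : g t ^ 4 * (4 * t ^ 2 + 1) ^ 2 ≤ b ^ 4 * (16 * (5 + 4 * t ^ 2)) := by
    rw [← mul_div_assoc, div_le_iff₀ h16] at hl
    exact hl
  calc g t ^ 8 * Real.cosh (Real.pi * t) ^ 2 * (4 * t ^ 2 + 1) ^ 2
      = (g t ^ 4 * (4 * t ^ 2 + 1) ^ 2) * (g t ^ 4 * Real.cosh (Real.pi * t) ^ 2) := by ring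
    _ ≤ (b ^ 4 * (16 * (5 + 4 * t ^ 2))) * (g t ^ 4 * Real.cosh (Real.pi * t) ^ 2) :=
        mul_le_mul_of_nonneg_right hl2 (by positivity)
    _ = (g t ^ 4 * b ^ 4 * Real.cosh (Real.pi * t) ^ 2) * (16 * (5 + 4 * t ^ 2)) := by ring
    _ = _ := by rw [h]; ring

lemma g_lower (t : ℝ) :
    64 * Real.pi ^ 4 ≤ g t ^ 8 * Real.cosh (Real.pi * t) ^ 2 * (4 * t ^ 2 + 1) := by
  have h := norm_Gamma_mul (t / 2)
  have hl := Gamma_ratio_upper (t / 2)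
  rw [show 2 * Real.pi * (t / 2) = Real.pi * t by ring] at h
  have hg : g t = ‖Gamma (((1 / 4 : ℝ) : ℂ) + ((t / 2 : ℝ) : ℂ) * I)‖ := rfl
  rw [← hg] at h hl
  set b := ‖Gamma (((3 / 4 : ℝ) : ℂ) + ((t / 2 : ℝ) : ℂ) * I)‖
  have hg0 : 0 < g t := g_pos t
  calc 64 * Real.pi ^ 4 = 16 * (g t ^ 4 * b ^ 4 * Real.cosh (Real.pi * t) ^ 2) := by rw [h]; ring
    _ = 16 * (g t ^ 4 * Real.cosh (Real.pi * t) ^ 2) * b ^ 4 := by ring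
    _ ≤ 16 * (g t ^ 4 * Real.cosh (Real.pi * t) ^ 2) * (g t ^ 4 * ((t / 2) ^ 2 + 1 / 16)) :=
        mul_le_mul_of_nonneg_left hl (by positivity)
    _ = _ := by ring

end Pool.Agent.Helper625.Gam
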