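import Mathlib
import Pool.Agent.Helper625.Planch

namespace Pool.Agent.Helper625.ZF
open Complex MeasureTheory Filter Topology Set FourierTransform

noncomputable def f1 : ℝ → ℂ := (Ioi (1:ℝ)).indicator (fun x => ((Int.fract x : ℝ) : ℂ))

lemma norm_f1_le (x : ℝ) : ‖f1 x‖ ≤ 1 := by
  unfold f1
  by_cases h : x ∈ Ioi (1:ℝ)
  · rw [indicator_of_mem h, Complex.norm_real, Real.norm_of_nonneg (Int.fract_nonneg _)]
    exact (Int.fract_lt_one x).le
  · rw [indicator_of_notMem h]; simp

lemma meas_f1 : Measurable f1 := by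
  unfold f1
  exact (Complex.measurable_ofReal.comp measurable_fract).indicator measurableSet_Ioi

lemma f1_locInt : LocallyIntegrableOn f1 (Ioi 0) := by
  apply LocallyIntegrable.locallyIntegrableOn
  apply (locallyIntegrable_const (1:ℝ)).mono meas_f1.aestronglyMeasurable
  filter_upwards with x
  simpa using norm_f1_le x

lemma f1_top : f1 =O[atTop] (fun x : ℝ => x ^ (-(0:ℝ))) := by
  apply Asymptotics.IsBigO.of_bound 1
  filter_upwards with x
  simpa using norm_f1_le x

lemma f1_bot (b : ℝ) : f1 =O[𝓝[>] 0] (fun x : ℝ => x ^ (-b)) := by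
  apply Asymptotics.IsBigO.of_bound 0
  have : Iio (1:ℝ) ∈ 𝓝[>] (0:ℝ) := mem_nhdsWithin_of_mem_nhds (Iio_mem_nhds one_pos)
  filter_upwards [this] with x hx
  have : x ∉ Ioi (1:ℝ) := by simp only [mem_Ioi, not_lt]; exact (le_of_lt hx)
  rw [f1, indicator_of_notMem this]; simp

lemma f1_conv {s : ℂ} (hs : 0 < s.re) : MellinConvergent f1 (-s) :=
  mellinConvergent_of_isBigO_rpow f1_locInt f1_top (by simpa using hs) (f1_bot ((-s).re - 1)) (by linarith)

lemma A_diffAt {s : ℂ} (hs : 0 < s.re) : DifferentiableAt ℂ (fun s => mellin f1 (-s)) s := by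
  have : DifferentiableAt ℂ (mellin f1) (-s) :=
    mellin_differentiableAt_of_isBigO_rpow f1_locInt f1_top (by simpa using hs) (f1_bot ((-s).re - 1)) (by linarith)
  exact this.comp s (differentiableAt_id.neg)

lemma mellin_f1 (s : ℂ) : mellin f1 (-s) = ∫ x in Ioi (1:ℝ), (x : ℂ) ^ (-(s + 1)) * ((Int.fract x : ℝ) : ℂ) := by
  unfold mellin f1
  have : (fun t : ℝ => (t : ℂ) ^ (-s - 1) • (Ioi (1:ℝ)).indicator (fun x : ℝ => ((Int.fract x : ℝ) : ℂ)) t) =
      (Ioi (1:ℝ)).indicator (fun x : ℝ => (x : ℂ) ^ (-(s + 1)) * ((Int.fract x : ℝ) : ℂ)) := by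
    ext t
    by_cases h : t ∈ Ioi (1:ℝ)
    · rw [indicator_of_mem h, indicator_of_mem h, smul_eq_mul, neg_add']
    · rw [indicator_of_notMem h, indicator_of_notMem h, smul_zero]
  rw [this, setIntegral_indicator measurableSet_Ioi]
  congr 2
  rw [inter_eq_right]
  exact Ioi_subset_Ioi zero_le_one

lemma int_fract {s : ℂ} (hs : 0 < s.re) :
    IntegrableOn (fun x : ℝ => (x : ℂ) ^ (-(s + 1)) * ((Int.fract x : ℝ) : ℂ)) (Ioi 1) := by
  have h := f1_conv hs
  unfold MellinConvergent at h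
  have h2 := h.mono_set (Ioi_subset_Ioi zero_le_one)
  refine h2.congr_fun ?_ measurableSet_Ioi
  intro x hx
  simp only [f1, indicator_of_mem hx, smul_eq_mul, neg_add']

lemma zeta_gt_one {s : ℂ} (hs : 1 < s.re) : riemannZeta₀ s = 1 - s * mellin f1 (-s) := by
  have hs1 : s ≠ 1 := by intro h; rw [h] at hs; simp at hs
  have hs0 : s ≠ 0 := by intro h; rw [h] at hs; simp at hs; linarith
  have h0 := riemannZeta_eq_inv_sub_add hs1
  have hL := LSeries_eq_mul_integral (fun _ => (1:ℂ)) (r := 1) zero_le_one hs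
    (by simpa using! (LSeriesSummable_one_iff.mpr hs)) (by
      apply Asymptotics.IsBigO.of_bound 1
      filter_upwards with n
      simp)
  have hz : LSeries (fun _ => (1:ℂ)) s = riemannZeta s := LSeries_one_eq_riemannZeta hs
  rw [hz] at hL
  have e1 : ∫ t in Ioi (1 : ℝ), (∑ k ∈ Finset.Icc 1 ⌊t⌋₊, (1:ℂ)) * (t:ℂ) ^ (-(s + 1)) =
      ∫ t in Ioi (1 : ℝ), ((t : ℂ) ^ (-s) - (t : ℂ) ^ (-(s + 1)) * ((Int.fract t : ℝ) : ℂ)) := by
    apply setIntegral_congr_fun measurableSet_Ioi
    intro t ht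
    have ht0 : (0:ℝ) < t := lt_trans zero_lt_one ht
    have htc : (t : ℂ) ≠ 0 := by exact_mod_cast ht0.ne'
    simp only [Finset.sum_const, Nat.card_Icc, add_tsub_cancel_right, nsmul_eq_mul, mul_one]
    have hfl : ((⌊t⌋₊ : ℕ) : ℝ) = t - Int.fract t := by
      have := Int.self_sub_fract t
      rw [this, natCast_floor_eq_intCast_floor ht0.le]
    have hfl' : ((⌊t⌋₊ : ℕ) : ℂ) = (t : ℂ) - ((Int.fract t : ℝ) : ℂ) := by
      rw [← Complex.ofReal_natCast, hfl]; push_cast; ring
    rw [hfl', sub_mul]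
    congr 1
    · have : (-s) = 1 + (-(s + 1)) := by ring
      rw [this, Complex.cpow_add _ _ htc, Complex.cpow_one]
    · ring
  rw [e1, integral_sub (integrableOn_Ioi_cpow_of_lt (by simpa using hs) one_pos) (int_fract (by linarith)),
    integral_Ioi_cpow_of_lt (by simpa using hs) one_pos, ← mellin_f1] at hL
  rw [hL] at h0
  have h1 : s - 1 ≠ 0 := sub_ne_zero.mpr hs1
  have h2 : -s + 1 ≠ 0 := by intro h; apply h1; linear_combination -h
  simp only [ofReal_one, one_cpow] at h0
  have h3 : riemannZeta₀ s = s * (-1 / (-s + 1) - mellin f1 (-s)) - (s - 1)⁻¹ := by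
    rw [h0]; ring
  rw [h3]
  field_simp
  ring

lemma zeta_pos {s : ℂ} (hs : 0 < s.re) : riemannZeta₀ s = 1 - s * mellin f1 (-s) := by
  have hU : IsOpen {s : ℂ | 0 < s.re} := isOpen_lt continuous_const Complex.continuous_re
  have hpre : IsPreconnected {s : ℂ | 0 < s.re} := (convex_halfSpace_re_gt 0).isPreconnected
  have h1 : AnalyticOnNhd ℂ riemannZeta₀ {s : ℂ | 0 < s.re} :=
    (differentiable_riemannZeta₀.differentiableOn).analyticOnNhd hU
  have h2 : AnalyticOnNhd ℂ (fun s => 1 - s * mellin f1 (-s)) {s : ℂ | 0 < s.re} := by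
    apply DifferentiableOn.analyticOnNhd _ hU
    intro z hz
    exact (((differentiableAt_id.mul (A_diffAt hz)).const_sub 1)).differentiableWithinAt
  have h3 : riemannZeta₀ =ᶠ[𝓝 (2:ℂ)] (fun s => 1 - s * mellin f1 (-s)) := by
    have : {s : ℂ | 1 < s.re} ∈ 𝓝 (2:ℂ) :=
      (isOpen_lt continuous_const Complex.continuous_re).mem_nhds (by simp)
    filter_upwards [this] with z hz
    exact zeta_gt_one hz
  exact h1.eqOn_of_preconnected_of_eventuallyEq h2 hpre (show (2:ℂ) ∈ {s : ℂ | 0 < s.re} by simp) h3 hs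

/-- the function `exp(u/2) * fract(exp(-u))` -/
noncomputable def psi (u : ℝ) : ℝ := Real.exp (u / 2) * Int.fract (Real.exp (-u))

lemma psi_nonneg (u : ℝ) : 0 ≤ psi u := mul_nonneg (Real.exp_pos _).le (Int.fract_nonneg _)

lemma psi_le (u : ℝ) : psi u ≤ Real.exp (-|u| / 2) := by
  unfold psi
  rcases le_or_gt u 0 with h | h
  · rw [abs_of_nonpos h]
    calc Real.exp (u / 2) * Int.fract (Real.exp (-u)) ≤ Real.exp (u / 2) * 1 :=
          mul_le_mul_of_nonneg_left (Int.fract_lt_one _).le (Real.exp_pos _).le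
      _ = _ := by rw [mul_one]; congr 1; ring
  · rw [abs_of_pos h]
    have h1 : Real.exp (-u) < 1 := by rw [Real.exp_lt_one_iff]; linarith
    have h2 : Int.fract (Real.exp (-u)) = Real.exp (-u) := Int.fract_eq_self.mpr ⟨(Real.exp_pos _).le, h1⟩
    rw [h2, ← Real.exp_add]
    apply le_of_eq; congr 1; ring

lemma psi_meas : Measurable psi := by
  unfold psi
  exact (by fun_prop : Measurable (fun u : ℝ => Real.exp (u/2))).mul (measurable_fract.comp (by fun_prop))

/-- an even extension of a function integrable on the half line is integrable -/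
lemma integrable_comp_abs' {f : ℝ → ℝ} (h1 : IntegrableOn f (Ioi 0)) : Integrable (fun u : ℝ => f |u|) := by
  have hf : IntegrableOn (fun x => f |x|) (Ioi 0) := by
    refine h1.congr_fun ?_ measurableSet_Ioi
    intro x hx
    simp only [abs_of_pos (show (0:ℝ) < x from hx)]
  have int_Iic : IntegrableOn (fun x ↦ f |x|) (Iic 0) := by
    rw [← Measure.map_neg_eq_self (volume : Measure ℝ)]
    let m : MeasurableEmbedding fun x : ℝ => -x := (Homeomorph.neg ℝ).measurableEmbedding
    rw [m.integrableOn_map_iff]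
    simp_rw [Function.comp_def, abs_neg, neg_preimage, neg_Iic, neg_zero]
    exact Iff.mpr integrableOn_Ici_iff_integrableOn_Ioi hf
  have := int_Iic.union hf
  rwa [Iic_union_Ioi, integrableOn_univ] at this

lemma integrable_exp_neg_abs (c : ℝ) (hc : 0 < c) : Integrable (fun u : ℝ => Real.exp (-c * |u|)) := by
  have h1 : IntegrableOn (fun u : ℝ => Real.exp (-c * u)) (Ioi 0) := by
    simpa using exp_neg_integrableOn_Ioi 0 hc
  exact integrable_comp_abs' (f := fun u : ℝ => Real.exp (-c * u)) h1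

lemma integral_exp_neg_abs (c : ℝ) (hc : 0 < c) : ∫ u : ℝ, Real.exp (-c * |u|) = 2 / c := by
  rw [integral_comp_abs (f := fun u : ℝ => Real.exp (-c * u)), integral_exp_mul_Ioi (by linarith) 0]
  simp
  field_simp

lemma psi_le' (u : ℝ) : psi u ≤ Real.exp (-(1/2) * |u|) := by
  have := psi_le u
  rwa [show -|u| / 2 = -(1/2) * |u| by ring] at this

lemma psi_integrable : Integrable psi := by
  apply (integrable_exp_neg_abs (1/2) (by norm_num)).mono psi_meas.aestronglyMeasurable
  filter_upwards with u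
  rw [Real.norm_of_nonneg (psi_nonneg u), Real.norm_of_nonneg (Real.exp_pos _).le]
  exact psi_le' u

lemma psi_sq_le (u : ℝ) : psi u ^ 2 ≤ Real.exp (-1 * |u|) := by
  calc psi u ^ 2 ≤ Real.exp (-(1/2) * |u|) ^ 2 := pow_le_pow_left₀ (psi_nonneg u) (psi_le' u) 2
    _ = _ := by rw [← Real.exp_nat_mul]; congr 1; push_cast; ring

lemma psi_sq_integrable : Integrable (fun u => psi u ^ 2) := by
  apply (integrable_exp_neg_abs 1 (by norm_num)).mono (psi_meas.pow_const 2).aestronglyMeasurable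
  filter_upwards with u
  rw [Real.norm_of_nonneg (by positivity), Real.norm_of_nonneg (Real.exp_pos _).le]
  exact psi_sq_le u

lemma integral_psi_le : ∫ u, psi u ≤ 4 := by
  calc ∫ u, psi u ≤ ∫ u : ℝ, Real.exp (-(1/2) * |u|) :=
        integral_mono psi_integrable (integrable_exp_neg_abs (1/2) (by norm_num)) psi_le'
    _ = 4 := by rw [integral_exp_neg_abs _ (by norm_num)]; norm_num

lemma integral_psi_sq_le : ∫ u, psi u ^ 2 ≤ 2 := by
  calc ∫ u, psi u ^ 2 ≤ ∫ u : ℝ, Real.exp (-1 * |u|) :=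
        integral_mono psi_sq_integrable (integrable_exp_neg_abs 1 (by norm_num)) psi_sq_le
    _ = 2 := by rw [integral_exp_neg_abs _ (by norm_num)]; norm_num

/-- complex version -/
noncomputable def psiC (u : ℝ) : ℂ := (psi u : ℂ)

lemma psiC_integrable : Integrable psiC := psi_integrable.ofReal

lemma psiC_memLp : MemLp psiC 2 := by
  rw [memLp_two_iff_integrable_sq_norm psiC_integrable.1]
  refine psi_sq_integrable.congr ?_
  filter_upwards with u
  simp [psiC]

/-- fractional part as complex function -/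
noncomputable def frC (x : ℝ) : ℂ := ((Int.fract x : ℝ) : ℂ)

lemma mellin_frC {s : ℂ} (h0 : 0 < s.re) (h1 : s.re < 1) : mellin frC (-s) = - (riemannZeta s / s) := by
  have hs0 : s ≠ 0 := by intro h; rw [h] at h0; simp at h0
  have hs1 : s ≠ 1 := by intro h; rw [h] at h1; simp at h1
  have hs1' : s - 1 ≠ 0 := sub_ne_zero.mpr hs1
  have hs2 : -s + 1 ≠ 0 := by intro h; apply hs1'; linear_combination -h
  have hint1 : IntervalIntegrable (fun x : ℝ => (x : ℂ) ^ (-s)) volume 0 1 :=
    intervalIntegral.intervalIntegrable_cpow' (by simp; linarith)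
  have hI1 : IntegrableOn (fun x : ℝ => (x : ℂ) ^ (-s)) (Ioc 0 1) :=
    (intervalIntegrable_iff_integrableOn_Ioc_of_le zero_le_one).mp hint1
  have hI2 := int_fract h0
  have e0 : EqOn (fun t : ℝ => (t : ℂ) ^ (-s - 1) • frC t) (fun x : ℝ => (x : ℂ) ^ (-s)) (Ioo 0 1) := by
    intro t ht
    have htc : (t : ℂ) ≠ 0 := by exact_mod_cast ht.1.ne'
    have h2 : Int.fract t = t := Int.fract_eq_self.mpr ⟨ht.1.le, ht.2⟩
    simp only [frC, h2, smul_eq_mul]
    have : (-s) = (-s - 1) + 1 := by ring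
    rw [this, Complex.cpow_add _ _ htc, Complex.cpow_one]
    ring_nf
  have hI1' : IntegrableOn (fun t : ℝ => (t : ℂ) ^ (-s - 1) • frC t) (Ioc 0 1) := by
    rw [integrableOn_Ioc_iff_integrableOn_Ioo]
    exact ((integrableOn_Ioc_iff_integrableOn_Ioo).mp hI1).congr_fun e0.symm measurableSet_Ioo
  have hI2' : IntegrableOn (fun t : ℝ => (t : ℂ) ^ (-s - 1) • frC t) (Ioi 1) := by
    refine hI2.congr_fun ?_ measurableSet_Ioi
    intro t ht
    simp only [frC, smul_eq_mul, neg_add']
  unfold mellin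
  rw [← Ioc_union_Ioi_eq_Ioi (zero_le_one (α := ℝ)), setIntegral_union
    (Ioc_disjoint_Ioi le_rfl) measurableSet_Ioi hI1' hI2']
  have e1 : ∫ t in Ioc (0:ℝ) 1, (t : ℂ) ^ (-s - 1) • frC t = 1 / (-s + 1) := by
    rw [integral_Ioc_eq_integral_Ioo, setIntegral_congr_fun measurableSet_Ioo e0,
      ← integral_Ioc_eq_integral_Ioo, ← intervalIntegral.integral_of_le zero_le_one,
      integral_cpow (Or.inl (by simp; linarith))]
    simp [hs2]
  have e2 : ∫ t in Ioi (1:ℝ), (t : ℂ) ^ (-s - 1) • frC t = mellin f1 (-s) := by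
    rw [mellin_f1]
    apply setIntegral_congr_fun measurableSet_Ioi
    intro t ht
    simp only [frC, smul_eq_mul, neg_add']
  rw [e1, e2]
  have hz := zeta_pos h0
  rw [riemannZeta_eq_inv_sub_add hs1, hz]
  field_simp
  ring

/-- the point on the critical line -/
noncomputable def cl (t : ℝ) : ℂ := ((1 / 2 : ℝ) : ℂ) + (t : ℂ) * I

lemma cl_re (t : ℝ) : (cl t).re = 1 / 2 := by simp [cl]
lemma cl_im (t : ℝ) : (cl t).im = t := by simp [cl]

lemma fourier_psiC (t : ℝ) : 𝓕 psiC (-t / (2 * Real.pi)) = - (riemannZeta (cl t) / cl t) := by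
  rw [← mellin_frC (by rw [cl_re]; norm_num) (by rw [cl_re]; norm_num), mellin_eq_fourier]
  have h1 : (-(cl t)).re = -(1/2) := by simp [cl]
  have h2 : (-(cl t)).im = -t := by simp [cl]
  rw [h1, h2]
  have h3 : psiC = fun u : ℝ => Real.exp (- -(1/2) * u) • frC (Real.exp (-u)) := by
    funext u
    simp only [psiC, psi, frC]
    rw [Complex.real_smul]
    push_cast
    congr 2
    ring
  rw [h3]

lemma norm_cl_pos (t : ℝ) : 0 < ‖cl t‖ := by
  apply norm_pos_iff.mpr
  intro h
  have := congrArg Complex.re h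
  rw [cl_re] at this; simp at this

lemma zeta_bound (t : ℝ) : ‖riemannZeta (cl t)‖ ≤ 4 * ‖cl t‖ := by
  have h := fourier_psiC t
  have h1 : ‖𝓕 psiC (-t / (2 * Real.pi))‖ ≤ 4 := by
    have := VectorFourier.norm_fourierIntegral_le_integral_norm Real.fourierChar volume (innerₗ ℝ) psiC (-t / (2 * Real.pi))
    have h2 : ∫ v, ‖psiC v‖ = ∫ v, psi v := by
      congr 1; ext v; simp [psiC, abs_of_nonneg (psi_nonneg v)]
    rw [h2] at this
    exact this.trans integral_psi_le
  rw [h, norm_neg, norm_div, div_le_iff₀ (norm_cl_pos t)] at h1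
  exact h1

/-- weighted square of zeta on the critical line -/
noncomputable def W (t : ℝ) : ℝ := ‖riemannZeta (cl t) / cl t‖ ^ 2

lemma W_eq (t : ℝ) : W t = ‖𝓕 psiC ((-1 / (2 * Real.pi)) * t)‖ ^ 2 := by
  have : (-1 / (2 * Real.pi)) * t = -t / (2 * Real.pi) := by ring
  rw [this, fourier_psiC, norm_neg, W]

lemma W_integrable : Integrable W := by
  have h := (Planch.plancherel psiC psiC_integrable psiC_memLp).1
  have h2 := (memLp_two_iff_integrable_sq_norm h.1).mp h
  have h3 := (integrable_comp_mul_left_iff (fun x => ‖𝓕 psiC x‖ ^ 2) (R := (-1 / (2 * Real.pi))) (by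
    have := Real.pi_pos; positivity)).mpr h2
  exact h3.congr (by filter_upwards with t; rw [W_eq])

lemma W_integral : ∫ t, W t ≤ 4 * Real.pi := by
  have h := (Planch.plancherel psiC psiC_integrable psiC_memLp).2
  have h2 : ∫ x, ‖psiC x‖ ^ 2 = ∫ x, psi x ^ 2 := by
    congr 1; ext v; simp [psiC]
  have h3 : ∫ t, W t = ∫ t, (fun x => ‖𝓕 psiC x‖ ^ 2) ((-1 / (2 * Real.pi)) * t) := by
    congr 1; ext t; rw [W_eq]
  have h5 := Measure.integral_comp_mul_left (fun x => ‖𝓕 psiC x‖ ^ 2) (-1 / (2 * Real.pi))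
  rw [h3, h5, h, h2]
  have hpi := Real.pi_pos
  have h4 : |(-1 / (2 * Real.pi))⁻¹| = 2 * Real.pi := by
    rw [show (-1 / (2 * Real.pi))⁻¹ = -(2 * Real.pi) by field_simp, abs_neg, abs_of_pos (by positivity)]
  rw [h4, smul_eq_mul]
  nlinarith [integral_psi_sq_le]

lemma W_even (t : ℝ) : W (-t) = W t := by
  unfold W
  have h : cl (-t) = (starRingEnd ℂ) (cl t) := by
    rw [cl, cl, map_add, map_mul, Complex.conj_ofReal, Complex.conj_ofReal, Complex.conj_I]
    push_cast; ring
  rw [h, riemannZeta_conj, norm_div, norm_div, Complex.norm_conj, Complex.norm_conj]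

lemma W_half : IntegrableOn W (Ioi 0) ∧ ∫ t in Ioi (0:ℝ), W t ≤ 2 * Real.pi := by
  refine ⟨W_integrable.integrableOn, ?_⟩
  have h : ∫ t, W t = 2 * ∫ t in Ioi (0:ℝ), W t := by
    rw [← integral_comp_abs]
    congr 1; ext t
    rcases abs_choice t with h | h
    · rw [h]
    · rw [h, W_even]
  have := W_integral
  linarith

end Pool.Agent.Helper625.ZF
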