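import Mathlib
import Pool.Agent.Helper625.Gam
import Pool.Agent.Helper625.ZF

namespace Pool.Agent.Helper625.Th
open Complex MeasureTheory Filter Topology Set HurwitzZeta

noncomputable def gk (x : ℝ) : ℂ := (evenKernel 0 x : ℂ) - 1 - ((x ^ (-(1/2) : ℝ) : ℝ) : ℂ)

lemma hasMellin_ind {w : ℂ} (h1 : w.re < 1/2) :
    HasMellin ((Ioi (1:ℝ)).indicator (fun x : ℝ => ((x ^ (-(1/2) : ℝ) : ℝ) : ℂ))) w (1 / (1/2 - w)) := by
  have hre : (w - 3/2).re < -1 := by
    simp; linarith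
  have e : ∀ t ∈ Ioi (1:ℝ), (t : ℂ) ^ (w - 1) • ((t ^ (-(1/2) : ℝ) : ℝ) : ℂ) = (t : ℂ) ^ (w - 3/2) := by
    intro t ht
    have ht0 : (0:ℝ) < t := lt_trans zero_lt_one ht
    have htc : (t : ℂ) ≠ 0 := by exact_mod_cast ht0.ne'
    rw [Complex.ofReal_cpow ht0.le, smul_eq_mul, ← Complex.cpow_add _ _ htc]
    congr 1
    push_cast; ring
  have hint : IntegrableOn (fun t : ℝ => (t : ℂ) ^ (w - 3/2)) (Ioi 1) := integrableOn_Ioi_cpow_of_lt hre one_pos
  have e2 : (fun t : ℝ => (t : ℂ) ^ (w - 1) • (Ioi (1:ℝ)).indicator (fun x : ℝ => ((x ^ (-(1/2) : ℝ) : ℝ) : ℂ)) t) =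
      (Ioi (1:ℝ)).indicator (fun t : ℝ => (t : ℂ) ^ (w - 3/2)) := by
    ext t
    by_cases h : t ∈ Ioi (1:ℝ)
    · rw [indicator_of_mem h, indicator_of_mem h, e t h]
    · rw [indicator_of_notMem h, indicator_of_notMem h, smul_zero]
  constructor
  · unfold MellinConvergent
    rw [e2]
    exact ((integrable_indicator_iff measurableSet_Ioi).mpr hint).integrableOn
  · unfold mellin
    rw [e2, setIntegral_indicator measurableSet_Ioi, inter_eq_right.mpr (Ioi_subset_Ioi zero_le_one),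
      integral_Ioi_cpow_of_lt hre one_pos]
    simp only [ofReal_one, one_cpow]
    have hw2 : w - 3/2 + 1 = -(1/2 - w) := by ring
    rw [hw2, neg_div_neg_eq]

lemma mellin_gk {w : ℂ} (h0 : 0 < w.re) (h1 : w.re < 1/2) :
    MellinConvergent gk w ∧ mellin gk w = 2 * completedRiemannZeta (2 * w) := by
  set P := hurwitzEvenFEPair 0 with hP
  have hm : HasMellin P.f_modif w (P.Λ₀ w) :=
    ⟨(P.isStrongFEPair_toStrongFEPair.hasMellin w).1, rfl⟩
  have h2 := hasMellin_one_Ioc h0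
  have h3 := hasMellin_ind h1
  have h4 := (hasMellin_sub hm.1 h2.1)
  have h5 := hasMellin_sub h4.1 h3.1
  have hae : ∀ᵐ x : ℝ, x ∈ Ioi (0:ℝ) → (x : ℂ) ^ (w - 1) • (P.f_modif x - (Ioc (0:ℝ) 1).indicator (fun _ => (1:ℂ)) x -
      (Ioi (1:ℝ)).indicator (fun x : ℝ => ((x ^ (-(1/2) : ℝ) : ℝ) : ℂ)) x) = (x : ℂ) ^ (w - 1) • gk x := by
    have : ∀ᵐ x : ℝ, x ≠ 1 := by
      simp [ae_iff, measure_singleton]
    filter_upwards [this] with x hx1 hx0
    congr 1
    have hf : P.f x = (evenKernel 0 x : ℂ) := rfl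
    have hf0 : P.f₀ = 1 := by simp [hP, hurwitzEvenFEPair]
    have hg0 : P.g₀ = 1 := rfl
    have hε : P.ε = 1 := rfl
    have hk : P.k = 1/2 := rfl
    simp only [WeakFEPair.f_modif, Pi.add_apply, hf0, hg0, hε, hk, gk]
    rcases lt_or_gt_of_ne hx1 with h | h
    · have a1 : x ∉ Ioi (1:ℝ) := by simp only [mem_Ioi, not_lt]; exact h.le
      have a2 : x ∈ Ioo (0:ℝ) 1 := ⟨hx0, h⟩
      have a3 : x ∈ Ioc (0:ℝ) 1 := ⟨hx0, h.le⟩
      rw [indicator_of_notMem a1, indicator_of_mem a2, indicator_of_mem a3, indicator_of_notMem a1]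
      simp only [smul_eq_mul]
      rw [hf]
      ring
    · have a1 : x ∈ Ioi (1:ℝ) := h
      have a2 : x ∉ Ioo (0:ℝ) 1 := fun hh => absurd hh.2 (not_lt.mpr h.le)
      have a3 : x ∉ Ioc (0:ℝ) 1 := fun hh => absurd hh.2 (not_le.mpr h)
      rw [indicator_of_mem a1, indicator_of_notMem a2, indicator_of_notMem a3, indicator_of_mem a1, hf]
      ring
  constructor
  · have := h5.1
    unfold MellinConvergent at this ⊢
    refine this.congr_fun_ae ?_
    exact (ae_restrict_iff' measurableSet_Ioi).mpr hae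
  · have e1 : mellin gk w = P.Λ₀ w - 1 / w - 1 / (1/2 - w) := by
      have h6 := h5.2
      rw [h4.2, h3.2, hm.2, h2.2] at h6
      rw [← h6]
      unfold mellin
      exact (setIntegral_congr_ae measurableSet_Ioi hae).symm
    rw [e1]
    have e2 : completedRiemannZeta (2 * w) = P.Λ w / 2 := by
      change (hurwitzEvenFEPair 0).Λ (2 * w / 2) / 2 = _
      rw [mul_div_cancel_left₀ _ (two_ne_zero)]
    rw [e2]
    have hf0 : P.f₀ = 1 := by simp [hP, hurwitzEvenFEPair]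
    have hg0 : P.g₀ = 1 := rfl
    have hε : P.ε = 1 := rfl
    have hk : P.k = 1/2 := rfl
    rw [WeakFEPair.Λ, hf0, hg0, hε, hk]
    simp only [smul_eq_mul]
    push_cast
    ring

/-- completed zeta on the critical line -/
noncomputable def Lc (t : ℝ) : ℂ := completedRiemannZeta (ZF.cl t)

lemma cl_ne_zero (t : ℝ) : ZF.cl t ≠ 0 := norm_pos_iff.mp (ZF.norm_cl_pos t)

lemma Lc_eq (t : ℝ) : Lc t = ((Real.pi : ℂ) ^ (-(ZF.cl t) / 2) *
    Gamma (((1 / 4 : ℝ) : ℂ) + ((t / 2 : ℝ) : ℂ) * I)) * riemannZeta (ZF.cl t) := by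
  have h := riemannZeta_def_of_ne_zero (cl_ne_zero t)
  have h2 : ZF.cl t / 2 = ((1 / 4 : ℝ) : ℂ) + ((t / 2 : ℝ) : ℂ) * I := by
    simp only [ZF.cl]; push_cast; ring
  have h3 : Gammaℝ (ZF.cl t) ≠ 0 := Gammaℝ_ne_zero_of_re_pos (by rw [ZF.cl_re]; norm_num)
  rw [eq_div_iff h3] at h
  rw [← h2, ← Gammaℝ_def, Lc, ← h, mul_comm]

lemma norm_Lc (t : ℝ) : ‖Lc t‖ = Real.pi ^ (-(1/4) : ℝ) * Gam.g t * ‖riemannZeta (ZF.cl t)‖ := by
  rw [Lc_eq, norm_mul, norm_mul, Complex.norm_cpow_eq_rpow_re_of_pos Real.pi_pos]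
  have : (-(ZF.cl t) / 2).re = -(1/4) := by
    have : (-(ZF.cl t) / 2) = ((-(1/4) : ℝ) : ℂ) + ((-t/2 : ℝ) : ℂ) * I := by
      simp only [ZF.cl]; push_cast; ring
    rw [this]; simp
  rw [this]
  rfl

lemma half_exp_le_cosh (x : ℝ) : Real.exp |x| / 2 ≤ Real.cosh x := by
  rw [← Real.cosh_abs, Real.cosh_eq]
  have := Real.exp_pos (-|x|)
  linarith

lemma g_exp_bound (t : ℝ) : Gam.g t ≤ 5 * Real.exp (-(Real.pi / 4) * |t|) := by
  have h := Gam.g_upper t
  have hg := Gam.g_pos t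
  have hc := half_exp_le_cosh (Real.pi * t)
  have hpi := Real.pi_pos
  rw [abs_mul, abs_of_pos hpi] at hc
  set E := Real.exp (Real.pi * |t|) with hE
  have hE0 : 0 < E := Real.exp_pos _
  have h1 : E ^ 2 / 4 ≤ Real.cosh (Real.pi * t) ^ 2 := by
    calc E ^ 2 / 4 = (E / 2) ^ 2 := by ring
      _ ≤ _ := pow_le_pow_left₀ (by positivity) hc 2
  have h2 : 64 * Real.pi ^ 4 * (4 * t ^ 2 + 5) ≤ 64 * Real.pi ^ 4 * 5 * (4 * t ^ 2 + 1) ^ 2 := by
    have : 4 * t ^ 2 + 5 ≤ 5 * (4 * t ^ 2 + 1) ^ 2 := by nlinarith [sq_nonneg t, sq_nonneg (t^2)]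
    calc _ ≤ 64 * Real.pi ^ 4 * (5 * (4 * t ^ 2 + 1) ^ 2) := mul_le_mul_of_nonneg_left this (by positivity)
      _ = _ := by ring
  have h3 : Gam.g t ^ 8 * (E ^ 2 / 4) * (4 * t ^ 2 + 1) ^ 2 ≤ 64 * Real.pi ^ 4 * 5 * (4 * t ^ 2 + 1) ^ 2 := by
    refine le_trans ?_ (h.trans h2)
    apply mul_le_mul_of_nonneg_right _ (by positivity)
    exact mul_le_mul_of_nonneg_left h1 (by positivity)
  have h4 := le_of_mul_le_mul_right h3 (by positivity)
  have hpi4 : Real.pi ^ 4 ≤ 100 := by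
    have : Real.pi ≤ 3.15 := Real.pi_lt_d2.le
    calc Real.pi ^ 4 ≤ 3.15 ^ 4 := pow_le_pow_left₀ hpi.le this 4
      _ ≤ 100 := by norm_num
  have h5 : (Gam.g t * Real.exp (Real.pi / 4 * |t|)) ^ 8 ≤ 5 ^ 8 := by
    have e : Real.exp (Real.pi / 4 * |t|) ^ 8 = E ^ 2 := by
      rw [hE, ← Real.exp_nat_mul, ← Real.exp_nat_mul]; congr 1; push_cast; ring
    rw [mul_pow, e]
    nlinarith
  have h6 : Gam.g t * Real.exp (Real.pi / 4 * |t|) ≤ 5 :=
    le_of_pow_le_pow_left₀ (by norm_num) (by norm_num) h5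
  rw [neg_mul, Real.exp_neg, ← div_eq_mul_inv, le_div_iff₀ (Real.exp_pos _)]
  exact h6

lemma norm_cl_le (t : ℝ) : ‖ZF.cl t‖ ≤ 1 + |t| := by
  unfold ZF.cl
  refine (norm_add_le _ _).trans ?_
  rw [norm_mul, Complex.norm_I, Complex.norm_real, Complex.norm_real]
  simp only [Real.norm_eq_abs, mul_one]
  rw [abs_of_pos (by norm_num : (0:ℝ) < 1/2)]
  linarith

lemma norm_Lc_le (t : ℝ) : ‖Lc t‖ ≤ 20 * (1 + |t|) * Real.exp (-(Real.pi / 4) * |t|) := by
  rw [norm_Lc]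
  have h1 : Real.pi ^ (-(1/4) : ℝ) ≤ 1 :=
    Real.rpow_le_one_of_one_le_of_nonpos (by linarith [Real.pi_gt_three]) (by norm_num)
  have h2 := g_exp_bound t
  have h3 := (ZF.zeta_bound t).trans (mul_le_mul_of_nonneg_left (norm_cl_le t) (by norm_num : (0:ℝ) ≤ 4))
  have hg := Gam.g_pos t
  have ha : 0 ≤ |t| := abs_nonneg t
  calc Real.pi ^ (-(1/4) : ℝ) * Gam.g t * ‖riemannZeta (ZF.cl t)‖
      ≤ 1 * (5 * Real.exp (-(Real.pi / 4) * |t|)) * (4 * (1 + |t|)) := by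
        apply mul_le_mul _ h3 (norm_nonneg _) (by positivity)
        exact mul_le_mul h1 h2 hg.le (by norm_num)
    _ = _ := by ring

lemma Lc_cont : Continuous Lc := by
  unfold Lc
  rw [continuous_iff_continuousAt]
  intro t
  have h : DifferentiableAt ℂ completedRiemannZeta (ZF.cl t) := by
    apply differentiableAt_completedZeta (cl_ne_zero t)
    intro h
    have := congrArg Complex.re h
    rw [ZF.cl_re] at this; simp at this
  have hc : ContinuousAt ZF.cl t := by unfold ZF.cl; fun_prop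
  exact ContinuousAt.comp h.continuousAt hc

/-- polynomial times exponential decay is integrable -/
lemma poly_exp_bound (c : ℝ) (hc : 0 < c) (t : ℝ) :
    (1 + |t|) ^ 2 * Real.exp (-c * |t|) ≤ (1 + 4 / c) ^ 2 * Real.exp (-(c/2) * |t|) := by
  have ha : 0 ≤ |t| := abs_nonneg t
  have h1 : |t| ≤ (4 / c) * Real.exp (c / 4 * |t|) := by
    have := Real.add_one_le_exp (c / 4 * |t|)
    calc |t| = (4 / c) * (c / 4 * |t|) := by field_simp
      _ ≤ _ := mul_le_mul_of_nonneg_left (by linarith) (by positivity)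
  have h2 : 1 ≤ Real.exp (c / 4 * |t|) := Real.one_le_exp (by positivity)
  have h3 : 1 + |t| ≤ (1 + 4 / c) * Real.exp (c / 4 * |t|) := by
    rw [add_mul, one_mul]; linarith
  calc (1 + |t|) ^ 2 * Real.exp (-c * |t|) ≤ ((1 + 4 / c) * Real.exp (c / 4 * |t|)) ^ 2 * Real.exp (-c * |t|) :=
        mul_le_mul_of_nonneg_right (pow_le_pow_left₀ (by positivity) h3 2) (Real.exp_pos _).le
    _ = (1 + 4 / c) ^ 2 * (Real.exp (c / 4 * |t|) ^ 2 * Real.exp (-c * |t|)) := by ring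
    _ = _ := by
      rw [← Real.exp_nat_mul, ← Real.exp_add]; congr 2; push_cast; ring

lemma poly_exp_integrable (c : ℝ) (hc : 0 < c) :
    Integrable (fun t : ℝ => (1 + |t|) ^ 2 * Real.exp (-c * |t|)) := by
  have h := (ZF.integrable_exp_neg_abs (c/2) (by positivity)).const_mul ((1 + 4 / c) ^ 2)
  refine h.mono (by fun_prop) ?_
  filter_upwards with t
  rw [Real.norm_of_nonneg (by positivity), Real.norm_of_nonneg (by positivity)]
  exact poly_exp_bound c hc t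

lemma Lc_integrable : Integrable Lc := by
  refine ((poly_exp_integrable (Real.pi / 4) (by positivity)).const_mul 20).mono Lc_cont.aestronglyMeasurable ?_
  filter_upwards with t
  rw [Real.norm_of_nonneg (by positivity)]
  refine (norm_Lc_le t).trans ?_
  have ha : 0 ≤ |t| := abs_nonneg t
  have := Real.exp_pos (-(Real.pi / 4) * |t|)
  nlinarith [mul_nonneg ha this.le, mul_nonneg (mul_nonneg ha ha) this.le]

/-- two-sided transform -/
noncomputable def R (w : ℂ) : ℂ := ∫ t : ℝ, Lc t * cexp (-I * t * w)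

lemma gk_contAt {x : ℝ} (hx : 0 < x) : ContinuousAt gk x := by
  unfold gk
  have h1 : ContinuousAt (fun x => (evenKernel 0 x : ℂ)) x :=
    Complex.continuous_ofReal.continuousAt.comp ((continuousOn_evenKernel 0).continuousAt (Ioi_mem_nhds hx))
  have h2 : ContinuousAt (fun x : ℝ => ((x ^ (-(1/2) : ℝ) : ℝ) : ℂ)) x :=
    Complex.continuous_ofReal.continuousAt.comp (Real.continuousAt_rpow_const _ _ (Or.inl hx.ne'))
  exact (h1.sub continuousAt_const).sub h2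

lemma R_real (v : ℝ) : R v = 2 * Real.pi * (Real.exp (v / 2) * gk (Real.exp (2 * v))) := by
  have hx : 0 < Real.exp (2 * v) := Real.exp_pos _
  have hm : ∀ y : ℝ, mellin gk (((1/4 : ℝ) : ℂ) + y * I) = 2 * Lc (2 * y) := by
    intro y
    rw [(mellin_gk (by simp) (by simp; norm_num)).2, Lc, ZF.cl]
    congr 2
    push_cast; ring
  have hv : VerticalIntegrable (mellin gk) (1/4) := by
    unfold VerticalIntegrable
    have : (fun y : ℝ => mellin gk (((1/4 : ℝ) : ℂ) + y * I)) = fun y : ℝ => 2 * Lc (2 * y) := by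
      funext y; exact hm y
    rw [this]
    exact (Lc_integrable.comp_mul_left' (two_ne_zero)).const_mul 2
  have hc : MellinConvergent gk ((1/4 : ℝ) : ℂ) := (mellin_gk (by simp) (by simp; norm_num)).1
  have h := mellinInv_mellin_eq (1/4) gk hx hc hv (gk_contAt hx)
  rw [mellinInv] at h
  have e1 : (fun y : ℝ => ((Real.exp (2 * v) : ℝ) : ℂ) ^ (-(((1/4 : ℝ) : ℂ) + y * I)) • mellin gk (((1/4 : ℝ) : ℂ) + y * I)) =
      fun y : ℝ => (2 * Real.exp (-(v/2)) : ℂ) * (fun t : ℝ => Lc t * cexp (-I * t * v)) (2 * y) := by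
    funext y
    rw [hm y, Complex.ofReal_exp, Complex.cpow_def_of_ne_zero (Complex.exp_ne_zero _), ← Complex.ofReal_exp,
      ← Complex.ofReal_log hx.le, Real.log_exp, smul_eq_mul]
    have : ((2 * v : ℝ) : ℂ) * (-(((1/4 : ℝ) : ℂ) + y * I)) = ((-(v/2) : ℝ) : ℂ) + (-I * ((2 * y : ℝ) : ℂ) * v) := by
      push_cast; ring
    rw [this, Complex.exp_add, ← Complex.ofReal_exp]
    push_cast
    ring
  have e9 := Measure.integral_comp_mul_left (fun t : ℝ => Lc t * cexp (-I * t * v)) 2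
  rw [e1, integral_const_mul, e9] at h
  unfold R
  rw [← h]
  have hpi : (Real.pi : ℂ) ≠ 0 := by exact_mod_cast Real.pi_ne_zero
  have h5 : |(2:ℝ)⁻¹| = 2⁻¹ := by norm_num
  rw [h5]
  simp only [Complex.real_smul]
  have h6 : ((Real.exp (v/2) : ℝ) : ℂ) * ((Real.exp (-(v/2)) : ℝ) : ℂ) = 1 := by
    rw [← Complex.ofReal_mul, ← Real.exp_add]; simp
  push_cast at h6 ⊢
  have h7 : 2 * (Real.pi : ℂ) * (cexp (v / 2) * (1 / (2 * Real.pi) * (2 * cexp (-(v / 2)) * (2⁻¹ * ∫ (y : ℝ), Lc y * cexp (-I * y * v))))) =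
      (cexp (v / 2) * cexp (-(v / 2))) * ∫ (y : ℝ), Lc y * cexp (-I * y * v) := by
    field_simp
  rw [h7, h6, one_mul]

end Pool.Agent.Helper625.Th
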