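import Mathlib
import Pool.Agent.Helper625.Th

namespace Pool.Agent.Helper625.Th
open Complex MeasureTheory Filter Topology Set HurwitzZeta

/-- the strip -/
def S : Set ℂ := {w : ℂ | |w.im| < Real.pi / 4}

lemma S_open : IsOpen S := isOpen_lt (Complex.continuous_im.abs) continuous_const

lemma S_preconn : IsPreconnected S := by
  have : S = {w : ℂ | -(Real.pi / 4) < w.im} ∩ {w : ℂ | w.im < Real.pi / 4} := by
    ext w; simp only [S, Set.mem_ofPred_eq, mem_inter_iff, abs_lt]
  rw [this]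
  exact ((convex_halfSpace_im_gt _).inter (convex_halfSpace_im_lt _)).isPreconnected

/-- the explicit side -/
noncomputable def T (w : ℂ) : ℂ :=
  2 * Real.pi * (cexp (w / 2) * jacobiTheta₂ 0 (I * cexp (2 * w)) - cexp (w / 2) - cexp (-(w / 2)))

lemma im_pos_of_mem {w : ℂ} (hw : w ∈ S) : 0 < (I * cexp (2 * w)).im := by
  have h : (I * cexp (2 * w)).im = (cexp (2 * w)).re := by simp
  rw [h, Complex.exp_re]
  apply mul_pos (Real.exp_pos _)
  have h2 : (2 * w).im = 2 * w.im := by simp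
  rw [h2]
  have hw' : |w.im| < Real.pi / 4 := hw
  have := abs_lt.mp hw'
  apply Real.cos_pos_of_mem_Ioo
  constructor
  · linarith [this.1]
  · linarith [this.2]

lemma T_diff {w : ℂ} (hw : w ∈ S) : DifferentiableAt ℂ T w := by
  unfold T
  have h1 : DifferentiableAt ℂ (fun w : ℂ => jacobiTheta₂ 0 (I * cexp (2 * w))) w := by
    have h2 := differentiableAt_jacobiTheta₂_snd 0 (im_pos_of_mem hw)
    have h3 : DifferentiableAt ℂ (fun w : ℂ => I * cexp (2 * w)) w := by fun_prop
    exact h2.comp w h3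
  fun_prop

lemma T_real (v : ℝ) : T v = 2 * Real.pi * (Real.exp (v / 2) * gk (Real.exp (2 * v))) := by
  unfold T gk
  have h1 : (evenKernel 0 (Real.exp (2 * v)) : ℂ) = jacobiTheta₂ 0 (I * cexp (2 * v)) := by
    have := evenKernel_def 0 (Real.exp (2 * v))
    simp only [QuotientAddGroup.mk_zero] at this
    rw [this]
    simp
  rw [h1]
  have h2 : (((Real.exp (2 * v)) ^ (-(1/2) : ℝ) : ℝ) : ℂ) = cexp (-v) := by
    rw [← Real.exp_mul]
    rw [Complex.ofReal_exp]
    congr 1
    push_cast; ring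
  rw [h2]
  have h3 : cexp (-((v:ℂ) / 2)) = cexp (v / 2) * cexp (-v) := by
    rw [← Complex.exp_add]; congr 1; ring
  rw [h3]
  push_cast
  ring

lemma norm_cexp_le (t : ℝ) (w : ℂ) (a : ℝ) (h : |w.im| ≤ a) : ‖cexp (-I * t * w)‖ ≤ Real.exp (a * |t|) := by
  rw [Complex.norm_exp]
  apply Real.exp_le_exp.mpr
  have : (-I * (t : ℂ) * w).re = t * w.im := by
    simp [mul_re, mul_im]
  rw [this]
  calc t * w.im ≤ |t * w.im| := le_abs_self _
    _ = |t| * |w.im| := abs_mul _ _
    _ ≤ |t| * a := mul_le_mul_of_nonneg_left h (abs_nonneg _)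
    _ = _ := by ring

lemma R_hasDeriv {w₀ : ℂ} (hw : w₀ ∈ S) :
    Integrable (fun t : ℝ => Lc t * (cexp (-I * t * w₀) * (-I * t))) ∧
    HasDerivAt R (∫ t : ℝ, Lc t * (cexp (-I * t * w₀) * (-I * t))) w₀ := by
  have hw' : |w₀.im| < Real.pi / 4 := hw
  set a := (|w₀.im| + Real.pi / 4) / 2 with ha
  have ha1 : |w₀.im| < a := by rw [ha]; linarith
  have ha2 : a < Real.pi / 4 := by rw [ha]; linarith
  set s : Set ℂ := {w : ℂ | |w.im| < a} with hs
  have hsn : s ∈ 𝓝 w₀ := (isOpen_lt (Complex.continuous_im.abs) continuous_const).mem_nhds ha1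
  have hc : 0 < Real.pi / 4 - a := by linarith
  have hb : Integrable (fun t : ℝ => 20 * ((1 + |t|) ^ 2 * Real.exp (-(Real.pi / 4 - a) * |t|))) :=
    (poly_exp_integrable _ hc).const_mul 20
  have hkey : ∀ t : ℝ, ∀ w ∈ s, ‖Lc t‖ * ‖cexp (-I * t * w)‖ ≤ 20 * (1 + |t|) * Real.exp (-(Real.pi / 4 - a) * |t|) := by
    intro t w hw
    have h1 := norm_Lc_le t
    have h2 := norm_cexp_le t w a (le_of_lt hw)
    have e : Real.exp (-(Real.pi / 4 - a) * |t|) = Real.exp (-(Real.pi / 4) * |t|) * Real.exp (a * |t|) := by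
      rw [← Real.exp_add]; congr 1; ring
    rw [e, ← mul_assoc]
    exact mul_le_mul h1 h2 (norm_nonneg _) (by positivity)
  unfold R
  refine hasDerivAt_integral_of_dominated_loc_of_deriv_le (F := fun (w : ℂ) (t : ℝ) => Lc t * cexp (-I * t * w))
    (F' := fun (w : ℂ) (t : ℝ) => Lc t * (cexp (-I * t * w) * (-I * t)))
    (bound := fun t : ℝ => 20 * ((1 + |t|) ^ 2 * Real.exp (-(Real.pi / 4 - a) * |t|))) hsn ?_ ?_ ?_ ?_ hb ?_
  · filter_upwards with w
    exact (Lc_cont.mul (by fun_prop)).aestronglyMeasurable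
  · refine hb.mono (Lc_cont.mul (by fun_prop)).aestronglyMeasurable ?_
    filter_upwards with t
    rw [norm_mul, Real.norm_of_nonneg (by positivity)]
    refine (hkey t w₀ ha1).trans ?_
    have h0 : 0 ≤ |t| := abs_nonneg t
    have := Real.exp_pos (-(Real.pi / 4 - a) * |t|)
    nlinarith [mul_nonneg h0 this.le, mul_nonneg (mul_nonneg h0 h0) this.le]
  · exact (Lc_cont.mul (by fun_prop)).aestronglyMeasurable
  · filter_upwards with t w hw
    rw [norm_mul, norm_mul, ← mul_assoc]
    have h1 := hkey t w hw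
    have h2 : ‖-I * (t : ℂ)‖ = |t| := by simp
    rw [h2]
    have h0 : 0 ≤ |t| := abs_nonneg t
    have he := Real.exp_pos (-(Real.pi / 4 - a) * |t|)
    calc ‖Lc t‖ * ‖cexp (-I * t * w)‖ * |t| ≤ 20 * (1 + |t|) * Real.exp (-(Real.pi / 4 - a) * |t|) * |t| :=
          mul_le_mul_of_nonneg_right h1 h0
      _ ≤ _ := by nlinarith [mul_nonneg h0 he.le, mul_nonneg (mul_nonneg h0 h0) he.le]
  · filter_upwards with t w hw
    have h1 : HasDerivAt (fun w : ℂ => -I * t * w) (-I * t) w := by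
      simpa using (hasDerivAt_id w).const_mul (-I * (t:ℂ))
    exact (h1.cexp).const_mul (Lc t)

lemma R_eq_T {w : ℂ} (hw : w ∈ S) : R w = T w := by
  have h1 : AnalyticOnNhd ℂ R S := by
    apply DifferentiableOn.analyticOnNhd _ S_open
    intro z hz
    exact (R_hasDeriv hz).2.differentiableAt.differentiableWithinAt
  have h2 : AnalyticOnNhd ℂ T S := by
    apply DifferentiableOn.analyticOnNhd _ S_open
    intro z hz
    exact (T_diff hz).differentiableWithinAt
  have h0 : (0:ℂ) ∈ S := by simp [S]; positivity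
  have h3 : ∃ᶠ z in 𝓝[≠] (0:ℂ), R z = T z := by
    have hseq : Tendsto (fun n : ℕ => (((1 : ℝ) / ((n : ℝ) + 1) : ℝ) : ℂ)) atTop (𝓝[≠] (0:ℂ)) := by
      apply tendsto_nhdsWithin_iff.mpr
      constructor
      · have := tendsto_one_div_add_atTop_nhds_zero_nat (𝕜 := ℝ)
        have h := (Complex.continuous_ofReal.tendsto (0:ℝ)).comp this
        rw [Complex.ofReal_zero] at h
        exact h
      · filter_upwards with n
        simp only [mem_compl_iff, mem_singleton_iff, Complex.ofReal_eq_zero]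
        positivity
    apply hseq.frequently
    apply Frequently.of_forall
    intro n
    rw [R_real, T_real]
  exact h1.eqOn_of_preconnected_of_frequently_eq h2 S_preconn h0 h3 hw

end Pool.Agent.Helper625.Th
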