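import Mathlib
import Pool.Agent.Helper625.Th2
import Pool.Agent.Helper625.Fl2

namespace Pool.Agent.Helper625.M1
open MeasureTheory Filter Topology Set
open Pool.Agent.Helper625.Th Pool.Agent.Helper625.Fl

/-- conjugation symmetry: the completed zeta function is real on the critical line -/
lemma Lc_neg (t : ℝ) : Lc (-t) = Lc t := by
  unfold Lc
  rw [← completedRiemannZeta_one_sub]
  congr 1
  simp only [ZF.cl]; push_cast; ring

lemma Lc_conj (t : ℝ) : (starRingEnd ℂ) (Lc t) = Lc t := by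
  have h : (starRingEnd ℂ) (Lc t) = Lc (-t) := by
    rw [Lc_eq t, Lc_eq (-t), map_mul, map_mul, ← Complex.Gamma_conj, ← riemannZeta_conj]
    have h1 : (starRingEnd ℂ) (ZF.cl t) = ZF.cl (-t) := by
      rw [ZF.cl, ZF.cl, map_add, map_mul, Complex.conj_ofReal, Complex.conj_ofReal, Complex.conj_I]
      push_cast; ring
    have h2 : (starRingEnd ℂ) (((1 / 4 : ℝ) : ℂ) + ((t / 2 : ℝ) : ℂ) * Complex.I) = (((1 / 4 : ℝ) : ℂ) + ((-t / 2 : ℝ) : ℂ) * Complex.I) := by
      rw [map_add, map_mul, Complex.conj_ofReal, Complex.conj_ofReal, Complex.conj_I]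
      push_cast; ring
    have h3 : (starRingEnd ℂ) ((Real.pi : ℂ) ^ (-(ZF.cl t) / 2)) = (Real.pi : ℂ) ^ (-(ZF.cl (-t)) / 2) := by
      have h4 := Complex.cpow_conj (Real.pi : ℂ) (-(ZF.cl t) / 2)
        (by rw [Complex.arg_ofReal_of_nonneg Real.pi_pos.le]; exact Real.pi_ne_zero.symm)
      rw [Complex.conj_ofReal] at h4
      rw [← h4]
      congr 1
      rw [map_div₀, map_neg, h1]
      congr 1
      exact Complex.conj_ofNat 2
    rw [h1, h2, h3]
  rw [h, Lc_neg]

noncomputable def Lr (t : ℝ) : ℝ := (Lc t).re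

lemma Lc_real (t : ℝ) : Lc t = (Lr t : ℂ) := by
  exact (Complex.conj_eq_iff_re.mp (Lc_conj t)).symm

lemma Lr_neg (t : ℝ) : Lr (-t) = Lr t := by unfold Lr; rw [Lc_neg]

lemma Lr_cont : Continuous Lr := Complex.continuous_re.comp Lc_cont

lemma abs_Lr (t : ℝ) : |Lr t| = ‖Lc t‖ := by rw [Lc_real, Complex.norm_real, Real.norm_eq_abs]

lemma abs_Lr_le (t : ℝ) : |Lr t| ≤ 20 * (1 + |t|) * Real.exp (-(Real.pi / 4) * |t|) := by
  rw [abs_Lr]; exact norm_Lc_le t

lemma integ_aux {a : ℝ} (ha : |a| < Real.pi / 4) :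
    Integrable (fun t : ℝ => Lr t * Real.exp (a * t)) ∧ Integrable (fun t : ℝ => Lr t * (t * Real.exp (a * t))) := by
  have hc : 0 < Real.pi / 4 - |a| := by linarith
  have hb : Integrable (fun t : ℝ => 20 * ((1 + |t|) ^ 2 * Real.exp (-(Real.pi / 4 - |a|) * |t|))) :=
    (poly_exp_integrable _ hc).const_mul 20
  have hkey : ∀ t : ℝ, |Lr t| * Real.exp (a * t) ≤ 20 * (1 + |t|) * Real.exp (-(Real.pi / 4 - |a|) * |t|) := by
    intro t
    have h1 := abs_Lr_le t
    have h2 : Real.exp (a * t) ≤ Real.exp (|a| * |t|) := by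
      apply Real.exp_le_exp.mpr
      rw [← abs_mul]; exact le_abs_self _
    have e : Real.exp (-(Real.pi / 4 - |a|) * |t|) = Real.exp (-(Real.pi / 4) * |t|) * Real.exp (|a| * |t|) := by
      rw [← Real.exp_add]; congr 1; ring
    rw [e, ← mul_assoc]
    exact mul_le_mul h1 h2 (Real.exp_pos _).le (by positivity)
  constructor
  · refine hb.mono (Lr_cont.mul (by fun_prop)).aestronglyMeasurable ?_
    filter_upwards with t
    rw [norm_mul, Real.norm_eq_abs, Real.norm_of_nonneg (Real.exp_pos _).le, Real.norm_of_nonneg (by positivity)]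
    refine (hkey t).trans ?_
    have h0 : 0 ≤ |t| := abs_nonneg t
    have := Real.exp_pos (-(Real.pi / 4 - |a|) * |t|)
    nlinarith [mul_nonneg h0 this.le, mul_nonneg (mul_nonneg h0 h0) this.le]
  · refine hb.mono (Lr_cont.mul (by fun_prop)).aestronglyMeasurable ?_
    filter_upwards with t
    rw [norm_mul, norm_mul, Real.norm_eq_abs, Real.norm_eq_abs, Real.norm_of_nonneg (Real.exp_pos _).le,
      Real.norm_of_nonneg (by positivity)]
    have h0 : 0 ≤ |t| := abs_nonneg t
    have he := Real.exp_pos (-(Real.pi / 4 - |a|) * |t|)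
    calc |Lr t| * (|t| * Real.exp (a * t)) = |t| * (|Lr t| * Real.exp (a * t)) := by ring
      _ ≤ |t| * (20 * (1 + |t|) * Real.exp (-(Real.pi / 4 - |a|) * |t|)) := mul_le_mul_of_nonneg_left (hkey t) h0
      _ ≤ _ := by nlinarith [mul_nonneg h0 he.le, mul_nonneg (mul_nonneg h0 h0) he.le]

/-- two-sided Laplace transform of the completed zeta function on the critical line -/
noncomputable def H (a : ℝ) : ℝ := ∫ t : ℝ, Lr t * Real.exp (a * t)

noncomputable def H' (a : ℝ) : ℝ := ∫ t : ℝ, Lr t * (t * Real.exp (a * t))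

lemma R_eq_H (a : ℝ) : R (Complex.I * a) = (H a : ℂ) := by
  unfold R H
  rw [← integral_complex_ofReal]
  congr 1
  funext t
  rw [Lc_real]
  push_cast
  congr 2
  linear_combination (-(t : ℂ) * a) * Complex.I_mul_I

lemma H_formula {ε : ℝ} (h0 : 0 < ε) (h1 : ε < Real.pi / 2) :
    H (Real.pi / 4 - ε) = 2 * Real.pi * (q ε - 2 * Real.cos ((Real.pi / 4 - ε) / 2)) := by
  have hS : Complex.I * ((Real.pi / 4 - ε : ℝ) : ℂ) ∈ S := by
    simp only [S, Set.mem_ofPred_eq]
    have : (Complex.I * ((Real.pi / 4 - ε : ℝ) : ℂ)).im = Real.pi / 4 - ε := by simp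
    rw [this, abs_lt]
    constructor <;> linarith
  have h2 := R_eq_T hS
  rw [R_eq_H] at h2
  unfold T at h2
  have h3 := theta_eq_q h0 h1
  rw [h3] at h2
  have h4 : Complex.exp (Complex.I * ((Real.pi / 4 - ε : ℝ) : ℂ) / 2) + Complex.exp (-(Complex.I * ((Real.pi / 4 - ε : ℝ) : ℂ) / 2)) =
      ((2 * Real.cos ((Real.pi / 4 - ε) / 2) : ℝ) : ℂ) := by
    rw [Complex.ofReal_mul, Complex.ofReal_cos, Complex.cos]
    push_cast
    have a1 : Complex.I * ((Real.pi : ℂ) / 4 - ε) / 2 = ((Real.pi : ℂ) / 4 - ε) / 2 * Complex.I := by ring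
    have a2 : -(Complex.I * ((Real.pi : ℂ) / 4 - ε) / 2) = -(((Real.pi : ℂ) / 4 - ε) / 2) * Complex.I := by ring
    rw [a2, a1]
    ring
  have h5 : (H (Real.pi / 4 - ε) : ℂ) = ((2 * Real.pi * (q ε - 2 * Real.cos ((Real.pi / 4 - ε) / 2)) : ℝ) : ℂ) := by
    rw [h2]
    rw [sub_sub, h4]
    push_cast
    ring
  exact_mod_cast h5

lemma H_hasDeriv {a : ℝ} (ha : |a| < Real.pi / 4) : HasDerivAt H (H' a) a := by
  have hS : Complex.I * (a : ℂ) ∈ S := by
    simp only [S, Set.mem_ofPred_eq]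
    have : (Complex.I * (a : ℂ)).im = a := by simp
    rw [this]; exact ha
  have h1 := (R_hasDeriv hS).2
  have h2 : HasDerivAt (fun x : ℝ => Complex.I * (x : ℂ)) Complex.I a := by
    have := (Complex.ofRealCLM.hasDerivAt (x := a)).const_mul Complex.I
    simpa using this
  have h3 := h1.comp a h2
  have h4 : (∫ t : ℝ, Lc t * (Complex.exp (-Complex.I * t * (Complex.I * a)) * (-Complex.I * t))) * Complex.I = (H' a : ℂ) := by
    unfold H'
    rw [← integral_complex_ofReal, ← integral_mul_const]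
    congr 1
    funext t
    rw [Lc_real]
    push_cast
    have e1 : -Complex.I * (t : ℂ) * (Complex.I * a) = a * t := by
      linear_combination (-(t : ℂ) * a) * Complex.I_mul_I
    rw [e1]
    linear_combination (-(Lr t : ℂ) * Complex.exp (a * t) * t) * Complex.I_mul_I
  rw [h4] at h3
  have h5 : (R ∘ fun x : ℝ => Complex.I * (x : ℂ)) = fun x : ℝ => (H x : ℂ) := by
    funext x; exact R_eq_H x
  rw [h5] at h3
  have h6 := (Complex.reCLM.hasFDerivAt (x := (H a : ℂ))).comp_hasDerivAt a h3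
  have h7 : (⇑Complex.reCLM ∘ fun x : ℝ => (H x : ℂ)) = H := by funext x; simp
  rw [h7] at h6
  simpa using h6

lemma H'_formula {ε : ℝ} (h0 : 0 < ε) (h1 : ε < 1) :
    H' (Real.pi / 4 - ε) = 2 * Real.pi * (-(q' ε) + Real.sin ((Real.pi / 4 - ε) / 2)) := by
  have hpi := Real.pi_gt_three
  have ha : |Real.pi / 4 - ε| < Real.pi / 4 := by
    rw [abs_lt]; constructor <;> linarith
  have d1 := H_hasDeriv ha
  have d2 : HasDerivAt (fun x : ℝ => Real.pi / 4 - x) (-1) ε := by
    simpa using (hasDerivAt_id ε).const_sub (Real.pi / 4)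
  have d3 : HasDerivAt (fun x => H (Real.pi / 4 - x)) (H' (Real.pi / 4 - ε) * (-1)) ε := d1.comp ε d2
  have d4 : HasDerivAt (fun x => 2 * Real.pi * (q x - 2 * Real.cos ((Real.pi / 4 - x) / 2)))
      (2 * Real.pi * (q' ε - 2 * (-Real.sin ((Real.pi / 4 - ε) / 2) * (-1 / 2)))) ε :=
    ((q_hasDeriv h0 h1).sub (((d2.div_const 2).cos).const_mul 2)).const_mul (2 * Real.pi)
  have heq : (fun x => H (Real.pi / 4 - x)) =ᶠ[𝓝 ε] (fun x => 2 * Real.pi * (q x - 2 * Real.cos ((Real.pi / 4 - x) / 2))) := by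
    have : Ioo 0 (Real.pi / 2) ∈ 𝓝 ε := Ioo_mem_nhds h0 (by linarith)
    filter_upwards [this] with x hx
    exact H_formula hx.1 hx.2
  have d5 := d4.congr_of_eventuallyEq heq
  have := d3.unique d5
  linarith

lemma H'_bound {a : ℝ} (h0 : 0 ≤ a) (h1 : a < Real.pi / 4) : |H' a| ≤ 2 * Real.pi * (Cq + 1) := by
  have hpi := Real.pi_gt_three
  have hpi2 := Real.pi_lt_four
  have h := H'_formula (ε := Real.pi / 4 - a) (by linarith) (by linarith)
  rw [sub_sub_cancel] at h
  rw [h, abs_mul, abs_of_pos (by positivity)]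
  apply mul_le_mul_of_nonneg_left _ (by positivity)
  have hq := q'_bound (ε := Real.pi / 4 - a) (by linarith) (by linarith)
  calc |-(q' (Real.pi / 4 - a)) + Real.sin (a / 2)| ≤ |-(q' (Real.pi / 4 - a))| + |Real.sin (a / 2)| := abs_add_le _ _
    _ ≤ Cq + 1 := by
      rw [abs_neg]
      exact add_le_add hq (Real.abs_sin_le_one _)

/-- two-sided integral of an expression against the even function `Lr` -/
lemma H'_eq_sinh {a : ℝ} (ha : |a| < Real.pi / 4) :
    H' a = 2 * ∫ t in Ioi (0:ℝ), Lr t * (t * Real.sinh (a * t)) := by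
  have hi := (integ_aux ha).2
  have hi2 := (integ_aux (a := -a) (by rwa [abs_neg])).2
  unfold H'
  rw [← intervalIntegral.integral_Iic_add_Ioi (b := 0) hi.integrableOn hi.integrableOn]
  have e1 : ∫ t in Iic (0:ℝ), Lr t * (t * Real.exp (a * t)) = ∫ t in Ioi (0:ℝ), -(Lr t * (t * Real.exp (-a * t))) := by
    have := integral_comp_neg_Iic (0:ℝ) (fun t => -(Lr t * (t * Real.exp (-a * t))))
    rw [neg_zero] at this
    rw [← this]
    apply setIntegral_congr_fun measurableSet_Iic
    intro t _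
    simp only
    rw [Lr_neg]
    ring_nf
  have hneg : IntegrableOn (fun t => -(Lr t * (t * Real.exp (-a * t)))) (Ioi 0) := hi2.integrableOn.neg
  rw [e1, ← integral_add hneg hi.integrableOn, ← integral_const_mul]
  apply setIntegral_congr_fun measurableSet_Ioi
  intro t _
  simp only
  rw [Real.sinh_eq]
  ring_nf

lemma H_eq_cosh {a : ℝ} (ha : |a| < Real.pi / 4) :
    H a = 2 * ∫ t in Ioi (0:ℝ), Lr t * Real.cosh (a * t) := by
  have hi := (integ_aux ha).1
  have hi2 := (integ_aux (a := -a) (by rwa [abs_neg])).1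
  unfold H
  rw [← intervalIntegral.integral_Iic_add_Ioi (b := 0) hi.integrableOn hi.integrableOn]
  have e1 : ∫ t in Iic (0:ℝ), Lr t * Real.exp (a * t) = ∫ t in Ioi (0:ℝ), Lr t * Real.exp (-a * t) := by
    have := integral_comp_neg_Iic (0:ℝ) (fun t => Lr t * Real.exp (-a * t))
    rw [neg_zero] at this
    rw [← this]
    apply setIntegral_congr_fun measurableSet_Iic
    intro t _
    simp only
    rw [Lr_neg]
    ring_nf
  rw [e1, ← integral_add hi2.integrableOn hi.integrableOn, ← integral_const_mul]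
  apply setIntegral_congr_fun measurableSet_Ioi
  intro t _
  simp only
  rw [Real.cosh_eq]
  ring_nf

/-- one-sided transform -/
noncomputable def P (p : ℝ) : ℝ := ∫ t in Ioi (0:ℝ), Lr t * (t * Real.exp (-p * t))

noncomputable def D (η a : ℝ) : ℝ := ∫ t in Ioi (0:ℝ), Lr t * (t * Real.sinh (a * t)) * Real.exp (-η * t)

noncomputable def P0 : ℝ := ∫ t in Ioi (0:ℝ), |Lr t| * t

lemma P_integ {p : ℝ} (hp : -(Real.pi / 4) < p) : IntegrableOn (fun t => Lr t * (t * Real.exp (-p * t))) (Ioi 0) := by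
  rcases lt_or_ge p (Real.pi / 4) with h | h
  · exact ((integ_aux (a := -p) (by rw [abs_neg, abs_lt]; exact ⟨hp, h⟩)).2).integrableOn
  · have h2 := (integ_aux (a := 0) (by simp; positivity)).2.integrableOn (s := Ioi 0)
    have hc : Continuous (fun t => Lr t * (t * Real.exp (-p * t))) := Lr_cont.mul (by fun_prop)
    refine Integrable.mono h2 hc.aestronglyMeasurable ?_
    refine (ae_restrict_iff' measurableSet_Ioi).mpr ?_
    filter_upwards with t ht
    have ht0 : (0:ℝ) < t := ht
    rw [norm_mul, norm_mul, norm_mul, norm_mul]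
    apply mul_le_mul_of_nonneg_left _ (norm_nonneg _)
    apply mul_le_mul_of_nonneg_left _ (norm_nonneg _)
    rw [Real.norm_of_nonneg (Real.exp_pos _).le, Real.norm_of_nonneg (Real.exp_pos _).le]
    apply Real.exp_le_exp.mpr
    have : 0 ≤ p := by linarith [Real.pi_pos]
    nlinarith

lemma P0_integ : IntegrableOn (fun t => |Lr t| * t) (Ioi 0) := by
  have h2 := (integ_aux (a := 0) (by simp; positivity)).2.integrableOn (s := Ioi 0)
  have h3 : IntegrableOn (fun t => ‖Lr t * (t * Real.exp (0 * t))‖) (Ioi 0) := h2.norm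
  refine h3.congr_fun ?_ measurableSet_Ioi
  intro t ht
  have ht0 : (0:ℝ) < t := ht
  simp [abs_of_pos ht0]

lemma P_bound {p : ℝ} (hp : 0 ≤ p) : |P p| ≤ P0 := by
  unfold P P0
  rw [← Real.norm_eq_abs]
  refine (norm_integral_le_integral_norm _).trans ?_
  apply setIntegral_mono_on (P_integ (by linarith [Real.pi_pos])).norm P0_integ measurableSet_Ioi
  intro t ht
  have ht0 : (0:ℝ) < t := ht
  rw [norm_mul, norm_mul, Real.norm_eq_abs, Real.norm_of_nonneg ht0.le, Real.norm_of_nonneg (Real.exp_pos _).le]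
  apply mul_le_mul_of_nonneg_left _ (abs_nonneg _)
  have : Real.exp (-p * t) ≤ 1 := by
    rw [Real.exp_le_one_iff]; nlinarith
  nlinarith

lemma P0_nonneg : 0 ≤ P0 := le_trans (abs_nonneg _) (P_bound (le_refl 0))

lemma P_neg {x : ℝ} (h : |x| < Real.pi / 4) : P (-x) = P x + H' x := by
  have hx := abs_lt.mp h
  rw [H'_eq_sinh h]
  unfold P
  rw [← integral_const_mul, ← integral_add (P_integ (by linarith [hx.1])).integrable]
  · apply setIntegral_congr_fun measurableSet_Ioi
    intro t _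
    simp only
    rw [Real.sinh_eq]
    ring_nf
  · have := (P_integ (p := -x) (by linarith [hx.2])).sub (P_integ (p := x) (by linarith [hx.1]))
    refine this.congr_fun ?_ measurableSet_Ioi
    intro t _
    simp only [Pi.sub_apply]
    rw [Real.sinh_eq]
    ring_nf

lemma D_eq {η a : ℝ} (h1 : -(Real.pi / 4) < η - a) (h2 : -(Real.pi / 4) < η + a) :
    D η a = (P (η - a) - P (η + a)) / 2 := by
  unfold D P
  rw [← integral_sub (P_integ h1) (P_integ h2), ← integral_div]
  apply setIntegral_congr_fun measurableSet_Ioi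
  intro t _
  simp only
  rw [Real.sinh_eq]
  have e1 : Real.exp (-(η - a) * t) = Real.exp (a * t) * Real.exp (-η * t) := by
    rw [← Real.exp_add]; ring_nf
  have e2 : Real.exp (-(η + a) * t) = Real.exp (-(a * t)) * Real.exp (-η * t) := by
    rw [← Real.exp_add]; ring_nf
  rw [e1, e2]
  ring

/-- the uniform constant -/
noncomputable def K : ℝ := P0 + Real.pi * (Cq + 1)

lemma K_nonneg : 0 ≤ K := by
  unfold K; have := P0_nonneg; have := Cq_nonneg; positivity

lemma D_bound {η a : ℝ} (hη : 0 ≤ η) (h0 : 0 ≤ a) (h1 : a < Real.pi / 4) : |D η a| ≤ K := by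
  have hpi := Real.pi_pos
  rw [D_eq (by linarith) (by linarith)]
  have hb2 := P_bound (p := η + a) (by linarith)
  have hC := Cq_nonneg
  unfold K
  rcases le_or_gt a η with h | h
  · have hb1 := P_bound (p := η - a) (by linarith)
    have : |(P (η - a) - P (η + a)) / 2| ≤ P0 := by
      rw [abs_div, abs_of_pos (by norm_num : (0:ℝ) < 2)]
      have := abs_sub (P (η - a)) (P (η + a))
      linarith
    have : 0 ≤ Real.pi * (Cq + 1) := by positivity
    linarith
  · have hx : |a - η| < Real.pi / 4 := by rw [abs_of_pos (by linarith)]; linarith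
    have e := P_neg hx
    rw [neg_sub] at e
    rw [e]
    have hb1 := P_bound (p := a - η) (by linarith)
    have hb3 := H'_bound (a := a - η) (by linarith) (by linarith)
    rw [abs_div, abs_of_pos (by norm_num : (0:ℝ) < 2)]
    have t1 := abs_sub (P (a - η) + H' (a - η)) (P (η + a))
    have t2 := abs_add_le (P (a - η)) (H' (a - η))
    linarith

end Pool.Agent.Helper625.M1
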