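import Mathlib
import Pool.Agent.Helper625.M1

namespace Pool.Agent.Helper625.M2
open MeasureTheory Filter Topology Set
open Pool.Agent.Helper625.Th Pool.Agent.Helper625.Fl Pool.Agent.Helper625.M1

/-- kernel -/
noncomputable def Phi (t : ℝ) : ℝ :=
  ∫ δ in Ioc (0:ℝ) (Real.pi / 4), δ ^ (-(1/4) : ℝ) * (t * Real.sinh ((Real.pi / 4 - δ) * t))

lemma rpow_integ {c : ℝ} (hc : 0 < c) : IntegrableOn (fun δ : ℝ => δ ^ (-(1/4) : ℝ)) (Ioc 0 c) :=
  (intervalIntegrable_iff_integrableOn_Ioc_of_le hc.le).mp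
    (intervalIntegral.intervalIntegrable_rpow' (by norm_num))

lemma rpow_integral {c : ℝ} (hc : 0 < c) : ∫ δ in Ioc (0:ℝ) c, δ ^ (-(1/4) : ℝ) = 4 / 3 * c ^ (3/4 : ℝ) := by
  rw [← intervalIntegral.integral_of_le hc.le, integral_rpow (Or.inl (by norm_num))]
  rw [show (-(1/4) + 1 : ℝ) = 3/4 by norm_num, Real.zero_rpow (by norm_num)]
  ring

/-- joint integrand -/
noncomputable def J (η : ℝ) (t δ : ℝ) : ℝ :=
  δ ^ (-(1/4) : ℝ) * (Lr t * (t * Real.sinh ((Real.pi / 4 - δ) * t)) * Real.exp (-η * t))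

lemma J_meas (η : ℝ) : Measurable (Function.uncurry (J η)) := by
  have hL : Measurable Lr := Lr_cont.measurable
  unfold J Function.uncurry
  apply Measurable.mul
  · exact (measurable_snd).pow_const _
  · apply Measurable.mul
    · apply Measurable.mul (hL.comp measurable_fst)
      apply Measurable.mul measurable_fst
      exact Real.continuous_sinh.measurable.comp (by fun_prop)
    · fun_prop

lemma sinh_bound {δ t : ℝ} (h0 : 0 < δ) (h1 : δ ≤ Real.pi / 4) (ht : 0 < t) :
    0 ≤ Real.sinh ((Real.pi / 4 - δ) * t) ∧ Real.sinh ((Real.pi / 4 - δ) * t) ≤ Real.exp (Real.pi / 4 * t) := by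
  constructor
  · apply Real.sinh_nonneg_iff.mpr
    apply mul_nonneg (by linarith) ht.le
  · rw [Real.sinh_eq]
    have h2 : Real.exp ((Real.pi / 4 - δ) * t) ≤ Real.exp (Real.pi / 4 * t) := by
      apply Real.exp_le_exp.mpr; nlinarith
    have h3 := Real.exp_pos (-((Real.pi / 4 - δ) * t))
    have h4 := Real.exp_pos ((Real.pi / 4 - δ) * t)
    linarith

lemma J_integ {η : ℝ} (hη : 0 < η) :
    Integrable (Function.uncurry (J η)) ((volume.restrict (Ioi (0:ℝ))).prod (volume.restrict (Ioc (0:ℝ) (Real.pi / 4)))) := by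
  have hb1 : IntegrableOn (fun t : ℝ => 20 * ((1 + |t|) ^ 2 * Real.exp (-η * |t|))) (Ioi 0) :=
    ((poly_exp_integrable _ hη).const_mul 20).integrableOn
  have hb2 := rpow_integ (c := Real.pi / 4) (by positivity)
  have hprod := Integrable.mul_prod (μ := volume.restrict (Ioi (0:ℝ))) (ν := volume.restrict (Ioc (0:ℝ) (Real.pi / 4))) hb1 hb2
  refine hprod.mono (J_meas η).aestronglyMeasurable ?_
  rw [Measure.prod_restrict]
  refine (ae_restrict_iff' (measurableSet_Ioi.prod measurableSet_Ioc)).mpr ?_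
  filter_upwards with ⟨t, δ⟩ h
  have ht : (0:ℝ) < t := h.1
  have hδ0 : (0:ℝ) < δ := h.2.1
  have hδ1 : δ ≤ Real.pi / 4 := h.2.2
  have hs := sinh_bound hδ0 hδ1 ht
  simp only [Function.uncurry, J]
  have hr : 0 < δ ^ (-(1/4) : ℝ) := Real.rpow_pos_of_pos hδ0 _
  rw [norm_mul, norm_mul, norm_mul, norm_mul, Real.norm_of_nonneg hr.le, Real.norm_eq_abs (Lr t), Real.norm_of_nonneg ht.le,
    Real.norm_of_nonneg hs.1, Real.norm_of_nonneg (Real.exp_pos _).le, Real.norm_of_nonneg (by positivity), mul_comm]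
  apply mul_le_mul_of_nonneg_right _ hr.le
  have h1 := abs_Lr_le t
  rw [abs_of_pos ht] at h1 ⊢
  calc |Lr t| * (t * Real.sinh ((Real.pi / 4 - δ) * t)) * Real.exp (-η * t)
      ≤ (20 * (1 + t) * Real.exp (-(Real.pi / 4) * t)) * (t * Real.exp (Real.pi / 4 * t)) * Real.exp (-η * t) := by
        apply mul_le_mul_of_nonneg_right _ (Real.exp_pos _).le
        apply mul_le_mul h1 _ (mul_nonneg ht.le hs.1) (by positivity)
        exact mul_le_mul_of_nonneg_left hs.2 ht.le
    _ = 20 * (1 + t) * t * (Real.exp (-(Real.pi / 4) * t) * Real.exp (Real.pi / 4 * t)) * Real.exp (-η * t) := by ring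
    _ = 20 * (1 + t) * t * Real.exp (-η * t) := by
        rw [← Real.exp_add]; simp
    _ ≤ _ := by
        have he := Real.exp_pos (-η * t)
        nlinarith [mul_nonneg ht.le he.le]

lemma fubini {η : ℝ} (hη : 0 < η) :
    ∫ t in Ioi (0:ℝ), Lr t * Phi t * Real.exp (-η * t) =
    ∫ δ in Ioc (0:ℝ) (Real.pi / 4), δ ^ (-(1/4) : ℝ) * D η (Real.pi / 4 - δ) := by
  have h := integral_integral_swap (J_integ hη)
  have e1 : ∫ t in Ioi (0:ℝ), Lr t * Phi t * Real.exp (-η * t) = ∫ t in Ioi (0:ℝ), ∫ δ in Ioc (0:ℝ) (Real.pi / 4), J η t δ := by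
    apply setIntegral_congr_fun measurableSet_Ioi
    intro t _
    simp only [Phi, J]
    rw [mul_comm (Lr t), mul_assoc, ← integral_mul_const]
    apply setIntegral_congr_fun measurableSet_Ioc
    intro δ _
    simp only
    ring
  have e2 : ∫ δ in Ioc (0:ℝ) (Real.pi / 4), δ ^ (-(1/4) : ℝ) * D η (Real.pi / 4 - δ) =
      ∫ δ in Ioc (0:ℝ) (Real.pi / 4), ∫ t in Ioi (0:ℝ), J η t δ := by
    apply setIntegral_congr_fun measurableSet_Ioc
    intro δ _
    simp only [D, J]
    rw [← integral_const_mul]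
  rw [e1, e2, h]

lemma D_tendsto {a : ℝ} (h0 : 0 ≤ a) (h1 : a < Real.pi / 4) :
    Tendsto (fun η => D η a) (𝓝[>] 0) (𝓝 (H' a / 2)) := by
  have ha : |a| < Real.pi / 4 := by rwa [abs_of_nonneg h0]
  have e : H' a / 2 = ∫ t in Ioi (0:ℝ), Lr t * (t * Real.sinh (a * t)) := by
    rw [H'_eq_sinh ha]; ring
  rw [e]
  unfold D
  have hcont : Continuous (fun t => Lr t * (t * Real.sinh (a * t))) :=
    Lr_cont.mul (continuous_id.mul (Real.continuous_sinh.comp (by fun_prop)))
  have hint : IntegrableOn (fun t => Lr t * (t * Real.sinh (a * t))) (Ioi 0) := by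
    have := ((integ_aux ha).2.sub (integ_aux (a := -a) (by rwa [abs_neg])).2).integrableOn (s := Ioi 0)
    refine IntegrableOn.congr_fun (this.div_const 2) ?_ measurableSet_Ioi
    intro t _
    simp only [Pi.sub_apply]
    rw [Real.sinh_eq]
    ring_nf
  apply tendsto_integral_filter_of_dominated_convergence (fun t => ‖Lr t * (t * Real.sinh (a * t))‖)
  · filter_upwards with η
    exact (hcont.mul (by fun_prop)).aestronglyMeasurable
  · filter_upwards [self_mem_nhdsWithin] with η hη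
    refine (ae_restrict_iff' measurableSet_Ioi).mpr ?_
    filter_upwards with t ht
    have ht0 : (0:ℝ) < t := ht
    have hη0 : (0:ℝ) < η := hη
    rw [norm_mul, Real.norm_of_nonneg (Real.exp_pos _).le]
    have : Real.exp (-η * t) ≤ 1 := by
      rw [Real.exp_le_one_iff]; nlinarith
    nlinarith [norm_nonneg (Lr t * (t * Real.sinh (a * t)))]
  · exact hint.norm
  · filter_upwards with t
    have h2 : Tendsto (fun η : ℝ => Real.exp (-η * t)) (𝓝[>] 0) (𝓝 1) := by
      have : Tendsto (fun η : ℝ => Real.exp (-η * t)) (𝓝 0) (𝓝 (Real.exp (-0 * t))) :=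
        (Continuous.tendsto (by fun_prop) 0)
      rw [neg_zero, zero_mul, Real.exp_zero] at this
      exact this.mono_left nhdsWithin_le_nhds
    simpa using h2.const_mul (Lr t * (t * Real.sinh (a * t)))

lemma D_meas (η : ℝ) : Measurable (fun δ => D η (Real.pi / 4 - δ)) := by
  unfold D
  have : StronglyMeasurable (fun p : ℝ × ℝ => Lr p.2 * (p.2 * Real.sinh ((Real.pi / 4 - p.1) * p.2)) * Real.exp (-η * p.2)) := by
    apply Measurable.stronglyMeasurable
    apply Measurable.mul
    · apply Measurable.mul (Lr_cont.measurable.comp measurable_snd)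
      apply Measurable.mul measurable_snd
      exact Real.continuous_sinh.measurable.comp (by fun_prop)
    · fun_prop
  exact (this.integral_prod_right' (ν := volume.restrict (Ioi (0:ℝ)))).measurable

lemma lim1 : Tendsto (fun η => ∫ t in Ioi (0:ℝ), Lr t * Phi t * Real.exp (-η * t)) (𝓝[>] 0)
    (𝓝 (∫ δ in Ioc (0:ℝ) (Real.pi / 4), δ ^ (-(1/4) : ℝ) * (H' (Real.pi / 4 - δ) / 2))) := by
  have h : Tendsto (fun η => ∫ δ in Ioc (0:ℝ) (Real.pi / 4), δ ^ (-(1/4) : ℝ) * D η (Real.pi / 4 - δ)) (𝓝[>] 0)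
    (𝓝 (∫ δ in Ioc (0:ℝ) (Real.pi / 4), δ ^ (-(1/4) : ℝ) * (H' (Real.pi / 4 - δ) / 2))) := by
    apply tendsto_integral_filter_of_dominated_convergence (fun δ => δ ^ (-(1/4) : ℝ) * K)
    · filter_upwards with η
      exact ((measurable_id.pow_const _).mul (D_meas η)).aestronglyMeasurable
    · filter_upwards [self_mem_nhdsWithin] with η hη
      refine (ae_restrict_iff' measurableSet_Ioc).mpr ?_
      filter_upwards with δ hδ
      have hr : 0 < δ ^ (-(1/4) : ℝ) := Real.rpow_pos_of_pos hδ.1 _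
      rw [norm_mul, Real.norm_of_nonneg hr.le, Real.norm_eq_abs]
      apply mul_le_mul_of_nonneg_left _ hr.le
      exact D_bound (le_of_lt hη) (by linarith [hδ.2]) (by linarith [hδ.1])
    · exact (rpow_integ (by positivity)).mul_const K
    · refine (ae_restrict_iff' measurableSet_Ioc).mpr ?_
      filter_upwards with δ hδ
      exact (D_tendsto (by linarith [hδ.2]) (by linarith [hδ.1])).const_mul _
  refine h.congr' ?_
  filter_upwards [self_mem_nhdsWithin] with η hη
  exact (fubini hη).symm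

lemma Lr_integ : Integrable Lr := by
  have := (integ_aux (a := 0) (by simp; positivity)).1
  simpa using this

lemma lim2 : Tendsto (fun η => ∫ t in Ioi (0:ℝ), Lr t * Real.exp (-η * t)) (𝓝[>] 0) (𝓝 (H 0 / 2)) := by
  have e : H 0 / 2 = ∫ t in Ioi (0:ℝ), Lr t := by
    rw [H_eq_cosh (by simp; positivity)]; simp
  rw [e]
  apply tendsto_integral_filter_of_dominated_convergence (fun t => ‖Lr t‖)
  · filter_upwards with η
    exact (Lr_cont.mul (by fun_prop)).aestronglyMeasurable
  · filter_upwards [self_mem_nhdsWithin] with η hη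
    refine (ae_restrict_iff' measurableSet_Ioi).mpr ?_
    filter_upwards with t ht
    have ht0 : (0:ℝ) < t := ht
    have hη0 : (0:ℝ) < η := hη
    rw [norm_mul, Real.norm_of_nonneg (Real.exp_pos _).le]
    have : Real.exp (-η * t) ≤ 1 := by
      rw [Real.exp_le_one_iff]; nlinarith
    nlinarith [norm_nonneg (Lr t)]
  · exact Lr_integ.norm.integrableOn
  · filter_upwards with t
    have h2 : Tendsto (fun η : ℝ => Real.exp (-η * t)) (𝓝[>] 0) (𝓝 1) := by
      have : Tendsto (fun η : ℝ => Real.exp (-η * t)) (𝓝 0) (𝓝 (Real.exp (-0 * t))) :=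
        (Continuous.tendsto (by fun_prop) 0)
      rw [neg_zero, zero_mul, Real.exp_zero] at this
      exact this.mono_left nhdsWithin_le_nhds
    simpa using h2.const_mul (Lr t)

end Pool.Agent.Helper625.M2
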