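import Mathlib
import Pool.Agent.Helper625.M2

namespace Pool.Agent.Helper625.M3
open MeasureTheory Filter Topology Set
open Pool.Agent.Helper625.Th Pool.Agent.Helper625.Fl Pool.Agent.Helper625.M1 Pool.Agent.Helper625.M2

noncomputable def b0 : ℝ := (Real.pi / 4) ^ (-(1/4) : ℝ)

lemma b0_pos : 0 < b0 := Real.rpow_pos_of_pos (by positivity) _

lemma pi4_lt : Real.pi / 4 < 1 := by linarith [Real.pi_lt_four]

lemma q'_eq_deriv {ε : ℝ} (h0 : 0 < ε) (h1 : ε < 1) : q' ε = deriv q ε := (q_hasDeriv h0 h1).deriv.symm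

lemma int_q' : IntegrableOn (fun δ => δ ^ (-(1/4) : ℝ) * q' δ) (Ioc 0 (Real.pi / 4)) := by
  have hr := (rpow_integ (c := Real.pi / 4) (by positivity)).mul_const Cq
  have : IntegrableOn (fun δ => δ ^ (-(1/4) : ℝ) * deriv q δ) (Ioc 0 (Real.pi / 4)) := by
    refine Integrable.mono hr ((measurable_id.pow_const _).mul (measurable_deriv q)).aestronglyMeasurable ?_
    refine (ae_restrict_iff' measurableSet_Ioc).mpr ?_
    filter_upwards with δ hδ
    have h1 : δ < 1 := lt_of_le_of_lt hδ.2 pi4_lt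
    rw [norm_mul, norm_mul]
    apply mul_le_mul_of_nonneg_left _ (norm_nonneg _)
    rw [← q'_eq_deriv hδ.1 h1, Real.norm_eq_abs, Real.norm_of_nonneg Cq_nonneg]
    exact q'_bound hδ.1 h1
  refine this.congr_fun ?_ measurableSet_Ioc
  intro δ hδ
  simp only
  rw [q'_eq_deriv hδ.1 (lt_of_le_of_lt hδ.2 pi4_lt)]

lemma int_q : IntegrableOn (fun δ => (1/4 : ℝ) * (δ ^ (-(5/4) : ℝ) * q δ)) (Ioc 0 (Real.pi / 4)) := by
  have hr := (rpow_integ (c := Real.pi / 4) (by positivity)).mul_const Cq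
  have hcont : ContinuousOn (fun δ => (1/4 : ℝ) * (δ ^ (-(5/4) : ℝ) * q δ)) (Ioc 0 (Real.pi / 4)) := by
    intro δ hδ
    have h1 : δ < 1 := lt_of_le_of_lt hδ.2 pi4_lt
    apply ContinuousAt.continuousWithinAt
    exact continuousAt_const.mul ((Real.continuousAt_rpow_const _ _ (Or.inl hδ.1.ne')).mul (q_hasDeriv hδ.1 h1).continuousAt)
  refine Integrable.mono hr (hcont.aestronglyMeasurable measurableSet_Ioc) ?_
  refine (ae_restrict_iff' measurableSet_Ioc).mpr ?_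
  filter_upwards with δ hδ
  have h1 : δ < 1 := lt_of_le_of_lt hδ.2 pi4_lt
  have hq := q_bound hδ.1 h1
  have e : δ ^ (-(1/4) : ℝ) = δ ^ (-(5/4) : ℝ) * δ := by
    rw [← Real.rpow_add_one hδ.1.ne']; norm_num
  have hr0 : 0 < δ ^ (-(5/4) : ℝ) := Real.rpow_pos_of_pos hδ.1 _
  rw [norm_mul, norm_mul, norm_mul, Real.norm_of_nonneg hr0.le, Real.norm_eq_abs (q δ), Real.norm_of_nonneg Cq_nonneg,
    Real.norm_of_nonneg (Real.rpow_nonneg hδ.1.le _), e, Real.norm_of_nonneg (by norm_num : (0:ℝ) ≤ 1/4)]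
  have hC := Cq_nonneg
  have h2 : δ ^ (-(5/4) : ℝ) * |q δ| ≤ δ ^ (-(5/4) : ℝ) * (Cq * δ) := mul_le_mul_of_nonneg_left hq hr0.le
  have h3 : 0 ≤ δ ^ (-(5/4) : ℝ) * |q δ| := by positivity
  calc 1/4 * (δ ^ (-(5/4) : ℝ) * |q δ|) ≤ 1 * (δ ^ (-(5/4) : ℝ) * |q δ|) := mul_le_mul_of_nonneg_right (by norm_num) h3
    _ ≤ δ ^ (-(5/4) : ℝ) * (Cq * δ) := by rw [one_mul]; exact h2
    _ = _ := by ring

/-- integration by parts for the flat part -/
lemma int_q'_ge : b0 * q (Real.pi / 4) ≤ ∫ δ in Ioc (0:ℝ) (Real.pi / 4), δ ^ (-(1/4) : ℝ) * q' δ := by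
  have hpi : 0 < Real.pi / 4 := by positivity
  have hderiv : ∀ x ∈ Ioo (0:ℝ) (Real.pi / 4), HasDerivAt (fun δ => δ ^ (-(1/4) : ℝ) * q δ)
      (x ^ (-(1/4) : ℝ) * q' x - (1/4 : ℝ) * (x ^ (-(5/4) : ℝ) * q x)) x := by
    intro x hx
    have h1 : x < 1 := lt_trans hx.2 pi4_lt
    have d1 := (Real.hasDerivAt_rpow_const (x := x) (p := (-(1/4) : ℝ)) (Or.inl hx.1.ne')).mul (q_hasDeriv hx.1 h1)
    refine d1.congr_deriv ?_
    rw [show (-(1/4) - 1 : ℝ) = -(5/4) by norm_num]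
    ring
  have hint : IntervalIntegrable (fun x => x ^ (-(1/4) : ℝ) * q' x - (1/4 : ℝ) * (x ^ (-(5/4) : ℝ) * q x)) volume 0 (Real.pi / 4) :=
    (intervalIntegrable_iff_integrableOn_Ioc_of_le hpi.le).mpr (int_q'.sub int_q)
  have ha : Tendsto (fun δ => δ ^ (-(1/4) : ℝ) * q δ) (𝓝[>] 0) (𝓝 0) := by
    have hb : Tendsto (fun δ : ℝ => Cq * δ ^ (3/4 : ℝ)) (𝓝[>] 0) (𝓝 0) := by
      have : Tendsto (fun δ : ℝ => Cq * δ ^ (3/4 : ℝ)) (𝓝 0) (𝓝 (Cq * 0 ^ (3/4 : ℝ))) :=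
        (Real.continuousAt_rpow_const 0 _ (Or.inr (by norm_num))).const_mul Cq
      rw [Real.zero_rpow (by norm_num), mul_zero] at this
      exact this.mono_left nhdsWithin_le_nhds
    apply squeeze_zero_norm' _ hb
    filter_upwards [Ioo_mem_nhdsGT (show (0:ℝ) < 1 by norm_num)] with δ hδ
    have hq := q_bound hδ.1 hδ.2
    have hr0 : 0 < δ ^ (-(1/4) : ℝ) := Real.rpow_pos_of_pos hδ.1 _
    have e : δ ^ (3/4 : ℝ) = δ ^ (-(1/4) : ℝ) * δ := by
      rw [← Real.rpow_add_one hδ.1.ne']; norm_num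
    rw [norm_mul, Real.norm_of_nonneg hr0.le, Real.norm_eq_abs, e]
    calc _ ≤ δ ^ (-(1/4) : ℝ) * (Cq * δ) := mul_le_mul_of_nonneg_left hq hr0.le
      _ = _ := by ring
  have hb : Tendsto (fun δ => δ ^ (-(1/4) : ℝ) * q δ) (𝓝[<] (Real.pi / 4)) (𝓝 (b0 * q (Real.pi / 4))) := by
    have : ContinuousAt (fun δ => δ ^ (-(1/4) : ℝ) * q δ) (Real.pi / 4) :=
      (Real.continuousAt_rpow_const _ _ (Or.inl hpi.ne')).mul (q_hasDeriv hpi pi4_lt).continuousAt
    exact this.tendsto.mono_left nhdsWithin_le_nhds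
  have h := intervalIntegral.integral_eq_sub_of_hasDerivAt_of_tendsto hpi hderiv hint ha hb
  rw [intervalIntegral.integral_of_le hpi.le, integral_sub int_q' int_q] at h
  have hpos : 0 ≤ ∫ δ in Ioc (0:ℝ) (Real.pi / 4), (1/4 : ℝ) * (δ ^ (-(5/4) : ℝ) * q δ) := by
    apply setIntegral_nonneg measurableSet_Ioc
    intro δ hδ
    have := q_nonneg hδ.1 hδ.2
    have := Real.rpow_nonneg hδ.1.le (-(5/4))
    positivity
  linarith

/-- the limiting value -/
noncomputable def M0 : ℝ :=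
  (∫ δ in Ioc (0:ℝ) (Real.pi / 4), δ ^ (-(1/4) : ℝ) * (H' (Real.pi / 4 - δ) / 2)) + b0 * (H 0 / 2)

lemma sin_int : IntegrableOn (fun δ => δ ^ (-(1/4) : ℝ) * Real.sin ((Real.pi / 4 - δ) / 2)) (Ioc 0 (Real.pi / 4)) := by
  have hr := (rpow_integ (c := Real.pi / 4) (by positivity))
  refine Integrable.mono hr ?_ ?_
  · exact ((measurable_id.pow_const _).mul (by fun_prop)).aestronglyMeasurable
  · filter_upwards with δ
    rw [norm_mul]
    have := Real.abs_sin_le_one ((Real.pi / 4 - δ) / 2)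
    rw [Real.norm_eq_abs (Real.sin _)]
    nlinarith [norm_nonneg (δ ^ (-(1/4) : ℝ))]

lemma M0_le : M0 ≤ -(b0 * Real.pi * (2 - Real.pi ^ 2 / 24)) := by
  have hpi : 0 < Real.pi / 4 := by positivity
  unfold M0
  have e1 : ∫ δ in Ioc (0:ℝ) (Real.pi / 4), δ ^ (-(1/4) : ℝ) * (H' (Real.pi / 4 - δ) / 2) =
      Real.pi * (∫ δ in Ioc (0:ℝ) (Real.pi / 4), δ ^ (-(1/4) : ℝ) * Real.sin ((Real.pi / 4 - δ) / 2)) -
      Real.pi * ∫ δ in Ioc (0:ℝ) (Real.pi / 4), δ ^ (-(1/4) : ℝ) * q' δ := by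
    rw [← integral_const_mul, ← integral_const_mul, ← integral_sub (sin_int.const_mul _) (int_q'.const_mul _)]
    apply setIntegral_congr_fun measurableSet_Ioc
    intro δ hδ
    simp only
    rw [H'_formula hδ.1 (lt_of_le_of_lt hδ.2 pi4_lt)]
    ring
  have e2 : H 0 = 2 * Real.pi * (q (Real.pi / 4) - 2) := by
    have := H_formula (ε := Real.pi / 4) hpi (by linarith)
    rw [sub_self] at this
    rw [this]; simp
  have e3 : ∫ δ in Ioc (0:ℝ) (Real.pi / 4), δ ^ (-(1/4) : ℝ) * Real.sin ((Real.pi / 4 - δ) / 2) ≤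
      ∫ δ in Ioc (0:ℝ) (Real.pi / 4), δ ^ (-(1/4) : ℝ) * (Real.pi / 8) := by
    apply setIntegral_mono_on sin_int ((rpow_integ hpi).mul_const _) measurableSet_Ioc
    intro δ hδ
    apply mul_le_mul_of_nonneg_left _ (Real.rpow_nonneg hδ.1.le _)
    have h1 : Real.sin ((Real.pi / 4 - δ) / 2) ≤ (Real.pi / 4 - δ) / 2 := Real.sin_le (by linarith [hδ.2])
    linarith [hδ.1]
  have e4 : ∫ δ in Ioc (0:ℝ) (Real.pi / 4), δ ^ (-(1/4) : ℝ) * (Real.pi / 8) = b0 * (Real.pi ^ 2 / 24) := by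
    rw [integral_mul_const, rpow_integral hpi]
    have : (Real.pi / 4) ^ (3/4 : ℝ) = b0 * (Real.pi / 4) := by
      unfold b0
      rw [← Real.rpow_add_one hpi.ne']; norm_num
    rw [this]; ring
  have e5 := int_q'_ge
  rw [e1, e2]
  have hp := Real.pi_pos
  nlinarith [mul_le_mul_of_nonneg_left (e3.trans (le_of_eq e4)) hp.le, mul_le_mul_of_nonneg_left e5 hp.le]

lemma lim3 : Tendsto (fun η => ∫ t in Ioi (0:ℝ), Lr t * (Phi t + b0) * Real.exp (-η * t)) (𝓝[>] 0) (𝓝 M0) := by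
  have h := lim1.add (lim2.const_mul b0)
  refine h.congr' ?_
  filter_upwards [self_mem_nhdsWithin] with η hη
  have hη0 : (0:ℝ) < η := hη
  have i2 : IntegrableOn (fun t => Lr t * Real.exp (-η * t)) (Ioi 0) := by
    refine Integrable.mono Lr_integ.integrableOn (Lr_cont.mul (by fun_prop)).aestronglyMeasurable ?_
    refine (ae_restrict_iff' measurableSet_Ioi).mpr ?_
    filter_upwards with t ht
    have ht0 : (0:ℝ) < t := ht
    rw [norm_mul, Real.norm_of_nonneg (Real.exp_pos _).le]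
    have : Real.exp (-η * t) ≤ 1 := by
      rw [Real.exp_le_one_iff]; nlinarith
    nlinarith [norm_nonneg (Lr t)]
  have i1 : IntegrableOn (fun t => Lr t * Phi t * Real.exp (-η * t)) (Ioi 0) := by
    have h5 := (J_integ hη0).integral_prod_left
    refine h5.congr ?_
    refine (ae_restrict_iff' measurableSet_Ioi).mpr ?_
    filter_upwards with t ht
    simp only [Function.uncurry, Phi, J]
    rw [mul_comm (Lr t), mul_assoc, ← integral_mul_const]
    apply setIntegral_congr_fun measurableSet_Ioc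
    intro δ _
    simp only
    ring
  rw [← integral_const_mul, ← integral_add i1 (i2.const_mul b0)]
  apply setIntegral_congr_fun measurableSet_Ioi
  intro t _
  simp only
  ring

end Pool.Agent.Helper625.M3
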