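import Mathlib
import Pool.Agent.Helper625.M3

namespace Pool.Agent.Helper625.M4
open MeasureTheory Filter Topology Set
open Pool.Agent.Helper625.Th Pool.Agent.Helper625.M2 Pool.Agent.Helper625.M3

lemma integ_mul {f : ℝ → ℝ} (hf : Continuous f) {c : ℝ} (hc : 0 < c) :
    IntegrableOn (fun δ : ℝ => δ ^ (-(1/4) : ℝ) * f δ) (Ioc 0 c) :=
  (intervalIntegrable_iff_integrableOn_Ioc_of_le hc.le).mp
    ((intervalIntegral.intervalIntegrable_rpow' (by norm_num)).mul_continuousOn hf.continuousOn)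

noncomputable def A1 (t : ℝ) : ℝ :=
  ∫ δ in Ioc (0:ℝ) (Real.pi / 4), δ ^ (-(1/4) : ℝ) * Real.exp (-(t * δ))

noncomputable def B1 (t : ℝ) : ℝ :=
  ∫ δ in Ioc (0:ℝ) (Real.pi / 4), δ ^ (-(1/4) : ℝ) * Real.exp (t * δ)

lemma pi4_pos : 0 < Real.pi / 4 := by positivity

lemma Phi_eq (t : ℝ) : Phi t = t / 2 * (Real.exp (Real.pi / 4 * t) * A1 t - Real.exp (-(Real.pi / 4 * t)) * B1 t) := by
  unfold Phi A1 B1
  rw [← integral_const_mul, ← integral_const_mul, ← integral_sub, ← integral_const_mul]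
  · apply setIntegral_congr_fun measurableSet_Ioc
    intro δ _
    simp only
    rw [Real.sinh_eq, show (Real.pi / 4 - δ) * t = Real.pi / 4 * t + -(t * δ) by ring,
      show -(Real.pi / 4 * t + -(t * δ)) = -(Real.pi / 4 * t) + t * δ by ring, Real.exp_add, Real.exp_add]
    ring
  · exact (integ_mul (by fun_prop) pi4_pos).const_mul _
  · exact (integ_mul (by fun_prop) pi4_pos).const_mul _

lemma full_integ {t : ℝ} (ht : 0 < t) :
    IntegrableOn (fun δ : ℝ => δ ^ (-(1/4) : ℝ) * Real.exp (-(t * δ))) (Ioi 0) := by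
  have h := integrableOn_rpow_mul_exp_neg_mul_rpow (p := 1) (s := -(1/4)) (b := t) (by norm_num) (by norm_num) ht
  refine h.congr_fun ?_ measurableSet_Ioi
  intro x _
  simp only [Real.rpow_one, neg_mul]

lemma full_integral {t : ℝ} (ht : 0 < t) :
    ∫ δ in Ioi (0:ℝ), δ ^ (-(1/4) : ℝ) * Real.exp (-(t * δ)) = t ^ (-(3/4) : ℝ) * Real.Gamma (3/4) := by
  have h := Real.integral_rpow_mul_exp_neg_mul_Ioi (a := 3/4) (r := t) (by norm_num) ht
  rw [show (3/4 - 1 : ℝ) = -(1/4) by norm_num] at h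
  rw [h, one_div, Real.inv_rpow ht.le, Real.rpow_neg ht.le]

lemma A1_le {t : ℝ} (ht : 0 < t) : A1 t ≤ t ^ (-(3/4) : ℝ) * Real.Gamma (3/4) := by
  rw [← full_integral ht]
  unfold A1
  apply setIntegral_mono_set (full_integ ht)
  · refine (ae_restrict_iff' measurableSet_Ioi).mpr ?_
    filter_upwards with x hx
    have := Real.rpow_nonneg (le_of_lt hx) (-(1/4) : ℝ)
    have := Real.exp_pos (-(t * x))
    simp only [Pi.zero_apply]
    positivity
  · exact (Ioc_subset_Ioi_self).eventuallyLE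

lemma tail_le {t : ℝ} (ht : 0 < t) :
    ∫ δ in Ioi (Real.pi / 4), δ ^ (-(1/4) : ℝ) * Real.exp (-(t * δ)) ≤ b0 * (Real.exp (-(Real.pi / 4 * t)) / t) := by
  have h1 : ∫ δ in Ioi (Real.pi / 4), b0 * Real.exp (-t * δ) = b0 * (Real.exp (-(Real.pi / 4 * t)) / t) := by
    rw [integral_const_mul, integral_exp_mul_Ioi (by linarith : -t < 0)]
    congr 1
    rw [show -t * (Real.pi / 4) = -(Real.pi / 4 * t) by ring, div_neg, neg_div, neg_neg]
  rw [← h1]
  apply setIntegral_mono_on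
  · exact (full_integ ht).mono_set (Ioi_subset_Ioi pi4_pos.le)
  · exact (integrableOn_exp_mul_Ioi (by linarith : -t < 0) _).const_mul _
  · exact measurableSet_Ioi
  · intro x hx
    rw [neg_mul]
    apply mul_le_mul_of_nonneg_right _ (Real.exp_pos _).le
    unfold b0
    exact Real.rpow_le_rpow_of_nonpos pi4_pos (le_of_lt hx) (by norm_num)

lemma A1_ge {t : ℝ} (ht : 0 < t) :
    t ^ (-(3/4) : ℝ) * Real.Gamma (3/4) - b0 * (Real.exp (-(Real.pi / 4 * t)) / t) ≤ A1 t := by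
  have hu := setIntegral_union (f := fun δ : ℝ => δ ^ (-(1/4) : ℝ) * Real.exp (-(t * δ))) (μ := volume)
    (s := Ioc 0 (Real.pi / 4)) (t := Ioi (Real.pi / 4))
    (by rw [Set.disjoint_left]; intro x hx hx2; exact absurd hx.2 (not_le.mpr hx2)) measurableSet_Ioi
    ((full_integ ht).mono_set Ioc_subset_Ioi_self) ((full_integ ht).mono_set (Ioi_subset_Ioi pi4_pos.le))
  rw [Ioc_union_Ioi_eq_Ioi pi4_pos.le, full_integral ht] at hu
  have := tail_le ht
  unfold A1
  linarith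

lemma exp_integral {t : ℝ} (ht : 0 < t) :
    ∫ δ in Ioc (0:ℝ) (Real.pi / 4), Real.exp (t * δ) = (Real.exp (Real.pi / 4 * t) - 1) / t := by
  rw [← intervalIntegral.integral_of_le pi4_pos.le, intervalIntegral.integral_comp_mul_left (fun x => Real.exp x) ht.ne',
    integral_exp, mul_zero, Real.exp_zero, smul_eq_mul, mul_comm t]
  field_simp

lemma exp_integ (t : ℝ) : IntegrableOn (fun δ : ℝ => Real.exp (t * δ)) (Ioc 0 (Real.pi / 4)) :=
  ((by fun_prop : Continuous (fun δ : ℝ => Real.exp (t * δ))).integrableOn_Icc (a := 0) (b := Real.pi / 4)).mono_set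
    Ioc_subset_Icc_self

lemma B1_ge {t : ℝ} (ht : 0 < t) : b0 * ((Real.exp (Real.pi / 4 * t) - 1) / t) ≤ B1 t := by
  rw [← exp_integral ht, ← integral_const_mul]
  unfold B1
  apply setIntegral_mono_on
  · exact (exp_integ t).const_mul _
  · exact integ_mul (by fun_prop) pi4_pos
  · exact measurableSet_Ioc
  · intro x hx
    apply mul_le_mul_of_nonneg_right _ (Real.exp_pos _).le
    unfold b0
    exact Real.rpow_le_rpow_of_nonpos hx.1 hx.2 (by norm_num)

/-- Chebyshev -/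
lemma B1_le {t : ℝ} (ht : 0 < t) : B1 t ≤ 4 / 3 * b0 * ((Real.exp (Real.pi / 4 * t) - 1) / t) := by
  have hb := b0_pos
  set c : ℝ := 4 / 3 * b0 with hc
  have hcpos : 0 < c := by positivity
  set x0 : ℝ := c ^ (-4 : ℝ) with hx0
  have hx0pos : 0 < x0 := Real.rpow_pos_of_pos hcpos _
  have hx0c : x0 ^ (-(1/4) : ℝ) = c := by
    rw [hx0, ← Real.rpow_mul hcpos.le]; norm_num
  have hkey : ∫ δ in Ioc (0:ℝ) (Real.pi / 4), (δ ^ (-(1/4) : ℝ) - c) = 0 := by
    rw [integral_sub (rpow_integ pi4_pos) (by simp), rpow_integral pi4_pos, integral_const]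
    simp only [measureReal_restrict_apply MeasurableSet.univ, univ_inter, Real.volume_real_Ioc_of_le pi4_pos.le, smul_eq_mul, sub_zero]
    rw [hc]
    have : (Real.pi / 4) ^ (3/4 : ℝ) = b0 * (Real.pi / 4) := by
      unfold b0; rw [← Real.rpow_add_one pi4_pos.ne']; norm_num
    rw [this]; ring
  have h1 : ∫ δ in Ioc (0:ℝ) (Real.pi / 4), (δ ^ (-(1/4) : ℝ) - c) * (Real.exp (t * δ) - Real.exp (t * x0)) ≤ 0 := by
    apply setIntegral_nonpos measurableSet_Ioc
    intro δ hδ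
    rcases le_total δ x0 with h | h
    · apply mul_nonpos_of_nonneg_of_nonpos
      · rw [← hx0c, sub_nonneg]
        exact Real.rpow_le_rpow_of_nonpos hδ.1 h (by norm_num)
      · rw [sub_nonpos]; apply Real.exp_le_exp.mpr; nlinarith
    · apply mul_nonpos_of_nonpos_of_nonneg
      · rw [← hx0c, sub_nonpos]
        exact Real.rpow_le_rpow_of_nonpos hx0pos h (by norm_num)
      · rw [sub_nonneg]; apply Real.exp_le_exp.mpr; nlinarith
  have i1 : IntegrableOn (fun δ : ℝ => δ ^ (-(1/4) : ℝ) * Real.exp (t * δ)) (Ioc 0 (Real.pi / 4)) :=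
    integ_mul (by fun_prop) pi4_pos
  have i2 := (exp_integ t).const_mul c
  have i3 : IntegrableOn (fun δ : ℝ => (δ ^ (-(1/4) : ℝ) - c)) (Ioc 0 (Real.pi / 4)) :=
    (rpow_integ pi4_pos).sub (by simp)
  have h2 : ∫ δ in Ioc (0:ℝ) (Real.pi / 4), (δ ^ (-(1/4) : ℝ) - c) * (Real.exp (t * δ) - Real.exp (t * x0)) =
      B1 t - c * ((Real.exp (Real.pi / 4 * t) - 1) / t) -
        Real.exp (t * x0) * ∫ δ in Ioc (0:ℝ) (Real.pi / 4), (δ ^ (-(1/4) : ℝ) - c) := by
    rw [← exp_integral ht, ← integral_const_mul, ← integral_const_mul]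
    unfold B1
    have i4 : IntegrableOn (fun δ : ℝ => δ ^ (-(1/4) : ℝ) * Real.exp (t * δ) - c * Real.exp (t * δ)) (Ioc 0 (Real.pi / 4)) :=
      i1.sub i2
    rw [← integral_sub i1 i2, ← integral_sub i4 (i3.const_mul _)]
    apply setIntegral_congr_fun measurableSet_Ioc
    intro δ _
    simp only
    ring
  rw [h2, hkey] at h1
  linarith

noncomputable def main (t : ℝ) : ℝ := Real.Gamma (3/4) / 2 * t ^ (1/4 : ℝ) * Real.exp (Real.pi / 4 * t)

lemma t_rpow {t : ℝ} (ht : 0 < t) : t * t ^ (-(3/4) : ℝ) = t ^ (1/4 : ℝ) := by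
  rw [mul_comm, ← Real.rpow_add_one ht.ne']; norm_num

lemma Phi_le {t : ℝ} (ht : 0 < t) : Phi t ≤ main t - b0 / 2 * (1 - Real.exp (-(Real.pi / 4 * t))) := by
  rw [Phi_eq]
  have hE := Real.exp_pos (Real.pi / 4 * t)
  have hE' := Real.exp_pos (-(Real.pi / 4 * t))
  have hm : Real.exp (-(Real.pi / 4 * t)) * Real.exp (Real.pi / 4 * t) = 1 := by
    rw [← Real.exp_add]; simp
  have h1 := mul_le_mul_of_nonneg_left (A1_le ht) hE.le
  have h2 := mul_le_mul_of_nonneg_left (B1_ge ht) hE'.le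
  have h3 : t / 2 * (Real.exp (Real.pi / 4 * t) * A1 t - Real.exp (-(Real.pi / 4 * t)) * B1 t) ≤
      t / 2 * (Real.exp (Real.pi / 4 * t) * (t ^ (-(3/4) : ℝ) * Real.Gamma (3/4)) -
        Real.exp (-(Real.pi / 4 * t)) * (b0 * ((Real.exp (Real.pi / 4 * t) - 1) / t))) := by
    apply mul_le_mul_of_nonneg_left _ (by positivity)
    linarith
  refine h3.trans (le_of_eq ?_)
  have e1 : t / 2 * (Real.exp (Real.pi / 4 * t) * (t ^ (-(3/4) : ℝ) * Real.Gamma (3/4))) = main t := by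
    unfold main; rw [← t_rpow ht]; ring
  have e2 : t / 2 * (Real.exp (-(Real.pi / 4 * t)) * (b0 * ((Real.exp (Real.pi / 4 * t) - 1) / t))) =
      b0 / 2 * (Real.exp (-(Real.pi / 4 * t)) * Real.exp (Real.pi / 4 * t) - Real.exp (-(Real.pi / 4 * t))) := by
    field_simp
  rw [mul_sub, e1, e2, hm]

lemma Phi_ge {t : ℝ} (ht : 0 < t) : main t - 7 / 6 * b0 ≤ Phi t := by
  rw [Phi_eq]
  have hb := b0_pos
  have hE := Real.exp_pos (Real.pi / 4 * t)
  have hE' := Real.exp_pos (-(Real.pi / 4 * t))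
  have hm : Real.exp (-(Real.pi / 4 * t)) * Real.exp (Real.pi / 4 * t) = 1 := by
    rw [← Real.exp_add]; simp
  have h1 := mul_le_mul_of_nonneg_left (A1_ge ht) hE.le
  have h2 := mul_le_mul_of_nonneg_left (B1_le ht) hE'.le
  have h3 : t / 2 * (Real.exp (Real.pi / 4 * t) * (t ^ (-(3/4) : ℝ) * Real.Gamma (3/4) - b0 * (Real.exp (-(Real.pi / 4 * t)) / t)) -
        Real.exp (-(Real.pi / 4 * t)) * (4 / 3 * b0 * ((Real.exp (Real.pi / 4 * t) - 1) / t))) ≤
      t / 2 * (Real.exp (Real.pi / 4 * t) * A1 t - Real.exp (-(Real.pi / 4 * t)) * B1 t) := by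
    apply mul_le_mul_of_nonneg_left _ (by positivity)
    linarith
  refine le_trans ?_ h3
  have e1 : t / 2 * (Real.exp (Real.pi / 4 * t) * (t ^ (-(3/4) : ℝ) * Real.Gamma (3/4) - b0 * (Real.exp (-(Real.pi / 4 * t)) / t))) =
      main t - b0 / 2 * (Real.exp (-(Real.pi / 4 * t)) * Real.exp (Real.pi / 4 * t)) := by
    unfold main; rw [← t_rpow ht]; field_simp
  have e2 : t / 2 * (Real.exp (-(Real.pi / 4 * t)) * (4 / 3 * b0 * ((Real.exp (Real.pi / 4 * t) - 1) / t))) =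
      2 / 3 * b0 * (Real.exp (-(Real.pi / 4 * t)) * Real.exp (Real.pi / 4 * t) - Real.exp (-(Real.pi / 4 * t))) := by
    field_simp
    ring
  rw [mul_sub, e1, e2, hm]
  nlinarith

end Pool.Agent.Helper625.M4
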