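import Mathlib
import Pool.Agent.Helper625.M4

namespace Pool.Agent.Helper625.M5
open MeasureTheory Filter Topology Set
open Pool.Agent.Helper625.Th Pool.Agent.Helper625.M2 Pool.Agent.Helper625.M3 Pool.Agent.Helper625.M4
open Pool.Agent.Helper625.Gam (g g_pos g_upper g_lower norm_Gamma_mul)

noncomputable def k0 : ℝ := Real.sqrt (2 * Real.pi) * 2 ^ (1/4 : ℝ) * Real.Gamma (3/4) / 2

lemma G34_pos : 0 < Real.Gamma (3/4) := Real.Gamma_pos_of_pos (by norm_num)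

lemma k0_pos : 0 < k0 := by
  unfold k0
  have := G34_pos
  positivity

noncomputable def m (t : ℝ) : ℝ := g t * t ^ (1/4 : ℝ) * Real.exp (Real.pi / 4 * t) / (Real.sqrt (2 * Real.pi) * 2 ^ (1/4 : ℝ))

lemma g_main (t : ℝ) : g t * main t = k0 * m t := by
  unfold main k0 m
  have : 0 < Real.sqrt (2 * Real.pi) * 2 ^ (1/4 : ℝ) := by positivity
  field_simp

lemma m_pow {t : ℝ} (ht : 0 < t) : m t ^ 8 = g t ^ 8 * t ^ 2 * Real.exp (2 * Real.pi * t) / (64 * Real.pi ^ 4) := by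
  unfold m
  rw [div_pow, mul_pow, mul_pow, mul_pow]
  have h1 : (t ^ (1/4 : ℝ)) ^ 8 = t ^ 2 := by
    rw [← Real.rpow_natCast (t ^ (1/4 : ℝ)) 8, ← Real.rpow_mul ht.le]; norm_num
  have h2 : ((2:ℝ) ^ (1/4 : ℝ)) ^ 8 = 4 := by
    rw [← Real.rpow_natCast ((2:ℝ) ^ (1/4 : ℝ)) 8, ← Real.rpow_mul (by norm_num)]; norm_num
  have h3 : Real.exp (Real.pi / 4 * t) ^ 8 = Real.exp (2 * Real.pi * t) := by
    rw [← Real.exp_nat_mul]; congr 1; push_cast; ring
  have h4 : Real.sqrt (2 * Real.pi) ^ 8 = (2 * Real.pi) ^ 4 := by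
    rw [show (8:ℕ) = 2 * 4 by norm_num, pow_mul, Real.sq_sqrt (by positivity)]
  rw [h1, h2, h3, h4]
  ring

lemma m_nonneg {t : ℝ} (ht : 0 < t) : 0 ≤ m t := by
  unfold m
  have := g_pos t
  positivity

lemma cosh_sq (t : ℝ) : Real.cosh (Real.pi * t) ^ 2 = Real.exp (2 * Real.pi * t) * (1 + Real.exp (-(2 * Real.pi * t))) ^ 2 / 4 := by
  rw [Real.cosh_eq]
  have h1 : Real.exp (2 * Real.pi * t) = Real.exp (Real.pi * t) ^ 2 := by
    rw [← Real.exp_nat_mul]; congr 1; push_cast; ring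
  have h2 : Real.exp (-(2 * Real.pi * t)) = Real.exp (-(Real.pi * t)) ^ 2 := by
    rw [← Real.exp_nat_mul]; congr 1; push_cast; ring
  have h3 : Real.exp (Real.pi * t) * Real.exp (-(Real.pi * t)) = 1 := by
    rw [← Real.exp_add]; simp
  rw [h1, h2]
  set a := Real.exp (Real.pi * t)
  set b := Real.exp (-(Real.pi * t))
  have : a ^ 2 * (1 + b ^ 2) ^ 2 = (a + (a * b) * b) ^ 2 := by ring
  rw [this, h3]; ring

/-- `m^8 (x+1)^2 ≤ x (x+5)` with `x = 4t^2` -/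
lemma m_upper {t : ℝ} (ht : 0 < t) : m t ^ 8 * (4 * t ^ 2 + 1) ^ 2 ≤ 4 * t ^ 2 * (4 * t ^ 2 + 5) := by
  have h := g_upper t
  rw [cosh_sq] at h
  rw [m_pow ht]
  have hE := Real.exp_pos (2 * Real.pi * t)
  have hE' := Real.exp_pos (-(2 * Real.pi * t))
  have hg := g_pos t
  have h1 : g t ^ 8 * Real.exp (2 * Real.pi * t) * (4 * t ^ 2 + 1) ^ 2 ≤ 4 * (64 * Real.pi ^ 4 * (4 * t ^ 2 + 5)) := by
    calc g t ^ 8 * Real.exp (2 * Real.pi * t) * (4 * t ^ 2 + 1) ^ 2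
        ≤ g t ^ 8 * Real.exp (2 * Real.pi * t) * (4 * t ^ 2 + 1) ^ 2 * (1 + Real.exp (-(2 * Real.pi * t))) ^ 2 := by
          apply le_mul_of_one_le_right (by positivity)
          nlinarith
      _ = 4 * (g t ^ 8 * (Real.exp (2 * Real.pi * t) * (1 + Real.exp (-(2 * Real.pi * t))) ^ 2 / 4) * (4 * t ^ 2 + 1) ^ 2) := by ring
      _ ≤ _ := by linarith
  have hpi : 0 < 64 * Real.pi ^ 4 := by positivity
  rw [div_mul_eq_mul_div, div_le_iff₀ hpi]
  calc _ = t ^ 2 * (g t ^ 8 * Real.exp (2 * Real.pi * t) * (4 * t ^ 2 + 1) ^ 2) := by ring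
    _ ≤ t ^ 2 * (4 * (64 * Real.pi ^ 4 * (4 * t ^ 2 + 5))) := mul_le_mul_of_nonneg_left h1 (by positivity)
    _ = _ := by ring

lemma m_lower {t : ℝ} (ht : 0 < t) :
    4 * t ^ 2 ≤ m t ^ 8 * (1 + Real.exp (-(2 * Real.pi * t))) ^ 2 * (4 * t ^ 2 + 1) := by
  have h := g_lower t
  rw [cosh_sq] at h
  rw [m_pow ht]
  have hpi : 0 < 64 * Real.pi ^ 4 := by positivity
  have e : g t ^ 8 * t ^ 2 * Real.exp (2 * Real.pi * t) / (64 * Real.pi ^ 4) * (1 + Real.exp (-(2 * Real.pi * t))) ^ 2 * (4 * t ^ 2 + 1) =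
     4 * t ^ 2 * (g t ^ 8 * (Real.exp (2 * Real.pi * t) * (1 + Real.exp (-(2 * Real.pi * t))) ^ 2 / 4) * (4 * t ^ 2 + 1)) / (64 * Real.pi ^ 4) := by ring
  rw [e, le_div_iff₀ hpi]
  exact mul_le_mul_of_nonneg_left h (by positivity)

lemma exp_small {t : ℝ} (ht : 0 < t) : Real.exp (-(2 * Real.pi * t)) ≤ 1 / (4 * t ^ 2) := by
  have h := Real.pow_div_factorial_le_exp (2 * Real.pi * t) (by positivity) 2
  simp only [Nat.factorial_two, Nat.cast_ofNat] at h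
  rw [Real.exp_neg, inv_eq_one_div]
  apply one_div_le_one_div_of_le (by positivity)
  refine le_trans ?_ h
  have : Real.pi > 3 := Real.pi_gt_three
  have h2 : (2 * Real.pi * t) ^ 2 / 2 = 2 * Real.pi ^ 2 * t ^ 2 := by ring
  rw [h2]
  nlinarith [sq_nonneg t, mul_nonneg (sub_nonneg.mpr this.le) (sq_nonneg t)]

lemma m_le {t : ℝ} (ht : 1 ≤ t) : m t ≤ 1 + 1 / (4 * t ^ 2) := by
  have ht0 : 0 < t := by linarith
  have hx : 4 ≤ 4 * t ^ 2 := by nlinarith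
  set x := 4 * t ^ 2 with hxdef
  have hx0 : 0 < x := by linarith
  have h := m_upper ht0
  rw [← hxdef] at h
  by_contra hc
  push Not at hc
  have h1 : (1 + 1 / x) ^ 8 < m t ^ 8 := pow_lt_pow_left₀ hc (by positivity) (by norm_num)
  have h2 : 1 + 8 * (1 / x) ≤ (1 + 1 / x) ^ 8 := by
    have := one_add_mul_le_pow (a := 1 / x) (by have : 0 ≤ 1 / x := by positivity
                                                linarith) 8
    exact_mod_cast this
  have h3 : (1 + 8 * (1 / x)) * (x + 1) ^ 2 < x * (x + 5) := by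
    calc _ < m t ^ 8 * (x + 1) ^ 2 := mul_lt_mul_of_pos_right (lt_of_le_of_lt h2 h1) (by positivity)
      _ ≤ _ := h
  have h4 : (1 + 8 * (1 / x)) * (x + 1) ^ 2 = (x + 8) * (x + 1) ^ 2 / x := by field_simp
  rw [h4, div_lt_iff₀ hx0] at h3
  nlinarith [mul_pos hx0 hx0]

lemma m_ge {t : ℝ} (ht : 1 ≤ t) : 1 - 1 / (4 * t ^ 2) ≤ m t := by
  have ht0 : 0 < t := by linarith
  have hx : 4 ≤ 4 * t ^ 2 := by nlinarith
  have h := m_lower ht0
  have he := exp_small ht0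
  have he0 := Real.exp_pos (-(2 * Real.pi * t))
  set e := Real.exp (-(2 * Real.pi * t))
  set x := 4 * t ^ 2 with hxdef
  have hx0 : 0 < x := by linarith
  have hu0 : 0 < 1 / x := by positivity
  have hu1 : 1 / x ≤ 1 / 4 := one_div_le_one_div_of_le (by norm_num) hx
  have hm8 : 0 ≤ m t ^ 8 := pow_nonneg (m_nonneg ht0) 8
  have h1 : x ≤ m t ^ 8 * (1 + 1 / x) ^ 2 * (x + 1) := by
    refine h.trans ?_
    apply mul_le_mul_of_nonneg_right _ (by positivity)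
    apply mul_le_mul_of_nonneg_left _ hm8
    apply pow_le_pow_left₀ (by positivity)
    linarith
  have h2 : 1 ≤ m t ^ 8 * (1 + 1 / x) ^ 3 := by
    have e1 : m t ^ 8 * (1 + 1 / x) ^ 3 = m t ^ 8 * (1 + 1 / x) ^ 2 * (x + 1) / x := by field_simp
    rw [e1, le_div_iff₀ hx0]; linarith
  set u := 1 / x
  by_contra hc
  push Not at hc
  have hmu : m t ^ 8 < (1 - u) ^ 8 := pow_lt_pow_left₀ hc (m_nonneg ht0) (by norm_num)
  have h3 : 1 < (1 - u) ^ 8 * (1 + u) ^ 3 :=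
    lt_of_le_of_lt h2 (mul_lt_mul_of_pos_right hmu (by positivity))
  have h4 : (1 - u) ^ 8 * (1 + u) ^ 3 ≤ 1 := by
    have e2 : (1 - u) ^ 8 * (1 + u) ^ 3 = ((1 - u) * (1 + u)) ^ 3 * (1 - u) ^ 5 := by ring
    rw [e2]
    have a1 : ((1 - u) * (1 + u)) ^ 3 ≤ 1 := pow_le_one₀ (by apply mul_nonneg <;> linarith) (by nlinarith)
    have a2 : (1 - u) ^ 5 ≤ 1 := pow_le_one₀ (by linarith) (by linarith)
    have a3 : 0 ≤ (1 - u) ^ 5 := pow_nonneg (by linarith) 5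
    nlinarith
  linarith

lemma abs_m_sub {t : ℝ} (ht : 1 ≤ t) : |1 - m t| ≤ 1 / (4 * t ^ 2) := by
  rw [abs_le]
  constructor <;> linarith [m_le ht, m_ge ht]

/-- the error kernel -/
noncomputable def Rr (t : ℝ) : ℝ := k0 - g t * (Phi t + b0)

lemma exp_quarter : Real.exp (-(Real.pi / 4)) ≤ 0.46 := by
  have h := Real.sum_le_exp_of_nonneg (x := Real.pi / 4) (by positivity) 5
  simp only [Finset.sum_range_succ, Finset.sum_range_zero, Nat.factorial, Nat.cast_one, Nat.succ_eq_add_one, Nat.cast_mul,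
    Nat.cast_add, pow_zero] at h
  have hp := Real.pi_gt_d2
  have h4 : (0.785:ℝ) ≤ Real.pi / 4 := by linarith
  set L := Real.pi / 4
  have h2 : (0.785:ℝ)^2 ≤ L^2 := pow_le_pow_left₀ (by norm_num) h4 2
  have h3 : (0.785:ℝ)^3 ≤ L^3 := pow_le_pow_left₀ (by norm_num) h4 3
  have h5 : (0.785:ℝ)^4 ≤ L^4 := pow_le_pow_left₀ (by norm_num) h4 4
  have h6 : (1/0.46:ℝ) ≤ Real.exp L := by
    refine le_trans ?_ h
    norm_num at h2 h3 h5 ⊢
    nlinarith
  rw [Real.exp_neg, inv_le_comm₀ (Real.exp_pos _) (by norm_num)]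
  norm_num at h6 ⊢
  linarith

lemma Rr_bound {t : ℝ} (ht : 1 ≤ t) : |Rr t| ≤ k0 / (4 * t ^ 2) + 0.73 * b0 * g t := by
  have ht0 : 0 < t := by linarith
  have hg := g_pos t
  have hb := b0_pos
  have hk := k0_pos
  have e : Rr t = k0 * (1 - m t) - g t * (Phi t + b0 - main t) := by
    unfold Rr; have := g_main t; linarith
  have h1 := Phi_le ht0
  have h2 := Phi_ge ht0
  have h3 : Real.exp (-(Real.pi / 4 * t)) ≤ 0.46 := by
    refine le_trans ?_ exp_quarter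
    apply Real.exp_le_exp.mpr
    nlinarith [Real.pi_pos]
  have h4 : |Phi t + b0 - main t| ≤ 0.73 * b0 := by
    rw [abs_le]; constructor
    · linarith
    · have := Real.exp_pos (-(Real.pi / 4 * t))
      nlinarith
  rw [e]
  calc |k0 * (1 - m t) - g t * (Phi t + b0 - main t)| ≤ |k0 * (1 - m t)| + |g t * (Phi t + b0 - main t)| := abs_sub _ _
    _ = k0 * |1 - m t| + g t * |Phi t + b0 - main t| := by
        rw [abs_mul, abs_mul, abs_of_pos hk, abs_of_pos hg]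
    _ ≤ k0 * (1 / (4 * t ^ 2)) + g t * (0.73 * b0) := by
        have := abs_m_sub ht
        gcongr
    _ = _ := by ring

lemma g_sq {t : ℝ} (ht : 1 ≤ t) : g t ^ 2 ≤ 9.75 * Real.exp (-(Real.pi / 2 * t)) := by
  have ht0 : 0 < t := by linarith
  have hg := g_pos t
  have h := m_upper ht0
  rw [m_pow ht0] at h
  have hx : 4 ≤ 4 * t ^ 2 := by nlinarith
  have hpi : 0 < 64 * Real.pi ^ 4 := by positivity
  have hE := Real.exp_pos (2 * Real.pi * t)
  rw [div_mul_eq_mul_div, div_le_iff₀ hpi] at h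
  have h1 : g t ^ 8 * Real.exp (2 * Real.pi * t) * (4 * t ^ 2 + 1) ^ 2 ≤ 256 * Real.pi ^ 4 * (4 * t ^ 2 + 5) := by
    have : t ^ 2 * (g t ^ 8 * Real.exp (2 * Real.pi * t) * (4 * t ^ 2 + 1) ^ 2) ≤ t ^ 2 * (256 * Real.pi ^ 4 * (4 * t ^ 2 + 5)) := by
      nlinarith
    exact le_of_mul_le_mul_left this (by positivity)
  have h2 : 4 * t ^ 2 + 5 ≤ 0.36 * (4 * t ^ 2 + 1) ^ 2 := by nlinarith
  have h3 : g t ^ 8 * Real.exp (2 * Real.pi * t) ≤ 92.16 * Real.pi ^ 4 := by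
    have h4 : (g t ^ 8 * Real.exp (2 * Real.pi * t)) * (4 * t ^ 2 + 1) ^ 2 ≤ (92.16 * Real.pi ^ 4) * (4 * t ^ 2 + 1) ^ 2 := by
      refine h1.trans ?_
      have := mul_le_mul_of_nonneg_left h2 (by positivity : 0 ≤ 256 * Real.pi ^ 4)
      linarith
    exact le_of_mul_le_mul_right h4 (by positivity)
  have h5 : Real.pi ^ 4 ≤ 97.5 := by
    have hp := Real.pi_lt_d4
    have := pow_le_pow_left₀ Real.pi_pos.le hp.le 4
    refine this.trans (by norm_num)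
  have h6 : (g t ^ 2 * Real.exp (Real.pi / 2 * t)) ^ 4 ≤ 9.75 ^ 4 := by
    have e : (g t ^ 2 * Real.exp (Real.pi / 2 * t)) ^ 4 = g t ^ 8 * Real.exp (2 * Real.pi * t) := by
      rw [mul_pow, ← Real.exp_nat_mul, ← pow_mul]; congr 2; push_cast; ring
    rw [e]
    refine h3.trans ?_
    norm_num at h5 ⊢
    linarith
  have h7 : g t ^ 2 * Real.exp (Real.pi / 2 * t) ≤ 9.75 :=
    (pow_le_pow_iff_left₀ (by positivity) (by norm_num) (by norm_num)).mp h6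
  rw [Real.exp_neg, ← div_eq_mul_inv, le_div_iff₀ (Real.exp_pos _)]
  exact h7

end Pool.Agent.Helper625.M5
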