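import Mathlib
import Pool.Agent.Helper625.M5

namespace Pool.Agent.Helper625.M6
open MeasureTheory Filter Topology Set
open Pool.Agent.Helper625.Th Pool.Agent.Helper625.M2 Pool.Agent.Helper625.M3 Pool.Agent.Helper625.M4
open Pool.Agent.Helper625.M5
open Pool.Agent.Helper625.Gam (g g_pos g_upper g_lower norm_Gamma_mul)

lemma pow_le_imp {a b : ℝ} {n : ℕ} (hn : n ≠ 0) (hb : 0 ≤ b) (ha : 0 ≤ a) (h : a ^ n ≤ b ^ n) : a ≤ b :=
  (pow_le_pow_iff_left₀ ha hb hn).mp h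

lemma b0_le : b0 ≤ 1.0624 := by
  apply pow_le_imp (n := 4) (by norm_num) (by norm_num) b0_pos.le
  have h : b0 ^ 4 = 4 / Real.pi := by
    unfold b0
    rw [← Real.rpow_natCast, ← Real.rpow_mul pi4_pos.le]
    norm_num
    rw [Real.rpow_neg_one]; field_simp
  rw [h, div_le_iff₀ Real.pi_pos]
  have := Real.pi_gt_d4
  norm_num at this ⊢
  linarith

lemma sqrt2pi_le : Real.sqrt (2 * Real.pi) ≤ 2.5067 := by
  rw [Real.sqrt_le_left (by norm_num)]
  have := Real.pi_lt_d4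
  norm_num at this ⊢
  linarith

lemma sqrt2pi_ge : 2.506 ≤ Real.sqrt (2 * Real.pi) := by
  apply Real.le_sqrt_of_sq_le
  have := Real.pi_gt_d4
  norm_num at this ⊢
  linarith

lemma two_le : (2:ℝ) ^ (1/4 : ℝ) ≤ 1.1893 := by
  apply pow_le_imp (n := 4) (by norm_num) (by norm_num) (by positivity)
  rw [← Real.rpow_natCast, ← Real.rpow_mul (by norm_num)]
  norm_num

lemma two_ge : 1.189 ≤ (2:ℝ) ^ (1/4 : ℝ) := by
  apply pow_le_imp (n := 4) (by norm_num) (by positivity) (by norm_num)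
  rw [← Real.rpow_natCast ((2:ℝ) ^ (1/4 : ℝ)), ← Real.rpow_mul (by norm_num)]
  norm_num

lemma G34_le : Real.Gamma (3/4) ≤ 4 / 3 := by
  have h := Real.Gamma_mul_add_mul_le_rpow_Gamma_mul_rpow_Gamma (s := 1) (t := 2) (a := 1/4) (b := 3/4)
    (by norm_num) (by norm_num) (by norm_num) (by norm_num) (by norm_num)
  rw [Real.Gamma_one, Real.Gamma_two, Real.one_rpow, Real.one_rpow] at h
  have h2 := Real.Gamma_add_one (s := 3/4) (by norm_num)
  rw [show (1/4 * 1 + 3/4 * 2 : ℝ) = 3/4 + 1 by norm_num, h2] at h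
  linarith

lemma k0_le : k0 ≤ 1.99 := by
  unfold k0
  have h1 := sqrt2pi_le
  have h2 := two_le
  have h3 := G34_le
  have h4 := G34_pos
  have h5 : 0 < (2:ℝ) ^ (1/4 : ℝ) := by positivity
  have h6 : 0 < Real.sqrt (2 * Real.pi) := by positivity
  calc Real.sqrt (2 * Real.pi) * 2 ^ (1/4 : ℝ) * Real.Gamma (3/4) / 2 ≤ 2.5067 * 1.1893 * (4 / 3) / 2 := by
        gcongr
    _ ≤ 1.99 := by norm_num

lemma pi4_le : Real.pi ^ 4 ≤ 97.411 := by
  have hp := Real.pi_lt_d4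
  have := pow_le_pow_left₀ Real.pi_pos.le hp.le 4
  refine this.trans (by norm_num)

lemma pi4_ge : 97.39 ≤ Real.pi ^ 4 := by
  have hp := Real.pi_gt_d4
  have := pow_le_pow_left₀ (by norm_num) hp.le 4
  refine le_trans (by norm_num) this

lemma g0_le : g 0 ≤ 3.646 := by
  apply pow_le_imp (n := 8) (by norm_num) (by norm_num) (g_pos 0).le
  have h := g_upper 0
  simp only [mul_zero, Real.cosh_zero, one_pow, mul_one, ne_eq, OfNat.ofNat_ne_zero, not_false_eq_true, zero_pow, zero_add] at h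
  have := pi4_le
  norm_num at this ⊢
  linarith

lemma g0_eq : g 0 = Real.Gamma (1/4) := by
  unfold Gam.g
  rw [zero_div]
  simp only [Complex.ofReal_zero, zero_mul, add_zero]
  rw [Complex.Gamma_ofReal, Complex.norm_real, Real.norm_of_nonneg]
  exact (Real.Gamma_pos_of_pos (by norm_num)).le

lemma G34_ge : 1.218 ≤ Real.Gamma (3/4) := by
  have h := norm_Gamma_mul 0
  simp only [mul_zero, Real.cosh_zero, one_pow, mul_one, Complex.ofReal_zero, zero_mul, add_zero] at h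
  rw [Complex.Gamma_ofReal, Complex.norm_real, Complex.Gamma_ofReal, Complex.norm_real, Real.norm_of_nonneg
    (Real.Gamma_pos_of_pos (by norm_num)).le, Real.norm_of_nonneg G34_pos.le] at h
  rw [← g0_eq] at h
  by_contra hc
  push Not at hc
  have h1 : Real.Gamma (3/4) ^ 4 ≤ 1.218 ^ 4 := pow_le_pow_left₀ G34_pos.le hc.le 4
  have h2 : g 0 ^ 4 ≤ 3.646 ^ 4 := pow_le_pow_left₀ (g_pos 0).le g0_le 4
  have h3 : g 0 ^ 4 * Real.Gamma (3/4) ^ 4 ≤ 3.646 ^ 4 * 1.218 ^ 4 :=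
    mul_le_mul h2 h1 (by have := G34_pos; positivity) (by norm_num)
  have h4 := pi4_ge
  rw [h] at h3
  norm_num at h3 h4
  linarith

lemma k0_ge : 1.814 ≤ k0 := by
  unfold k0
  have h1 := sqrt2pi_ge
  have h2 := two_ge
  have h3 := G34_ge
  calc (1.814:ℝ) ≤ 2.506 * 1.189 * 1.218 / 2 := by norm_num
    _ ≤ _ := by gcongr

lemma norm_Gamma_le {s : ℂ} (hs : 0 < s.re) : ‖Complex.Gamma s‖ ≤ Real.Gamma s.re := by
  rw [Complex.Gamma_eq_integral hs, Real.Gamma_eq_integral hs]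
  unfold Complex.GammaIntegral
  refine (norm_integral_le_integral_norm _).trans (le_of_eq ?_)
  apply setIntegral_congr_fun measurableSet_Ioi
  intro x hx
  simp only
  rw [norm_mul, Complex.norm_cpow_eq_rpow_re_of_pos hx, Complex.norm_real, Real.norm_of_nonneg (Real.exp_pos _).le]
  simp

lemma g_le_g0 (t : ℝ) : g t ^ 2 * (1 + 4 * t ^ 2) ≤ g 0 ^ 2 := by
  set s : ℂ := (((1 / 4 : ℝ) : ℂ) + ((t / 2 : ℝ) : ℂ) * Complex.I) with hs
  have hre : s.re = 1/4 := by simp [hs]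
  have him : s.im = t/2 := by simp [hs]
  have hs0 : s ≠ 0 := by
    intro h; rw [h] at hre; norm_num at hre
  have h1 := Complex.Gamma_add_one s hs0
  have h2 := norm_Gamma_le (s := s + 1) (by rw [Complex.add_re, hre]; norm_num)
  rw [h1, norm_mul, Complex.add_re, hre, Complex.one_re, Real.Gamma_add_one (by norm_num), ← g0_eq] at h2
  have h3 : ‖Complex.Gamma s‖ = g t := rfl
  rw [h3] at h2
  have h4 : ‖s‖ ^ 2 = 1/16 + t ^ 2 / 4 := by
    rw [← Complex.normSq_eq_norm_sq, Complex.normSq_apply, hre, him]; ring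
  have h5 : (‖s‖ * g t) ^ 2 ≤ (1/4 * g 0) ^ 2 := pow_le_pow_left₀ (by have := g_pos t; positivity) h2 2
  rw [mul_pow, mul_pow, h4] at h5
  linarith

lemma sinh_le {x c : ℝ} (h0 : 0 ≤ x) (h1 : x ≤ c) : Real.sinh x ≤ Real.cosh c * x := by
  have h := Convex.image_sub_le_mul_sub_of_deriv_le (D := Icc 0 c) (convex_Icc 0 c) (f := Real.sinh)
    Real.continuous_sinh.continuousOn Real.differentiable_sinh.differentiableOn (C := Real.cosh c)
    (by
      intro y hy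
      rw [interior_Icc] at hy
      rw [Real.deriv_sinh, Real.cosh_le_cosh, abs_of_pos hy.1, abs_of_pos (hy.1.trans hy.2)]
      exact hy.2.le)
    0 ⟨le_rfl, h0.trans h1⟩ x ⟨h0, h1⟩ h0
  rw [Real.sinh_zero, sub_zero, sub_zero] at h
  exact h

lemma cosh_pi4 : Real.cosh (Real.pi / 4) ≤ 1.447 := by
  refine (Real.cosh_le_exp_half_sq _).trans ?_
  have hp := Real.pi_lt_d4
  have hx : (Real.pi / 4) ^ 2 / 2 ≤ 0.30845 := by
    have := pow_le_pow_left₀ Real.pi_pos.le hp.le 2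
    norm_num at this ⊢
    linarith
  have h1 := Real.exp_bound_div_one_sub_of_interval (x := 0.30845) (by norm_num) (by norm_num)
  refine (Real.exp_le_exp.mpr hx).trans (h1.trans (by norm_num))

lemma Phi_small {t : ℝ} (ht : 0 < t) (ht1 : t ≤ 1) : Phi t ≤ 1.2 * b0 * t ^ 2 := by
  have h1 : Phi t ≤ ∫ δ in Ioc (0:ℝ) (Real.pi / 4), δ ^ (-(1/4) : ℝ) * (t * (Real.cosh (Real.pi / 4) * (Real.pi / 4 * t))) := by
    unfold Phi
    apply setIntegral_mono_on
    · exact integ_mul (by exact (continuous_const.mul (Real.continuous_sinh.comp (by fun_prop)))) pi4_pos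
    · exact (rpow_integ pi4_pos).mul_const _
    · exact measurableSet_Ioc
    · intro x hx
      apply mul_le_mul_of_nonneg_left _ (Real.rpow_nonneg hx.1.le _)
      apply mul_le_mul_of_nonneg_left _ ht.le
      have h0 : 0 ≤ (Real.pi / 4 - x) * t := mul_nonneg (by linarith [hx.2]) ht.le
      have h1 : (Real.pi / 4 - x) * t ≤ Real.pi / 4 * t := by nlinarith [hx.1]
      have h2 : (Real.pi / 4 - x) * t ≤ Real.pi / 4 := by
        refine h1.trans ?_
        have := pi4_pos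
        nlinarith
      refine (sinh_le h0 h2).trans ?_
      exact mul_le_mul_of_nonneg_left h1 (Real.cosh_pos _).le
  rw [integral_mul_const, rpow_integral pi4_pos] at h1
  have h2 : (Real.pi / 4) ^ (3/4 : ℝ) = b0 * (Real.pi / 4) := by
    unfold b0; rw [← Real.rpow_add_one pi4_pos.ne']; norm_num
  rw [h2] at h1
  refine h1.trans ?_
  have hb := b0_pos
  have h3 : (Real.pi / 4) ^ 2 * Real.cosh (Real.pi / 4) ≤ 0.9 := by
    have hp := Real.pi_lt_d4
    have ha : (Real.pi / 4) ^ 2 ≤ 0.6169 := by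
      have := pow_le_pow_left₀ Real.pi_pos.le hp.le 2
      norm_num at this ⊢
      linarith
    have hc := cosh_pi4
    have hc0 := Real.cosh_pos (Real.pi / 4)
    calc _ ≤ 0.6169 * 1.447 := mul_le_mul ha hc hc0.le (by norm_num)
      _ ≤ _ := by norm_num
  have h4 : 0 ≤ b0 * t ^ 2 := by positivity
  calc 4 / 3 * (b0 * (Real.pi / 4)) * (t * (Real.cosh (Real.pi / 4) * (Real.pi / 4 * t)))
      = 4 / 3 * ((Real.pi / 4) ^ 2 * Real.cosh (Real.pi / 4)) * (b0 * t ^ 2) := by ring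
    _ ≤ 4 / 3 * 0.9 * (b0 * t ^ 2) := by gcongr
    _ = _ := by ring

lemma Phi_nonneg {t : ℝ} (ht : 0 < t) : 0 ≤ Phi t := by
  unfold Phi
  apply setIntegral_nonneg measurableSet_Ioc
  intro δ hδ
  have := (sinh_bound hδ.1 hδ.2 ht).1
  have := Real.rpow_nonneg hδ.1.le (-(1/4))
  positivity

lemma Rr_small {t : ℝ} (ht : 0 < t) (ht1 : t ≤ 1) : |Rr t| ≤ 2.1 := by
  have hg := g_pos t
  have hb := b0_pos
  have hP := Phi_nonneg ht
  have hP2 := Phi_small ht ht1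
  have h1 := g_le_g0 t
  have h2 : g t * (Phi t + b0) ≤ g 0 * b0 := by
    apply pow_le_imp (n := 2) (by norm_num) (by have := g_pos 0; positivity) (by positivity)
    have h3 : Phi t + b0 ≤ b0 * (1 + 1.2 * t ^ 2) := by linarith
    have h4 : (Phi t + b0) ^ 2 ≤ b0 ^ 2 * (1 + 4 * t ^ 2) := by
      refine (pow_le_pow_left₀ (by positivity) h3 2).trans ?_
      rw [mul_pow]
      apply mul_le_mul_of_nonneg_left _ (by positivity)
      have : t ^ 2 ≤ 1 := by nlinarith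
      nlinarith [sq_nonneg t]
    calc (g t * (Phi t + b0)) ^ 2 = g t ^ 2 * (Phi t + b0) ^ 2 := by ring
      _ ≤ g t ^ 2 * (b0 ^ 2 * (1 + 4 * t ^ 2)) := by gcongr
      _ = (g t ^ 2 * (1 + 4 * t ^ 2)) * b0 ^ 2 := by ring
      _ ≤ g 0 ^ 2 * b0 ^ 2 := by gcongr
      _ = _ := by ring
  have h3 : g 0 * b0 ≤ 3.646 * 1.0624 := mul_le_mul g0_le b0_le hb.le (by norm_num)
  have h4 := k0_ge
  have h5 := k0_le
  unfold Rr
  rw [abs_le]
  constructor
  · norm_num at h3 h4 ⊢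
    linarith
  · have : 0 ≤ g t * (Phi t + b0) := by positivity
    norm_num at h5 ⊢
    linarith

lemma Rr_sq {t : ℝ} (ht : 1 ≤ t) : Rr t ^ 2 ≤ 7.34 * Real.exp (-(Real.pi / 2 * t)) + 1.24 / t ^ 4 := by
  have ht0 : 0 < t := by linarith
  have h1 := Rr_bound ht
  have hg := g_pos t
  have hb := b0_pos
  have hk := k0_pos
  have h2 := g_sq ht
  have h3 : Rr t ^ 2 ≤ (k0 / (4 * t ^ 2) + 0.73 * b0 * g t) ^ 2 := by
    rw [← sq_abs (Rr t)]
    exact pow_le_pow_left₀ (abs_nonneg _) h1 2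
  have h4 : (k0 / (4 * t ^ 2) + 0.73 * b0 * g t) ^ 2 ≤ 5 * (k0 / (4 * t ^ 2)) ^ 2 + 1.25 * (0.73 * b0 * g t) ^ 2 := by
    nlinarith [sq_nonneg (4 * (k0 / (4 * t ^ 2)) - (0.73 * b0 * g t))]
  have h5 : 5 * (k0 / (4 * t ^ 2)) ^ 2 ≤ 1.24 / t ^ 4 := by
    rw [div_pow, show (4 * t ^ 2) ^ 2 = 16 * t ^ 4 by ring, ← mul_div_assoc, div_le_div_iff₀ (by positivity) (by positivity)]
    have : k0 ^ 2 ≤ 1.99 ^ 2 := pow_le_pow_left₀ hk.le k0_le 2
    have h6 : 5 * k0 ^ 2 ≤ 1.24 * 16 := by norm_num at this ⊢; linarith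
    calc 5 * k0 ^ 2 * t ^ 4 ≤ (1.24 * 16) * t ^ 4 := by gcongr
      _ = _ := by ring
  have h6 : 1.25 * (0.73 * b0 * g t) ^ 2 ≤ 7.34 * Real.exp (-(Real.pi / 2 * t)) := by
    have hbb : b0 ^ 2 ≤ 1.0624 ^ 2 := pow_le_pow_left₀ hb.le b0_le 2
    have hE := Real.exp_pos (-(Real.pi / 2 * t))
    calc 1.25 * (0.73 * b0 * g t) ^ 2 = 1.25 * 0.73 ^ 2 * (b0 ^ 2 * g t ^ 2) := by ring
      _ ≤ 1.25 * 0.73 ^ 2 * (1.0624 ^ 2 * (9.75 * Real.exp (-(Real.pi / 2 * t)))) := by gcongr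
      _ = (1.25 * 0.73 ^ 2 * 1.0624 ^ 2 * 9.75) * Real.exp (-(Real.pi / 2 * t)) := by ring
      _ ≤ _ := by
        apply mul_le_mul_of_nonneg_right _ hE.le
        norm_num
  linarith

end Pool.Agent.Helper625.M6
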