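import Mathlib
import Pool.Agent.Helper625.M6

namespace Pool.Agent.Helper625.M7
open MeasureTheory Filter Topology Set
open Pool.Agent.Helper625.Th Pool.Agent.Helper625.M2 Pool.Agent.Helper625.M3 Pool.Agent.Helper625.M4
open Pool.Agent.Helper625.M5 Pool.Agent.Helper625.M6
open Pool.Agent.Helper625.Gam (g g_pos g_upper g_lower norm_Gamma_mul)

lemma g_cont : Continuous g := by
  unfold Gam.g
  apply Continuous.norm
  rw [continuous_iff_continuousAt]
  intro t
  have h1 : ContinuousAt Complex.Gamma (((1 / 4 : ℝ) : ℂ) + ((t / 2 : ℝ) : ℂ) * Complex.I) := by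
    apply DifferentiableAt.continuousAt (𝕜 := ℂ)
    apply Complex.differentiableAt_Gamma
    intro m h
    have := congrArg Complex.re h
    simp at this
    have hm : (0:ℝ) ≤ m := Nat.cast_nonneg m
    linarith
  exact ContinuousAt.comp (f := fun t : ℝ => (((1 / 4 : ℝ) : ℂ) + ((t / 2 : ℝ) : ℂ) * Complex.I)) h1
    (by fun_prop)

lemma Phi_meas : Measurable Phi := by
  unfold Phi
  have : StronglyMeasurable (fun p : ℝ × ℝ => p.2 ^ (-(1/4) : ℝ) * (p.1 * Real.sinh ((Real.pi / 4 - p.2) * p.1))) := by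
    apply Measurable.stronglyMeasurable
    apply Measurable.mul
    · exact measurable_snd.pow_const _
    · apply Measurable.mul measurable_fst
      exact Real.continuous_sinh.measurable.comp (by fun_prop)
  exact (this.integral_prod_right' (ν := volume.restrict (Ioc (0:ℝ) (Real.pi / 4)))).measurable

lemma Rr_meas : Measurable Rr := by
  unfold Rr
  exact measurable_const.sub (g_cont.measurable.mul (Phi_meas.add measurable_const))

/-- majorant on `(1,∞)` -/
noncomputable def U (t : ℝ) : ℝ := (7.34 * Real.exp (-(Real.pi / 2 * t)) + 1.24 / t ^ 4) * (t ^ 2 + 1/4)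

noncomputable def UU (t : ℝ) : ℝ :=
  -(7.34 * Real.exp (-(Real.pi / 2 * t)) * (t ^ 2 / (Real.pi / 2) + 2 * t / (Real.pi / 2) ^ 2 + 2 / (Real.pi / 2) ^ 3 + 1 / (4 * (Real.pi / 2))))
   - 1.24 * (1 / t + 1 / (12 * t ^ 3))

lemma UU_deriv {t : ℝ} (ht : 0 < t) : HasDerivAt UU (U t) t := by
  have hc : (0:ℝ) < Real.pi / 2 := by positivity
  unfold UU U
  set c := Real.pi / 2
  have h1 : HasDerivAt (fun t : ℝ => Real.exp (-(c * t))) (Real.exp (-(c * t)) * (-c)) t := by
    have := ((hasDerivAt_id t).const_mul c).neg.exp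
    simpa using this
  have h2 : HasDerivAt (fun t : ℝ => t ^ 2 / c + 2 * t / c ^ 2 + 2 / c ^ 3 + 1 / (4 * c)) (2 * t / c + 2 / c ^ 2) t := by
    have a1 : HasDerivAt (fun t : ℝ => t ^ 2 / c) (2 * t / c) t := by
      simpa using (hasDerivAt_pow 2 t).div_const c
    have a2 : HasDerivAt (fun t : ℝ => 2 * t / c ^ 2) (2 / c ^ 2) t := by
      simpa using ((hasDerivAt_id t).const_mul 2).div_const (c ^ 2)
    simpa using ((a1.add a2).add_const (2 / c ^ 3)).add_const (1 / (4 * c))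
  have h3 : HasDerivAt (fun t : ℝ => 1 / t + 1 / (12 * t ^ 3)) (-(1 / t ^ 2) - 1 / (4 * t ^ 4)) t := by
    have a1 : HasDerivAt (fun t : ℝ => 1 / t) (-(1 / t ^ 2)) t := by
      have := hasDerivAt_inv ht.ne'
      simp only [one_div]; exact this
    have a2 : HasDerivAt (fun t : ℝ => 1 / (12 * t ^ 3)) (- (1 / (4 * t ^ 4))) t := by
      have b1 : HasDerivAt (fun t : ℝ => 12 * t ^ 3) (12 * (3 * t ^ 2)) t := by
        simpa using (hasDerivAt_pow 3 t).const_mul 12
      have := b1.inv (by positivity)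
      simp only [one_div]
      refine this.congr_deriv ?_
      field_simp
      ring
    exact a1.add a2
  have h4 := (((h1.const_mul 7.34).mul h2).neg).sub (h3.const_mul 1.24)
  refine h4.congr_deriv ?_
  field_simp
  ring

lemma UU_tendsto : Tendsto UU atTop (𝓝 0) := by
  have hc : (0:ℝ) < Real.pi / 2 := by positivity
  unfold UU
  set c := Real.pi / 2
  have hid : Tendsto (fun t : ℝ => c * t) atTop atTop := tendsto_id.const_mul_atTop hc
  have e0 : Tendsto (fun t : ℝ => Real.exp (-(c * t))) atTop (𝓝 0) := Real.tendsto_exp_neg_atTop_nhds_zero.comp hid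
  have e1 : Tendsto (fun t : ℝ => (c * t) ^ 1 * Real.exp (-(c * t))) atTop (𝓝 0) :=
    (Real.tendsto_pow_mul_exp_neg_atTop_nhds_zero 1).comp hid
  have e2 : Tendsto (fun t : ℝ => (c * t) ^ 2 * Real.exp (-(c * t))) atTop (𝓝 0) :=
    (Real.tendsto_pow_mul_exp_neg_atTop_nhds_zero 2).comp hid
  have i1 : Tendsto (fun t : ℝ => 1 / t) atTop (𝓝 0) := by
    simpa using tendsto_inv_atTop_zero
  have i3 : Tendsto (fun t : ℝ => 1 / (12 * t ^ 3)) atTop (𝓝 0) := by
    have := (i1.pow 3).mul_const (1/12)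
    simp only [ne_eq, OfNat.ofNat_ne_zero, not_false_eq_true, zero_pow, zero_mul] at this
    refine this.congr ?_
    intro t; field_simp
  have h := (((e2.mul_const (7.34 / c ^ 3)).add (e1.mul_const (7.34 * 2 / c ^ 3))).add (e0.mul_const (7.34 * (2 / c ^ 3 + 1 / (4 * c))))).neg.sub
    ((i1.add i3).const_mul 1.24)
  simp only [zero_mul, add_zero, neg_zero, mul_zero, sub_zero] at h
  refine h.congr ?_
  intro t
  field_simp
  ring

lemma U_nonneg {t : ℝ} (ht : 0 < t) : 0 ≤ U t := by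
  unfold U
  have := Real.exp_pos (-(Real.pi / 2 * t))
  positivity

lemma U_int : IntegrableOn U (Ioi 1) :=
  integrableOn_Ioi_deriv_of_nonneg' (fun x hx => UU_deriv (lt_of_lt_of_le one_pos hx))
    (fun x hx => U_nonneg (one_pos.trans hx)) UU_tendsto

lemma U_integral : ∫ t in Ioi (1:ℝ), U t ≤ 5.02 := by
  rw [integral_Ioi_of_hasDerivAt_of_nonneg' (fun x hx => UU_deriv (lt_of_lt_of_le one_pos hx))
    (fun x hx => U_nonneg (one_pos.trans hx)) UU_tendsto]
  unfold UU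
  have hp := Real.pi_gt_d4
  have h1 : Real.exp (-(Real.pi / 2 * 1)) ≤ 0.2116 := by
    have := pow_le_pow_left₀ (Real.exp_pos _).le exp_quarter 2
    rw [← Real.exp_nat_mul] at this
    rw [show -(Real.pi / 2 * 1) = ((2:ℕ):ℝ) * -(Real.pi / 4) by push_cast; ring]
    refine this.trans (by norm_num)
  have hE := Real.exp_pos (-(Real.pi / 2 * 1))
  have hc1 : 1 / (Real.pi / 2) ≤ 0.6367 := by
    rw [div_le_iff₀ (by positivity)]; norm_num at hp ⊢; linarith
  have hc0 : 0 < 1 / (Real.pi / 2) := by positivity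
  set u := 1 / (Real.pi / 2) with hu
  have e : (1:ℝ) ^ 2 / (Real.pi / 2) + 2 * 1 / (Real.pi / 2) ^ 2 + 2 / (Real.pi / 2) ^ 3 + 1 / (4 * (Real.pi / 2)) =
      u + 2 * u ^ 2 + 2 * u ^ 3 + u / 4 := by
    rw [hu]; field_simp
  rw [e]
  have h2 : u + 2 * u ^ 2 + 2 * u ^ 3 + u / 4 ≤ 0.6367 + 2 * 0.6367 ^ 2 + 2 * 0.6367 ^ 3 + 0.6367 / 4 := by gcongr
  have h3 : 7.34 * Real.exp (-(Real.pi / 2 * 1)) * (u + 2 * u ^ 2 + 2 * u ^ 3 + u / 4) ≤
    7.34 * 0.2116 * (0.6367 + 2 * 0.6367 ^ 2 + 2 * 0.6367 ^ 3 + 0.6367 / 4) := by gcongr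
  norm_num at h3 ⊢
  linarith

lemma sq_int : IntegrableOn (fun t => Rr t ^ 2 * (t ^ 2 + 1/4)) (Ioc 0 1) ∧
    ∫ t in Ioc (0:ℝ) 1, Rr t ^ 2 * (t ^ 2 + 1/4) ≤ 2.5725 := by
  have hm : AEStronglyMeasurable (fun t => Rr t ^ 2 * (t ^ 2 + 1/4)) (volume.restrict (Ioc (0:ℝ) 1)) :=
    ((Rr_meas.pow_const 2).mul (by fun_prop)).aestronglyMeasurable
  have hpoly : IntegrableOn (fun t : ℝ => 2.1 ^ 2 * (t ^ 2 + 1/4)) (Ioc 0 1) := by
    exact ((by fun_prop : Continuous (fun t : ℝ => 2.1 ^ 2 * (t ^ 2 + 1/4))).integrableOn_Icc (a := 0) (b := 1)).mono_set Ioc_subset_Icc_self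
  have hle : ∀ t ∈ Ioc (0:ℝ) 1, Rr t ^ 2 * (t ^ 2 + 1/4) ≤ 2.1 ^ 2 * (t ^ 2 + 1/4) := by
    intro t ht
    apply mul_le_mul_of_nonneg_right _ (by positivity)
    rw [← sq_abs]
    exact pow_le_pow_left₀ (abs_nonneg _) (Rr_small ht.1 ht.2) 2
  have hint : IntegrableOn (fun t => Rr t ^ 2 * (t ^ 2 + 1/4)) (Ioc 0 1) := by
    refine Integrable.mono' hpoly hm ?_
    refine (ae_restrict_iff' measurableSet_Ioc).mpr ?_
    filter_upwards with t ht
    rw [Real.norm_of_nonneg (by positivity)]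
    exact hle t ht
  refine ⟨hint, (setIntegral_mono_on hint hpoly measurableSet_Ioc hle).trans ?_⟩
  rw [← intervalIntegral.integral_of_le zero_le_one]
  simp only [intervalIntegral.integral_const_mul]
  rw [intervalIntegral.integral_add (by simp) (by simp), integral_pow]
  simp
  norm_num

lemma V_bound : IntegrableOn (fun t => Rr t ^ 2 * (t ^ 2 + 1/4)) (Ioi 0) ∧
    ∫ t in Ioi (0:ℝ), Rr t ^ 2 * (t ^ 2 + 1/4) ≤ 7.6 := by
  have hm : AEStronglyMeasurable (fun t => Rr t ^ 2 * (t ^ 2 + 1/4)) (volume.restrict (Ioi (1:ℝ))) :=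
    ((Rr_meas.pow_const 2).mul (by fun_prop)).aestronglyMeasurable
  have hle : ∀ t ∈ Ioi (1:ℝ), Rr t ^ 2 * (t ^ 2 + 1/4) ≤ U t := by
    intro t ht
    unfold U
    apply mul_le_mul_of_nonneg_right _ (by positivity)
    exact Rr_sq (le_of_lt ht)
  have hint : IntegrableOn (fun t => Rr t ^ 2 * (t ^ 2 + 1/4)) (Ioi 1) := by
    refine Integrable.mono' U_int hm ?_
    refine (ae_restrict_iff' measurableSet_Ioi).mpr ?_
    filter_upwards with t ht
    rw [Real.norm_of_nonneg (by positivity)]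
    exact hle t ht
  have h2 := (setIntegral_mono_on hint U_int measurableSet_Ioi hle).trans U_integral
  obtain ⟨h3, h4⟩ := sq_int
  have hU : Ioc (0:ℝ) 1 ∪ Ioi 1 = Ioi 0 := Ioc_union_Ioi_eq_Ioi zero_le_one
  refine ⟨by rw [← hU]; exact h3.union hint, ?_⟩
  rw [← hU, setIntegral_union (by rw [Set.disjoint_left]; intro x hx hx2; exact absurd hx.2 (not_le.mpr hx2)) measurableSet_Ioi h3 hint]
  norm_num at h2 h4 ⊢
  linarith

end Pool.Agent.Helper625.M7
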