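import Mathlib
import Pool.Agent.Helper625.M7

namespace Pool.Agent.Helper625.M8
open MeasureTheory Filter Topology Set
open Pool.Agent.Helper625.Th Pool.Agent.Helper625.M1 Pool.Agent.Helper625.M2 Pool.Agent.Helper625.M3 Pool.Agent.Helper625.M4
open Pool.Agent.Helper625.M5 Pool.Agent.Helper625.M6 Pool.Agent.Helper625.M7
open Pool.Agent.Helper625.Gam (g g_pos g_upper g_lower norm_Gamma_mul)

/-- real Hardy function in terms of the completed zeta function -/
noncomputable def Zr (t : ℝ) : ℝ := Real.pi ^ (1/4 : ℝ) * Lr t / g t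

lemma Zr_cont : Continuous Zr := by
  unfold Zr
  exact (continuous_const.mul Lr_cont).div g_cont (fun t => (g_pos t).ne')

lemma abs_Zr (t : ℝ) : |Zr t| = ‖riemannZeta (ZF.cl t)‖ := by
  unfold Zr
  have hg := g_pos t
  have hp : 0 < Real.pi ^ (1/4 : ℝ) := by positivity
  rw [abs_div, abs_mul, abs_of_pos hg, abs_of_pos hp, abs_Lr, norm_Lc, Real.rpow_neg Real.pi_pos.le]
  field_simp

lemma abs_Zr_le (t : ℝ) : |Zr t| ≤ 4 * (1 + |t|) := by
  rw [abs_Zr]
  refine (ZF.zeta_bound t).trans ?_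
  exact mul_le_mul_of_nonneg_left (norm_cl_le t) (by norm_num)

lemma Zr_exp_integ {η : ℝ} (hη : 0 < η) : IntegrableOn (fun t => Zr t * Real.exp (-η * t)) (Ioi 0) := by
  have hb : IntegrableOn (fun t : ℝ => 4 * ((1 + |t|) ^ 2 * Real.exp (-η * |t|))) (Ioi 0) :=
    ((poly_exp_integrable _ hη).const_mul 4).integrableOn
  refine Integrable.mono' hb (Zr_cont.mul (by fun_prop)).aestronglyMeasurable ?_
  refine (ae_restrict_iff' measurableSet_Ioi).mpr ?_
  filter_upwards with t ht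
  have ht0 : (0:ℝ) < t := ht
  rw [norm_mul, Real.norm_eq_abs, Real.norm_of_nonneg (Real.exp_pos _).le, abs_of_pos ht0]
  have h1 := abs_Zr_le t
  rw [abs_of_pos ht0] at h1
  have hE := Real.exp_pos (-η * t)
  calc |Zr t| * Real.exp (-η * t) ≤ (4 * (1 + t)) * Real.exp (-η * t) := mul_le_mul_of_nonneg_right h1 hE.le
    _ ≤ (4 * (1 + t) ^ 2) * Real.exp (-η * t) := by
      apply mul_le_mul_of_nonneg_right _ hE.le
      nlinarith
    _ = _ := by ring

lemma ZR_pointwise (t : ℝ) : |Zr t * Rr t| ≤ 1.1 / 2 * ZF.W t + 1 / 2.2 * (Rr t ^ 2 * (t ^ 2 + 1/4)) := by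
  have hn := ZF.norm_cl_pos t
  have hn2 : ‖ZF.cl t‖ ^ 2 = t ^ 2 + 1/4 := by
    rw [← Complex.normSq_eq_norm_sq, Complex.normSq_apply, ZF.cl_re, ZF.cl_im]; ring
  have h1 : |Zr t * Rr t| = (‖riemannZeta (ZF.cl t)‖ / ‖ZF.cl t‖) * (|Rr t| * ‖ZF.cl t‖) := by
    rw [abs_mul, abs_Zr]; field_simp
  have h2 : ZF.W t = (‖riemannZeta (ZF.cl t)‖ / ‖ZF.cl t‖) ^ 2 := by
    unfold ZF.W; rw [norm_div]
  have h3 : Rr t ^ 2 * (t ^ 2 + 1/4) = (|Rr t| * ‖ZF.cl t‖) ^ 2 := by
    rw [mul_pow, sq_abs, hn2]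
  rw [h1, h2, h3]
  set a := ‖riemannZeta (ZF.cl t)‖ / ‖ZF.cl t‖
  set b := |Rr t| * ‖ZF.cl t‖
  nlinarith [sq_nonneg (1.1 * a - b)]

lemma ZR_integ : IntegrableOn (fun t => Zr t * Rr t) (Ioi 0) ∧
    |∫ t in Ioi (0:ℝ), Zr t * Rr t| ≤ 1.1 * Real.pi + 3.8 / 1.1 := by
  have hb : IntegrableOn (fun t => 1.1 / 2 * ZF.W t + 1 / 2.2 * (Rr t ^ 2 * (t ^ 2 + 1/4))) (Ioi 0) :=
    (ZF.W_half.1.const_mul _).add (V_bound.1.const_mul _)
  have hint : IntegrableOn (fun t => Zr t * Rr t) (Ioi 0) := by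
    refine Integrable.mono' hb (Zr_cont.measurable.mul Rr_meas).aestronglyMeasurable ?_
    filter_upwards with t
    rw [Real.norm_eq_abs]
    exact ZR_pointwise t
  refine ⟨hint, ?_⟩
  have h1 : |∫ t in Ioi (0:ℝ), Zr t * Rr t| ≤ ∫ t in Ioi (0:ℝ), |Zr t * Rr t| := by
    have := norm_integral_le_integral_norm (μ := volume.restrict (Ioi (0:ℝ))) (fun t => Zr t * Rr t)
    simpa only [Real.norm_eq_abs] using this
  have h2 : ∫ t in Ioi (0:ℝ), |Zr t * Rr t| ≤
      ∫ t in Ioi (0:ℝ), (1.1 / 2 * ZF.W t + 1 / 2.2 * (Rr t ^ 2 * (t ^ 2 + 1/4))) :=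
    setIntegral_mono_on hint.abs hb measurableSet_Ioi (fun t _ => ZR_pointwise t)
  have h3 := ZF.W_half.2
  have h4 := V_bound.2
  rw [integral_add (ZF.W_half.1.const_mul _) (V_bound.1.const_mul _), integral_const_mul, integral_const_mul] at h2
  have h5 := h1.trans h2
  norm_num at h5 h4 ⊢
  linarith

lemma pi_b0 : Real.pi ^ (1/4 : ℝ) * b0 = Real.sqrt 2 := by
  have hs : (0:ℝ) ≤ Real.sqrt 2 := Real.sqrt_nonneg 2
  have hb := b0_pos
  have h4 : (Real.pi ^ (1/4 : ℝ) * b0) ^ 4 = Real.sqrt 2 ^ 4 := by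
    rw [mul_pow]
    have e1 : (Real.pi ^ (1/4 : ℝ)) ^ 4 = Real.pi := by
      rw [← Real.rpow_natCast, ← Real.rpow_mul Real.pi_pos.le]; norm_num
    have e2 : b0 ^ 4 = 4 / Real.pi := by
      unfold b0
      rw [← Real.rpow_natCast, ← Real.rpow_mul pi4_pos.le]
      norm_num
      rw [Real.rpow_neg_one]; field_simp
    have e3 : Real.sqrt 2 ^ 4 = 4 := by
      rw [show (4:ℕ) = 2 * 2 by norm_num, pow_mul, Real.sq_sqrt (by norm_num)]; norm_num
    rw [e1, e2, e3]
    have := Real.pi_pos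
    field_simp
  exact (pow_left_inj₀ (by positivity) hs (by norm_num)).mp h4

/-- limiting constant times k0 -/
noncomputable def E0 : ℝ := Real.pi ^ (1/4 : ℝ) * M0 + ∫ t in Ioi (0:ℝ), Zr t * Rr t

lemma E0_neg : E0 ≤ -0.14 := by
  have h1 := M0_le
  have h2 := ZR_integ.2
  have h3 := (abs_le.mp h2).2
  have hp : 0 < Real.pi ^ (1/4 : ℝ) := by positivity
  have h4 : Real.pi ^ (1/4 : ℝ) * M0 ≤ -(Real.sqrt 2 * Real.pi * (2 - Real.pi ^ 2 / 24)) := by
    have := mul_le_mul_of_nonneg_left h1 hp.le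
    refine this.trans (le_of_eq ?_)
    rw [← pi_b0]; ring
  have hpi1 := Real.pi_gt_d4
  have hpi2 := Real.pi_lt_d4
  have hsq : (1.41421:ℝ) ≤ Real.sqrt 2 := by
    apply Real.le_sqrt_of_sq_le; norm_num
  have h5 : 1.5887 ≤ 2 - Real.pi ^ 2 / 24 := by
    have := pow_le_pow_left₀ Real.pi_pos.le hpi2.le 2
    norm_num at this ⊢
    linarith
  have h6 : 1.41421 * 3.1415 * 1.5887 ≤ Real.sqrt 2 * Real.pi * (2 - Real.pi ^ 2 / 24) := by
    gcongr
  unfold E0
  norm_num at h3 h6 hpi2 ⊢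
  linarith

noncomputable def A (η : ℝ) : ℝ := ∫ t in Ioi (0:ℝ), Zr t * Real.exp (-η * t)

lemma ZR_exp_integ {η : ℝ} (hη : 0 < η) : IntegrableOn (fun t => Zr t * Rr t * Real.exp (-η * t)) (Ioi 0) := by
  refine Integrable.mono ZR_integ.1 ((Zr_cont.measurable.mul Rr_meas).mul (by fun_prop)).aestronglyMeasurable ?_
  refine (ae_restrict_iff' measurableSet_Ioi).mpr ?_
  filter_upwards with t ht
  have ht0 : (0:ℝ) < t := ht
  rw [norm_mul, Real.norm_of_nonneg (Real.exp_pos _).le]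
  have : Real.exp (-η * t) ≤ 1 := by
    rw [Real.exp_le_one_iff]; nlinarith
  nlinarith [norm_nonneg (Zr t * Rr t)]

lemma key_point (t : ℝ) : k0 * Zr t = Real.pi ^ (1/4 : ℝ) * (Lr t * (Phi t + b0)) + Zr t * Rr t := by
  unfold Rr Zr
  have hg := g_pos t
  field_simp
  ring

lemma A_eq {η : ℝ} (hη : 0 < η) : k0 * A η = Real.pi ^ (1/4 : ℝ) * (∫ t in Ioi (0:ℝ), Lr t * (Phi t + b0) * Real.exp (-η * t)) +
    ∫ t in Ioi (0:ℝ), Zr t * Rr t * Real.exp (-η * t) := by
  have hp : 0 < Real.pi ^ (1/4 : ℝ) := by positivity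
  have i1 := (Zr_exp_integ hη).const_mul k0
  have i2 := ZR_exp_integ hη
  have i3 : IntegrableOn (fun t => Real.pi ^ (1/4 : ℝ) * (Lr t * (Phi t + b0) * Real.exp (-η * t))) (Ioi 0) := by
    refine IntegrableOn.congr_fun (i1.sub i2) ?_ measurableSet_Ioi
    intro t _
    simp only [Pi.sub_apply]
    have := key_point t
    linear_combination (Real.exp (-η * t)) * this
  unfold A
  rw [← integral_const_mul, ← integral_const_mul, ← integral_add i3 i2]
  apply setIntegral_congr_fun measurableSet_Ioi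
  intro t _
  simp only
  have := key_point t
  linear_combination (Real.exp (-η * t)) * this

lemma lim_err : Tendsto (fun η => ∫ t in Ioi (0:ℝ), Zr t * Rr t * Real.exp (-η * t)) (𝓝[>] 0)
    (𝓝 (∫ t in Ioi (0:ℝ), Zr t * Rr t)) := by
  apply tendsto_integral_filter_of_dominated_convergence (fun t => ‖Zr t * Rr t‖)
  · filter_upwards with η
    exact ((Zr_cont.measurable.mul Rr_meas).mul (by fun_prop)).aestronglyMeasurable
  · filter_upwards [self_mem_nhdsWithin] with η hη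
    refine (ae_restrict_iff' measurableSet_Ioi).mpr ?_
    filter_upwards with t ht
    have ht0 : (0:ℝ) < t := ht
    have hη0 : (0:ℝ) < η := hη
    rw [norm_mul, Real.norm_of_nonneg (Real.exp_pos _).le]
    have : Real.exp (-η * t) ≤ 1 := by
      rw [Real.exp_le_one_iff]; nlinarith
    nlinarith [norm_nonneg (Zr t * Rr t)]
  · exact ZR_integ.1.norm
  · filter_upwards with t
    have h2 : Tendsto (fun η : ℝ => Real.exp (-η * t)) (𝓝[>] 0) (𝓝 1) := by
      have : Tendsto (fun η : ℝ => Real.exp (-η * t)) (𝓝 0) (𝓝 (Real.exp (-0 * t))) :=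
        (Continuous.tendsto (by fun_prop) 0)
      rw [neg_zero, zero_mul, Real.exp_zero] at this
      exact this.mono_left nhdsWithin_le_nhds
    simpa using h2.const_mul (Zr t * Rr t)

noncomputable def C0 : ℝ := E0 / k0

lemma C0_neg : C0 ≤ -0.07 := by
  unfold C0
  rw [div_le_iff₀ k0_pos]
  have h1 := E0_neg
  have h2 := k0_le
  norm_num at h1 h2 ⊢
  linarith

lemma A_tendsto : Tendsto A (𝓝[>] 0) (𝓝 C0) := by
  have h : Tendsto (fun η => k0 * A η) (𝓝[>] 0) (𝓝 E0) := by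
    have h1 := (lim3.const_mul (Real.pi ^ (1/4 : ℝ))).add lim_err
    refine h1.congr' ?_
    filter_upwards [self_mem_nhdsWithin] with η hη
    exact (A_eq hη).symm
  have h2 := h.div_const k0
  refine h2.congr ?_
  intro η
  have := k0_pos
  field_simp

noncomputable def Fz (T : ℝ) : ℝ := ∫ t in (0:ℝ)..T, Zr t
noncomputable def Gz (T : ℝ) : ℝ := ∫ t in (0:ℝ)..T, Fz t

lemma Fz_deriv (T : ℝ) : HasDerivAt Fz (Zr T) T := (Zr_cont.integral_hasStrictDerivAt 0 T).hasDerivAt

lemma Fz_cont : Continuous Fz := continuous_iff_continuousAt.mpr (fun T => (Fz_deriv T).continuousAt)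

lemma Gz_deriv (T : ℝ) : HasDerivAt Gz (Fz T) T := (Fz_cont.integral_hasStrictDerivAt 0 T).hasDerivAt

lemma Gz_cont : Continuous Gz := continuous_iff_continuousAt.mpr (fun T => (Gz_deriv T).continuousAt)

lemma Fz_bound {T : ℝ} (hT : 0 ≤ T) : |Fz T| ≤ 4 * (1 + T) * T := by
  have h := intervalIntegral.norm_integral_le_of_norm_le_const (a := 0) (b := T) (C := 4 * (1 + T)) (f := Zr) (by
    intro x hx
    rw [uIoc_of_le hT] at hx
    have := abs_Zr_le x
    rw [abs_of_pos hx.1] at this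
    rw [Real.norm_eq_abs]
    linarith [hx.2])
  rw [sub_zero, abs_of_nonneg hT] at h
  exact h

lemma Gz_bound {T : ℝ} (hT : 0 ≤ T) : |Gz T| ≤ 4 * (1 + T) * T * T := by
  have h := intervalIntegral.norm_integral_le_of_norm_le_const (a := 0) (b := T) (C := 4 * (1 + T) * T) (f := Fz) (by
    intro x hx
    rw [uIoc_of_le hT] at hx
    have := Fz_bound hx.1.le
    rw [Real.norm_eq_abs]
    refine this.trans ?_
    have h1 := hx.1
    have h2 := hx.2
    apply mul_le_mul _ h2 h1.le (by linarith)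
    linarith)
  rw [sub_zero, abs_of_nonneg hT] at h
  exact h

lemma pow_exp_integ {η : ℝ} (hη : 0 < η) (n : ℕ) : IntegrableOn (fun t : ℝ => t ^ n * Real.exp (-η * t)) (Ioi 0) := by
  have h := integrableOn_rpow_mul_exp_neg_mul_rpow (p := 1) (s := (n:ℝ)) (b := η) (by
    have : (0:ℝ) ≤ n := Nat.cast_nonneg n
    linarith) (by norm_num) hη
  refine h.congr_fun ?_ measurableSet_Ioi
  intro x _
  simp only [Real.rpow_one, Real.rpow_natCast]

lemma Gz_exp_integ {η : ℝ} (hη : 0 < η) : IntegrableOn (fun t => Gz t * Real.exp (-η * t)) (Ioi 0) := by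
  have hb := ((pow_exp_integ hη 2).add (pow_exp_integ hη 3)).const_mul 4
  refine Integrable.mono' hb (Gz_cont.mul (by fun_prop)).aestronglyMeasurable ?_
  refine (ae_restrict_iff' measurableSet_Ioi).mpr ?_
  filter_upwards with t ht
  have ht0 : (0:ℝ) < t := ht
  rw [norm_mul, Real.norm_eq_abs, Real.norm_of_nonneg (Real.exp_pos _).le]
  have h1 := Gz_bound ht0.le
  have hE := Real.exp_pos (-η * t)
  calc |Gz t| * Real.exp (-η * t) ≤ (4 * (1 + t) * t * t) * Real.exp (-η * t) := mul_le_mul_of_nonneg_right h1 hE.le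
    _ = _ := by simp only [Pi.add_apply]; ring

lemma pow_exp_tendsto {η : ℝ} (hη : 0 < η) (n : ℕ) : Tendsto (fun t : ℝ => t ^ n * Real.exp (-η * t)) atTop (𝓝 0) := by
  have hid : Tendsto (fun t : ℝ => η * t) atTop atTop := tendsto_id.const_mul_atTop hη
  have h := ((Real.tendsto_pow_mul_exp_neg_atTop_nhds_zero n).comp hid).const_mul ((1 / η) ^ n)
  rw [mul_zero] at h
  refine h.congr ?_
  intro t
  simp only [Function.comp_apply]
  have e : (1 / η) ^ n * (η * t) ^ n = t ^ n := by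
    rw [← mul_pow]; congr 1; field_simp
  rw [neg_mul, ← mul_assoc, e]

/-- Laplace transform identity -/
lemma A_eq_G {η : ℝ} (hη : 0 < η) : A η = η ^ 2 * ∫ T in Ioi (0:ℝ), Gz T * Real.exp (-η * T) := by
  have hE : ∀ t : ℝ, HasDerivAt (fun t : ℝ => Real.exp (-η * t)) (Real.exp (-η * t) * (-η)) t := by
    intro t
    have := ((hasDerivAt_id t).const_mul (-η)).exp
    simpa using this
  have hd : ∀ t ∈ Ici (0:ℝ), HasDerivAt (fun t => (Fz t + η * Gz t) * Real.exp (-η * t))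
      (Zr t * Real.exp (-η * t) - η ^ 2 * (Gz t * Real.exp (-η * t))) t := by
    intro t _
    have h1 := ((Fz_deriv t).add ((Gz_deriv t).const_mul η)).mul (hE t)
    refine h1.congr_deriv ?_
    simp only [Pi.add_apply]
    ring
  have hint : IntegrableOn (fun t => Zr t * Real.exp (-η * t) - η ^ 2 * (Gz t * Real.exp (-η * t))) (Ioi 0) :=
    (Zr_exp_integ hη).sub ((Gz_exp_integ hη).const_mul _)
  have hlim : Tendsto (fun t => (Fz t + η * Gz t) * Real.exp (-η * t)) atTop (𝓝 0) := by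
    have hb : Tendsto (fun t : ℝ => 4 * (t ^ 1 * Real.exp (-η * t)) + (4 + 4 * η) * (t ^ 2 * Real.exp (-η * t)) +
        4 * η * (t ^ 3 * Real.exp (-η * t))) atTop (𝓝 0) := by
      have := (((pow_exp_tendsto hη 1).const_mul 4).add ((pow_exp_tendsto hη 2).const_mul (4 + 4 * η))).add
        ((pow_exp_tendsto hη 3).const_mul (4 * η))
      simpa using this
    apply squeeze_zero_norm' _ hb
    filter_upwards [eventually_ge_atTop 0] with t ht
    rw [norm_mul, Real.norm_of_nonneg (Real.exp_pos _).le, Real.norm_eq_abs]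
    have h1 := Fz_bound ht
    have h2 := Gz_bound ht
    have h3 : |Fz t + η * Gz t| ≤ |Fz t| + η * |Gz t| := by
      refine (abs_add_le _ _).trans ?_
      rw [abs_mul, abs_of_pos hη]
    have h4 := mul_le_mul_of_nonneg_left h2 hη.le
    calc |Fz t + η * Gz t| * Real.exp (-η * t) ≤ (4 * (1 + t) * t + η * (4 * (1 + t) * t * t)) * Real.exp (-η * t) :=
          mul_le_mul_of_nonneg_right (by linarith) (Real.exp_pos _).le
      _ = _ := by ring
  have h := integral_Ioi_of_hasDerivAt_of_tendsto' hd hint hlim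
  rw [integral_sub (Zr_exp_integ hη) ((Gz_exp_integ hη).const_mul _), integral_const_mul] at h
  have h0 : Fz 0 = 0 := by simp [Fz]
  have h00 : Gz 0 = 0 := by simp [Gz]
  rw [h0, h00] at h
  unfold A
  linarith

lemma int_T {η : ℝ} (hη : 0 < η) : ∫ T in Ioi (0:ℝ), T * Real.exp (-η * T) = 1 / η ^ 2 := by
  have h := Real.integral_rpow_mul_exp_neg_mul_Ioi (a := 2) (r := η) (by norm_num) hη
  rw [Real.Gamma_two, mul_one] at h
  have e : ∫ T in Ioi (0:ℝ), T * Real.exp (-η * T) = ∫ (t : ℝ) in Ioi 0, t ^ ((2:ℝ) - 1) * Real.exp (-(η * t)) := by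
    apply setIntegral_congr_fun measurableSet_Ioi
    intro t _
    simp only
    rw [show (2:ℝ) - 1 = 1 by norm_num, Real.rpow_one, neg_mul]
  rw [e, h]
  norm_num

/-- main consequence: G is ≤ -cT infinitely often, for every c < -C0 -/
theorem G_omega {c : ℝ} (hc : c < -C0) : ∀ T₀ : ℝ, ∃ T, T₀ ≤ T ∧ Gz T ≤ -c * T := by
  by_contra hcon
  push Not at hcon
  obtain ⟨T₀, hT₀⟩ := hcon
  -- lower bound for all T ≥ 0
  set S := max T₀ 0 with hS
  have hS0 : 0 ≤ S := le_max_right _ _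
  set K := (4 * (1 + S) * S * S + |c| * S) * Real.exp S with hK
  have hK0 : 0 ≤ K := by positivity
  have hlow : ∀ T ∈ Ioi (0:ℝ), -c * T - K * Real.exp (-T) ≤ Gz T := by
    intro T hT
    have hT0 : (0:ℝ) < T := hT
    rcases le_total T₀ T with h | h
    · have := hT₀ T h
      have h2 : 0 ≤ K * Real.exp (-T) := by positivity
      linarith
    · have hTS : T ≤ S := h.trans (le_max_left _ _)
      have h1 := (abs_le.mp (Gz_bound hT0.le)).1
      have h2 : 4 * (1 + T) * T * T ≤ 4 * (1 + S) * S * S := by gcongr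
      have h3 : (4 * (1 + S) * S * S + |c| * S) ≤ K * Real.exp (-T) := by
        rw [hK, mul_assoc (4 * (1 + S) * S * S + |c| * S), ← Real.exp_add]
        apply le_mul_of_one_le_right (by positivity)
        exact Real.one_le_exp (by linarith)
      have h4 : -c * T ≤ |c| * S := by
        calc -c * T ≤ |c| * T := mul_le_mul_of_nonneg_right (neg_le_abs c) hT0.le
          _ ≤ |c| * S := mul_le_mul_of_nonneg_left hTS (abs_nonneg c)
      linarith
  have hA : ∀ η : ℝ, 0 < η → -c - η ^ 2 * K ≤ A η := by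
    intro η hη
    rw [A_eq_G hη]
    have i1 : IntegrableOn (fun T : ℝ => T * Real.exp (-η * T)) (Ioi 0) := by
      simpa using pow_exp_integ hη 1
    have i2 : IntegrableOn (fun T : ℝ => Real.exp (-(η + 1) * T)) (Ioi 0) :=
      integrableOn_exp_mul_Ioi (by linarith) 0
    have h1 : ∫ T in Ioi (0:ℝ), (-c * (T * Real.exp (-η * T)) - K * Real.exp (-(η + 1) * T)) ≤
        ∫ T in Ioi (0:ℝ), Gz T * Real.exp (-η * T) := by
      apply setIntegral_mono_on ((i1.const_mul _).sub (i2.const_mul _)) (Gz_exp_integ hη) measurableSet_Ioi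
      intro T hT
      have h2 := mul_le_mul_of_nonneg_right (hlow T hT) (Real.exp_pos (-η * T)).le
      have e : Real.exp (-(η + 1) * T) = Real.exp (-T) * Real.exp (-η * T) := by
        rw [← Real.exp_add]; congr 1; ring
      simp only [Pi.sub_apply]
      rw [e]
      linarith
    rw [integral_sub (i1.const_mul _) (i2.const_mul _), integral_const_mul, integral_const_mul, int_T hη,
      integral_exp_mul_Ioi (by linarith : -(η + 1) < 0)] at h1
    have e2 : -Real.exp (-(η + 1) * 0) / (-(η + 1)) = 1 / (η + 1) := by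
      rw [mul_zero, Real.exp_zero, neg_div_neg_eq]
    rw [e2] at h1
    have h3 : K * (1 / (η + 1)) ≤ K := by
      apply mul_le_of_le_one_right hK0
      rw [div_le_one (by linarith)]; linarith
    have h4 : -c * (1 / η ^ 2) - K ≤ ∫ T in Ioi (0:ℝ), Gz T * Real.exp (-η * T) := by linarith
    have h5 := mul_le_mul_of_nonneg_left h4 (by positivity : 0 ≤ η ^ 2)
    refine le_trans (le_of_eq ?_) h5
    field_simp
  have hlim : Tendsto (fun η : ℝ => -c - η ^ 2 * K) (𝓝[>] 0) (𝓝 (-c)) := by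
    have : Tendsto (fun η : ℝ => -c - η ^ 2 * K) (𝓝 0) (𝓝 (-c - 0 ^ 2 * K)) := Continuous.tendsto (by fun_prop) 0
    simp only [ne_eq, OfNat.ofNat_ne_zero, not_false_eq_true, zero_pow, zero_mul, sub_zero] at this
    exact this.mono_left nhdsWithin_le_nhds
  have hfin : -c ≤ C0 := by
    refine le_of_tendsto_of_tendsto hlim A_tendsto ?_
    filter_upwards [self_mem_nhdsWithin] with η hη
    exact hA η hη
  linarith

end Pool.Agent.Helper625.M8
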