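import Mathlib
import Pool.Agent.Helper625.Th2
import Pool.Agent.Helper625.Fl

namespace Pool.Agent.Helper625.N1
open Complex MeasureTheory Filter Topology Set
open Pool.Agent.Helper625.Th Pool.Agent.Helper625.Fl

/-- `∑ 1/|n - 1/2|^{2a}` -/
noncomputable def Ca (a : ℝ) : ℝ := ∑' n : ℤ, 1 / |(n : ℝ) + (-(1/2))| ^ (2 * a)

lemma Ca_summable {a : ℝ} (ha : 1/2 < a) : Summable (fun n : ℤ => 1 / |(n : ℝ) + (-(1/2))| ^ (2 * a)) :=
  (Real.summable_one_div_int_add_rpow _ _).mpr (by linarith)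

lemma Ca_nonneg (a : ℝ) : 0 ≤ Ca a := tsum_nonneg (fun n => by positivity)

lemma exp_le_rpow {u a : ℝ} (hu : 0 < u) (ha0 : 0 < a) (ha1 : a ≤ 1) : Real.exp (-u) ≤ u ^ (-a) := by
  have h1 : u ^ a ≤ Real.exp u := by
    rcases le_total u 1 with h | h
    · exact (Real.rpow_le_one hu.le h ha0.le).trans (Real.one_le_exp hu.le)
    · calc u ^ a ≤ u ^ (1:ℝ) := Real.rpow_le_rpow_of_exponent_le h ha1
        _ = u := Real.rpow_one u
        _ ≤ Real.exp u := by linarith [Real.add_one_le_exp u]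
  rw [Real.exp_neg, Real.rpow_neg hu.le]
  exact inv_anti₀ (Real.rpow_pos_of_pos hu _) h1

lemma int_half_ne (n : ℤ) : 0 < |(n : ℝ) + (-(1/2))| := by
  rw [abs_pos]
  intro h
  have h2 : (2:ℝ) * n = 1 := by linarith
  have h3 : (2 * n : ℤ) = 1 := by exact_mod_cast h2
  omega

lemma gauss_term_le {v a : ℝ} (hv : 0 < v) (ha0 : 0 < a) (ha1 : a ≤ 1) (n : ℤ) :
    Real.exp (-(Real.pi * ((n : ℝ) - 1/2) ^ 2 * v)) ≤ 1 / |(n : ℝ) + (-(1/2))| ^ (2 * a) * v ^ (-a) := by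
  have hm := int_half_ne n
  set m := |(n : ℝ) + (-(1/2))| with hmdef
  have hm2 : ((n : ℝ) - 1/2) ^ 2 = m ^ 2 := by rw [hmdef, sq_abs]; ring
  rw [hm2]
  have h1 : Real.exp (-(Real.pi * m ^ 2 * v)) ≤ Real.exp (-(m ^ 2 * v)) := by
    apply Real.exp_le_exp.mpr
    have : 1 ≤ Real.pi := by linarith [Real.pi_gt_three]
    have h2 : 0 ≤ m ^ 2 * v := by positivity
    nlinarith
  refine h1.trans ((exp_le_rpow (by positivity) ha0 ha1).trans (le_of_eq ?_))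
  rw [Real.mul_rpow (by positivity) hv.le, ← Real.rpow_natCast, ← Real.rpow_mul hm.le, one_div, ← Real.rpow_neg hm.le]
  congr 2
  push_cast; ring

lemma gauss_summable {v : ℝ} (hv : 0 < v) : Summable (fun n : ℤ => Real.exp (-(Real.pi * ((n : ℝ) - 1/2) ^ 2 * v))) := by
  refine Summable.of_nonneg_of_le (fun n => (Real.exp_pos _).le) (fun n => gauss_term_le hv one_pos le_rfl n) ?_
  exact (Ca_summable (by norm_num)).mul_right _

lemma gauss_sum_le {v a : ℝ} (hv : 0 < v) (ha0 : 1/2 < a) (ha1 : a ≤ 1) :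
    ∑' n : ℤ, Real.exp (-(Real.pi * ((n : ℝ) - 1/2) ^ 2 * v)) ≤ Ca a * v ^ (-a) := by
  unfold Ca
  rw [← tsum_mul_right]
  exact (gauss_summable hv).tsum_le_tsum (fun n => gauss_term_le hv (by linarith) ha1 n) ((Ca_summable ha0).mul_right _)

lemma norm_half_cpow {z : ℂ} (hz : z ≠ 0) : ‖z ^ (1/2 : ℂ)‖ = ‖z‖ ^ (1/2 : ℝ) := by
  rw [Complex.norm_cpow_of_ne_zero hz]
  have h1 : (1/2 : ℂ).re = 1/2 := by norm_num
  have h2 : (1/2 : ℂ).im = 0 := by norm_num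
  rw [h1, h2, mul_zero, Real.exp_zero, div_one]

/-- theta near the cusp -/
lemma jt_norm {z : ℂ} (hz : 0 < z.re) :
    ‖jacobiTheta₂ 0 (I * z - 1)‖ ≤ ‖z‖ ^ (-(1/2) : ℝ) * ∑' n : ℤ, Real.exp (-(Real.pi * ((n : ℝ) - 1/2) ^ 2 * (z.re / ‖z‖ ^ 2))) := by
  have hz0 : z ≠ 0 := by
    intro h; rw [h] at hz; simp at hz
  have hnz : 0 < ‖z‖ := norm_pos_iff.mpr hz0
  rw [theta_shift, jacobiTheta₂_functional_equation]
  have e2 : -I * (I * z) = z := by rw [← mul_assoc, neg_mul, I_mul_I]; ring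
  rw [e2]
  have him : 0 < (-1 / (I * z)).im := by
    have h1 : -1 / (I * z) = I * z⁻¹ := by
      field_simp; rw [I_sq]
    rw [h1, I_mul_im, Complex.inv_re]
    exact div_pos hz (Complex.normSq_pos.mpr hz0)
  have hS := (hasSum_jacobiTheta₂_term ((1/2) / (I * z)) him).mul_left (cexp (-Real.pi * I * (1/2) ^ 2 / (I * z)))
  have hterm : ∀ n : ℤ, cexp (-Real.pi * I * (1/2) ^ 2 / (I * z)) * jacobiTheta₂_term n ((1/2) / (I * z)) (-1 / (I * z)) =
      cexp (-((Real.pi * ((n : ℝ) - 1/2) ^ 2 : ℝ) : ℂ) * z⁻¹) := by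
    intro n
    unfold jacobiTheta₂_term
    rw [← Complex.exp_add]
    congr 1
    push_cast
    field_simp
    ring
  simp_rw [hterm] at hS
  have hnorm : ∀ n : ℤ, ‖cexp (-((Real.pi * ((n : ℝ) - 1/2) ^ 2 : ℝ) : ℂ) * z⁻¹)‖ =
      Real.exp (-(Real.pi * ((n : ℝ) - 1/2) ^ 2 * (z.re / ‖z‖ ^ 2))) := by
    intro n
    rw [Complex.norm_exp]
    congr 1
    rw [← Complex.ofReal_neg, Complex.re_ofReal_mul, Complex.inv_re, Complex.normSq_eq_norm_sq]
    ring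
  have hv : 0 < z.re / ‖z‖ ^ 2 := by positivity
  have hsum : Summable (fun n : ℤ => ‖cexp (-((Real.pi * ((n : ℝ) - 1/2) ^ 2 : ℝ) : ℂ) * z⁻¹)‖) := by
    simp_rw [hnorm]
    exact gauss_summable hv
  have h3 : ‖cexp (-Real.pi * I * (1/2) ^ 2 / (I * z)) * jacobiTheta₂ ((1/2) / (I * z)) (-1 / (I * z))‖ ≤
      ∑' n : ℤ, Real.exp (-(Real.pi * ((n : ℝ) - 1/2) ^ 2 * (z.re / ‖z‖ ^ 2))) := by
    rw [← hS.tsum_eq]
    refine (norm_tsum_le_tsum_norm hsum).trans (le_of_eq ?_)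
    simp_rw [hnorm]
  rw [mul_assoc, norm_mul, norm_div, norm_one, norm_half_cpow hz0, one_div, ← Real.rpow_neg hnz.le]
  exact mul_le_mul_of_nonneg_left h3 (by positivity)

/-- the theta part in the strip -/
noncomputable def Th0 (w : ℂ) : ℂ := cexp (w / 2) * jacobiTheta₂ 0 (I * cexp (2 * w))

lemma Th0_diff {w : ℂ} (hw : w ∈ S) : DifferentiableAt ℂ Th0 w := by
  unfold Th0
  have h1 : DifferentiableAt ℂ (fun w : ℂ => jacobiTheta₂ 0 (I * cexp (2 * w))) w := by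
    have h2 := differentiableAt_jacobiTheta₂_snd 0 (im_pos_of_mem hw)
    have h3 : DifferentiableAt ℂ (fun w : ℂ => I * cexp (2 * w)) w := by fun_prop
    exact h2.comp w h3
  fun_prop

lemma cosh_two_le : Real.cosh 2 ≤ 4 := by
  rw [Real.cosh_eq]
  have h1 := Real.exp_one_lt_d9
  have h2 : Real.exp 2 = Real.exp 1 ^ 2 := by rw [← Real.exp_nat_mul]; norm_num
  have h3 : Real.exp 1 ^ 2 ≤ 2.72 ^ 2 := pow_le_pow_left₀ (Real.exp_pos _).le (by linarith) 2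
  have h4 : Real.exp (-2) ≤ 0.6 := by
    have : Real.exp (-2) ≤ Real.exp (-1) := Real.exp_le_exp.mpr (by norm_num)
    refine this.trans ?_
    rw [Real.exp_neg, inv_le_comm₀ (Real.exp_pos _) (by norm_num)]
    have := Real.exp_one_gt_d9
    norm_num at this ⊢
    linarith
  norm_num at h3 h4 ⊢
  linarith

lemma sinh_sq_le {y : ℝ} (hy : |y| ≤ 2) : Real.sinh y ^ 2 ≤ 16 * y ^ 2 := by
  have h0 : 0 ≤ |y| := abs_nonneg y
  have h := Convex.image_sub_le_mul_sub_of_deriv_le (D := Icc 0 2) (convex_Icc 0 2) (f := Real.sinh)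
    Real.continuous_sinh.continuousOn Real.differentiable_sinh.differentiableOn (C := Real.cosh 2)
    (by
      intro t ht
      rw [interior_Icc] at ht
      rw [Real.deriv_sinh, Real.cosh_le_cosh, abs_of_pos ht.1, abs_of_pos (by norm_num)]
      exact ht.2.le)
    0 ⟨le_rfl, by norm_num⟩ |y| ⟨h0, hy⟩ h0
  rw [Real.sinh_zero, sub_zero, sub_zero] at h
  have h1 : Real.sinh |y| ≤ 4 * |y| := h.trans (mul_le_mul_of_nonneg_right cosh_two_le h0)
  have h2 : 0 ≤ Real.sinh |y| := Real.sinh_nonneg_iff.mpr h0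
  have h3 : Real.sinh |y| ^ 2 = Real.sinh y ^ 2 := by
    rcases abs_choice y with h | h
    · rw [h]
    · rw [h, Real.sinh_neg, neg_sq]
  rw [← h3, ← sq_abs y]
  nlinarith

lemma sinh_sq_ge (y : ℝ) : y ^ 2 ≤ Real.sinh y ^ 2 := by
  have h0 : 0 ≤ |y| := abs_nonneg y
  have h1 : |y| ≤ Real.sinh |y| := Real.self_le_sinh_iff.mpr h0
  have h3 : Real.sinh |y| ^ 2 = Real.sinh y ^ 2 := by
    rcases abs_choice y with h | h
    · rw [h]
    · rw [h, Real.sinh_neg, neg_sq]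
  rw [← h3, ← sq_abs y]
  exact pow_le_pow_left₀ h0 h1 2

/-- bound for the theta part: `w = y + i (π/4 - x)` -/
lemma Th0_bound {a y x : ℝ} (ha0 : 1/2 < a) (ha1 : a ≤ 1) (hy : |y| ≤ 2) (hx0 : 0 < x) (hx1 : x ≤ Real.pi / 4) :
    ‖Th0 ((y : ℂ) + I * ((Real.pi / 4 - x : ℝ) : ℂ))‖ ≤
      64 * Ca a * ((x ^ 2 + y ^ 2) ^ (-(1/4) : ℝ) * ((x ^ 2 + y ^ 2) / x) ^ a) := by
  set w : ℂ := (y : ℂ) + I * ((Real.pi / 4 - x : ℝ) : ℂ) with hw
  set z : ℂ := cexp (2 * w) - I with hz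
  have h2re : (2 * w).re = 2 * y := by simp [hw]
  have h2im : (2 * w).im = Real.pi / 2 - 2 * x := by simp [hw]; ring
  have hzre : z.re = Real.exp (2 * y) * Real.sin (2 * x) := by
    rw [hz, sub_re, Complex.exp_re, h2re, h2im, I_re, sub_zero, Real.cos_pi_div_two_sub]
  have hzim : z.im = Real.exp (2 * y) * Real.cos (2 * x) - 1 := by
    rw [hz, sub_im, Complex.exp_im, h2re, h2im, I_im, Real.sin_pi_div_two_sub]
  have hE := Real.exp_pos (2 * y)
  have hnsq : ‖z‖ ^ 2 = 4 * Real.exp (2 * y) * (Real.sinh y ^ 2 + Real.sin x ^ 2) := by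
    rw [← Complex.normSq_eq_norm_sq, Complex.normSq_apply, hzre, hzim]
    have e1 : Real.sinh y ^ 2 = (Real.exp (2 * y) - 2 + Real.exp (-(2 * y))) / 4 := by
      rw [Real.sinh_eq]
      have a1 : Real.exp (2 * y) = Real.exp y ^ 2 := by rw [← Real.exp_nat_mul]; push_cast; rfl
      have a2 : Real.exp (-(2 * y)) = Real.exp (-y) ^ 2 := by
        rw [← Real.exp_nat_mul]; congr 1; push_cast; ring
      have a3 : Real.exp y * Real.exp (-y) = 1 := by rw [← Real.exp_add]; simp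
      rw [a1, a2]
      linear_combination (-(1/2) : ℝ) * a3
    have e2 : Real.exp (2 * y) * Real.exp (-(2 * y)) = 1 := by rw [← Real.exp_add]; simp
    have e3 : Real.cos (2 * x) = 1 - 2 * Real.sin x ^ 2 := by rw [Real.cos_two_mul, Real.cos_sq']; ring
    have e4 := Real.sin_sq_add_cos_sq (2 * x)
    rw [e1]
    set s2 := Real.sin (2 * x)
    set c2 := Real.cos (2 * x)
    set E := Real.exp (2 * y)
    set E' := Real.exp (-(2 * y))
    have e5 : Real.sin x ^ 2 = (1 - c2) / 2 := by linarith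
    rw [e5]
    linear_combination E ^ 2 * e4 - e2
  have hsx : 2 / Real.pi * x ≤ Real.sin x := Real.mul_le_sin hx0.le (by linarith [Real.pi_pos])
  have hsx2 : Real.sin x ≤ x := Real.sin_le hx0.le
  have hs2x : 2 / Real.pi * (2 * x) ≤ Real.sin (2 * x) := Real.mul_le_sin (by linarith) (by linarith)
  have hpi := Real.pi_pos
  have hpi4 := Real.pi_lt_four
  have hpi3 := Real.pi_gt_three
  have hρ : 0 < x ^ 2 + y ^ 2 := by positivity
  have hs2 : x ≤ Real.sin (2 * x) := by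
    refine le_trans ?_ hs2x
    have : 1 ≤ 4 / Real.pi := by rw [le_div_iff₀ hpi]; linarith
    calc x = 1 * x := (one_mul x).symm
      _ ≤ 4 / Real.pi * x := mul_le_mul_of_nonneg_right this hx0.le
      _ = _ := by ring
  have hzre0 : 0 < z.re := by
    rw [hzre]; exact mul_pos hE (lt_of_lt_of_le hx0 hs2)
  have hz0 : z ≠ 0 := by
    intro h; rw [h] at hzre0; simp at hzre0
  have hnz : 0 < ‖z‖ := norm_pos_iff.mpr hz0
  have hup : ‖z‖ ^ 2 ≤ 64 * Real.exp (2 * y) * (x ^ 2 + y ^ 2) := by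
    rw [hnsq]
    have h1 := sinh_sq_le hy
    have h2 : Real.sin x ^ 2 ≤ x ^ 2 := by
      apply pow_le_pow_left₀ _ hsx2
      exact le_trans (by positivity) hsx
    have h3 : 4 * (Real.sinh y ^ 2 + Real.sin x ^ 2) ≤ 64 * (x ^ 2 + y ^ 2) := by nlinarith
    calc 4 * Real.exp (2 * y) * (Real.sinh y ^ 2 + Real.sin x ^ 2) = Real.exp (2 * y) * (4 * (Real.sinh y ^ 2 + Real.sin x ^ 2)) := by ring
      _ ≤ Real.exp (2 * y) * (64 * (x ^ 2 + y ^ 2)) := mul_le_mul_of_nonneg_left h3 hE.le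
      _ = _ := by ring
  have hlow : Real.exp (2 * y) * (x ^ 2 + y ^ 2) ≤ ‖z‖ ^ 2 := by
    rw [hnsq]
    have h1 := sinh_sq_ge y
    have h2 : x / 2 ≤ Real.sin x := by
      refine le_trans ?_ hsx
      have : 1 / 2 ≤ 2 / Real.pi := by rw [div_le_div_iff₀ (by norm_num) hpi]; linarith
      calc x / 2 = 1 / 2 * x := by ring
        _ ≤ 2 / Real.pi * x := mul_le_mul_of_nonneg_right this hx0.le
    have h2' : (x / 2) ^ 2 ≤ Real.sin x ^ 2 := pow_le_pow_left₀ (by positivity) h2 2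
    have h3 : x ^ 2 + y ^ 2 ≤ 4 * (Real.sinh y ^ 2 + Real.sin x ^ 2) := by nlinarith [sq_nonneg y]
    calc Real.exp (2 * y) * (x ^ 2 + y ^ 2) ≤ Real.exp (2 * y) * (4 * (Real.sinh y ^ 2 + Real.sin x ^ 2)) :=
          mul_le_mul_of_nonneg_left h3 hE.le
      _ = _ := by ring
  have hv : x / (64 * (x ^ 2 + y ^ 2)) ≤ z.re / ‖z‖ ^ 2 := by
    rw [div_le_div_iff₀ (by positivity) (by positivity), hzre]
    calc x * ‖z‖ ^ 2 ≤ x * (64 * Real.exp (2 * y) * (x ^ 2 + y ^ 2)) := mul_le_mul_of_nonneg_left hup hx0.le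
      _ = Real.exp (2 * y) * x * (64 * (x ^ 2 + y ^ 2)) := by ring
      _ ≤ Real.exp (2 * y) * Real.sin (2 * x) * (64 * (x ^ 2 + y ^ 2)) := by gcongr
  have hv0 : 0 < x / (64 * (x ^ 2 + y ^ 2)) := by positivity
  have hIz : I * cexp (2 * w) = I * z - 1 := by
    rw [hz, mul_sub, I_mul_I]; ring
  unfold Th0
  rw [norm_mul, hIz]
  have hn1 : ‖cexp (w / 2)‖ = Real.exp (y / 2) := by
    rw [Complex.norm_exp]; congr 1
    simp [hw]
  have hj := jt_norm hzre0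
  have hg := gauss_sum_le (v := z.re / ‖z‖ ^ 2) (a := a) (by positivity) ha0 ha1
  have hva : (z.re / ‖z‖ ^ 2) ^ (-a) ≤ 64 * ((x ^ 2 + y ^ 2) / x) ^ a := by
    have h1 : (z.re / ‖z‖ ^ 2) ^ (-a) ≤ (x / (64 * (x ^ 2 + y ^ 2))) ^ (-a) :=
      Real.rpow_le_rpow_of_nonpos hv0 hv (by linarith)
    refine h1.trans ?_
    have e : x / (64 * (x ^ 2 + y ^ 2)) = (64 * ((x ^ 2 + y ^ 2) / x))⁻¹ := by field_simp
    rw [e, Real.inv_rpow (by positivity), Real.rpow_neg (by positivity), inv_inv, Real.mul_rpow (by norm_num) (by positivity)]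
    apply mul_le_mul_of_nonneg_right _ (by positivity)
    calc (64:ℝ) ^ a ≤ 64 ^ (1:ℝ) := Real.rpow_le_rpow_of_exponent_le (by norm_num) ha1
      _ = 64 := Real.rpow_one _
  have hz12 : ‖z‖ ^ (-(1/2) : ℝ) ≤ Real.exp (-(y / 2)) * (x ^ 2 + y ^ 2) ^ (-(1/4) : ℝ) := by
    have h1 : ‖z‖ ^ (-(1/2) : ℝ) = (‖z‖ ^ 2) ^ (-(1/4) : ℝ) := by
      rw [← Real.rpow_natCast, ← Real.rpow_mul hnz.le]; norm_num
    rw [h1]
    have h2 : (‖z‖ ^ 2) ^ (-(1/4) : ℝ) ≤ (Real.exp (2 * y) * (x ^ 2 + y ^ 2)) ^ (-(1/4) : ℝ) :=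
      Real.rpow_le_rpow_of_nonpos (by positivity) hlow (by norm_num)
    refine h2.trans (le_of_eq ?_)
    rw [Real.mul_rpow hE.le hρ.le, ← Real.exp_mul]
    congr 2; ring
  have hCa := Ca_nonneg a
  have hEE : Real.exp (y / 2) * Real.exp (-(y / 2)) = 1 := by rw [← Real.exp_add]; simp
  rw [hn1]
  calc Real.exp (y / 2) * ‖jacobiTheta₂ 0 (I * z - 1)‖
      ≤ Real.exp (y / 2) * ((Real.exp (-(y / 2)) * (x ^ 2 + y ^ 2) ^ (-(1/4) : ℝ)) * (Ca a * (64 * ((x ^ 2 + y ^ 2) / x) ^ a))) := by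
        apply mul_le_mul_of_nonneg_left _ (Real.exp_pos _).le
        refine hj.trans ?_
        apply mul_le_mul hz12 _ (tsum_nonneg fun n => (Real.exp_pos _).le) (by positivity)
        exact hg.trans (mul_le_mul_of_nonneg_left hva hCa)
    _ = (Real.exp (y / 2) * Real.exp (-(y / 2))) * (64 * Ca a * ((x ^ 2 + y ^ 2) ^ (-(1/4) : ℝ) * ((x ^ 2 + y ^ 2) / x) ^ a)) := by ring
    _ = _ := by rw [hEE, one_mul]

end Pool.Agent.Helper625.N1
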