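import Mathlib
import Pool.Agent.Helper625.N1
import Pool.Agent.Helper625.M1

namespace Pool.Agent.Helper625.N2
open Complex MeasureTheory Filter Topology Set
open Pool.Agent.Helper625.Th Pool.Agent.Helper625.Fl Pool.Agent.Helper625.N1 Pool.Agent.Helper625.M1

/-- points of the strip -/
noncomputable def wp (x y : ℝ) : ℂ := (y : ℂ) + I * ((Real.pi / 4 - x : ℝ) : ℂ)

lemma wp_re (x y : ℝ) : (wp x y).re = y := by simp [wp]
lemma wp_im (x y : ℝ) : (wp x y).im = Real.pi / 4 - x := by simp [wp]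

lemma eq_wp (w : ℂ) : w = wp (Real.pi / 4 - w.im) w.re := by
  apply Complex.ext
  · rw [wp_re]
  · rw [wp_im]; ring

lemma Th0_deriv_bound {a y x : ℝ} (ha0 : 1/2 < a) (ha1 : a ≤ 1) (hy : |y| ≤ 1) (hx0 : 0 < x) (hx1 : x ≤ 3/4 * (Real.pi / 4)) :
    ‖deriv Th0 (wp x y)‖ ≤ 1536 * Ca a * (x⁻¹ * ((x ^ 2 + y ^ 2) ^ (-(1/4) : ℝ) * ((x ^ 2 + y ^ 2) / x) ^ a)) := by
  have hpi := Real.pi_pos
  have hpi4 := Real.pi_lt_four
  have hr : 0 < x / 4 := by positivity
  have hCa := Ca_nonneg a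
  have hsub : Metric.closedBall (wp x y) (x / 4) ⊆ S := by
    intro w hw
    have h1 : ‖w - wp x y‖ ≤ x / 4 := by rw [← dist_eq_norm]; exact hw
    have h2 : |(w - wp x y).im| ≤ x / 4 := (Complex.abs_im_le_norm _).trans h1
    rw [sub_im, wp_im] at h2
    have h3 := abs_le.mp h2
    show |w.im| < Real.pi / 4
    rw [abs_lt]
    constructor <;> linarith [h3.1, h3.2]
  have hdiff : DifferentiableOn ℂ Th0 S := fun w hw => (Th0_diff hw).differentiableWithinAt
  have hc := hdiff.diffContOnCl_ball hsub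
  have hρ : 0 < x ^ 2 + y ^ 2 := by positivity
  have hbound : ∀ w ∈ Metric.sphere (wp x y) (x / 4), ‖Th0 w‖ ≤
      384 * Ca a * ((x ^ 2 + y ^ 2) ^ (-(1/4) : ℝ) * ((x ^ 2 + y ^ 2) / x) ^ a) := by
    intro w hw
    have h1 : ‖w - wp x y‖ = x / 4 := by rw [← dist_eq_norm]; exact hw
    have h2 : |(w - wp x y).im| ≤ x / 4 := by rw [← h1]; exact Complex.abs_im_le_norm _
    have h3 : |(w - wp x y).re| ≤ x / 4 := by rw [← h1]; exact Complex.abs_re_le_norm _
    rw [sub_im, wp_im] at h2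
    rw [sub_re, wp_re] at h3
    have h2' := abs_le.mp h2
    have h3' := abs_le.mp h3
    have hy' := abs_le.mp hy
    set x' := Real.pi / 4 - w.im with hx'
    set y' := w.re with hy''
    have hx'0 : 3/4 * x ≤ x' := by linarith [h2'.2]
    have hx'1 : x' ≤ 5/4 * x := by linarith [h2'.1]
    have hx'L : x' ≤ Real.pi / 4 := by linarith
    have hx'pos : 0 < x' := by linarith
    have hyb : |y'| ≤ 2 := by
      rw [abs_le]; constructor <;> linarith [h3'.1, h3'.2]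
    have hb := Th0_bound ha0 ha1 hyb hx'pos hx'L
    have hw2 : (y' : ℂ) + I * ((Real.pi / 4 - x' : ℝ) : ℂ) = w := by
      have := (eq_wp w).symm
      exact this
    rw [hw2] at hb
    have hρ'0 : 0 < x' ^ 2 + y' ^ 2 := by positivity
    -- comparison of moduli
    have hsq : (y' - y) ^ 2 + (x' - x) ^ 2 = (x / 4) ^ 2 := by
      have e : ‖w - wp x y‖ ^ 2 = (y' - y) ^ 2 + (x' - x) ^ 2 := by
        rw [← Complex.normSq_eq_norm_sq, Complex.normSq_apply, sub_re, sub_im, wp_re, wp_im]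
        rw [hx', hy'']; ring
      rw [← e, h1]
    have hlow : (9/16) * (x ^ 2 + y ^ 2) ≤ x' ^ 2 + y' ^ 2 := by
      nlinarith [sq_nonneg (4 * (x' - x) + x), sq_nonneg (4 * (y' - y) + y), sq_nonneg y, sq_nonneg x,
        mul_nonneg (sq_nonneg x) (sq_nonneg y)]
    have hup : x' ^ 2 + y' ^ 2 ≤ (25/16) * (x ^ 2 + y ^ 2) := by
      nlinarith [sq_nonneg (4 * (x' - x) - x), sq_nonneg (4 * (y' - y) - y), sq_nonneg y, sq_nonneg x]
    have h4 : (x' ^ 2 + y' ^ 2) ^ (-(1/4) : ℝ) ≤ 2 * (x ^ 2 + y ^ 2) ^ (-(1/4) : ℝ) := by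
      have h5 : (x' ^ 2 + y' ^ 2) ^ (-(1/4) : ℝ) ≤ ((9/16) * (x ^ 2 + y ^ 2)) ^ (-(1/4) : ℝ) :=
        Real.rpow_le_rpow_of_nonpos (by positivity) hlow (by norm_num)
      refine h5.trans ?_
      rw [Real.mul_rpow (by norm_num) hρ.le]
      apply mul_le_mul_of_nonneg_right _ (by positivity)
      calc (9/16 : ℝ) ^ (-(1/4) : ℝ) ≤ (9/16 : ℝ) ^ (-1 : ℝ) :=
            Real.rpow_le_rpow_of_exponent_ge (by norm_num) (by norm_num) (by norm_num)
        _ ≤ 2 := by rw [Real.rpow_neg_one]; norm_num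
    have h6 : ((x' ^ 2 + y' ^ 2) / x') ^ a ≤ 3 * ((x ^ 2 + y ^ 2) / x) ^ a := by
      have h7 : (x' ^ 2 + y' ^ 2) / x' ≤ 3 * ((x ^ 2 + y ^ 2) / x) := by
        rw [div_le_iff₀ hx'pos]
        have e : 3 * ((x ^ 2 + y ^ 2) / x) * x' = (3 * (x ^ 2 + y ^ 2)) * (x' / x) := by ring
        rw [e]
        have h8 : 3/4 ≤ x' / x := by rw [le_div_iff₀ hx0]; exact hx'0
        calc x' ^ 2 + y' ^ 2 ≤ (25/16) * (x ^ 2 + y ^ 2) := hup
          _ ≤ (3 * (x ^ 2 + y ^ 2)) * (3/4) := by nlinarith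
          _ ≤ _ := mul_le_mul_of_nonneg_left h8 (by positivity)
      have h9 : ((x' ^ 2 + y' ^ 2) / x') ^ a ≤ (3 * ((x ^ 2 + y ^ 2) / x)) ^ a :=
        Real.rpow_le_rpow (by positivity) h7 (by linarith)
      refine h9.trans ?_
      rw [Real.mul_rpow (by norm_num) (by positivity)]
      apply mul_le_mul_of_nonneg_right _ (by positivity)
      calc (3:ℝ) ^ a ≤ 3 ^ (1:ℝ) := Real.rpow_le_rpow_of_exponent_le (by norm_num) ha1
        _ = 3 := Real.rpow_one _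
    refine hb.trans ?_
    calc 64 * Ca a * ((x' ^ 2 + y' ^ 2) ^ (-(1/4) : ℝ) * ((x' ^ 2 + y' ^ 2) / x') ^ a)
        ≤ 64 * Ca a * ((2 * (x ^ 2 + y ^ 2) ^ (-(1/4) : ℝ)) * (3 * ((x ^ 2 + y ^ 2) / x) ^ a)) := by gcongr
      _ = _ := by ring
  have h := Complex.norm_deriv_le_of_forall_mem_sphere_norm_le hr hc hbound
  refine h.trans (le_of_eq ?_)
  field_simp
  ring

/-- symmetric constant -/
noncomputable def Cb : ℝ := ∑' n : ℤ, 1 / |(n : ℝ) + 0| ^ (5/4 : ℝ)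

lemma Cb_summable : Summable (fun n : ℤ => 1 / |(n : ℝ) + 0| ^ (5/4 : ℝ)) :=
  (Real.summable_one_div_int_add_rpow _ _).mpr (by norm_num)

lemma Cb_nonneg : 0 ≤ Cb := tsum_nonneg (fun n => by positivity)

lemma jt_sub_one {ζ : ℂ} (hζ : 0 < ζ.re) : ‖jacobiTheta₂ 0 (I * ζ) - 1‖ ≤ Cb * ζ.re ^ (-(5/8) : ℝ) := by
  have him : 0 < (I * ζ).im := by rw [I_mul_im]; exact hζ
  have h1 := (hasSum_jacobiTheta₂_term 0 him).sub (hasSum_ite_eq (0:ℤ) (1:ℂ))
  rw [← h1.tsum_eq]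
  unfold Cb
  rw [← tsum_mul_right]
  have hb : ∀ n : ℤ, ‖jacobiTheta₂_term n 0 (I * ζ) - (if n = 0 then (1:ℂ) else 0)‖ ≤
      1 / |(n : ℝ) + 0| ^ (5/4 : ℝ) * ζ.re ^ (-(5/8) : ℝ) := by
    intro n
    by_cases hn : n = 0
    · subst hn
      simp [jacobiTheta₂_term]
    · rw [if_neg hn, sub_zero, add_zero]
      have hn0 : 0 < |(n : ℝ)| := by
        rw [abs_pos]; exact_mod_cast hn
      have e1 : ‖jacobiTheta₂_term n 0 (I * ζ)‖ = Real.exp (-(Real.pi * (n : ℝ) ^ 2 * ζ.re)) := by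
        unfold jacobiTheta₂_term
        rw [Complex.norm_exp]
        congr 1
        have : 2 * (Real.pi : ℂ) * I * n * 0 + Real.pi * I * (n : ℂ) ^ 2 * (I * ζ) = ((-(Real.pi * (n : ℝ) ^ 2) : ℝ) : ℂ) * ζ := by
          push_cast
          linear_combination (Real.pi * (n : ℂ) ^ 2 * ζ) * I_mul_I
        rw [this, Complex.re_ofReal_mul]
        ring
      rw [e1]
      have e2 : Real.exp (-(Real.pi * (n : ℝ) ^ 2 * ζ.re)) ≤ Real.exp (-(|(n : ℝ)| ^ 2 * ζ.re)) := by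
        apply Real.exp_le_exp.mpr
        rw [sq_abs]
        have : 1 ≤ Real.pi := by linarith [Real.pi_gt_three]
        have h2 : 0 ≤ (n : ℝ) ^ 2 * ζ.re := by positivity
        nlinarith
      refine e2.trans ((exp_le_rpow (a := 5/8) (by positivity) (by norm_num) (by norm_num)).trans (le_of_eq ?_))
      rw [Real.mul_rpow (by positivity) hζ.le, ← Real.rpow_natCast, ← Real.rpow_mul hn0.le, one_div, ← Real.rpow_neg hn0.le]
      congr 2
      norm_num
  have hs : Summable (fun n : ℤ => 1 / |(n : ℝ) + 0| ^ (5/4 : ℝ) * ζ.re ^ (-(5/8) : ℝ)) := Cb_summable.mul_right _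
  have hs2 : Summable (fun n : ℤ => ‖jacobiTheta₂_term n 0 (I * ζ) - (if n = 0 then (1:ℂ) else 0)‖) :=
    Summable.of_nonneg_of_le (fun n => norm_nonneg _) hb hs
  exact (norm_tsum_le_tsum_norm hs2).trans (hs2.tsum_le_tsum hb hs)

/-- distance to the boundary of the strip -/
noncomputable def dd (w : ℂ) : ℝ := Real.pi / 4 - |w.im|

noncomputable def KR : ℝ := 2 * Real.pi * (Cb + 1)

lemma KR_nonneg : 0 ≤ KR := by unfold KR; have := Cb_nonneg; positivity

lemma R_neg (w : ℂ) : R (-w) = R w := by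
  unfold R
  rw [← integral_neg_eq_self]
  congr 1
  ext t
  rw [Lc_neg]
  congr 2
  push_cast; ring

lemma T_bound_pos {w : ℂ} (hw : w ∈ S) (h0 : 0 ≤ w.re) : ‖T w‖ ≤ KR * dd w ^ (-(5/8) : ℝ) := by
  have hw' : |w.im| < Real.pi / 4 := hw
  have hd : 0 < dd w := by unfold dd; linarith
  have hd1 : dd w ≤ 1 := by
    unfold dd; have := abs_nonneg w.im; linarith [Real.pi_lt_four]
  have hpi := Real.pi_pos
  have h2re : (2 * w).re = 2 * w.re := by simp
  have h2im : (2 * w).im = 2 * w.im := by simp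
  have hζ : (cexp (2 * w)).re = Real.exp (2 * w.re) * Real.cos (2 * w.im) := by
    rw [Complex.exp_re, h2re, h2im]
  have hcos : dd w ≤ Real.cos (2 * w.im) := by
    rw [← Real.cos_abs, abs_mul, abs_of_pos (by norm_num : (0:ℝ) < 2)]
    have e : 2 * |w.im| = Real.pi / 2 - 2 * dd w := by unfold dd; ring
    rw [e, Real.cos_pi_div_two_sub]
    have hs : 2 / Real.pi * (2 * dd w) ≤ Real.sin (2 * dd w) := Real.mul_le_sin (by linarith) (by
      unfold dd; have := abs_nonneg w.im; linarith)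
    refine le_trans ?_ hs
    have : 1 ≤ 4 / Real.pi := by rw [le_div_iff₀ hpi]; linarith [Real.pi_lt_four]
    calc dd w = 1 * dd w := (one_mul _).symm
      _ ≤ 4 / Real.pi * dd w := mul_le_mul_of_nonneg_right this hd.le
      _ = _ := by ring
  have hζ0 : 0 < (cexp (2 * w)).re := by
    rw [hζ]; exact mul_pos (Real.exp_pos _) (lt_of_lt_of_le hd hcos)
  have hj := jt_sub_one hζ0
  have hdd : 0 < dd w ^ (-(5/8) : ℝ) := Real.rpow_pos_of_pos hd _
  have hdd1 : 1 ≤ dd w ^ (-(5/8) : ℝ) := Real.one_le_rpow_of_pos_of_le_one_of_nonpos hd hd1 (by norm_num)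
  have hCb := Cb_nonneg
  have h1 : (cexp (2 * w)).re ^ (-(5/8) : ℝ) ≤ Real.exp (-(5/4) * w.re) * dd w ^ (-(5/8) : ℝ) := by
    rw [hζ, Real.mul_rpow (Real.exp_pos _).le (le_trans hd.le hcos), ← Real.exp_mul]
    have h3 : Real.cos (2 * w.im) ^ (-(5/8) : ℝ) ≤ dd w ^ (-(5/8) : ℝ) := Real.rpow_le_rpow_of_nonpos hd hcos (by norm_num)
    have e : (2 * w.re * -(5/8) : ℝ) = -(5/4) * w.re := by ring
    rw [e]
    exact mul_le_mul_of_nonneg_left h3 (Real.exp_pos _).le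
  have e1 : T w = 2 * Real.pi * (cexp (w / 2) * (jacobiTheta₂ 0 (I * cexp (2 * w)) - 1) - cexp (-(w / 2))) := by
    unfold T; ring
  have hn1 : ‖cexp (w / 2)‖ = Real.exp (w.re / 2) := by
    rw [Complex.norm_exp]; congr 1; simp
  have hn2 : ‖cexp (-(w / 2))‖ = Real.exp (-(w.re / 2)) := by
    rw [Complex.norm_exp]; congr 1; simp
  have h2pi : ‖(2 * Real.pi : ℂ)‖ = 2 * Real.pi := by
    rw [norm_mul, Complex.norm_real, Real.norm_of_nonneg hpi.le]; simp
  rw [e1, norm_mul, h2pi]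
  unfold KR
  rw [mul_assoc (2 * Real.pi)]
  apply mul_le_mul_of_nonneg_left _ (by positivity)
  refine (norm_sub_le _ _).trans ?_
  rw [norm_mul, hn1, hn2]
  have hA : Real.exp (w.re / 2) * ‖jacobiTheta₂ 0 (I * cexp (2 * w)) - 1‖ ≤ Cb * dd w ^ (-(5/8) : ℝ) := by
    calc Real.exp (w.re / 2) * ‖jacobiTheta₂ 0 (I * cexp (2 * w)) - 1‖
        ≤ Real.exp (w.re / 2) * (Cb * (Real.exp (-(5/4) * w.re) * dd w ^ (-(5/8) : ℝ))) := by
          apply mul_le_mul_of_nonneg_left _ (Real.exp_pos _).le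
          exact hj.trans (mul_le_mul_of_nonneg_left h1 hCb)
      _ = (Real.exp (w.re / 2) * Real.exp (-(5/4) * w.re)) * (Cb * dd w ^ (-(5/8) : ℝ)) := by ring
      _ ≤ 1 * (Cb * dd w ^ (-(5/8) : ℝ)) := by
          apply mul_le_mul_of_nonneg_right _ (by positivity)
          rw [← Real.exp_add, Real.exp_le_one_iff]
          linarith
      _ = _ := one_mul _
  have hB : Real.exp (-(w.re / 2)) ≤ dd w ^ (-(5/8) : ℝ) := by
    refine le_trans ?_ hdd1
    rw [Real.exp_le_one_iff]; linarith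
  linarith

lemma R_bound {w : ℂ} (hw : w ∈ S) : ‖R w‖ ≤ KR * dd w ^ (-(5/8) : ℝ) := by
  rcases le_total 0 w.re with h | h
  · rw [R_eq_T hw]; exact T_bound_pos hw h
  · have hw2 : -w ∈ S := by
      show |(-w).im| < Real.pi / 4
      rw [neg_im, abs_neg]; exact hw
    have hd : dd (-w) = dd w := by unfold dd; rw [neg_im, abs_neg]
    rw [← R_neg, R_eq_T hw2, ← hd]
    exact T_bound_pos hw2 (by rw [neg_re]; linarith)

lemma R_deriv_bound {w : ℂ} (hw : w ∈ S) : ‖deriv R w‖ ≤ 4 * KR * dd w ^ (-(13/8) : ℝ) := by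
  have hw' : |w.im| < Real.pi / 4 := hw
  have hd : 0 < dd w := by unfold dd; linarith
  have hK := KR_nonneg
  have hin : ∀ w' ∈ Metric.closedBall w (dd w / 2), w' ∈ S ∧ dd w / 2 ≤ dd w' := by
    intro w' hw'
    have h1 : ‖w' - w‖ ≤ dd w / 2 := by rw [← dist_eq_norm]; exact hw'
    have h2 : |w'.im - w.im| ≤ dd w / 2 := by
      have := (Complex.abs_im_le_norm (w' - w)).trans h1
      rwa [sub_im] at this
    have h3 : |w'.im| ≤ |w.im| + dd w / 2 := by
      have := abs_sub_abs_le_abs_sub w'.im w.im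
      linarith
    have h4 : dd w / 2 ≤ dd w' := by
      unfold dd at h3 ⊢; linarith
    refine ⟨?_, h4⟩
    show |w'.im| < Real.pi / 4
    have : 0 < dd w' := lt_of_lt_of_le (by positivity) h4
    unfold dd at this; linarith
  have hdiff : DifferentiableOn ℂ R S := fun z hz => (R_hasDeriv hz).2.differentiableAt.differentiableWithinAt
  have hc := hdiff.diffContOnCl_ball (fun z hz => (hin z hz).1)
  have hb : ∀ z ∈ Metric.sphere w (dd w / 2), ‖R z‖ ≤ 2 * KR * dd w ^ (-(5/8) : ℝ) := by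
    intro z hz
    obtain ⟨h1, h2⟩ := hin z (Metric.sphere_subset_closedBall hz)
    refine (R_bound h1).trans ?_
    have h3 : dd z ^ (-(5/8) : ℝ) ≤ (dd w / 2) ^ (-(5/8) : ℝ) := Real.rpow_le_rpow_of_nonpos (by positivity) h2 (by norm_num)
    have h4 : (dd w / 2) ^ (-(5/8) : ℝ) ≤ 2 * dd w ^ (-(5/8) : ℝ) := by
      rw [Real.div_rpow hd.le (by norm_num), div_eq_mul_inv, mul_comm, ← Real.rpow_neg (by norm_num), neg_neg]
      apply mul_le_mul_of_nonneg_right _ (by positivity)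
      calc (2:ℝ) ^ (5/8 : ℝ) ≤ 2 ^ (1:ℝ) := Real.rpow_le_rpow_of_exponent_le (by norm_num) (by norm_num)
        _ = 2 := Real.rpow_one _
    calc KR * dd z ^ (-(5/8) : ℝ) ≤ KR * (2 * dd w ^ (-(5/8) : ℝ)) := mul_le_mul_of_nonneg_left (h3.trans h4) hK
      _ = _ := by ring
  have h := Complex.norm_deriv_le_of_forall_mem_sphere_norm_le (by positivity) hc hb
  refine h.trans (le_of_eq ?_)
  have e : dd w ^ (-(13/8) : ℝ) = dd w ^ (-(5/8) : ℝ) * (dd w)⁻¹ := by
    rw [← Real.rpow_neg_one, ← Real.rpow_add hd]; norm_num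
  rw [e]
  field_simp
  ring

end Pool.Agent.Helper625.N2
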