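import Mathlib

namespace Pool.Agent.Helper625.N3
open Complex MeasureTheory Filter Topology Set FourierTransform

lemma pow_exp_integ {η : ℝ} (hη : 0 < η) (n : ℕ) : IntegrableOn (fun t : ℝ => t ^ n * Real.exp (-η * t)) (Ioi 0) := by
  have h := integrableOn_rpow_mul_exp_neg_mul_rpow (p := 1) (s := (n:ℝ)) (b := η) (by
    have : (0:ℝ) ≤ n := Nat.cast_nonneg n
    linarith) (by norm_num) hη
  refine h.congr_fun ?_ measurableSet_Ioi
  intro x _
  simp only [Real.rpow_one, Real.rpow_natCast]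

lemma pow_exp_tendsto {η : ℝ} (hη : 0 < η) (n : ℕ) : Tendsto (fun t : ℝ => t ^ n * Real.exp (-η * t)) atTop (𝓝 0) := by
  have hid : Tendsto (fun t : ℝ => η * t) atTop atTop := tendsto_id.const_mul_atTop hη
  have h := ((Real.tendsto_pow_mul_exp_neg_atTop_nhds_zero n).comp hid).const_mul ((1 / η) ^ n)
  rw [mul_zero] at h
  refine h.congr ?_
  intro t
  simp only [Function.comp_apply]
  have e : (1 / η) ^ n * (η * t) ^ n = t ^ n := by
    rw [← mul_pow]; congr 1; field_simp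
  rw [neg_mul, ← mul_assoc, e]

lemma norm_cexp_neg (p : ℂ) (v : ℝ) : ‖cexp (-p * v)‖ = Real.exp (-p.re * v) := by
  rw [Complex.norm_exp]; congr 1
  simp [mul_re]

/-- Laplace transform of `v` -/
lemma laplace_id {p : ℂ} (hp : 0 < p.re) : ∫ v in Ioi (0:ℝ), (v : ℂ) * cexp (-p * v) = 1 / p ^ 2 := by
  have hp0 : p ≠ 0 := by intro h; rw [h] at hp; simp at hp
  have hd : ∀ v ∈ Ici (0:ℝ), HasDerivAt (fun v : ℝ => -(((v : ℂ) / p + 1 / p ^ 2) * cexp (-p * v))) ((v : ℂ) * cexp (-p * v)) v := by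
    intro v _
    have h1 : HasDerivAt (fun v : ℝ => (v : ℂ)) 1 v := Complex.ofRealCLM.hasDerivAt
    have h2 : HasDerivAt (fun v : ℝ => cexp (-p * v)) (cexp (-p * v) * (-p)) v := by
      have := (h1.const_mul (-p)).cexp
      simpa using this
    have h3 := (((h1.div_const p).add_const (1 / p ^ 2)).mul h2).neg
    refine h3.congr_deriv ?_
    field_simp
    ring
  have hint : IntegrableOn (fun v : ℝ => (v : ℂ) * cexp (-p * v)) (Ioi 0) := by
    have hb := pow_exp_integ hp 1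
    refine Integrable.mono' hb (Continuous.aestronglyMeasurable (by fun_prop)) ?_
    refine (ae_restrict_iff' measurableSet_Ioi).mpr ?_
    filter_upwards with v hv
    have hv0 : (0:ℝ) < v := hv
    rw [norm_mul, norm_cexp_neg, Complex.norm_real, Real.norm_of_nonneg hv0.le, pow_one]
  have hlim : Tendsto (fun v : ℝ => -(((v : ℂ) / p + 1 / p ^ 2) * cexp (-p * v))) atTop (𝓝 0) := by
    have hb : Tendsto (fun v : ℝ => (1 / ‖p‖) * (v ^ 1 * Real.exp (-p.re * v)) + (1 / ‖p‖ ^ 2) * (v ^ 0 * Real.exp (-p.re * v)))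
        atTop (𝓝 0) := by
      have := ((pow_exp_tendsto hp 1).const_mul (1 / ‖p‖)).add ((pow_exp_tendsto hp 0).const_mul (1 / ‖p‖ ^ 2))
      simpa using this
    apply squeeze_zero_norm' _ hb
    filter_upwards [eventually_ge_atTop 0] with v hv
    rw [norm_neg, norm_mul, norm_cexp_neg]
    have h1 : ‖(v : ℂ) / p + 1 / p ^ 2‖ ≤ v / ‖p‖ + 1 / ‖p‖ ^ 2 := by
      refine (norm_add_le _ _).trans (le_of_eq ?_)
      rw [norm_div, norm_div, Complex.norm_real, Real.norm_of_nonneg hv, norm_one, norm_pow]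
    calc _ ≤ (v / ‖p‖ + 1 / ‖p‖ ^ 2) * Real.exp (-p.re * v) := mul_le_mul_of_nonneg_right h1 (Real.exp_pos _).le
      _ = _ := by ring
  have h := integral_Ioi_of_hasDerivAt_of_tendsto' hd hint hlim
  rw [h]
  simp

/-- the one-sided ramp with exponential damping -/
noncomputable def rf (σ : ℝ) (v : ℝ) : ℂ := ((max v 0 * Real.exp (-σ * v) : ℝ) : ℂ)

lemma rf_cont (σ : ℝ) : Continuous (rf σ) := by
  unfold rf
  exact Complex.continuous_ofReal.comp ((continuous_id.max continuous_const).mul (by fun_prop))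

lemma rf_eq_indicator (σ : ℝ) : rf σ = (Ioi (0:ℝ)).indicator (fun v : ℝ => (v : ℂ) * ((Real.exp (-σ * v) : ℝ) : ℂ)) := by
  funext v
  unfold rf
  by_cases h : v ∈ Ioi (0:ℝ)
  · rw [indicator_of_mem h, max_eq_left (le_of_lt h)]; push_cast; rfl
  · rw [indicator_of_notMem h, max_eq_right (not_lt.mp h)]; simp

lemma rf_integ {σ : ℝ} (hσ : 0 < σ) : Integrable (rf σ) := by
  rw [rf_eq_indicator, integrable_indicator_iff measurableSet_Ioi]
  have hb := pow_exp_integ hσ 1
  refine Integrable.mono' hb (Continuous.aestronglyMeasurable (by fun_prop)) ?_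
  refine (ae_restrict_iff' measurableSet_Ioi).mpr ?_
  filter_upwards with v hv
  have hv0 : (0:ℝ) < v := hv
  rw [norm_mul, Complex.norm_real, Complex.norm_real, Real.norm_of_nonneg hv0.le, Real.norm_of_nonneg (Real.exp_pos _).le, pow_one]

/-- point on the vertical line -/
noncomputable def pt (σ ξ : ℝ) : ℂ := (σ : ℂ) + ((2 * Real.pi * ξ : ℝ) : ℂ) * I

lemma pt_re (σ ξ : ℝ) : (pt σ ξ).re = σ := by simp [pt]
lemma pt_im (σ ξ : ℝ) : (pt σ ξ).im = 2 * Real.pi * ξ := by simp [pt]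

lemma rf_fourier {σ : ℝ} (hσ : 0 < σ) (ξ : ℝ) : 𝓕 (rf σ) ξ = 1 / (pt σ ξ) ^ 2 := by
  rw [Real.fourier_eq', ← laplace_id (p := pt σ ξ) (by rw [pt_re]; exact hσ), rf_eq_indicator, ← integral_indicator measurableSet_Ioi]
  apply integral_congr_ae
  filter_upwards with v
  by_cases h : v ∈ Ioi (0:ℝ)
  · rw [indicator_of_mem h, indicator_of_mem h, smul_eq_mul, Complex.ofReal_exp]
    rw [mul_left_comm, ← Complex.exp_add]
    congr 2
    simp only [pt, RCLike.inner_apply, conj_trivial]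
    push_cast
    ring
  · rw [indicator_of_notMem h, indicator_of_notMem h, smul_zero]

lemma norm_pt_sq (σ ξ : ℝ) : ‖pt σ ξ‖ ^ 2 = σ ^ 2 + (2 * Real.pi * ξ) ^ 2 := by
  rw [← Complex.normSq_eq_norm_sq, Complex.normSq_apply, pt_re, pt_im]; ring

lemma pt_cont (σ : ℝ) : Continuous (pt σ) := by unfold pt; fun_prop

lemma pt_ne {σ : ℝ} (hσ : 0 < σ) (ξ : ℝ) : pt σ ξ ≠ 0 := by
  intro h
  have := congrArg Complex.re h
  rw [pt_re] at this; simp at this; linarith

lemma inv_sq_integ' {σ : ℝ} (hσ : 0 < σ) : Integrable (fun y : ℝ => 1 / (σ ^ 2 + y ^ 2)) ∧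
    ∫ y : ℝ, 1 / (σ ^ 2 + y ^ 2) = Real.pi / σ := by
  have h1 := (integrable_inv_one_add_sq.comp_mul_left' (R := σ⁻¹) (by positivity)).const_mul (1 / σ ^ 2)
  have e : ∀ y : ℝ, 1 / σ ^ 2 * (1 + (σ⁻¹ * y) ^ 2)⁻¹ = 1 / (σ ^ 2 + y ^ 2) := by
    intro y
    have : (1 + (σ⁻¹ * y) ^ 2) = (σ ^ 2 + y ^ 2) / σ ^ 2 := by field_simp
    rw [this]
    field_simp
  constructor
  · refine h1.congr ?_
    filter_upwards with y
    exact e y
  · have h2 := Measure.integral_comp_mul_left (fun x : ℝ => (1 + x ^ 2)⁻¹) σ⁻¹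
    rw [integral_univ_inv_one_add_sq, inv_inv, abs_of_pos hσ, smul_eq_mul] at h2
    have h3 : ∫ y : ℝ, 1 / (σ ^ 2 + y ^ 2) = ∫ y : ℝ, 1 / σ ^ 2 * (1 + (σ⁻¹ * y) ^ 2)⁻¹ := by
      congr 1; ext y; rw [e y]
    rw [h3, integral_const_mul, h2]
    field_simp

lemma inv_sq_integ {σ : ℝ} (hσ : 0 < σ) : Integrable (fun ξ : ℝ => 1 / ‖pt σ ξ‖ ^ 2) := by
  have h := (inv_sq_integ' hσ).1.comp_mul_left' (R := 2 * Real.pi) (by positivity)
  refine h.congr ?_
  filter_upwards with ξ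
  rw [norm_pt_sq]

lemma kernel {σ : ℝ} (hσ : 0 < σ) (v : ℝ) :
    rf σ v = ∫ ξ : ℝ, cexp (((2 * Real.pi * ξ * v : ℝ) : ℂ) * I) * (1 / (pt σ ξ) ^ 2) := by
  have hF : 𝓕 (rf σ) = fun ξ => 1 / (pt σ ξ) ^ 2 := by funext ξ; exact rf_fourier hσ ξ
  have hFi : Integrable (𝓕 (rf σ)) := by
    rw [hF]
    refine Integrable.mono' (inv_sq_integ hσ) ?_ ?_
    · apply Continuous.aestronglyMeasurable
      apply Continuous.div continuous_const ((pt_cont σ).pow 2)
      intro ξ
      exact pow_ne_zero 2 (pt_ne hσ ξ)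
    · filter_upwards with ξ
      rw [norm_div, norm_one, norm_pow]
  have h := (rf_cont σ).fourierInv_fourier_eq (rf_integ hσ) hFi
  have h2 := congrFun h v
  rw [← h2, Real.fourierInv_eq', hF]
  congr 1
  ext ξ
  simp only [RCLike.inner_apply, conj_trivial, smul_eq_mul]
  congr 3
  push_cast; ring

/-- Laplace transform on the vertical line -/
noncomputable def Ut (u : ℝ → ℝ) (p : ℂ) : ℂ := ∫ t in Ioi (0:ℝ), (u t : ℂ) * cexp (-p * t)

/-- inversion formula for the second primitive -/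
lemma inversion {u : ℝ → ℝ} {σ : ℝ} (hσ : 0 < σ) (hm : Measurable u)
    (hu : IntegrableOn (fun t => u t * Real.exp (-σ * t)) (Ioi 0)) (T : ℝ) :
    (∫ t in Ioi (0:ℝ), (((u t * max (T - t) 0 : ℝ)) : ℂ)) =
      ∫ ξ : ℝ, cexp (pt σ ξ * T) * (1 / (pt σ ξ) ^ 2) * Ut u (pt σ ξ) := by
  set f : ℝ → ℝ → ℂ := fun t ξ => ((u t * Real.exp (-σ * t) : ℝ) : ℂ) * (cexp (((-(2 * Real.pi * ξ * t) : ℝ) : ℂ) * I) *
    (cexp (pt σ ξ * T) * (1 / (pt σ ξ) ^ 2))) with hf
  have hint : Integrable (Function.uncurry f) ((volume.restrict (Ioi (0:ℝ))).prod volume) := by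
    have hb := Integrable.mul_prod (μ := volume.restrict (Ioi (0:ℝ))) (ν := volume) hu
      ((inv_sq_integ hσ).const_mul (Real.exp (σ * T)))
    refine Integrable.mono hb ?_ ?_
    · apply Measurable.aestronglyMeasurable
      unfold Function.uncurry
      simp only [hf]
      apply Measurable.mul
      · apply Complex.measurable_ofReal.comp
        exact (hm.comp measurable_fst).mul (by fun_prop)
      · apply Continuous.measurable
        apply Continuous.mul (by fun_prop)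
        apply Continuous.mul
        · have := (pt_cont σ).comp (continuous_snd (X := ℝ) (Y := ℝ))
          fun_prop
        · apply Continuous.div continuous_const
          · exact ((pt_cont σ).comp (continuous_snd (X := ℝ) (Y := ℝ))).pow 2
          · intro q
            exact pow_ne_zero 2 (pt_ne hσ _)
    · filter_upwards with q
      obtain ⟨t, ξ⟩ := q
      simp only [Function.uncurry, hf]
      have h1 : ‖cexp (((-(2 * Real.pi * ξ * t) : ℝ) : ℂ) * I)‖ = 1 := Complex.norm_exp_ofReal_mul_I _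
      have h2 : ‖cexp (pt σ ξ * T)‖ = Real.exp (σ * T) := by
        rw [Complex.norm_exp]; congr 1
        rw [mul_re, pt_re, Complex.ofReal_re, Complex.ofReal_im, mul_zero, sub_zero]
      rw [norm_mul, norm_mul, norm_mul, h1, h2, norm_div, norm_one, norm_pow, one_mul, Complex.norm_real, norm_mul
        (u t * Real.exp (-σ * t)), Real.norm_of_nonneg (by positivity : 0 ≤ Real.exp (σ * T) * (1 / ‖pt σ ξ‖ ^ 2))]
  have hsw := integral_integral_swap hint
  have e1 : (∫ t in Ioi (0:ℝ), (((u t * max (T - t) 0 : ℝ)) : ℂ)) = ∫ t in Ioi (0:ℝ), ∫ ξ : ℝ, f t ξ := by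
    apply setIntegral_congr_fun measurableSet_Ioi
    intro t _
    simp only [hf]
    have hk := kernel hσ (T - t)
    have h3 : (((u t * max (T - t) 0 : ℝ)) : ℂ) = ((u t * Real.exp (σ * (T - t)) : ℝ) : ℂ) * rf σ (T - t) := by
      unfold rf
      rw [← Complex.ofReal_mul]
      congr 1
      have : Real.exp (σ * (T - t)) * Real.exp (-σ * (T - t)) = 1 := by rw [← Real.exp_add]; simp
      linear_combination (-(u t * max (T - t) 0)) * this
    rw [h3, hk, ← integral_const_mul]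
    congr 1
    ext ξ
    have e2 : cexp (pt σ ξ * T) = ((Real.exp (σ * T) : ℝ) : ℂ) * cexp (((2 * Real.pi * ξ * T : ℝ) : ℂ) * I) := by
      rw [Complex.ofReal_exp, ← Complex.exp_add]; congr 1
      simp only [pt]; push_cast; ring
    have e3 : cexp (((2 * Real.pi * ξ * (T - t) : ℝ) : ℂ) * I) = cexp (((2 * Real.pi * ξ * T : ℝ) : ℂ) * I) *
        cexp (((-(2 * Real.pi * ξ * t) : ℝ) : ℂ) * I) := by
      rw [← Complex.exp_add]; congr 1; push_cast; ring
    have e4 : ((u t * Real.exp (σ * (T - t)) : ℝ) : ℂ) = ((u t * Real.exp (-σ * t) : ℝ) : ℂ) * ((Real.exp (σ * T) : ℝ) : ℂ) := by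
      rw [← Complex.ofReal_mul]; congr 1
      rw [mul_assoc, ← Real.exp_add]; congr 2; ring
    rw [e2, e3, e4]
    ring
  rw [e1, hsw]
  congr 1
  ext ξ
  simp only [hf, Ut]
  rw [← integral_const_mul]
  apply setIntegral_congr_fun measurableSet_Ioi
  intro t _
  simp only
  have e5 : cexp (-(pt σ ξ) * t) = ((Real.exp (-σ * t) : ℝ) : ℂ) * cexp (((-(2 * Real.pi * ξ * t) : ℝ) : ℂ) * I) := by
    rw [Complex.ofReal_exp, ← Complex.exp_add]; congr 1
    simp only [pt]; push_cast; ring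
  rw [e5]
  push_cast
  ring

lemma inversion_bound {u : ℝ → ℝ} {σ : ℝ} (hσ : 0 < σ) (hm : Measurable u)
    (hu : IntegrableOn (fun t => u t * Real.exp (-σ * t)) (Ioi 0)) (T : ℝ) {h : ℝ → ℝ} (hh : Integrable h)
    (hb : ∀ y : ℝ, ‖Ut u ((σ : ℂ) + (y : ℂ) * I)‖ / (σ ^ 2 + y ^ 2) ≤ h y) :
    |∫ t in Ioi (0:ℝ), u t * max (T - t) 0| ≤ Real.exp (σ * T) / (2 * Real.pi) * ∫ y, h y := by
  have h1 := inversion hσ hm hu T
  rw [integral_complex_ofReal] at h1
  have h2 : |∫ t in Ioi (0:ℝ), u t * max (T - t) 0| =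
      ‖((∫ t in Ioi (0:ℝ), u t * max (T - t) 0 : ℝ) : ℂ)‖ := by
    rw [Complex.norm_real, Real.norm_eq_abs]
  rw [h2, h1]
  have hh2 := (hh.comp_mul_left' (R := 2 * Real.pi) (by positivity)).const_mul (Real.exp (σ * T))
  refine (norm_integral_le_of_norm_le hh2 ?_).trans (le_of_eq ?_)
  · filter_upwards with ξ
    have h3 : ‖cexp (pt σ ξ * T)‖ = Real.exp (σ * T) := by
      rw [Complex.norm_exp]; congr 1
      rw [mul_re, pt_re, Complex.ofReal_re, Complex.ofReal_im, mul_zero, sub_zero]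
    have h4 := hb (2 * Real.pi * ξ)
    rw [norm_mul, norm_mul, h3, norm_div, norm_one, norm_pow, norm_pt_sq, mul_assoc]
    apply mul_le_mul_of_nonneg_left _ (Real.exp_pos _).le
    refine le_trans (le_of_eq ?_) h4
    rw [pt]
    ring
  · rw [integral_const_mul, Measure.integral_comp_mul_left, smul_eq_mul, abs_of_pos (by positivity)]
    ring

end Pool.Agent.Helper625.N3
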