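import Mathlib
import Pool.Agent.Helper625.N2
import Pool.Agent.Helper625.N3

namespace Pool.Agent.Helper625.N4
open Complex MeasureTheory Filter Topology Set
open Pool.Agent.Helper625.Th Pool.Agent.Helper625.Fl Pool.Agent.Helper625.N1 Pool.Agent.Helper625.M1
open Pool.Agent.Helper625.N2 Pool.Agent.Helper625.N3

/-- one-sided density -/
noncomputable def ua (a t : ℝ) : ℝ := Lr t * (t * Real.sinh (a * t))

lemma ua_cont (a : ℝ) : Continuous (ua a) :=
  Lr_cont.mul (continuous_id.mul (Real.continuous_sinh.comp (by fun_prop)))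

lemma cint {s : ℂ} (hs : |s.re| < Real.pi / 4) : Integrable (fun t : ℝ => (Lr t : ℂ) * ((t : ℂ) * cexp (s * t))) := by
  have h := (integ_aux hs).2
  refine Integrable.mono h ?_ ?_
  · apply Continuous.aestronglyMeasurable
    exact (Complex.continuous_ofReal.comp Lr_cont).mul (by fun_prop)
  · filter_upwards with t
    rw [norm_mul, norm_mul, norm_mul, norm_mul, Complex.norm_real, Complex.norm_real, Complex.norm_exp,
      Real.norm_of_nonneg (Real.exp_pos _).le]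
    apply le_of_eq
    congr 3
    simp [mul_re]

/-- dominating constant -/
noncomputable def P1 : ℝ := ∫ t in Ioi (0:ℝ), |Lr t| * (t * Real.exp (Real.pi / 8 * t))

lemma P1_integ : IntegrableOn (fun t => |Lr t| * (t * Real.exp (Real.pi / 8 * t))) (Ioi 0) := by
  have h := (integ_aux (a := Real.pi / 8) (by rw [abs_of_pos (by positivity)]; linarith [Real.pi_pos])).2
  have h3 : IntegrableOn (fun t => ‖Lr t * (t * Real.exp (Real.pi / 8 * t))‖) (Ioi 0) := h.norm.integrableOn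
  refine h3.congr_fun ?_ measurableSet_Ioi
  intro t ht
  have ht0 : (0:ℝ) < t := ht
  simp [abs_of_pos ht0]

lemma P1_nonneg : 0 ≤ P1 := by
  unfold P1
  apply setIntegral_nonneg measurableSet_Ioi
  intro t ht
  have ht0 : (0:ℝ) < t := ht
  positivity

/-- one-sided transforms are bounded -/
lemma one_sided {s : ℂ} (hs : s.re ≤ Real.pi / 8) :
    ‖∫ t in Ioi (0:ℝ), (Lr t : ℂ) * ((t : ℂ) * cexp (s * t))‖ ≤ P1 := by
  unfold P1
  refine norm_integral_le_of_norm_le P1_integ ?_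
  refine (ae_restrict_iff' measurableSet_Ioi).mpr ?_
  filter_upwards with t ht
  have ht0 : (0:ℝ) < t := ht
  rw [norm_mul, norm_mul, Complex.norm_real, Complex.norm_real, Complex.norm_exp, Real.norm_eq_abs, Real.norm_of_nonneg ht0.le]
  apply mul_le_mul_of_nonneg_left _ (abs_nonneg _)
  apply mul_le_mul_of_nonneg_left _ ht0.le
  apply Real.exp_le_exp.mpr
  have : (s * (t : ℂ)).re = s.re * t := by simp [mul_re]
  rw [this]
  exact mul_le_mul_of_nonneg_right hs ht0.le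

lemma deriv_R_norm {w : ℂ} (hw : w ∈ S) : ‖∫ t : ℝ, (Lr t : ℂ) * ((t : ℂ) * cexp ((-I * w) * t))‖ = ‖deriv R w‖ := by
  rw [(R_hasDeriv hw).2.deriv]
  have e : ∫ t : ℝ, Lc t * (cexp (-I * t * w) * (-I * t)) = (-I) * ∫ t : ℝ, (Lr t : ℂ) * ((t : ℂ) * cexp ((-I * w) * t)) := by
    rw [← integral_const_mul]
    congr 1
    ext t
    rw [Lc_real]
    have : -I * (t : ℂ) * w = (-I * w) * t := by ring
    rw [this]; ring
  rw [e, norm_mul, norm_neg, norm_I, one_mul]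

/-- the transform of `ua` in terms of the derivative of the two-sided transform -/
lemma Ut_bound {δ σ y : ℝ} (hδ0 : 0 < δ) (hδ1 : δ ≤ Real.pi / 8) (hσ0 : 0 < σ) (hσ1 : σ ≤ Real.pi / 16) :
    ‖Ut (ua (Real.pi / 4 - δ)) ((σ : ℂ) + (y : ℂ) * I)‖ ≤ P1 + ‖deriv R (wp (δ + σ) y)‖ / 2 := by
  have hpi := Real.pi_pos
  set a := Real.pi / 4 - δ with ha
  set p : ℂ := (σ : ℂ) + (y : ℂ) * I with hp
  have hpre : p.re = σ := by simp [hp]
  set s1 : ℂ := (a : ℂ) - p with hs1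
  set s2 : ℂ := -((a : ℂ) + p) with hs2
  have hs1re : s1.re = a - σ := by rw [hs1, sub_re, hpre, Complex.ofReal_re]
  have hs2re : s2.re = -(a + σ) := by rw [hs2, neg_re, add_re, hpre, Complex.ofReal_re]
  have h1abs : |s1.re| < Real.pi / 4 := by
    rw [hs1re, abs_lt]; constructor <;> linarith
  have hi1 := cint h1abs
  -- integrability of the second piece
  have hi2 : IntegrableOn (fun t : ℝ => (Lr t : ℂ) * ((t : ℂ) * cexp (s2 * t))) (Ioi 0) := by
    have h0 := (cint (s := 0) (by simp; positivity)).integrableOn (s := Ioi 0)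
    refine Integrable.mono h0 ?_ ?_
    · apply Continuous.aestronglyMeasurable
      exact (Complex.continuous_ofReal.comp Lr_cont).mul (by fun_prop)
    · refine (ae_restrict_iff' measurableSet_Ioi).mpr ?_
      filter_upwards with t ht
      have ht0 : (0:ℝ) < t := ht
      rw [norm_mul, norm_mul, norm_mul, norm_mul]
      apply mul_le_mul_of_nonneg_left _ (norm_nonneg _)
      apply mul_le_mul_of_nonneg_left _ (norm_nonneg _)
      rw [Complex.norm_exp, Complex.norm_exp]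
      apply Real.exp_le_exp.mpr
      have e1 : (s2 * (t : ℂ)).re = s2.re * t := by simp [mul_re]
      rw [e1, hs2re]
      simp only [zero_mul, zero_re]
      nlinarith
  have key : Ut (ua a) p = (1/2) * (∫ t in Ioi (0:ℝ), (Lr t : ℂ) * ((t : ℂ) * cexp (s1 * t))) -
      (1/2) * (∫ t in Ioi (0:ℝ), (Lr t : ℂ) * ((t : ℂ) * cexp (s2 * t))) := by
    unfold Ut
    rw [← integral_const_mul, ← integral_const_mul, ← integral_sub (hi1.integrableOn.const_mul _) (hi2.const_mul _)]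
    apply setIntegral_congr_fun measurableSet_Ioi
    intro t _
    simp only [ua]
    rw [Real.sinh_eq]
    have e1 : cexp (s1 * t) = cexp (a * t) * cexp (-p * t) := by
      rw [← Complex.exp_add]; congr 1; rw [hs1]; ring
    have e2 : cexp (s2 * t) = cexp (-(a * t)) * cexp (-p * t) := by
      rw [← Complex.exp_add]; congr 1; rw [hs2]; ring
    rw [e1, e2]
    push_cast
    ring
  have hsplit := intervalIntegral.integral_Iic_add_Ioi (b := 0) hi1.integrableOn hi1.integrableOn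
  have hneg : ‖∫ t in Iic (0:ℝ), (Lr t : ℂ) * ((t : ℂ) * cexp (s1 * t))‖ ≤ P1 := by
    have e1 : ∫ t in Iic (0:ℝ), (Lr t : ℂ) * ((t : ℂ) * cexp (s1 * t)) =
        -∫ t in Ioi (0:ℝ), (Lr t : ℂ) * ((t : ℂ) * cexp ((-s1) * t)) := by
      have := integral_comp_neg_Iic (0:ℝ) (fun t => -((Lr t : ℂ) * ((t : ℂ) * cexp ((-s1) * t))))
      rw [neg_zero] at this
      rw [← integral_neg, ← this]
      apply setIntegral_congr_fun measurableSet_Iic
      intro t _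
      simp only
      rw [Lr_neg]
      push_cast
      ring_nf
    rw [e1, norm_neg]
    apply one_sided
    rw [neg_re, hs1re]
    linarith
  have hw : wp (δ + σ) y ∈ S := by
    show |(wp (δ + σ) y).im| < Real.pi / 4
    rw [wp_im, abs_lt]; constructor <;> linarith
  have hR := deriv_R_norm hw
  have hs1w : -I * wp (δ + σ) y = s1 := by
    rw [wp, hs1, hp, ha]
    push_cast
    linear_combination (-((Real.pi : ℂ) / 4 - (δ + σ))) * I_mul_I
  rw [hs1w] at hR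
  have h2 : ‖∫ t in Ioi (0:ℝ), (Lr t : ℂ) * ((t : ℂ) * cexp (s2 * t))‖ ≤ P1 := by
    apply one_sided
    rw [hs2re]; linarith
  have h3 : ‖∫ t in Ioi (0:ℝ), (Lr t : ℂ) * ((t : ℂ) * cexp (s1 * t))‖ ≤ ‖deriv R (wp (δ + σ) y)‖ + P1 := by
    have e : ∫ t in Ioi (0:ℝ), (Lr t : ℂ) * ((t : ℂ) * cexp (s1 * t)) =
        (∫ t : ℝ, (Lr t : ℂ) * ((t : ℂ) * cexp (s1 * t))) - ∫ t in Iic (0:ℝ), (Lr t : ℂ) * ((t : ℂ) * cexp (s1 * t)) := by
      rw [← hsplit]; ring
    rw [e]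
    refine (norm_sub_le _ _).trans ?_
    rw [hR]
    linarith
  rw [key]
  refine (norm_sub_le _ _).trans ?_
  rw [norm_mul, norm_mul]
  have : ‖(1/2 : ℂ)‖ = 1/2 := by norm_num
  rw [this]
  linarith

/-- constants -/
noncomputable def KT : ℝ := 3072 * Real.pi * (Ca 1 + Ca (5/8)) * 2 + 4 * KR

lemma KT_nonneg : 0 ≤ KT := by
  unfold KT
  have := Ca_nonneg 1
  have := Ca_nonneg (5/8)
  have := KR_nonneg
  positivity

lemma deriv_R_le {x y : ℝ} (hx0 : 0 < x) (hx1 : x ≤ 3/4 * (Real.pi / 4)) (hy : |y| ≤ 1) :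
    ‖deriv R (wp x y)‖ ≤ 2 * Real.pi * ‖deriv Th0 (wp x y)‖ + 4 * Real.pi := by
  have hpi := Real.pi_pos
  have hw : wp x y ∈ S := by
    show |(wp x y).im| < Real.pi / 4
    rw [wp_im, abs_lt]; constructor <;> linarith
  have h1 : R =ᶠ[𝓝 (wp x y)] T := by
    filter_upwards [S_open.mem_nhds hw] with w hw
    exact R_eq_T hw
  rw [h1.deriv_eq]
  have h2 : HasDerivAt T (2 * Real.pi * (deriv Th0 (wp x y) - cexp (wp x y / 2) * (1/2) - cexp (-(wp x y / 2)) * (-(1/2)))) (wp x y) := by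
    have d1 := (Th0_diff hw).hasDerivAt
    have d2 : HasDerivAt (fun w : ℂ => w / 2) (1/2) (wp x y) := (hasDerivAt_id _).div_const 2
    have d3 := d2.cexp
    have d4 := d2.neg.cexp
    have d5 := ((d1.sub d3).sub d4).const_mul (2 * (Real.pi : ℂ))
    exact d5
  rw [h2.deriv, norm_mul]
  have h2pi : ‖(2 * Real.pi : ℂ)‖ = 2 * Real.pi := by
    rw [norm_mul, Complex.norm_real, Real.norm_of_nonneg hpi.le]; simp
  have hn1 : ‖cexp (wp x y / 2)‖ ≤ 2 := by
    rw [Complex.norm_exp]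
    have : (wp x y / 2).re = y / 2 := by
      have : (wp x y / 2).re = (wp x y).re / 2 := by simp
      rw [this, wp_re]
    rw [this]
    have h3 : y / 2 ≤ 1 / 2 := by linarith [(abs_le.mp hy).2]
    refine (Real.exp_le_exp.mpr h3).trans ?_
    have := Real.exp_bound_div_one_sub_of_interval (x := 1/2) (by norm_num) (by norm_num)
    refine this.trans (by norm_num)
  have hn2 : ‖cexp (-(wp x y / 2))‖ ≤ 2 := by
    rw [Complex.norm_exp]
    have : (-(wp x y / 2)).re = -(y / 2) := by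
      have : (-(wp x y / 2)).re = -((wp x y).re / 2) := by simp
      rw [this, wp_re]
    rw [this]
    have h3 : -(y / 2) ≤ 1 / 2 := by linarith [(abs_le.mp hy).1]
    refine (Real.exp_le_exp.mpr h3).trans ?_
    have := Real.exp_bound_div_one_sub_of_interval (x := 1/2) (by norm_num) (by norm_num)
    refine this.trans (by norm_num)
  rw [h2pi]
  have h4 : ‖deriv Th0 (wp x y) - cexp (wp x y / 2) * (1/2) - cexp (-(wp x y / 2)) * (-(1/2))‖ ≤ ‖deriv Th0 (wp x y)‖ + 2 := by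
    refine (norm_sub_le _ _).trans ?_
    have a1 := norm_sub_le (deriv Th0 (wp x y)) (cexp (wp x y / 2) * (1/2))
    rw [norm_mul (cexp (wp x y / 2))] at a1
    rw [norm_mul (cexp (-(wp x y / 2)))]
    have a2 : ‖(1/2 : ℂ)‖ = 1/2 := by norm_num
    have a3 : ‖(-(1/2) : ℂ)‖ = 1/2 := by rw [norm_neg]; norm_num
    rw [a2] at a1
    rw [a3]
    linarith
  calc 2 * Real.pi * ‖deriv Th0 (wp x y) - cexp (wp x y / 2) * (1/2) - cexp (-(wp x y / 2)) * (-(1/2))‖
      ≤ 2 * Real.pi * (‖deriv Th0 (wp x y)‖ + 2) := mul_le_mul_of_nonneg_left h4 (by positivity)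
    _ = _ := by ring

/-- region I: `|y| ≤ √x` -/
lemma region1 {x y : ℝ} (hx0 : 0 < x) (hx1 : x ≤ 3/4 * (Real.pi / 4)) (hy : y ^ 2 ≤ x) :
    ‖deriv R (wp x y)‖ ≤ KT * (x ^ (-(1/2) : ℝ) + x ^ (-2 : ℝ) * |y| ^ (3/2 : ℝ)) + 4 * Real.pi := by
  have hpi := Real.pi_pos
  have hx1' : x ≤ 1 := by linarith [Real.pi_lt_four]
  have hy1 : |y| ≤ 1 := by
    have : y ^ 2 ≤ 1 := hy.trans hx1'
    exact abs_le_one_iff_mul_self_le_one.mpr (by nlinarith)
  refine (deriv_R_le hx0 hx1 hy1).trans ?_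
  have h1 := Th0_deriv_bound (a := 1) (by norm_num) le_rfl hy1 hx0 hx1
  have hCa := Ca_nonneg 1
  have hCa' := Ca_nonneg (5/8)
  have hKR := KR_nonneg
  have hρ : 0 < x ^ 2 + y ^ 2 := by positivity
  have e1 : x⁻¹ * ((x ^ 2 + y ^ 2) ^ (-(1/4) : ℝ) * ((x ^ 2 + y ^ 2) / x) ^ (1:ℝ)) = x ^ (-2 : ℝ) * (x ^ 2 + y ^ 2) ^ (3/4 : ℝ) := by
    rw [Real.rpow_one]
    have : (x ^ 2 + y ^ 2) ^ (3/4 : ℝ) = (x ^ 2 + y ^ 2) ^ (-(1/4) : ℝ) * (x ^ 2 + y ^ 2) := by
      rw [← Real.rpow_add_one hρ.ne']; norm_num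
    rw [this, Real.rpow_neg hx0.le]
    have : x ^ (2:ℝ) = x ^ 2 := by norm_cast
    rw [this]
    field_simp
  have e2 : (x ^ 2 + y ^ 2) ^ (3/4 : ℝ) ≤ x ^ (3/2 : ℝ) + |y| ^ (3/2 : ℝ) := by
    refine (Real.rpow_add_le_add_rpow (sq_nonneg x) (sq_nonneg y) (by norm_num) (by norm_num)).trans (le_of_eq ?_)
    congr 1
    · rw [← Real.rpow_natCast, ← Real.rpow_mul hx0.le]; norm_num
    · rw [← sq_abs, ← Real.rpow_natCast, ← Real.rpow_mul (abs_nonneg y)]; norm_num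
  have e3 : x ^ (-2 : ℝ) * x ^ (3/2 : ℝ) = x ^ (-(1/2) : ℝ) := by
    rw [← Real.rpow_add hx0]; norm_num
  rw [e1] at h1
  have h2 : x ^ (-2 : ℝ) * (x ^ 2 + y ^ 2) ^ (3/4 : ℝ) ≤ x ^ (-(1/2) : ℝ) + x ^ (-2 : ℝ) * |y| ^ (3/2 : ℝ) := by
    rw [← e3, ← mul_add]
    exact mul_le_mul_of_nonneg_left e2 (by positivity)
  have h3 : 0 ≤ x ^ (-(1/2) : ℝ) + x ^ (-2 : ℝ) * |y| ^ (3/2 : ℝ) := by positivity
  have h4 : 2 * Real.pi * (1536 * Ca 1) ≤ KT := by
    unfold KT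
    have : 0 ≤ Real.pi * Ca 1 := by positivity
    have : 0 ≤ Real.pi * Ca (5/8) := by positivity
    nlinarith
  calc 2 * Real.pi * ‖deriv Th0 (wp x y)‖ + 4 * Real.pi
      ≤ 2 * Real.pi * (1536 * Ca 1 * (x ^ (-(1/2) : ℝ) + x ^ (-2 : ℝ) * |y| ^ (3/2 : ℝ))) + 4 * Real.pi := by
        have := h1.trans (mul_le_mul_of_nonneg_left h2 (by positivity))
        have := mul_le_mul_of_nonneg_left this (by positivity : 0 ≤ 2 * Real.pi)
        linarith
    _ = (2 * Real.pi * (1536 * Ca 1)) * (x ^ (-(1/2) : ℝ) + x ^ (-2 : ℝ) * |y| ^ (3/2 : ℝ)) + 4 * Real.pi := by ring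
    _ ≤ _ := by
        have := mul_le_mul_of_nonneg_right h4 h3
        linarith

/-- regions II and III: `|y| > √x` -/
lemma region2 {x y : ℝ} (hx0 : 0 < x) (hx1 : x ≤ 3/4 * (Real.pi / 4)) (hy : x < y ^ 2) :
    ‖deriv R (wp x y)‖ ≤ KT * (x ^ (-(13/8) : ℝ) * |y| ^ (3/4 : ℝ)) + 4 * Real.pi := by
  have hpi := Real.pi_pos
  have hx1' : x ≤ 1 := by linarith [Real.pi_lt_four]
  have hCa := Ca_nonneg 1
  have hCa' := Ca_nonneg (5/8)
  have hKR := KR_nonneg
  rcases le_or_gt |y| 1 with hy1 | hy1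
  · refine (deriv_R_le hx0 hx1 hy1).trans ?_
    have h1 := Th0_deriv_bound (a := 5/8) (by norm_num) (by norm_num) hy1 hx0 hx1
    have hρ : 0 < x ^ 2 + y ^ 2 := by positivity
    have e1 : x⁻¹ * ((x ^ 2 + y ^ 2) ^ (-(1/4) : ℝ) * ((x ^ 2 + y ^ 2) / x) ^ (5/8 : ℝ)) = x ^ (-(13/8) : ℝ) * (x ^ 2 + y ^ 2) ^ (3/8 : ℝ) := by
      rw [Real.div_rpow hρ.le hx0.le]
      have a1 : (x ^ 2 + y ^ 2) ^ (3/8 : ℝ) = (x ^ 2 + y ^ 2) ^ (-(1/4) : ℝ) * (x ^ 2 + y ^ 2) ^ (5/8 : ℝ) := by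
        rw [← Real.rpow_add hρ]; norm_num
      have a2 : x ^ (-(13/8) : ℝ) = x⁻¹ * (x ^ (5/8 : ℝ))⁻¹ := by
        rw [← Real.rpow_neg_one, ← Real.rpow_neg hx0.le, ← Real.rpow_add hx0]; norm_num
      rw [a1, a2]
      ring
    have e2 : (x ^ 2 + y ^ 2) ^ (3/8 : ℝ) ≤ 2 * |y| ^ (3/4 : ℝ) := by
      have b1 : x ^ 2 + y ^ 2 ≤ 2 * y ^ 2 := by nlinarith
      have b2 : (x ^ 2 + y ^ 2) ^ (3/8 : ℝ) ≤ (2 * y ^ 2) ^ (3/8 : ℝ) := Real.rpow_le_rpow hρ.le b1 (by norm_num)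
      refine b2.trans ?_
      rw [Real.mul_rpow (by norm_num) (sq_nonneg y)]
      have b3 : (y ^ 2) ^ (3/8 : ℝ) = |y| ^ (3/4 : ℝ) := by
        rw [← sq_abs, ← Real.rpow_natCast, ← Real.rpow_mul (abs_nonneg y)]; norm_num
      rw [b3]
      apply mul_le_mul_of_nonneg_right _ (by positivity)
      calc (2:ℝ) ^ (3/8 : ℝ) ≤ 2 ^ (1:ℝ) := Real.rpow_le_rpow_of_exponent_le (by norm_num) (by norm_num)
        _ = 2 := Real.rpow_one _
    rw [e1] at h1
    have h3 : 0 ≤ x ^ (-(13/8) : ℝ) * |y| ^ (3/4 : ℝ) := by positivity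
    have h4 : 2 * Real.pi * (1536 * Ca (5/8) * 2) ≤ KT := by
      unfold KT
      have : 0 ≤ Real.pi * Ca 1 := by positivity
      nlinarith
    calc 2 * Real.pi * ‖deriv Th0 (wp x y)‖ + 4 * Real.pi
        ≤ 2 * Real.pi * (1536 * Ca (5/8) * (x ^ (-(13/8) : ℝ) * (2 * |y| ^ (3/4 : ℝ)))) + 4 * Real.pi := by
          have a1 : x ^ (-(13/8) : ℝ) * (x ^ 2 + y ^ 2) ^ (3/8 : ℝ) ≤ x ^ (-(13/8) : ℝ) * (2 * |y| ^ (3/4 : ℝ)) :=
            mul_le_mul_of_nonneg_left e2 (by positivity)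
          have := h1.trans (mul_le_mul_of_nonneg_left a1 (by positivity))
          have := mul_le_mul_of_nonneg_left this (by positivity : 0 ≤ 2 * Real.pi)
          linarith
      _ = (2 * Real.pi * (1536 * Ca (5/8) * 2)) * (x ^ (-(13/8) : ℝ) * |y| ^ (3/4 : ℝ)) + 4 * Real.pi := by ring
      _ ≤ _ := by
          have := mul_le_mul_of_nonneg_right h4 h3
          linarith
  · have hw : wp x y ∈ S := by
      show |(wp x y).im| < Real.pi / 4
      rw [wp_im, abs_lt]; constructor <;> linarith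
    have hd : dd (wp x y) = x := by
      unfold dd
      rw [wp_im, abs_of_nonneg (by linarith)]; ring
    have h1 := R_deriv_bound hw
    rw [hd] at h1
    have h2 : 1 ≤ |y| ^ (3/4 : ℝ) := Real.one_le_rpow hy1.le (by norm_num)
    have h3 : 0 ≤ x ^ (-(13/8) : ℝ) := by positivity
    have h4 : 4 * KR ≤ KT := by
      unfold KT
      have : 0 ≤ 3072 * Real.pi * (Ca 1 + Ca (5/8)) * 2 := by positivity
      linarith
    have h5 : x ^ (-(13/8) : ℝ) ≤ x ^ (-(13/8) : ℝ) * |y| ^ (3/4 : ℝ) := le_mul_of_one_le_right h3 h2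
    calc ‖deriv R (wp x y)‖ ≤ 4 * KR * x ^ (-(13/8) : ℝ) := h1
      _ ≤ KT * (x ^ (-(13/8) : ℝ) * |y| ^ (3/4 : ℝ)) := mul_le_mul h4 h5 h3 KT_nonneg
      _ ≤ _ := by linarith

end Pool.Agent.Helper625.N4
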