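import Mathlib
import Pool.Agent.Helper625.N4

namespace Pool.Agent.Helper625.N5
open Complex MeasureTheory Filter Topology Set
open Pool.Agent.Helper625.Th Pool.Agent.Helper625.Fl Pool.Agent.Helper625.N1 Pool.Agent.Helper625.M1
open Pool.Agent.Helper625.N2 Pool.Agent.Helper625.N3 Pool.Agent.Helper625.N4

noncomputable def f1 (x : ℝ) : ℝ → ℝ := (Iic (√x)).indicator (fun t => t ^ (-(1/2) : ℝ))
noncomputable def f2 (x : ℝ) : ℝ → ℝ := (Ioi (√x)).indicator (fun t => t ^ (-(5/4) : ℝ))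

lemma f1_int {x : ℝ} (hx : 0 < x) : IntegrableOn (f1 x) (Ioi 0) ∧ ∫ t in Ioi (0:ℝ), f1 x t = 2 * x ^ (1/4 : ℝ) := by
  have hr : 0 < √x := Real.sqrt_pos.mpr hx
  have hi : IntegrableOn (fun t : ℝ => t ^ (-(1/2) : ℝ)) (Ioc 0 (√x)) :=
    (intervalIntegrable_iff_integrableOn_Ioc_of_le hr.le).mp (intervalIntegral.intervalIntegrable_rpow' (by norm_num))
  have hset : Ioi (0:ℝ) ∩ Iic (√x) = Ioc 0 (√x) := rfl
  constructor
  · unfold f1
    rw [← integrable_indicator_iff measurableSet_Ioi, indicator_indicator, hset,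
      integrable_indicator_iff measurableSet_Ioc]
    exact hi
  · unfold f1
    rw [setIntegral_indicator measurableSet_Iic, hset, ← intervalIntegral.integral_of_le hr.le, integral_rpow (Or.inl (by norm_num))]
    rw [show (-(1/2) + 1 : ℝ) = 1/2 by norm_num, Real.zero_rpow (by norm_num), Real.sqrt_eq_rpow, ← Real.rpow_mul hx.le]
    norm_num
    ring

lemma f2_int {x : ℝ} (hx : 0 < x) : IntegrableOn (f2 x) (Ioi 0) ∧ ∫ t in Ioi (0:ℝ), f2 x t = 4 * x ^ (-(1/8) : ℝ) := by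
  have hr : 0 < √x := Real.sqrt_pos.mpr hx
  have hi : IntegrableOn (fun t : ℝ => t ^ (-(5/4) : ℝ)) (Ioi (√x)) := integrableOn_Ioi_rpow_of_lt (by norm_num) hr
  have hset : Ioi (0:ℝ) ∩ Ioi (√x) = Ioi (√x) := by
    apply inter_eq_right.mpr
    exact Ioi_subset_Ioi hr.le
  constructor
  · unfold f2
    rw [← integrable_indicator_iff measurableSet_Ioi, indicator_indicator, hset,
      integrable_indicator_iff measurableSet_Ioi]
    exact hi
  · unfold f2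
    rw [setIntegral_indicator measurableSet_Ioi, hset, integral_Ioi_rpow_of_lt (by norm_num) hr]
    rw [Real.sqrt_eq_rpow, ← Real.rpow_mul hx.le]
    norm_num
    ring

/-- majorant in `y` -/
noncomputable def hmaj (σ x y : ℝ) : ℝ :=
  (P1 + 2 * Real.pi + KT / 2 * x ^ (-(1/2) : ℝ)) * (1 / (σ ^ 2 + y ^ 2)) +
    (KT / 2 * x ^ (-2 : ℝ) * f1 x |y| + KT / 2 * x ^ (-(13/8) : ℝ) * f2 x |y|)

lemma hmaj_int {σ x : ℝ} (hσ : 0 < σ) (hx : 0 < x) : Integrable (hmaj σ x) ∧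
    ∫ y, hmaj σ x y = (P1 + 2 * Real.pi + KT / 2 * x ^ (-(1/2) : ℝ)) * (Real.pi / σ) + 6 * KT * x ^ (-(7/4) : ℝ) := by
  have h0 := inv_sq_integ' hσ
  have i1 := ZF.integrable_comp_abs' (f1_int hx).1
  have i2 := ZF.integrable_comp_abs' (f2_int hx).1
  have j0 := h0.1.const_mul (P1 + 2 * Real.pi + KT / 2 * x ^ (-(1/2) : ℝ))
  have j1 := i1.const_mul (KT / 2 * x ^ (-2 : ℝ))
  have j2 := i2.const_mul (KT / 2 * x ^ (-(13/8) : ℝ))
  have j12 : Integrable (fun y => KT / 2 * x ^ (-2 : ℝ) * f1 x |y| + KT / 2 * x ^ (-(13/8) : ℝ) * f2 x |y|) := j1.add j2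
  refine ⟨j0.add j12, ?_⟩
  unfold hmaj
  rw [integral_add j0 j12, integral_add j1 j2, integral_const_mul, integral_const_mul, integral_const_mul,
    h0.2, integral_comp_abs (f := f1 x), integral_comp_abs (f := f2 x), (f1_int hx).2, (f2_int hx).2]
  have e1 : x ^ (-2 : ℝ) * x ^ (1/4 : ℝ) = x ^ (-(7/4) : ℝ) := by rw [← Real.rpow_add hx]; norm_num
  have e2 : x ^ (-(13/8) : ℝ) * x ^ (-(1/8) : ℝ) = x ^ (-(7/4) : ℝ) := by rw [← Real.rpow_add hx]; norm_num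
  linear_combination (2 * KT) * e1 + (4 * KT) * e2

lemma hmaj_bound {δ σ y : ℝ} (hδ0 : 0 < δ) (hδ1 : δ ≤ Real.pi / 8) (hσ0 : 0 < σ) (hσ1 : σ ≤ Real.pi / 16) :
    ‖Ut (ua (Real.pi / 4 - δ)) ((σ : ℂ) + (y : ℂ) * I)‖ / (σ ^ 2 + y ^ 2) ≤ hmaj σ (δ + σ) y := by
  have hpi := Real.pi_pos
  set x := δ + σ with hx
  have hx0 : 0 < x := by positivity
  have hx1 : x ≤ 3/4 * (Real.pi / 4) := by rw [hx]; linarith
  have hU := Ut_bound (y := y) hδ0 hδ1 hσ0 hσ1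
  rw [← hx] at hU
  have hden : 0 < σ ^ 2 + y ^ 2 := by positivity
  have hK := KT_nonneg
  have hP := P1_nonneg
  unfold hmaj
  rcases le_or_gt (y ^ 2) x with h | h
  · have h1 := region1 hx0 hx1 h
    have hy : |y| ≤ √x := Real.abs_le_sqrt h
    have hf1 : f1 x |y| = |y| ^ (-(1/2) : ℝ) := by
      unfold f1; rw [indicator_of_mem (show |y| ∈ Iic (√x) from hy)]
    have hf2 : f2 x |y| = 0 := by
      unfold f2; rw [indicator_of_notMem (show |y| ∉ Ioi (√x) from not_lt.mpr hy)]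
    rw [hf1, hf2, mul_zero, add_zero]
    have h2 : ‖Ut (ua (Real.pi / 4 - δ)) ((σ : ℂ) + (y : ℂ) * I)‖ ≤
        (P1 + 2 * Real.pi + KT / 2 * x ^ (-(1/2) : ℝ)) + KT / 2 * x ^ (-2 : ℝ) * |y| ^ (3/2 : ℝ) := by
      linarith
    have h3 : |y| ^ (3/2 : ℝ) / (σ ^ 2 + y ^ 2) ≤ |y| ^ (-(1/2) : ℝ) := by
      rcases eq_or_ne y 0 with hy0 | hy0
      · subst hy0
        rw [abs_zero, Real.zero_rpow (by norm_num), zero_div]
        exact Real.rpow_nonneg le_rfl _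
      · have hyp : 0 < |y| := abs_pos.mpr hy0
        rw [div_le_iff₀ hden]
        have e : |y| ^ (3/2 : ℝ) = |y| ^ (-(1/2) : ℝ) * y ^ 2 := by
          rw [← sq_abs y, ← Real.rpow_natCast, ← Real.rpow_add hyp]; norm_num
        rw [e]
        apply mul_le_mul_of_nonneg_left _ (by positivity)
        nlinarith
    calc ‖Ut (ua (Real.pi / 4 - δ)) ((σ : ℂ) + (y : ℂ) * I)‖ / (σ ^ 2 + y ^ 2)
        ≤ ((P1 + 2 * Real.pi + KT / 2 * x ^ (-(1/2) : ℝ)) + KT / 2 * x ^ (-2 : ℝ) * |y| ^ (3/2 : ℝ)) / (σ ^ 2 + y ^ 2) := by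
          gcongr
      _ = (P1 + 2 * Real.pi + KT / 2 * x ^ (-(1/2) : ℝ)) * (1 / (σ ^ 2 + y ^ 2)) +
          KT / 2 * x ^ (-2 : ℝ) * (|y| ^ (3/2 : ℝ) / (σ ^ 2 + y ^ 2)) := by ring
      _ ≤ _ := by gcongr
  · have h1 := region2 hx0 hx1 h
    have hy : √x < |y| := by
      rw [← Real.sqrt_sq_eq_abs]
      exact Real.sqrt_lt_sqrt hx0.le h
    have hf1 : f1 x |y| = 0 := by
      unfold f1; rw [indicator_of_notMem (show |y| ∉ Iic (√x) from not_le.mpr hy)]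
    have hf2 : f2 x |y| = |y| ^ (-(5/4) : ℝ) := by
      unfold f2; rw [indicator_of_mem (show |y| ∈ Ioi (√x) from hy)]
    rw [hf1, hf2, mul_zero, zero_add]
    have hyp : 0 < |y| := lt_of_le_of_lt (Real.sqrt_nonneg x) hy
    have h2 : ‖Ut (ua (Real.pi / 4 - δ)) ((σ : ℂ) + (y : ℂ) * I)‖ ≤
        (P1 + 2 * Real.pi) + KT / 2 * x ^ (-(13/8) : ℝ) * |y| ^ (3/4 : ℝ) := by
      linarith
    have h3 : |y| ^ (3/4 : ℝ) / (σ ^ 2 + y ^ 2) ≤ |y| ^ (-(5/4) : ℝ) := by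
      rw [div_le_iff₀ hden]
      have e : |y| ^ (3/4 : ℝ) = |y| ^ (-(5/4) : ℝ) * y ^ 2 := by
        rw [← sq_abs y, ← Real.rpow_natCast, ← Real.rpow_add hyp]; norm_num
      rw [e]
      apply mul_le_mul_of_nonneg_left _ (by positivity)
      nlinarith
    have h4 : 0 ≤ KT / 2 * x ^ (-(1/2) : ℝ) := by positivity
    calc ‖Ut (ua (Real.pi / 4 - δ)) ((σ : ℂ) + (y : ℂ) * I)‖ / (σ ^ 2 + y ^ 2)
        ≤ ((P1 + 2 * Real.pi) + KT / 2 * x ^ (-(13/8) : ℝ) * |y| ^ (3/4 : ℝ)) / (σ ^ 2 + y ^ 2) := by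
          gcongr
      _ = (P1 + 2 * Real.pi) * (1 / (σ ^ 2 + y ^ 2)) +
          KT / 2 * x ^ (-(13/8) : ℝ) * (|y| ^ (3/4 : ℝ) / (σ ^ 2 + y ^ 2)) := by ring
      _ ≤ _ := by
        apply add_le_add
        · apply mul_le_mul_of_nonneg_right _ (by positivity)
          linarith
        · exact mul_le_mul_of_nonneg_left h3 (by positivity)

lemma ua_exp_integ {a σ : ℝ} (h0 : 0 ≤ a) (h1 : a < Real.pi / 4) (hσ : 0 < σ) :
    IntegrableOn (fun t => ua a t * Real.exp (-σ * t)) (Ioi 0) := by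
  have hi : IntegrableOn (ua a) (Ioi 0) := by
    have ha : |a| < Real.pi / 4 := by rwa [abs_of_nonneg h0]
    have := ((integ_aux ha).2.sub (integ_aux (a := -a) (by rwa [abs_neg])).2).integrableOn (s := Ioi 0)
    refine IntegrableOn.congr_fun (this.div_const 2) ?_ measurableSet_Ioi
    intro t _
    simp only [Pi.sub_apply, ua]
    rw [Real.sinh_eq]
    ring_nf
  refine Integrable.mono hi ((ua_cont a).mul (by fun_prop)).aestronglyMeasurable ?_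
  refine (ae_restrict_iff' measurableSet_Ioi).mpr ?_
  filter_upwards with t ht
  have ht0 : (0:ℝ) < t := ht
  rw [norm_mul, Real.norm_of_nonneg (Real.exp_pos _).le]
  have : Real.exp (-σ * t) ≤ 1 := by
    rw [Real.exp_le_one_iff]; nlinarith
  nlinarith [norm_nonneg (ua a t)]

/-- second primitive of `ua`, main range of `δ` -/
lemma Gd_bound {δ T : ℝ} (hδ0 : 0 < δ) (hδ1 : δ ≤ Real.pi / 8) (hT : 16 / Real.pi ≤ T) :
    |∫ t in Ioi (0:ℝ), ua (Real.pi / 4 - δ) t * max (T - t) 0| ≤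
      (P1 + 2 * Real.pi) * (3 * T) + KT * (3 * T) * δ ^ (-(1/2) : ℝ) + 6 * KT * (δ + T⁻¹) ^ (-(7/4) : ℝ) := by
  have hpi := Real.pi_pos
  have hpi3 := Real.pi_gt_three
  have hT0 : 0 < T := lt_of_lt_of_le (by positivity) hT
  have hσ0 : 0 < T⁻¹ := by positivity
  have hσ1 : T⁻¹ ≤ Real.pi / 16 := by
    rw [inv_le_comm₀ hT0 (by positivity)]
    refine le_trans (le_of_eq ?_) hT
    field_simp
  have hK := KT_nonneg
  have hP := P1_nonneg
  have hx : 0 < δ + T⁻¹ := by positivity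
  obtain ⟨hi, hv⟩ := hmaj_int hσ0 hx
  have h := inversion_bound hσ0 (ua_cont _).measurable (ua_exp_integ (by linarith) (by linarith) hσ0) T hi
    (fun y => hmaj_bound hδ0 hδ1 hσ0 hσ1)
  refine h.trans ?_
  rw [hv]
  have e1 : Real.exp (T⁻¹ * T) = Real.exp 1 := by rw [inv_mul_cancel₀ hT0.ne']
  rw [e1]
  have he : Real.exp 1 / (2 * Real.pi) ≤ 1/2 := by
    rw [div_le_iff₀ (by positivity)]
    have := Real.exp_one_lt_d9
    linarith
  have hx2 : (δ + T⁻¹) ^ (-(1/2) : ℝ) ≤ δ ^ (-(1/2) : ℝ) :=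
    Real.rpow_le_rpow_of_nonpos hδ0 (by linarith) (by norm_num)
  have e2 : Real.pi / T⁻¹ = Real.pi * T := by field_simp
  rw [e2]
  have hx7 : 0 < (δ + T⁻¹) ^ (-(7/4) : ℝ) := Real.rpow_pos_of_pos hx _
  have hd2 : 0 < δ ^ (-(1/2) : ℝ) := Real.rpow_pos_of_pos hδ0 _
  have hpi4 := Real.pi_lt_four
  calc Real.exp 1 / (2 * Real.pi) * ((P1 + 2 * Real.pi + KT / 2 * (δ + T⁻¹) ^ (-(1/2) : ℝ)) * (Real.pi * T) + 6 * KT * (δ + T⁻¹) ^ (-(7/4) : ℝ))
      ≤ 1/2 * ((P1 + 2 * Real.pi + KT / 2 * δ ^ (-(1/2) : ℝ)) * (4 * T) + 6 * KT * (δ + T⁻¹) ^ (-(7/4) : ℝ)) := by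
        gcongr
    _ ≤ _ := by
        have a1 : 0 ≤ (P1 + 2 * Real.pi) * T := by positivity
        have a2 : 0 ≤ KT * T * δ ^ (-(1/2) : ℝ) := by positivity
        have a3 : 0 ≤ KT * (δ + T⁻¹) ^ (-(7/4) : ℝ) := by positivity
        nlinarith

lemma max_bound {t T : ℝ} (ht : 0 < t) (hT : 0 ≤ T) : |max (T - t) 0| ≤ T := by
  rw [abs_of_nonneg (le_max_right _ _)]
  exact max_le (by linarith) hT

/-- second primitive of `ua`, large `δ` -/
lemma Gd_bound' {δ T : ℝ} (hδ0 : Real.pi / 8 ≤ δ) (hδ1 : δ ≤ Real.pi / 4) (hT : 0 ≤ T) :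
    |∫ t in Ioi (0:ℝ), ua (Real.pi / 4 - δ) t * max (T - t) 0| ≤ P1 * T := by
  have hpi := Real.pi_pos
  rw [← Real.norm_eq_abs]
  have : ∫ t in Ioi (0:ℝ), |Lr t| * (t * Real.exp (Real.pi / 8 * t)) * T = P1 * T := by
    rw [integral_mul_const]; rfl
  rw [← this]
  refine norm_integral_le_of_norm_le (P1_integ.mul_const T) ?_
  refine (ae_restrict_iff' measurableSet_Ioi).mpr ?_
  filter_upwards with t ht
  have ht0 : (0:ℝ) < t := ht
  rw [norm_mul, Real.norm_eq_abs, Real.norm_eq_abs]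
  apply mul_le_mul _ (max_bound ht0 hT) (abs_nonneg _) (by positivity)
  unfold ua
  rw [abs_mul, abs_mul, abs_of_pos ht0]
  apply mul_le_mul_of_nonneg_left _ (abs_nonneg _)
  apply mul_le_mul_of_nonneg_left _ ht0.le
  have h0 : 0 ≤ (Real.pi / 4 - δ) * t := mul_nonneg (by linarith) ht0.le
  rw [abs_of_nonneg (Real.sinh_nonneg_iff.mpr h0), Real.sinh_eq]
  have h1 : Real.exp ((Real.pi / 4 - δ) * t) ≤ Real.exp (Real.pi / 8 * t) := by
    apply Real.exp_le_exp.mpr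
    apply mul_le_mul_of_nonneg_right _ ht0.le
    linarith
  have h2 := Real.exp_pos (-((Real.pi / 4 - δ) * t))
  have h3 := Real.exp_pos ((Real.pi / 4 - δ) * t)
  linarith

end Pool.Agent.Helper625.N5
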