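import Mathlib
import Pool.Agent.Helper625.N5
import Pool.Agent.Helper625.M8

namespace Pool.Agent.Helper625.N6
open MeasureTheory Filter Topology Set
open Pool.Agent.Helper625.Th Pool.Agent.Helper625.M1 Pool.Agent.Helper625.M2 Pool.Agent.Helper625.M3
open Pool.Agent.Helper625.N2 Pool.Agent.Helper625.N4 Pool.Agent.Helper625.N5 Pool.Agent.Helper625.M5
open Pool.Agent.Helper625.M8 (Zr Fz Gz Fz_deriv Fz_cont Gz_deriv ZR_integ Zr_cont key_point)

lemma beta_deriv {σ δ : ℝ} (hσ : 0 < σ) (hδ : 0 < δ) :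
    HasDerivAt (fun δ : ℝ => 4 / (3 * σ) * (δ / (δ + σ)) ^ (3/4 : ℝ)) (δ ^ (-(1/4) : ℝ) * (δ + σ) ^ (-(7/4) : ℝ)) δ := by
  have hs : 0 < δ + σ := by positivity
  have h1 : HasDerivAt (fun δ : ℝ => δ / (δ + σ)) (σ / (δ + σ) ^ 2) δ := by
    have := (hasDerivAt_id δ).div ((hasDerivAt_id δ).add_const σ) hs.ne'
    refine this.congr_deriv ?_
    simp
  have h2 := (h1.rpow_const (p := (3/4 : ℝ)) (Or.inl (by positivity))).const_mul (4 / (3 * σ))
  refine h2.congr_deriv ?_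
  rw [show (3/4 - 1 : ℝ) = -(1/4) by norm_num, Real.div_rpow hδ.le hs.le]
  have e1 : (δ + σ) ^ (-(7/4) : ℝ) = ((δ + σ) ^ (-(1/4) : ℝ))⁻¹ * ((δ + σ) ^ 2)⁻¹ := by
    rw [← Real.rpow_neg hs.le, ← Real.rpow_natCast, ← Real.rpow_neg hs.le, ← Real.rpow_add hs]; norm_num
  rw [e1]
  field_simp

lemma beta_int {σ : ℝ} (hσ : 0 < σ) : IntegrableOn (fun δ : ℝ => δ ^ (-(1/4) : ℝ) * (δ + σ) ^ (-(7/4) : ℝ)) (Ioi 0) ∧
    ∫ δ in Ioi (0:ℝ), δ ^ (-(1/4) : ℝ) * (δ + σ) ^ (-(7/4) : ℝ) = 4 / (3 * σ) := by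
  have hc : ContinuousWithinAt (fun δ : ℝ => 4 / (3 * σ) * (δ / (δ + σ)) ^ (3/4 : ℝ)) (Ici 0) 0 := by
    apply ContinuousAt.continuousWithinAt
    apply ContinuousAt.const_mul
    apply ContinuousAt.rpow_const
    · apply ContinuousAt.div continuousAt_id (by fun_prop)
      simp [hσ.ne']
    · right; norm_num
  have hd : ∀ x ∈ Ioi (0:ℝ), HasDerivAt (fun δ : ℝ => 4 / (3 * σ) * (δ / (δ + σ)) ^ (3/4 : ℝ))
      (x ^ (-(1/4) : ℝ) * (x + σ) ^ (-(7/4) : ℝ)) x := fun x hx => beta_deriv hσ hx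
  have hn : ∀ x ∈ Ioi (0:ℝ), 0 ≤ x ^ (-(1/4) : ℝ) * (x + σ) ^ (-(7/4) : ℝ) := by
    intro x hx
    have hx0 : (0:ℝ) < x := hx
    positivity
  have hl : Tendsto (fun δ : ℝ => 4 / (3 * σ) * (δ / (δ + σ)) ^ (3/4 : ℝ)) atTop (𝓝 (4 / (3 * σ))) := by
    have h1 : Tendsto (fun δ : ℝ => δ / (δ + σ)) atTop (𝓝 1) := by
      have h2 : Tendsto (fun δ : ℝ => 1 - σ * (δ + σ)⁻¹) atTop (𝓝 1) := by
        have h3 : Tendsto (fun δ : ℝ => (δ + σ)⁻¹) atTop (𝓝 0) :=
          tendsto_inv_atTop_zero.comp (tendsto_atTop_add_const_right _ _ tendsto_id)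
        have := (h3.const_mul σ).const_sub 1
        simpa using this
      refine h2.congr' ?_
      filter_upwards [eventually_gt_atTop 0] with δ hδ
      have : δ + σ ≠ 0 := by positivity
      field_simp
      ring
    have h4 := (h1.rpow_const (p := (3/4 : ℝ)) (Or.inl one_ne_zero)).const_mul (4 / (3 * σ))
    simpa using h4
  refine ⟨integrableOn_Ioi_deriv_of_nonneg hc hd hn hl, ?_⟩
  rw [integral_Ioi_of_hasDerivAt_of_nonneg hc hd hn hl]
  rw [zero_div, Real.zero_rpow (by norm_num), mul_zero, sub_zero]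

lemma rpow34_integ {c : ℝ} (hc : 0 < c) : IntegrableOn (fun δ : ℝ => δ ^ (-(3/4) : ℝ)) (Ioc 0 c) ∧
    ∫ δ in Ioc (0:ℝ) c, δ ^ (-(3/4) : ℝ) = 4 * c ^ (1/4 : ℝ) := by
  refine ⟨(intervalIntegrable_iff_integrableOn_Ioc_of_le hc.le).mp
    (intervalIntegral.intervalIntegrable_rpow' (by norm_num)), ?_⟩
  rw [← intervalIntegral.integral_of_le hc.le, integral_rpow (Or.inl (by norm_num))]
  rw [show (-(3/4) + 1 : ℝ) = 1/4 by norm_num, Real.zero_rpow (by norm_num)]
  ring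

/-- joint integrand -/
noncomputable def J1 (T t δ : ℝ) : ℝ := δ ^ (-(1/4) : ℝ) * (ua (Real.pi / 4 - δ) t * max (T - t) 0)

lemma J1_integ {T : ℝ} (hT : 0 ≤ T) :
    Integrable (Function.uncurry (J1 T)) ((volume.restrict (Ioi (0:ℝ))).prod (volume.restrict (Ioc (0:ℝ) (Real.pi / 4)))) := by
  have hb := (J_integ (η := 1) one_pos).norm.const_mul (T * Real.exp T)
  refine Integrable.mono' hb ?_ ?_
  · apply Measurable.aestronglyMeasurable
    unfold Function.uncurry J1 ua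
    apply Measurable.mul
    · exact (measurable_snd).pow_const _
    · apply Measurable.mul
      · apply Measurable.mul (Lr_cont.measurable.comp measurable_fst)
        apply Measurable.mul measurable_fst
        exact Real.continuous_sinh.measurable.comp (by fun_prop)
      · exact (measurable_const.sub measurable_fst).max measurable_const
  · rw [Measure.prod_restrict]
    refine (ae_restrict_iff' (measurableSet_Ioi.prod measurableSet_Ioc)).mpr ?_
    filter_upwards with ⟨t, δ⟩ h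
    have ht : (0:ℝ) < t := h.1
    simp only [Function.uncurry, J1, J]
    have e : δ ^ (-(1/4) : ℝ) * (ua (Real.pi / 4 - δ) t * max (T - t) 0) =
        (δ ^ (-(1/4) : ℝ) * (Lr t * (t * Real.sinh ((Real.pi / 4 - δ) * t)) * Real.exp (-1 * t))) * (max (T - t) 0 * Real.exp t) := by
      unfold ua
      have : Real.exp (-1 * t) * Real.exp t = 1 := by rw [← Real.exp_add]; simp
      linear_combination (-(δ ^ (-(1/4) : ℝ) * (Lr t * (t * Real.sinh ((Real.pi / 4 - δ) * t)) * max (T - t) 0))) * this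
    rw [e, norm_mul, mul_comm (T * Real.exp T)]
    apply mul_le_mul_of_nonneg_left _ (norm_nonneg _)
    have hm : 0 ≤ max (T - t) 0 := le_max_right _ _
    rw [Real.norm_of_nonneg (mul_nonneg hm (Real.exp_pos _).le)]
    rcases le_total t T with h1 | h1
    · apply mul_le_mul _ (Real.exp_le_exp.mpr h1) (Real.exp_pos _).le hT
      exact max_le (by linarith) hT
    · rw [max_eq_right (by linarith), zero_mul]
      positivity

lemma G1_eq {T : ℝ} (hT : 0 ≤ T) :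
    ∫ t in Ioi (0:ℝ), Lr t * Phi t * max (T - t) 0 =
      ∫ δ in Ioc (0:ℝ) (Real.pi / 4), δ ^ (-(1/4) : ℝ) * ∫ t in Ioi (0:ℝ), ua (Real.pi / 4 - δ) t * max (T - t) 0 := by
  have h := integral_integral_swap (J1_integ hT)
  have e1 : ∫ t in Ioi (0:ℝ), Lr t * Phi t * max (T - t) 0 = ∫ t in Ioi (0:ℝ), ∫ δ in Ioc (0:ℝ) (Real.pi / 4), J1 T t δ := by
    apply setIntegral_congr_fun measurableSet_Ioi
    intro t _
    simp only [Phi, J1, ua]
    rw [mul_comm (Lr t), mul_assoc, ← integral_mul_const]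
    apply setIntegral_congr_fun measurableSet_Ioc
    intro δ _
    simp only
    ring
  have e2 : ∫ δ in Ioc (0:ℝ) (Real.pi / 4), δ ^ (-(1/4) : ℝ) * ∫ t in Ioi (0:ℝ), ua (Real.pi / 4 - δ) t * max (T - t) 0 =
      ∫ δ in Ioc (0:ℝ) (Real.pi / 4), ∫ t in Ioi (0:ℝ), J1 T t δ := by
    apply setIntegral_congr_fun measurableSet_Ioc
    intro δ _
    simp only [J1]
    rw [← integral_const_mul]
  rw [e1, e2, h]

/-- constant in the final bound -/
noncomputable def K2 : ℝ := (4 * (P1 + 2 * Real.pi)) * (4/3) + KT * 3 * 4 + 6 * KT * (4/3)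

lemma K2_nonneg : 0 ≤ K2 := by
  unfold K2
  have := KT_nonneg
  have := P1_nonneg
  positivity

lemma G1_bound {T : ℝ} (hT : 16 / Real.pi ≤ T) : |∫ t in Ioi (0:ℝ), Lr t * Phi t * max (T - t) 0| ≤ K2 * T := by
  have hpi := Real.pi_pos
  have hT0 : 0 < T := lt_of_lt_of_le (by positivity) hT
  have hK := KT_nonneg
  have hP := P1_nonneg
  have hpi4 : 0 < Real.pi / 4 := by positivity
  have hpi41 : Real.pi / 4 ≤ 1 := by linarith [Real.pi_lt_four]
  have hσ : 0 < T⁻¹ := by positivity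
  rw [G1_eq hT0.le]
  have i1 : IntegrableOn (fun δ : ℝ => (4 * (P1 + 2 * Real.pi) * T) * δ ^ (-(1/4) : ℝ)) (Ioc 0 (Real.pi / 4)) :=
    (rpow_integ hpi4).const_mul _
  have i2 : IntegrableOn (fun δ : ℝ => (KT * (3 * T)) * δ ^ (-(3/4) : ℝ)) (Ioc 0 (Real.pi / 4)) :=
    (rpow34_integ hpi4).1.const_mul _
  have i3 : IntegrableOn (fun δ : ℝ => (6 * KT) * (δ ^ (-(1/4) : ℝ) * (δ + T⁻¹) ^ (-(7/4) : ℝ))) (Ioc 0 (Real.pi / 4)) :=
    ((beta_int hσ).1.mono_set Ioc_subset_Ioi_self).const_mul _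
  have i12 : IntegrableOn (fun δ : ℝ => (4 * (P1 + 2 * Real.pi) * T) * δ ^ (-(1/4) : ℝ) + (KT * (3 * T)) * δ ^ (-(3/4) : ℝ))
      (Ioc 0 (Real.pi / 4)) := i1.add i2
  rw [← Real.norm_eq_abs]
  have hle := norm_integral_le_of_norm_le (μ := volume.restrict (Ioc (0:ℝ) (Real.pi / 4)))
    (f := fun δ => δ ^ (-(1/4) : ℝ) * ∫ t in Ioi (0:ℝ), ua (Real.pi / 4 - δ) t * max (T - t) 0)
    (i12.add i3) (by
      refine (ae_restrict_iff' measurableSet_Ioc).mpr ?_
      filter_upwards with δ hδ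
      have hδ0 : 0 < δ := hδ.1
      have hr : 0 < δ ^ (-(1/4) : ℝ) := Real.rpow_pos_of_pos hδ0 _
      rw [norm_mul, Real.norm_of_nonneg hr.le, Real.norm_eq_abs]
      have hb : |∫ t in Ioi (0:ℝ), ua (Real.pi / 4 - δ) t * max (T - t) 0| ≤
          4 * (P1 + 2 * Real.pi) * T + KT * (3 * T) * δ ^ (-(1/2) : ℝ) + 6 * KT * (δ + T⁻¹) ^ (-(7/4) : ℝ) := by
        have a1 : 0 ≤ KT * (3 * T) * δ ^ (-(1/2) : ℝ) := by positivity
        have a2 : 0 ≤ 6 * KT * (δ + T⁻¹) ^ (-(7/4) : ℝ) := by positivity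
        have a3 : 0 ≤ P1 * T := by positivity
        have a4 : 0 ≤ Real.pi * T := by positivity
        rcases le_total δ (Real.pi / 8) with h | h
        · refine (Gd_bound hδ0 h hT).trans ?_
          linarith
        · refine (Gd_bound' h hδ.2 hT0.le).trans ?_
          linarith
      have e3 : δ ^ (-(1/4) : ℝ) * δ ^ (-(1/2) : ℝ) = δ ^ (-(3/4) : ℝ) := by
        rw [← Real.rpow_add hδ0]; norm_num
      calc δ ^ (-(1/4) : ℝ) * |∫ t in Ioi (0:ℝ), ua (Real.pi / 4 - δ) t * max (T - t) 0|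
          ≤ δ ^ (-(1/4) : ℝ) * (4 * (P1 + 2 * Real.pi) * T + KT * (3 * T) * δ ^ (-(1/2) : ℝ) + 6 * KT * (δ + T⁻¹) ^ (-(7/4) : ℝ)) :=
            mul_le_mul_of_nonneg_left hb hr.le
        _ = _ := by
          simp only [Pi.add_apply]
          rw [← e3]; ring)
  refine hle.trans ?_
  have i3' : Integrable (fun δ : ℝ => (6 * KT) * (δ ^ (-(1/4) : ℝ) * (δ + T⁻¹) ^ (-(7/4) : ℝ))) (volume.restrict (Ioc 0 (Real.pi / 4))) := i3
  have hsum : ∫ δ in Ioc (0:ℝ) (Real.pi / 4), (((fun δ : ℝ => (4 * (P1 + 2 * Real.pi) * T) * δ ^ (-(1/4) : ℝ) +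
      (KT * (3 * T)) * δ ^ (-(3/4) : ℝ)) + fun δ : ℝ => (6 * KT) * (δ ^ (-(1/4) : ℝ) * (δ + T⁻¹) ^ (-(7/4) : ℝ))) δ) =
      (4 * (P1 + 2 * Real.pi) * T) * (4/3 * (Real.pi / 4) ^ (3/4 : ℝ)) + (KT * (3 * T)) * (4 * (Real.pi / 4) ^ (1/4 : ℝ)) +
        (6 * KT) * ∫ δ in Ioc (0:ℝ) (Real.pi / 4), (δ ^ (-(1/4) : ℝ) * (δ + T⁻¹) ^ (-(7/4) : ℝ)) := by
    simp only [Pi.add_apply]
    rw [integral_add i12 i3', integral_add i1 i2, integral_const_mul, integral_const_mul, integral_const_mul,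
      rpow_integral hpi4, (rpow34_integ hpi4).2]
  rw [hsum]
  have h34 : (Real.pi / 4) ^ (3/4 : ℝ) ≤ 1 := Real.rpow_le_one hpi4.le hpi41 (by norm_num)
  have h14 : (Real.pi / 4) ^ (1/4 : ℝ) ≤ 1 := Real.rpow_le_one hpi4.le hpi41 (by norm_num)
  have hB : ∫ δ in Ioc (0:ℝ) (Real.pi / 4), (δ ^ (-(1/4) : ℝ) * (δ + T⁻¹) ^ (-(7/4) : ℝ)) ≤ 4/3 * T := by
    have h1 := setIntegral_mono_set (μ := volume) (beta_int hσ).1 (by
      refine (ae_restrict_iff' measurableSet_Ioi).mpr ?_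
      filter_upwards with x hx
      have hx0 : (0:ℝ) < x := hx
      simp only [Pi.zero_apply]
      positivity) (HasSubset.Subset.eventuallyLE (Ioc_subset_Ioi_self : Ioc (0:ℝ) (Real.pi / 4) ⊆ Ioi 0))
    refine h1.trans (le_of_eq ?_)
    rw [(beta_int hσ).2]
    field_simp
  have b1 : (4 * (P1 + 2 * Real.pi) * T) * (4/3 * (Real.pi / 4) ^ (3/4 : ℝ)) ≤ (4 * (P1 + 2 * Real.pi) * T) * (4/3 * 1) := by gcongr
  have b2 : (KT * (3 * T)) * (4 * (Real.pi / 4) ^ (1/4 : ℝ)) ≤ (KT * (3 * T)) * (4 * 1) := by gcongr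
  have b3 : (6 * KT) * ∫ δ in Ioc (0:ℝ) (Real.pi / 4), (δ ^ (-(1/4) : ℝ) * (δ + T⁻¹) ^ (-(7/4) : ℝ)) ≤ (6 * KT) * (4/3 * T) := by gcongr
  unfold K2
  linarith

/-- ramp representation of the second primitive -/
lemma Gz_eq {T : ℝ} (hT : 0 ≤ T) : Gz T = ∫ t in Ioi (0:ℝ), Zr t * max (T - t) 0 := by
  have h1 : ∫ t in (0:ℝ)..T, (Zr t * (T - t) - Fz t) = 0 := by
    have hd : ∀ t ∈ uIcc 0 T, HasDerivAt (fun t => Fz t * (T - t)) (Zr t * (T - t) - Fz t) t := by
      intro t _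
      have h2 : HasDerivAt (fun t : ℝ => T - t) (-1) t := by
        simpa using (hasDerivAt_id t).const_sub T
      have := (Fz_deriv t).mul h2
      refine this.congr_deriv ?_
      ring
    rw [intervalIntegral.integral_eq_sub_of_hasDerivAt hd]
    · have : Fz 0 = 0 := by simp [Fz]
      rw [this]; ring
    · apply Continuous.intervalIntegrable
      exact (Zr_cont.mul (by fun_prop)).sub Fz_cont
  rw [intervalIntegral.integral_sub] at h1
  · have h2 : Gz T = ∫ t in (0:ℝ)..T, Zr t * (T - t) := by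
      unfold Gz; linarith
    rw [h2, intervalIntegral.integral_of_le hT]
    have h3 : ∫ t in Ioi (0:ℝ), Zr t * max (T - t) 0 = ∫ t in Ioc 0 T, Zr t * max (T - t) 0 := by
      apply setIntegral_eq_of_subset_of_forall_sdiff_eq_zero measurableSet_Ioi Ioc_subset_Ioi_self
      intro t ht
      have h4 : T < t := by
        by_contra hc
        exact ht.2 ⟨ht.1, not_lt.mp hc⟩
      rw [max_eq_right (by linarith), mul_zero]
    rw [h3]
    apply setIntegral_congr_fun measurableSet_Ioc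
    intro t ht
    simp only
    rw [max_eq_left (by linarith [ht.2])]
  · apply Continuous.intervalIntegrable
    exact Zr_cont.mul (by fun_prop)
  · exact Fz_cont.intervalIntegrable _ _

lemma ramp_cont (T : ℝ) : Continuous (fun t : ℝ => max (T - t) 0) := (by fun_prop : Continuous fun t : ℝ => T - t).max continuous_const

lemma ramp_integ {f : ℝ → ℝ} (hf : IntegrableOn f (Ioi 0)) {T : ℝ} (hT : 0 ≤ T) :
    IntegrableOn (fun t => f t * max (T - t) 0) (Ioi 0) ∧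
    |∫ t in Ioi (0:ℝ), f t * max (T - t) 0| ≤ (∫ t in Ioi (0:ℝ), |f t|) * T := by
  have hb : IntegrableOn (fun t => |f t| * T) (Ioi 0) := hf.abs.mul_const T
  have hle : ∀ᵐ t ∂(volume.restrict (Ioi (0:ℝ))), ‖f t * max (T - t) 0‖ ≤ |f t| * T := by
    refine (ae_restrict_iff' measurableSet_Ioi).mpr ?_
    filter_upwards with t ht
    rw [norm_mul, Real.norm_eq_abs, Real.norm_eq_abs]
    exact mul_le_mul_of_nonneg_left (max_bound ht hT) (abs_nonneg _)
  constructor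
  · exact Integrable.mono' hb (hf.aestronglyMeasurable.mul (ramp_cont T).aestronglyMeasurable) hle
  · rw [← Real.norm_eq_abs]
    refine (norm_integral_le_of_norm_le hb hle).trans (le_of_eq ?_)
    rw [integral_mul_const]

/-- constant -/
noncomputable def K3 : ℝ := (Real.pi ^ (1/4 : ℝ) * (K2 + b0 * ∫ t in Ioi (0:ℝ), |Lr t|) + ∫ t in Ioi (0:ℝ), |Zr t * Rr t|) / k0

theorem Gz_linear {T : ℝ} (hT : 16 / Real.pi ≤ T) : |Gz T| ≤ K3 * T := by
  have hpi := Real.pi_pos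
  have hT0 : 0 < T := lt_of_lt_of_le (by positivity) hT
  have hk := k0_pos
  have hp : 0 < Real.pi ^ (1/4 : ℝ) := by positivity
  have hb := b0_pos
  have r2 := ramp_integ (Lr_integ.integrableOn (s := Ioi (0:ℝ))) hT0.le
  have r3 := ramp_integ ZR_integ.1 hT0.le
  have iZ : IntegrableOn (fun t => Zr t * max (T - t) 0) (Ioi 0) := by
    have hset : IntegrableOn (fun t => Zr t * max (T - t) 0) (Ioc 0 T) :=
      ((Zr_cont.mul (ramp_cont T)).integrableOn_Icc (a := 0) (b := T)).mono_set Ioc_subset_Icc_self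
    have hz : IntegrableOn (fun t => Zr t * max (T - t) 0) (Ioi T) := by
      refine (integrableOn_zero (s := Ioi T)).congr_fun ?_ measurableSet_Ioi
      intro t ht
      have : T < t := ht
      simp only
      rw [max_eq_right (by linarith), mul_zero]
    have := hset.union hz
    rwa [Ioc_union_Ioi_eq_Ioi hT0.le] at this
  have iP : IntegrableOn (fun t => Lr t * Phi t * max (T - t) 0) (Ioi 0) := by
    have h1 : IntegrableOn (fun t => (Real.pi ^ (1/4 : ℝ))⁻¹ * (k0 * (Zr t * max (T - t) 0) - Zr t * Rr t * max (T - t) 0) -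
      b0 * (Lr t * max (T - t) 0)) (Ioi 0) :=
      (((iZ.const_mul k0).sub r3.1).const_mul _).sub (r2.1.const_mul _)
    refine h1.congr_fun ?_ measurableSet_Ioi
    intro t _
    simp only
    have := key_point t
    field_simp
    linear_combination (max (T - t) 0) * this
  have hG : k0 * Gz T = Real.pi ^ (1/4 : ℝ) * ((∫ t in Ioi (0:ℝ), Lr t * Phi t * max (T - t) 0) +
      b0 * ∫ t in Ioi (0:ℝ), Lr t * max (T - t) 0) + ∫ t in Ioi (0:ℝ), Zr t * Rr t * max (T - t) 0 := by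
    have iQ : IntegrableOn (fun t => Real.pi ^ (1/4 : ℝ) * (Lr t * Phi t * max (T - t) 0 + b0 * (Lr t * max (T - t) 0))) (Ioi 0) :=
      (iP.add (r2.1.const_mul b0)).const_mul _
    rw [Gz_eq hT0.le, ← integral_const_mul, ← integral_const_mul b0, ← integral_add iP (r2.1.const_mul _), ← integral_const_mul,
      ← integral_add iQ r3.1]
    apply setIntegral_congr_fun measurableSet_Ioi
    intro t _
    simp only
    have := key_point t
    linear_combination (max (T - t) 0) * this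
  have hfin : k0 * |Gz T| ≤ (Real.pi ^ (1/4 : ℝ) * (K2 + b0 * ∫ t in Ioi (0:ℝ), |Lr t|) + ∫ t in Ioi (0:ℝ), |Zr t * Rr t|) * T := by
    have e0 : k0 * |Gz T| = |k0 * Gz T| := by rw [abs_mul, abs_of_pos hk]
    rw [e0, hG]
    have a1 := G1_bound hT
    have a2 : |b0 * ∫ t in Ioi (0:ℝ), Lr t * max (T - t) 0| ≤ b0 * ((∫ t in Ioi (0:ℝ), |Lr t|) * T) := by
      rw [abs_mul, abs_of_pos hb]
      exact mul_le_mul_of_nonneg_left r2.2 hb.le
    refine (abs_add_le _ _).trans ?_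
    rw [abs_mul, abs_of_pos hp]
    have a3 := (abs_add_le (∫ t in Ioi (0:ℝ), Lr t * Phi t * max (T - t) 0) (b0 * ∫ t in Ioi (0:ℝ), Lr t * max (T - t) 0)).trans
      (add_le_add a1 a2)
    have a4 := mul_le_mul_of_nonneg_left a3 hp.le
    have a5 := r3.2
    linarith
  unfold K3
  rw [div_mul_eq_mul_div, le_div_iff₀ hk]
  linarith

end Pool.Agent.Helper625.N6
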